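import Pool.Agent.Lib_helper45.Carpet.Frame

/-! # Block BF : back and forth -/

set_option autoImplicit false

namespace Pool.Agent.Carpet

open scoped Topology

/-- bump perturbations -/
theorem BF_bump {U : Set P2} (hU : IsOpen U) {T : Set P2} (hT : T.Finite) {z : P2} (hz : z ∈ U)
    (hzT : z ∉ T) {ε : ℝ} (hε : 0 < ε) :
    ∃ r > 0, ∃ δ > 0, ∀ v : P2, ‖v‖ ≤ δ → ∃ w : P2 → P2, Differentiable ℝ w ∧
      (∀ x y, ‖w x - w y‖ ≤ ε * ‖x - y‖) ∧ (∀ x, ‖w x‖ ≤ ε) ∧ (∀ x, x ∉ U → w x = 0) ∧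
      (∀ x ∈ T, w x = 0) ∧ ∀ x, ‖x - z‖ ≤ r → w x = v := by
  have hV : IsOpen (U \ T) := hU.sdiff hT.isClosed
  obtain ⟨R, hR, hball⟩ := Metric.isOpen_iff.mp hV z ⟨hz, hzT⟩
  let φ : ContDiffBump z := ⟨R / 2, R, by linarith, by linarith⟩
  have hφc : ContDiff ℝ 1 φ := φ.contDiff
  obtain ⟨C, hC⟩ := ContDiff.lipschitzWith_of_hasCompactSupport φ.hasCompactSupport hφc
    (by norm_num)
  have hφ0 : ∀ x, x ∉ U \ T → φ x = 0 := by
    intro x hx
    apply φ.zero_of_le_dist
    by_contra h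
    push Not at h
    exact hx (hball h)
  refine ⟨R / 2, by linarith, min ε (ε / ((C : ℝ) + 1)), lt_min hε (by positivity), ?_⟩
  intro v hv
  have hv1 : ‖v‖ ≤ ε := hv.trans (min_le_left _ _)
  have hv2 : ‖v‖ ≤ ε / ((C : ℝ) + 1) := hv.trans (min_le_right _ _)
  have hC0 : (0 : ℝ) < (C : ℝ) + 1 := by positivity
  refine ⟨fun x => φ x • v, ?_, ?_, ?_, ?_, ?_, ?_⟩
  · exact (hφc.differentiable (by norm_num)).smul_const v
  · intro x y
    rw [← sub_smul, norm_smul]
    have h1 : ‖φ x - φ y‖ ≤ C * ‖x - y‖ := by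
      have := hC.dist_le_mul x y
      rwa [dist_eq_norm, dist_eq_norm] at this
    calc ‖φ x - φ y‖ * ‖v‖ ≤ (C * ‖x - y‖) * (ε / ((C : ℝ) + 1)) :=
          mul_le_mul h1 hv2 (norm_nonneg _) (by positivity)
      _ = (C / ((C : ℝ) + 1)) * (ε * ‖x - y‖) := by ring
      _ ≤ 1 * (ε * ‖x - y‖) := by
          apply mul_le_mul_of_nonneg_right _ (by positivity)
          rw [div_le_one hC0]
          linarith
      _ = ε * ‖x - y‖ := one_mul _
  · intro x
    rw [norm_smul]
    calc ‖φ x‖ * ‖v‖ ≤ 1 * ε := by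
          apply mul_le_mul _ hv1 (norm_nonneg _) zero_le_one
          rw [Real.norm_of_nonneg φ.nonneg]
          exact φ.le_one
      _ = ε := one_mul _
  · intro x hx
    simp only
    rw [hφ0 x (fun h => hx h.1), zero_smul]
  · intro x hx
    simp only
    rw [hφ0 x (fun h => h.2 hx), zero_smul]
  · intro x hx
    simp only
    rw [φ.one_of_mem_closedBall, one_smul]
    rw [Metric.mem_closedBall, dist_eq_norm]
    exact hx

theorem BF_inj {u : P2 → P2} {K : ℝ} (hK : K < 1)
    (hu : ∀ x y, ‖u x - u y‖ ≤ K * ‖x - y‖) : Function.Injective (fun x => x + u x) := by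
  intro x y hxy
  simp only at hxy
  have h1 : x - y = u y - u x := by
    rw [sub_eq_sub_iff_add_eq_add, hxy, add_comm]
  have h2 := hu y x
  rw [← h1, norm_sub_rev y x] at h2
  have h3 : 0 ≤ ‖x - y‖ := norm_nonneg _
  have h4 : ‖x - y‖ = 0 := by nlinarith
  exact sub_eq_zero.mp (norm_eq_zero.mp h4)

theorem BF_surj {u : P2 → P2} {K : ℝ} (hK0 : 0 ≤ K) (hK : K < 1)
    (hu : ∀ x y, ‖u x - u y‖ ≤ K * ‖x - y‖) : Function.Surjective (fun x => x + u x) := by
  intro y
  have hc : ContractingWith (⟨K, hK0⟩ : NNReal) (fun x => y - u x) := by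
    constructor
    · exact_mod_cast hK
    · apply LipschitzWith.of_dist_le_mul
      intro a b
      rw [dist_eq_norm, dist_eq_norm]
      have : y - u a - (y - u b) = u b - u a := by abel
      rw [this, norm_sub_rev a b]
      exact hu b a
  refine ⟨ContractingWith.fixedPoint _ hc, ?_⟩
  have h := ContractingWith.fixedPoint_isFixedPt hc
  unfold Function.IsFixedPt at h
  simp only at h ⊢
  nth_rewrite 1 [← h]
  abel

/-- good states: perturbation, frozen indices -/
def BF_Good (D : Set P2) (p p' : ℕ → P2) (s : (P2 → P2) × Finset ℕ) : Prop :=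
  (∃ K : ℝ, 0 ≤ K ∧ K < 1 ∧ ∀ x y, ‖s.1 x - s.1 y‖ ≤ K * ‖x - y‖) ∧
  (∀ x, x ∉ interior D → s.1 x = 0) ∧
  ∀ i ∈ s.2, p i + s.1 (p i) ∈ Set.range p'

/-- the properties of a step -/
def BF_Ext (D : Set P2) (p p' : ℕ → P2) (ε : ℝ) (t : ℕ ⊕ ℕ) (s s' : (P2 → P2) × Finset ℕ) :
    Prop :=
  s.2 ⊆ s'.2 ∧ Differentiable ℝ (fun x => s'.1 x - s.1 x) ∧
  (∀ x y, ‖(s'.1 x - s.1 x) - (s'.1 y - s.1 y)‖ ≤ ε * ‖x - y‖) ∧
  (∀ x, ‖s'.1 x - s.1 x‖ ≤ ε) ∧ (∀ i ∈ s.2, s'.1 (p i) - s.1 (p i) = 0) ∧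
  (∀ i, t = Sum.inl i → i ∈ s'.2) ∧
  (∀ j, t = Sum.inr j → ∃ i ∈ s'.2, p i + s'.1 (p i) = p' j)

theorem BF_step {D : Set P2} {p p' : ℕ → P2}
    (hp : Function.Injective p)
    (hpD : ∀ i, p i ∈ interior D) (hpD' : ∀ i, p' i ∈ interior D)
    (hd : D ⊆ closure (Set.range p)) (hd' : D ⊆ closure (Set.range p'))
    (s : (P2 → P2) × Finset ℕ) (hs : BF_Good D p p' s) {ε : ℝ} (hε : 0 < ε) (t : ℕ ⊕ ℕ) :
    ∃ s', BF_Good D p p' s' ∧ BF_Ext D p p' ε t s s' := by
  obtain ⟨⟨K, hK0, hK1, hK⟩, hout, hran⟩ := hs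
  have hinj := BF_inj hK1 hK
  have hsur := BF_surj hK0 hK1 hK
  set T : Set P2 := p '' (s.2 : Set ℕ) with hT
  have hTfin : T.Finite := s.2.finite_toSet.image p
  set ε' := min ε ((1 - K) / 2) with hε'
  have hε'0 : 0 < ε' := lt_min hε (by linarith)
  have hε'1 : ε' ≤ ε := min_le_left _ _
  have hε'2 : ε' ≤ (1 - K) / 2 := min_le_right _ _
  have hcont : Continuous s.1 := by
    have : LipschitzWith (⟨K, hK0⟩ : NNReal) s.1 := by
      apply LipschitzWith.of_dist_le_mul
      intro a b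
      rw [dist_eq_norm, dist_eq_norm]
      exact hK a b
    exact this.continuous
  -- `f` maps the interior to itself
  have hfint : ∀ x, x ∈ interior D → x + s.1 x ∈ interior D := by
    intro x hx
    by_contra h
    have h1 := hout _ h
    have h2 : (fun x => x + s.1 x) (x + s.1 x) = (fun x => x + s.1 x) x := by
      simp only
      rw [h1, add_zero]
    rw [hinj h2] at h
    exact h hx
  -- the update
  have hupd : ∀ z ∈ interior D, z ∉ T → ∃ r > 0, ∃ δ > 0, ∀ i j, ‖p i - z‖ ≤ r →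
      ‖p' j - (p i + s.1 (p i))‖ ≤ δ → (∀ i', t = Sum.inl i' → i' = i) →
      (∀ j', t = Sum.inr j' → j' = j) →
      ∃ s', BF_Good D p p' s' ∧ BF_Ext D p p' ε t s s' := by
    intro z hz hzT
    obtain ⟨r, hr, δ, hδ, hw⟩ := BF_bump isOpen_interior hTfin hz hzT hε'0
    refine ⟨r, hr, δ, hδ, ?_⟩
    intro i j hi hj hti htj
    obtain ⟨w, hw1, hw2, hw3, hw4, hw5, hw6⟩ := hw _ hj
    have hwi : p i + (s.1 (p i) + w (p i)) = p' j := by
      rw [hw6 (p i) hi]
      abel
    refine ⟨(fun x => s.1 x + w x, insert i s.2), ⟨⟨K + ε', by linarith, by linarith, ?_⟩, ?_, ?_⟩,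
      ?_, ?_, ?_, ?_, ?_, ?_, ?_⟩
    · intro x y
      simp only
      have : s.1 x + w x - (s.1 y + w y) = (s.1 x - s.1 y) + (w x - w y) := by abel
      rw [this]
      calc ‖(s.1 x - s.1 y) + (w x - w y)‖ ≤ ‖s.1 x - s.1 y‖ + ‖w x - w y‖ := norm_add_le _ _
        _ ≤ K * ‖x - y‖ + ε' * ‖x - y‖ := add_le_add (hK x y) (hw2 x y)
        _ = (K + ε') * ‖x - y‖ := by ring
    · intro x hx
      simp only
      rw [hout x hx, hw4 x hx, add_zero]
    · intro k hk
      simp only at hk ⊢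
      rw [Finset.mem_insert] at hk
      rcases hk with rfl | hk
      · exact ⟨j, hwi.symm⟩
      · rw [hw5 (p k) ⟨k, hk, rfl⟩, add_zero]
        exact hran k hk
    · exact Finset.subset_insert _ _
    · simpa using hw1
    · intro x y
      simp only [add_sub_cancel_left]
      exact (hw2 x y).trans (mul_le_mul_of_nonneg_right hε'1 (norm_nonneg _))
    · intro x
      simp only [add_sub_cancel_left]
      exact (hw3 x).trans hε'1
    · intro k hk
      simp only [add_sub_cancel_left]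
      exact hw5 (p k) ⟨k, hk, rfl⟩
    · intro i' hi'
      rw [hti i' hi']
      exact Finset.mem_insert_self _ _
    · intro j' hj'
      refine ⟨i, Finset.mem_insert_self _ _, ?_⟩
      rw [htj j' hj']
      exact hwi
  have htriv : BF_Good D p p' s := ⟨⟨K, hK0, hK1, hK⟩, hout, hran⟩
  have hself : (∀ i, t = Sum.inl i → i ∈ s.2) →
      (∀ j, t = Sum.inr j → ∃ i ∈ s.2, p i + s.1 (p i) = p' j) → BF_Ext D p p' ε t s s := by
    intro h1 h2
    refine ⟨subset_rfl, ?_, ?_, ?_, ?_, h1, h2⟩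
    · simp
    · intro x y
      simp only [sub_self, norm_zero]
      positivity
    · intro x
      simp only [sub_self, norm_zero]
      exact hε.le
    · intro i _
      simp
  rcases t with i | j
  · by_cases hi : i ∈ s.2
    · refine ⟨s, htriv, hself ?_ ?_⟩
      · intro i' h
        have := Sum.inl.inj h
        rwa [← this]
      · intro j' h
        exact absurd h (by simp)
    · have hz : p i ∉ T := by
        rintro ⟨k, hk, hki⟩
        rw [hp hki] at hk
        exact hi hk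
      obtain ⟨r, hr, δ, hδ, hfin⟩ := hupd (p i) (hpD i) hz
      have hy := hfint _ (hpD i)
      have hmem : p i + s.1 (p i) ∈ closure (Set.range p') := hd' (interior_subset hy)
      obtain ⟨b, ⟨j, rfl⟩, hb⟩ := Metric.mem_closure_iff.mp hmem δ hδ
      refine hfin i j (by simpa using hr.le) ?_ ?_ ?_
      · rw [dist_comm, dist_eq_norm] at hb
        exact hb.le
      · intro i' h
        exact (Sum.inl.inj h).symm
      · intro j' h
        exact absurd h (by simp)
  · obtain ⟨z, hz⟩ := hsur (p' j)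
    simp only at hz
    by_cases hzT : z ∈ T
    · obtain ⟨k, hk, hki⟩ := hzT
      refine ⟨s, htriv, hself ?_ ?_⟩
      · intro i' h
        exact absurd h (by simp)
      · intro j' h
        refine ⟨k, hk, ?_⟩
        rw [hki, hz, Sum.inr.inj h]
    · have hzD : z ∈ interior D := by
        by_contra h
        rw [hout z h, add_zero] at hz
        rw [hz] at h
        exact h (hpD' j)
      obtain ⟨r, hr, δ, hδ, hfin⟩ := hupd z hzD hzT
      have hopen : IsOpen {x : P2 | ‖x - z‖ < r ∧ ‖p' j - (x + s.1 x)‖ < δ} := by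
        have c1 : Continuous (fun x : P2 => ‖x - z‖) := by fun_prop
        have c2 : Continuous (fun x : P2 => ‖p' j - (x + s.1 x)‖) := by fun_prop
        exact (isOpen_lt c1 continuous_const).inter (isOpen_lt c2 continuous_const)
      have hmem : z ∈ {x : P2 | ‖x - z‖ < r ∧ ‖p' j - (x + s.1 x)‖ < δ} := by
        refine ⟨by simpa using hr, ?_⟩
        rw [hz, sub_self, norm_zero]
        exact hδ
      have hcl : z ∈ closure (Set.range p) := hd (interior_subset hzD)
      obtain ⟨b, hb1, ⟨i, rfl⟩⟩ := mem_closure_iff.mp hcl _ hopen hmem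
      refine hfin i j hb1.1.le hb1.2.le ?_ ?_
      · intro i' h
        exact absurd h (by simp)
      · intro j' h
        exact (Sum.inr.inj h).symm

theorem back_forth {D : Set P2} (hD : IsCompact D) (hc : Convex ℝ D) {p p' : ℕ → P2}
    (hp : Function.Injective p) (hp' : Function.Injective p')
    (hpD : ∀ i, p i ∈ interior D) (hpD' : ∀ i, p' i ∈ interior D)
    (hd : D ⊆ closure (Set.range p)) (hd' : D ⊆ closure (Set.range p')) :
    ∃ (F : P2 → P2) (σ : ℕ ≃ ℕ), ContinuousOn F D ∧ Set.BijOn F D D ∧ (∀ i, F (p i) = p' (σ i)) ∧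
      ∀ i, ∃ A : P2 ≃L[ℝ] P2, HasFDerivAt F (A : P2 →L[ℝ] P2) (p i) := by
  obtain ⟨task, htask⟩ := exists_surjective_nat (ℕ ⊕ ℕ)
  set ε : ℕ → ℝ := fun n => (1 / 4 : ℝ) * (1 / 2) ^ n with hεdef
  have hε : ∀ n, 0 < ε n := fun n => by positivity
  have hεsum : HasSum ε (1 / 2) := by
    have := (hasSum_geometric_two).mul_left (1 / 4 : ℝ)
    norm_num at this
    simpa [hεdef] using this
  have hstep := fun (s : {s // BF_Good D p p' s}) (n : ℕ) =>
    BF_step hp hpD hpD' hd hd' s.1 s.2 (hε n) (task n)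
  choose nxt hnxt1 hnxt2 using hstep
  have h0 : BF_Good D p p' (fun _ => 0, ∅) := by
    refine ⟨⟨0, le_rfl, one_pos, ?_⟩, ?_, ?_⟩
    · intro x y; simp
    · intro x _; rfl
    · intro i hi; simp at hi
  let S : ℕ → {s // BF_Good D p p' s} := fun n =>
    Nat.rec (⟨(fun _ => 0, ∅), h0⟩) (fun n s => ⟨nxt s n, hnxt1 s n⟩) n
  have hS : ∀ n, BF_Ext D p p' (ε n) (task n) (S n).1 (S (n + 1)).1 := fun n => hnxt2 (S n) n
  set w : ℕ → P2 → P2 := fun n x => (S (n + 1)).1.1 x - (S n).1.1 x with hw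
  have hwsum : ∀ n x, ∑ k ∈ Finset.range n, w k x = (S n).1.1 x := by
    intro n x
    rw [Finset.sum_range_sub (fun n => (S n).1.1 x)]
    have : (S 0).1.1 x = 0 := rfl
    rw [this, sub_zero]
  have hwdiff : ∀ n, Differentiable ℝ (w n) := fun n => (hS n).2.1
  have hwlip : ∀ n x y, ‖w n x - w n y‖ ≤ ε n * ‖x - y‖ := fun n => (hS n).2.2.1
  have hwbd : ∀ n x, ‖w n x‖ ≤ ε n := fun n => (hS n).2.2.2.1
  have hmono : ∀ m n, m ≤ n → (S m).1.2 ⊆ (S n).1.2 := by
    intro m n hmn
    induction n, hmn using Nat.le_induction with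
    | base => exact subset_rfl
    | succ n _ ih => exact ih.trans (hS n).1
  have hfroz : ∀ n i, i ∈ (S n).1.2 → ∀ k, n ≤ k → w k (p i) = 0 := by
    intro n i hi k hk
    exact (hS k).2.2.2.2.1 i (hmono n k hk hi)
  set u : P2 → P2 := fun x => ∑' n, w n x with hu
  have hsumm : ∀ x, Summable (fun n => w n x) := fun x =>
    Summable.of_norm_bounded hεsum.summable (fun n => hwbd n x)
  have hulip : ∀ x y, ‖u x - u y‖ ≤ 1 / 2 * ‖x - y‖ := by
    intro x y
    have h1 : u x - u y = ∑' n, (w n x - w n y) := by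
      rw [hu]
      simp only
      rw [(hsumm x).tsum_sub (hsumm y)]
    rw [h1]
    exact tsum_of_norm_bounded (hεsum.mul_right ‖x - y‖) (fun n => hwlip n x y)
  have hufroz : ∀ n i, i ∈ (S n).1.2 → u (p i) = (S n).1.1 (p i) := by
    intro n i hi
    rw [← hwsum n (p i)]
    apply tsum_eq_sum
    intro k hk
    rw [Finset.mem_range, not_lt] at hk
    exact hfroz n i hi k hk
  have huout : ∀ x, x ∉ interior D → u x = 0 := by
    intro x hx
    have : ∀ n, w n x = 0 := by
      intro n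
      rw [hw]
      simp only
      rw [(S (n + 1)).2.2.1 x hx, (S n).2.2.1 x hx, sub_zero]
    rw [hu]
    simp only [this, tsum_zero]
  have hinj := BF_inj (by norm_num : (1 / 2 : ℝ) < 1) hulip
  have hsur := BF_surj (by norm_num : (0 : ℝ) ≤ 1 / 2) (by norm_num) hulip
  have hran : ∀ i, p i + u (p i) ∈ Set.range p' := by
    intro i
    obtain ⟨n, hn⟩ := htask (Sum.inl i)
    have h1 : i ∈ (S (n + 1)).1.2 := (hS n).2.2.2.2.2.1 i hn
    rw [hufroz (n + 1) i h1]
    exact (S (n + 1)).2.2.2 i h1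
  have hran' : ∀ j, ∃ i, p i + u (p i) = p' j := by
    intro j
    obtain ⟨n, hn⟩ := htask (Sum.inr j)
    obtain ⟨i, hi, hij⟩ := (hS n).2.2.2.2.2.2 j hn
    refine ⟨i, ?_⟩
    rw [hufroz (n + 1) i hi]
    exact hij
  choose σ hσ using hran
  have hσbij : Function.Bijective σ := by
    constructor
    · intro a b hab
      have h1 : (fun x => x + u x) (p a) = (fun x => x + u x) (p b) := by
        simp only
        rw [← hσ a, ← hσ b, hab]
      exact hp (hinj h1)
    · intro j
      obtain ⟨i, hi⟩ := hran' j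
      refine ⟨i, hp' ?_⟩
      rw [hσ i, hi]
  have hder : ∀ x, HasFDerivAt u (∑' n, fderiv ℝ (w n) x) x := by
    intro x
    refine hasFDerivAt_tsum (u := ε) hεsum.summable (fun n y => (hwdiff n y).hasFDerivAt) ?_
      (hsumm x) x
    intro n y
    have hl : LipschitzWith (⟨ε n, (hε n).le⟩ : NNReal) (w n) := by
      apply LipschitzWith.of_dist_le_mul
      intro a b
      rw [dist_eq_norm, dist_eq_norm]
      exact hwlip n a b
    exact norm_fderiv_le_of_lipschitz ℝ hl
  have hdernorm : ∀ x, ‖∑' n, fderiv ℝ (w n) x‖ ≤ 1 / 2 := by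
    intro x
    have hl : LipschitzWith (⟨1 / 2, by norm_num⟩ : NNReal) u := by
      apply LipschitzWith.of_dist_le_mul
      intro a b
      rw [dist_eq_norm, dist_eq_norm]
      exact hulip a b
    have := norm_fderiv_le_of_lipschitz ℝ (x₀ := x) hl
    rwa [(hder x).fderiv] at this
  refine ⟨fun x => x + u x, Equiv.ofBijective σ hσbij, ?_, ⟨?_, hinj.injOn, ?_⟩, ?_, ?_⟩
  · apply Continuous.continuousOn
    have : Continuous u := by
      rw [continuous_iff_continuousAt]
      intro x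
      exact (hder x).continuousAt
    fun_prop
  · intro x hx
    by_contra h
    have h1 : x + u x ∉ interior D := fun h' => h (interior_subset h')
    have h2 : (fun x => x + u x) (x + u x) = (fun x => x + u x) x := by
      simp only
      rw [huout _ h1, add_zero]
    simp only at h
    rw [hinj h2] at h
    exact h hx
  · intro y hy
    obtain ⟨x, hx⟩ := hsur y
    refine ⟨x, ?_, hx⟩
    by_contra h
    have h1 : x ∉ interior D := fun h' => h (interior_subset h')
    simp only at hx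
    rw [huout _ h1, add_zero] at hx
    rw [hx] at h
    exact h hy
  · intro i
    simp only [Equiv.ofBijective_apply]
    exact (hσ i).symm
  · intro i
    set L := ∑' n, fderiv ℝ (w n) (p i) with hL
    have hLn : ‖-L‖ < 1 := by
      rw [norm_neg]
      linarith [hdernorm (p i)]
    let U : (P2 →L[ℝ] P2)ˣ := Units.oneSub (-L) hLn
    refine ⟨ContinuousLinearEquiv.unitsEquiv ℝ P2 U, ?_⟩
    have hU : ((ContinuousLinearEquiv.unitsEquiv ℝ P2 U : P2 ≃L[ℝ] P2) : P2 →L[ℝ] P2)
        = ContinuousLinearMap.id ℝ P2 + L := by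
      ext x
      simp [U]
    rw [hU]
    exact (hasFDerivAt_id (p i)).add (hder (p i))

end Pool.Agent.Carpet
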