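import Pool.Agent.Lib_helper45.Carpet.Frame

/-! # Block BFUN : functoriality of the blow-up -/

set_option autoImplicit false

namespace Pool.Agent.Carpet

open scoped Topology Classical

/-- the direction of a vector -/
noncomputable def BFUN_dir (v : P2) : P2 := ‖v‖⁻¹ • v

theorem BFUN_dir_norm {v : P2} (hv : v ≠ 0) : ‖BFUN_dir v‖ = 1 := by
  unfold BFUN_dir
  rw [norm_smul, norm_inv, norm_norm, inv_mul_cancel₀ (norm_ne_zero_iff.mpr hv)]

theorem BFUN_dir_smul {v : P2} {c : ℝ} (hc : 0 < c) : BFUN_dir (c • v) = BFUN_dir v := by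
  unfold BFUN_dir
  rw [norm_smul, Real.norm_of_nonneg hc.le, smul_smul, mul_inv, mul_comm c⁻¹, mul_assoc,
    inv_mul_cancel₀ hc.ne', mul_one]

theorem BFUN_dir_unit {v : P2} (hv : ‖v‖ = 1) : BFUN_dir v = v := by
  unfold BFUN_dir
  rw [hv, inv_one, one_smul]

theorem BFUN_eq {v : P2} : ‖v‖ • BFUN_dir v = v := by
  unfold BFUN_dir
  by_cases hv : v = 0
  · simp [hv]
  · rw [smul_smul, mul_inv_cancel₀ (norm_ne_zero_iff.mpr hv), one_smul]

theorem BFUN_dir_cont {v : P2} (hv : v ≠ 0) : ContinuousAt BFUN_dir v := by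
  unfold BFUN_dir
  exact ((continuous_norm.continuousAt).inv₀ (norm_ne_zero_iff.mpr hv)).smul continuousAt_id

theorem BFUN_dir_inj {v w : P2} (hv : ‖v‖ = 1) (hw : ‖w‖ = 1) (A : P2 ≃L[ℝ] P2)
    (h : BFUN_dir (A v) = BFUN_dir (A w)) : v = w := by
  have hv0 : v ≠ 0 := by
    rintro rfl
    simp at hv
  have hw0 : w ≠ 0 := by
    rintro rfl
    simp at hw
  have hAv : A v ≠ 0 := by simpa using hv0
  have hAw : A w ≠ 0 := by simpa using hw0
  have h1 : A v = (‖A v‖ * ‖A w‖⁻¹) • A w := by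
    calc A v = ‖A v‖ • BFUN_dir (A v) := BFUN_eq.symm
      _ = ‖A v‖ • BFUN_dir (A w) := by rw [h]
      _ = (‖A v‖ * ‖A w‖⁻¹) • A w := by
          unfold BFUN_dir
          rw [smul_smul]
  rw [← map_smul] at h1
  have h2 := A.injective h1
  have h3 : ‖v‖ = (‖A v‖ * ‖A w‖⁻¹) * ‖w‖ := by
    conv_lhs => rw [h2]
    rw [norm_smul, Real.norm_of_nonneg (by positivity)]
  rw [hv, hw, mul_one] at h3
  rw [h2, ← h3, one_smul]

/-- the blow-up is compact -/
theorem BFUN_compact {D : Set P2} (hD : IsCompact D) (p : ℕ → P2) : IsCompact (Blow D p) := by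
  have h1 : IsCompact (D ×ˢ (Set.univ.pi (fun _ : ℕ => Metric.sphere (0 : P2) 1))) :=
    hD.prod (isCompact_univ_pi (fun _ => isCompact_sphere _ _))
  have h2 : IsClosed {y : P2 × (ℕ → P2) | ∀ i, ‖y.1 - p i‖ • y.2 i = y.1 - p i} := by
    rw [Set.ofPred_forall]
    apply isClosed_iInter
    intro i
    have c1 : Continuous (fun y : P2 × (ℕ → P2) => ‖y.1 - p i‖ • y.2 i) := by fun_prop
    have c2 : Continuous (fun y : P2 × (ℕ → P2) => y.1 - p i) := by fun_prop
    exact isClosed_eq c1 c2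
  have h3 : Blow D p = (D ×ˢ (Set.univ.pi (fun _ : ℕ => Metric.sphere (0 : P2) 1))) ∩
      {y : P2 × (ℕ → P2) | ∀ i, ‖y.1 - p i‖ • y.2 i = y.1 - p i} := by
    ext y
    simp only [Blow, Set.mem_ofPred_eq, Set.mem_inter_iff, Set.mem_prod, Set.mem_pi,
      Set.mem_univ, true_implies, mem_sphere_iff_norm, sub_zero]
    constructor
    · rintro ⟨h1, h2⟩
      refine ⟨⟨h1, fun i => (h2 i).1⟩, ?_⟩
      intro i
      by_cases h : y.1 = p i
      · simp [h]
      · rw [(h2 i).2 h]
        exact BFUN_eq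
    · rintro ⟨⟨h1, h2⟩, h3⟩
      refine ⟨h1, fun i => ⟨h2 i, ?_⟩⟩
      intro h
      have hne : y.1 - p i ≠ 0 := sub_ne_zero.mpr h
      have h4 := h3 i
      calc y.2 i = ‖y.1 - p i‖⁻¹ • (‖y.1 - p i‖ • y.2 i) := by
            rw [smul_smul, inv_mul_cancel₀ (norm_ne_zero_iff.mpr hne), one_smul]
        _ = _ := by rw [h4]
  rw [h3]
  exact h1.inter_right h2

/-- the difference quotient on the blow-up -/
noncomputable def BFUN_G (F : P2 → P2) (a : P2) (A : P2 ≃L[ℝ] P2) (x θ : P2) : P2 :=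
  if x = a then A θ else ‖x - a‖⁻¹ • (F x - F a)

/-- the remainder quotient -/
noncomputable def BFUN_R (F : P2 → P2) (a : P2) (A : P2 ≃L[ℝ] P2) (x : P2) : P2 :=
  ‖x - a‖⁻¹ • (F x - F a - A (x - a))

theorem BFUN_R_tendsto {F : P2 → P2} {a : P2} {A : P2 ≃L[ℝ] P2}
    (hd : HasFDerivAt F (A : P2 →L[ℝ] P2) a) :
    Filter.Tendsto (BFUN_R F a A) (𝓝 a) (𝓝 0) := by
  have h := hasFDerivAt_iff_tendsto.mp hd
  rw [tendsto_zero_iff_norm_tendsto_zero]
  refine h.congr ?_
  intro x
  unfold BFUN_R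
  rw [norm_smul, norm_inv, norm_norm]
  rfl

theorem blow_congr {D D' : Set P2} (hD : IsCompact D) {p p' : ℕ → P2}
    (hp : Function.Injective p) (hpD : ∀ i, p i ∈ D) {F : P2 → P2}
    (hF : ContinuousOn F D) (hbij : Set.BijOn F D D') (σ : ℕ ≃ ℕ) (hσ : ∀ i, F (p i) = p' (σ i))
    (hd : ∀ i, ∃ A : P2 ≃L[ℝ] P2, HasFDerivAt F (A : P2 →L[ℝ] P2) (p i)) :
    Nonempty (Blow D p ≃ₜ Blow D' p') := by
  choose A hA using hd
  have : CompactSpace (Blow D p) := isCompact_iff_compactSpace.mp (BFUN_compact hD p)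
  -- basic facts
  have hne : ∀ x ∈ D, ∀ i, x ≠ p i → F x - F (p i) ≠ 0 := by
    intro x hx i hxi h
    exact hxi (hbij.injOn hx (hpD i) (sub_eq_zero.mp h))
  have hGne : ∀ y ∈ Blow D p, ∀ i, BFUN_G F (p i) (A i) y.1 (y.2 i) ≠ 0 := by
    intro y hy i
    unfold BFUN_G
    split_ifs with h
    · have h1 := (hy.2 i).1
      intro h2
      have h3 : y.2 i = 0 := by simpa using h2
      rw [h3] at h1
      simp at h1
    · have h1 : y.1 - p i ≠ 0 := sub_ne_zero.mpr h
      exact smul_ne_zero (inv_ne_zero (norm_ne_zero_iff.mpr h1)) (hne y.1 hy.1 i h)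
  have hGdir : ∀ y ∈ Blow D p, ∀ i, y.1 ≠ p i →
      BFUN_dir (BFUN_G F (p i) (A i) y.1 (y.2 i)) = BFUN_dir (F y.1 - F (p i)) := by
    intro y hy i h
    unfold BFUN_G
    rw [if_neg h]
    have h1 : y.1 - p i ≠ 0 := sub_ne_zero.mpr h
    exact BFUN_dir_smul (inv_pos.mpr (norm_pos_iff.mpr h1))
  let Φ : P2 × (ℕ → P2) → P2 × (ℕ → P2) := fun y =>
    (F y.1, fun j => BFUN_dir (BFUN_G F (p (σ.symm j)) (A (σ.symm j)) y.1 (y.2 (σ.symm j))))
  have hΦmem : ∀ y ∈ Blow D p, Φ y ∈ Blow D' p' := by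
    intro y hy
    refine ⟨hbij.mapsTo hy.1, ?_⟩
    intro j
    refine ⟨BFUN_dir_norm (hGne y hy _), ?_⟩
    intro h
    have hpj : F (p (σ.symm j)) = p' j := by rw [hσ, Equiv.apply_symm_apply]
    have h1 : y.1 ≠ p (σ.symm j) := by
      intro h2
      apply h
      simp only [Φ]
      rw [h2, hpj]
    simp only [Φ]
    rw [hGdir y hy _ h1, hpj]
    rfl
  have hΦinj : ∀ y ∈ Blow D p, ∀ z ∈ Blow D p, Φ y = Φ z → y = z := by
    intro y hy z hz h
    have h1 : F y.1 = F z.1 := congrArg Prod.fst h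
    have h2 : y.1 = z.1 := hbij.injOn hy.1 hz.1 h1
    refine Prod.ext h2 ?_
    funext i
    by_cases h3 : y.1 = p i
    · have h4 := congrFun (congrArg Prod.snd h) (σ i)
      simp only [Φ, Equiv.symm_apply_apply] at h4
      unfold BFUN_G at h4
      rw [if_pos h3, if_pos (h2 ▸ h3)] at h4
      exact BFUN_dir_inj (hy.2 i).1 (hz.2 i).1 (A i) h4
    · rw [(hy.2 i).2 h3, (hz.2 i).2 (h2 ▸ h3), h2]
  have hΦsurj : ∀ z ∈ Blow D' p', ∃ y ∈ Blow D p, Φ y = z := by
    intro z hz
    obtain ⟨x, hx, hxz⟩ := hbij.surjOn hz.1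
    have hAne : ∀ i, (A i).symm (z.2 (σ i)) ≠ 0 := by
      intro i h
      have h1 := (hz.2 (σ i)).1
      have h3 : z.2 (σ i) = 0 := by simpa using h
      rw [h3] at h1
      simp at h1
    have hmem : (x, fun i => if x = p i then BFUN_dir ((A i).symm (z.2 (σ i))) else
        BFUN_dir (x - p i)) ∈ Blow D p := by
      refine ⟨hx, ?_⟩
      intro i
      simp only
      by_cases h : x = p i
      · rw [if_pos h]
        exact ⟨BFUN_dir_norm (hAne i), fun h' => absurd h h'⟩
      · rw [if_neg h]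
        exact ⟨BFUN_dir_norm (sub_ne_zero.mpr h), fun _ => rfl⟩
    refine ⟨_, hmem, ?_⟩
    refine Prod.ext hxz ?_
    funext j
    obtain ⟨i, rfl⟩ := σ.surjective j
    simp only [Φ, Equiv.symm_apply_apply]
    by_cases h : x = p i
    · unfold BFUN_G
      rw [if_pos h, if_pos h]
      unfold BFUN_dir
      rw [map_smul]
      change BFUN_dir (‖(A i).symm (z.2 (σ i))‖⁻¹ • A i ((A i).symm (z.2 (σ i)))) = _
      rw [BFUN_dir_smul (inv_pos.mpr (norm_pos_iff.mpr (hAne i))),
        ContinuousLinearEquiv.apply_symm_apply]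
      exact BFUN_dir_unit (hz.2 (σ i)).1
    · have h1 := hGdir _ hmem i h
      simp only at h1
      rw [h1]
      have h2 : z.1 ≠ p' (σ i) := by
        rw [← hσ i, ← hxz]
        intro h3
        exact h (hbij.injOn hx (hpD i) h3)
      rw [(hz.2 (σ i)).2 h2, hσ i, hxz]
      rfl
  -- continuity
  have hΦcont : ContinuousOn Φ (Blow D p) := by
    have hfst : ContinuousOn (fun y : P2 × (ℕ → P2) => F y.1) (Blow D p) :=
      hF.comp continuous_fst.continuousOn (fun y hy => hy.1)
    refine hfst.prodMk ?_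
    rw [continuousOn_pi]
    intro j
    obtain ⟨i, rfl⟩ := σ.surjective j
    simp only [Equiv.symm_apply_apply]
    -- continuity of the quotient
    have hG : ContinuousOn (fun y : P2 × (ℕ → P2) => BFUN_G F (p i) (A i) y.1 (y.2 i))
        (Blow D p) := by
      intro y hy
      by_cases h : y.1 = p i
      · -- at the point
        have h1 : ∀ z ∈ Blow D p, BFUN_G F (p i) (A i) z.1 (z.2 i) =
            A i (z.2 i) + BFUN_R F (p i) (A i) z.1 := by
          intro z hz
          unfold BFUN_G BFUN_R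
          split_ifs with h2
          · rw [h2]
            simp
          · rw [(hz.2 i).2 h2, map_smul, ← smul_add]
            congr 1
            abel
        have h2 : ContinuousWithinAt (fun z : P2 × (ℕ → P2) => A i (z.2 i) +
            BFUN_R F (p i) (A i) z.1) (Blow D p) y := by
          apply ContinuousWithinAt.add
          · have : Continuous (fun z : P2 × (ℕ → P2) => A i (z.2 i)) := by fun_prop
            exact this.continuousWithinAt
          · have h3 : ContinuousAt (BFUN_R F (p i) (A i)) (p i) := by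
              unfold ContinuousAt
              have h4 : BFUN_R F (p i) (A i) (p i) = 0 := by simp [BFUN_R]
              rw [h4]
              exact BFUN_R_tendsto (hA i)
            have h5 : ContinuousAt (fun z : P2 × (ℕ → P2) => BFUN_R F (p i) (A i) z.1) y := by
              apply ContinuousAt.comp (f := Prod.fst) (g := BFUN_R F (p i) (A i))
              · rw [h]
                exact h3
              · exact continuousAt_fst
            exact h5.continuousWithinAt
        exact h2.congr h1 (h1 y hy)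
      · -- away from the point
        have h1 : ContinuousWithinAt (fun z : P2 × (ℕ → P2) => ‖z.1 - p i‖⁻¹ •
            (F z.1 - F (p i))) (Blow D p) y := by
          have hs1 : ContinuousWithinAt (fun z : P2 × (ℕ → P2) => ‖z.1 - p i‖⁻¹)
              (Blow D p) y := by
            apply ContinuousWithinAt.inv₀
            · have : Continuous (fun z : P2 × (ℕ → P2) => ‖z.1 - p i‖) := by fun_prop
              exact this.continuousWithinAt
            · exact norm_ne_zero_iff.mpr (sub_ne_zero.mpr h)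
          have hs2 : ContinuousWithinAt (fun z : P2 × (ℕ → P2) => F z.1 - F (p i))
              (Blow D p) y := (hfst y hy).sub continuousWithinAt_const
          exact hs1.smul hs2
        refine h1.congr_of_eventuallyEq ?_ ?_
        · have hopen : IsOpen {z : P2 × (ℕ → P2) | z.1 ≠ p i} :=
            isOpen_ne_fun continuous_fst continuous_const
          filter_upwards [mem_nhdsWithin_of_mem_nhds (hopen.mem_nhds h)] with z hz
          unfold BFUN_G
          exact if_neg hz
        · unfold BFUN_G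
          exact if_neg h
    intro y hy
    have h1 := hG y hy
    exact ContinuousAt.comp_continuousWithinAt (g := BFUN_dir)
      (f := fun y : P2 × (ℕ → P2) => BFUN_G F (p i) (A i) y.1 (y.2 i))
      (BFUN_dir_cont (hGne y hy i)) h1
  let Ψ : Blow D p → Blow D' p' := fun y => ⟨Φ y.1, hΦmem y.1 y.2⟩
  have hΨcont : Continuous Ψ := by
    apply Continuous.subtype_mk
    exact continuousOn_iff_continuous_domRestrict.mp hΦcont
  have hΨbij : Function.Bijective Ψ := by
    constructor
    · intro y z h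
      exact Subtype.ext (hΦinj y.1 y.2 z.1 z.2 (congrArg Subtype.val h))
    · intro z
      obtain ⟨y, hy, hyz⟩ := hΦsurj z.1 z.2
      exact ⟨⟨y, hy⟩, Subtype.ext hyz⟩
  exact ⟨Continuous.homeoOfEquivCompactToT2 (f := Equiv.ofBijective Ψ hΨbij) hΨcont⟩

end Pool.Agent.Carpet
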