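import Pool.Agent.Lib_helper45.Carpet.LimT

/-! # Block BLOWH : a convex carpet is the blow-up of a disk at a dense sequence -/

set_option autoImplicit false

namespace Pool.Agent.Carpet

open scoped Topology

/-- direction of a vector -/
noncomputable def BLOWH_dir (v : P2) : P2 := ‖v‖⁻¹ • v

theorem BLOWH_dir_norm {v : P2} (hv : v ≠ 0) : ‖BLOWH_dir v‖ = 1 := by
  unfold BLOWH_dir
  rw [norm_smul, norm_inv, norm_norm, inv_mul_cancel₀ (norm_ne_zero_iff.2 hv)]

theorem BLOWH_dir_smul {t : ℝ} (ht : 0 < t) (v : P2) : BLOWH_dir (t • v) = BLOWH_dir v := by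
  unfold BLOWH_dir
  rw [norm_smul, Real.norm_of_nonneg ht.le, smul_smul, mul_inv, mul_right_comm,
    inv_mul_cancel₀ ht.ne', one_mul]

theorem BLOWH_dir_cont {v : P2} (hv : v ≠ 0) : ContinuousAt BLOWH_dir v := by
  unfold BLOWH_dir
  exact (continuous_norm.continuousAt.inv₀ (norm_ne_zero_iff.2 hv)).smul continuousAt_id

theorem BLOWH_dir_of_norm {v : P2} (hv : ‖v‖ = 1) : BLOWH_dir v = v := by
  unfold BLOWH_dir
  rw [hv, inv_one, one_smul]

theorem BLOWH_dir_eq {v w : P2} (hv : v ≠ 0) (hw : w ≠ 0) (h : BLOWH_dir v = BLOWH_dir w) :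
    ∃ t : ℝ, 0 < t ∧ v = t • w := by
  have hv' : 0 < ‖v‖ := norm_pos_iff.2 hv
  have hw' : 0 < ‖w‖ := norm_pos_iff.2 hw
  refine ⟨‖v‖ * ‖w‖⁻¹, by positivity, ?_⟩
  unfold BLOWH_dir at h
  rw [mul_smul, ← h, smul_smul, mul_inv_cancel₀ hv'.ne', one_smul]

theorem BLOWH_smul_dir {v : P2} : ‖v‖ • BLOWH_dir v = v := by
  unfold BLOWH_dir
  by_cases hv : v = 0
  · simp [hv]
  · rw [smul_smul, mul_inv_cancel₀ (norm_ne_zero_iff.2 hv), one_smul]

theorem BLOWH_dir_ne {v : P2} (hv : v ≠ 0) : BLOWH_dir v ≠ 0 := by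
  intro h
  have := BLOWH_dir_norm hv
  rw [h, norm_zero] at this
  exact zero_ne_one this

/-- the exit point of a ray -/
theorem BLOWH_ray {K : Set P2} (hK : IsCompact K) {c v : P2} (hc : c ∈ interior K) (hv : v ≠ 0) :
    ∃ t : ℝ, 0 < t ∧ c + t • v ∈ K ∧ c + t • v ∉ interior K := by
  have hcont : Continuous fun t : ℝ => c + t • v := by fun_prop
  have hvn : 0 < ‖v‖ := norm_pos_iff.2 hv
  have hcK : c ∈ K := interior_subset hc
  have hclosed : IsClosed ((fun t : ℝ => c + t • v) ⁻¹' K) := hK.isClosed.preimage hcont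
  have hsub : ((fun t : ℝ => c + t • v) ⁻¹' K) ⊆
      Set.Icc (-(Metric.diam K / ‖v‖)) (Metric.diam K / ‖v‖) := by
    intro t ht
    have h1 : dist (c + t • v) c ≤ Metric.diam K := Metric.dist_le_diam_of_mem hK.isBounded ht hcK
    rw [dist_eq_norm, add_sub_cancel_left, norm_smul, Real.norm_eq_abs] at h1
    exact abs_le.1 ((le_div_iff₀ hvn).2 h1)
  have hcomp : IsCompact ((fun t : ℝ => c + t • v) ⁻¹' K) :=
    isCompact_Icc.of_isClosed_subset hclosed hsub
  have h0 : (0 : ℝ) ∈ ((fun t : ℝ => c + t • v) ⁻¹' K) := by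
    simpa using hcK
  obtain ⟨t, ht, hmax⟩ := hcomp.exists_isGreatest ⟨0, h0⟩
  have hnot : c + t • v ∉ interior K := by
    intro hint
    have hopen : IsOpen ((fun t : ℝ => c + t • v) ⁻¹' interior K) :=
      isOpen_interior.preimage hcont
    obtain ⟨ε, hε, hb⟩ := Metric.isOpen_iff.1 hopen t hint
    have h2 : t + ε / 2 ∈ Metric.ball t ε := by
      rw [Metric.mem_ball, Real.dist_eq, add_sub_cancel_left, abs_of_pos (by linarith)]
      linarith
    have h4 : c + (t + ε / 2) • v ∈ interior K := hb h2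
    have h5 : c + (t + ε / 2) • v ∈ K := interior_subset h4
    have h3 : t + ε / 2 ≤ t := hmax h5
    linarith
  refine ⟨t, lt_of_le_of_ne (hmax h0) ?_, ht, hnot⟩
  rintro rfl
  apply hnot
  simpa using hc

section facts

variable {Y : ConvexCarpet} {Nb : ℕ → Set P2} {κ Ψ : ℕ → P2 → P2}

theorem BLOWH_F (h : Tower Y Nb κ) {n j : ℕ} (hj : j < n) (z : P2) :
    κ n z ∈ Y.K j ↔ z ∈ Y.K j := by
  by_cases hz : z ∈ Nb n
  · have h1 := (h.col n).mapsNb z hz
    constructor
    · intro h2; exact absurd h2 (Set.disjoint_left.1 (h.c1 n j hj) h1)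
    · intro h2; exact absurd h2 (Set.disjoint_left.1 (h.c1 n j hj) hz)
  · rw [(h.col n).off z hz]

theorem BLOWH_Psi_succ (n : ℕ) (x : P2) : Psi κ 0 (n + 1) x = Psi κ 0 n (κ n x) := by
  simp only [Psi, if_pos (Nat.zero_le n)]

theorem BLOWH_deriv (h : Tower Y Nb κ) (n : ℕ) : ∀ z : P2, (∀ j < n, z ∉ Y.K j) →
    ∃ A : P2 ≃L[ℝ] P2, HasFDerivAt (Psi κ 0 n) (A : P2 →L[ℝ] P2) z := by
  induction n with
  | zero =>
    intro z _
    exact ⟨ContinuousLinearEquiv.refl ℝ P2, hasFDerivAt_id z⟩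
  | succ n ih =>
    intro z hz
    obtain ⟨A1, hA1⟩ := (h.col n).diff z (hz n (by omega))
    obtain ⟨A2, hA2⟩ := ih (κ n z) fun j hj => by
      rw [BLOWH_F h hj]
      exact hz j (by omega)
    refine ⟨A1.trans A2, ?_⟩
    have heq : Psi κ 0 (n + 1) = fun x => Psi κ 0 n (κ n x) := by
      funext x; exact BLOWH_Psi_succ n x
    rw [heq]
    exact hA2.comp z hA1

theorem BLOWH_int (h : Tower Y Nb κ) (n : ℕ) : ∀ z ∈ interior Y.D,
    Psi κ 0 n z ∈ interior Y.D := by
  induction n with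
  | zero => intro z hz; exact hz
  | succ n ih =>
    intro z hz
    rw [BLOWH_Psi_succ]
    apply ih
    by_cases hN : z ∈ Nb n
    · exact h.inD n ((h.col n).mapsNb z hN)
    · rw [(h.col n).off z hN]; exact hz

theorem BLOWH_rel (hΨ : LimitMaps Y κ Ψ) (n : ℕ) (x : P2) : Psi κ 0 n (Ψ n x) = Ψ 0 x := by
  induction n with
  | zero => rfl
  | succ n ih => rw [BLOWH_Psi_succ, ← hΨ.step, ih]

theorem BLOWH_K (h : Tower Y Nb κ) (hΨ : LimitMaps Y κ Ψ) {i : ℕ} {x : P2} (hx : x ∈ Y.K i) :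
    Ψ i x = Y.c i := by
  rw [hΨ.step, hΨ.idK (i + 1) i (by omega) x hx, (h.col i).collapse x hx]

theorem BLOWH_cK (Y : ConvexCarpet) (i : ℕ) : Y.c i ∈ Y.K i := interior_subset (Y.center i)

theorem BLOWH_KD (Y : ConvexCarpet) (i : ℕ) : Y.K i ⊆ Y.D := (Y.inD i).trans interior_subset

theorem BLOWH_uniq (Y : ConvexCarpet) {i j : ℕ} {x : P2} (hi : x ∈ Y.K i) (hj : x ∈ Y.K j) :
    i = j := by
  by_contra hne
  exact Set.disjoint_left.1 (Y.disj i j hne) hi hj

theorem BLOWH_p (h : Tower Y Nb κ) (hΨ : LimitMaps Y κ Ψ) {i : ℕ} {x : P2} (hx : x ∈ Y.K i) :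
    Ψ 0 x = Ψ 0 (Y.c i) := by
  rw [← BLOWH_rel hΨ i x, ← BLOWH_rel hΨ i (Y.c i), BLOWH_K h hΨ hx,
    BLOWH_K h hΨ (BLOWH_cK Y i)]

theorem BLOWH_p_eq (h : Tower Y Nb κ) (hΨ : LimitMaps Y κ Ψ) (i : ℕ) :
    Ψ 0 (Y.c i) = Psi κ 0 i (Y.c i) := by
  rw [← BLOWH_rel hΨ i (Y.c i), BLOWH_K h hΨ (BLOWH_cK Y i)]

theorem BLOWH_back (hΨ : LimitMaps Y κ Ψ) {i : ℕ} {x : P2} (hx : x ∈ Y.D)
    (he : Ψ 0 x = Ψ 0 (Y.c i)) : x ∈ Y.K i := by
  rcases hΨ.inj x hx (Y.c i) (BLOWH_KD Y i (BLOWH_cK Y i)) he with h1 | ⟨l, h1, h2⟩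
  · rw [h1]; exact BLOWH_cK Y i
  · rw [BLOWH_uniq Y (BLOWH_cK Y i) h2]; exact h1

end facts

theorem carpet_blow {Y : ConvexCarpet} {Nb : ℕ → Set P2} {κ Ψ : ℕ → P2 → P2} (h : Tower Y Nb κ)
    (hΨ : LimitMaps Y κ Ψ) :
    ∃ p : ℕ → P2, Function.Injective p ∧ (∀ i, p i ∈ interior Y.D) ∧
      Y.D ⊆ closure (Set.range p) ∧ Nonempty (Y.X ≃ₜ Blow Y.D p) := by
  classical
  have hAex : ∀ i, ∃ A : P2 ≃L[ℝ] P2,
      HasFDerivAt (Psi κ 0 i) (A : P2 →L[ℝ] P2) (Y.c i) := fun i =>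
    BLOWH_deriv h i (Y.c i) fun j hj hm =>
      absurd (BLOWH_uniq Y (BLOWH_cK Y i) hm) (by omega)
  choose A hA using hAex
  set p : ℕ → P2 := fun i => Ψ 0 (Y.c i) with hp
  have hpinj : Function.Injective p := by
    intro i j hij
    have := BLOWH_back hΨ (BLOWH_KD Y i (BLOWH_cK Y i)) (hij : Ψ 0 (Y.c i) = Ψ 0 (Y.c j))
    exact BLOWH_uniq Y (BLOWH_cK Y i) this
  have hback : ∀ x ∈ Y.D, ∀ i, Ψ 0 x = p i → x ∈ Y.K i := fun x hx i he => BLOWH_back hΨ hx he
  have hKp : ∀ i, ∀ x ∈ Y.K i, Ψ 0 x = p i := fun i x hx => BLOWH_p h hΨ hx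
  have hXD : ∀ x ∈ Y.X, x ∈ Y.D := fun x hx => hx.1
  have hXint : ∀ x ∈ Y.X, ∀ i, x ∉ interior (Y.K i) := fun x hx i hi =>
    hx.2 (Set.mem_iUnion.2 ⟨i, hi⟩)
  have hXc : ∀ x ∈ Y.X, ∀ i, x ≠ Y.c i := fun x hx i he => hXint x hx i (he ▸ Y.center i)
  set θ : ℕ → P2 → P2 := fun i x =>
    if x ∈ Y.K i then BLOWH_dir (A i (x - Y.c i)) else BLOWH_dir (Ψ 0 x - p i) with hθ
  have hθK : ∀ i x, x ∈ Y.K i → θ i x = BLOWH_dir (A i (x - Y.c i)) := fun i x hx => by
    simp only [hθ, if_pos hx]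
  have hθN : ∀ i x, x ∉ Y.K i → θ i x = BLOWH_dir (Ψ 0 x - p i) := fun i x hx => by
    simp only [hθ, if_neg hx]
  have hAne : ∀ i, ∀ x : P2, x ≠ 0 → A i x ≠ 0 := fun i x hx he =>
    hx ((A i).map_eq_zero_iff.1 he)
  have hne : ∀ x ∈ Y.X, ∀ i, x ∉ Y.K i → Ψ 0 x - p i ≠ 0 := fun x hx i hi he =>
    hi (hback x (hXD x hx) i (sub_eq_zero.1 he))
  -- continuity of θ
  have hcontθ : ∀ i, ContinuousOn (θ i) Y.X := by
    intro i x hx
    by_cases hxK : x ∈ Y.K i
    · -- split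
      have hsplit : Y.X = (Y.X ∩ Y.K i) ∪ (Y.X \ Y.K i) := (Set.inter_union_sdiff _ _).symm
      rw [hsplit]
      have hxc : x - Y.c i ≠ 0 := sub_ne_zero.2 (hXc x hx i)
      refine ContinuousWithinAt.union ?_ ?_
      · have h1 : ContinuousWithinAt (fun y => BLOWH_dir (A i (y - Y.c i))) (Y.X ∩ Y.K i) x := by
          refine ContinuousAt.comp_continuousWithinAt (g := BLOWH_dir)
            (BLOWH_dir_cont (hAne i _ hxc)) ?_
          exact ((A i).continuous.comp (continuous_id.sub continuous_const)).continuousWithinAt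
        refine h1.congr (fun y hy => hθK i y hy.2) (hθK i x hxK)
      · show Filter.Tendsto (θ i) (𝓝[Y.X \ Y.K i] x) (𝓝 (θ i x))
        rw [hθK i x hxK]
        set l := 𝓝[Y.X \ Y.K i] x with hl
        have hmem : ∀ᶠ y in l, y ∈ Y.X \ Y.K i := self_mem_nhdsWithin
        -- u y = Ψ (i+1) y
        have hu : Filter.Tendsto (fun y => Ψ (i + 1) y - Y.c i) l (𝓝 (x - Y.c i)) := by
          have h1 : Filter.Tendsto (Ψ (i + 1)) l (𝓝 (Ψ (i + 1) x)) :=
            ((hΨ.cont (i + 1)).tendsto x).mono_left nhdsWithin_le_nhds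
          rw [hΨ.idK (i + 1) i (by omega) x hxK] at h1
          exact h1.sub tendsto_const_nhds
        have hdu : Filter.Tendsto (fun y => BLOWH_dir (Ψ (i + 1) y - Y.c i)) l
            (𝓝 (BLOWH_dir (x - Y.c i))) := (BLOWH_dir_cont hxc).tendsto.comp hu
        have hh : Filter.Tendsto (Ψ i) l (𝓝 (Y.c i)) := by
          have h1 : Filter.Tendsto (Ψ i) l (𝓝 (Ψ i x)) :=
            ((hΨ.cont i).tendsto x).mono_left nhdsWithin_le_nhds
          rwa [BLOWH_K h hΨ hxK] at h1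
        have hkey : ∀ y ∈ Y.X \ Y.K i, Ψ i y - Y.c i ≠ 0 ∧
            BLOWH_dir (Ψ i y - Y.c i) = BLOWH_dir (Ψ (i + 1) y - Y.c i) := by
          intro y hy
          have hnotK : Ψ (i + 1) y ∉ Y.K i := by
            intro hm
            apply hy.2
            apply hback y (hXD y hy.1) i
            show Ψ 0 y = Ψ 0 (Y.c i)
            rw [← BLOWH_rel hΨ i y, hΨ.step i y, (h.col i).collapse _ hm, BLOWH_p_eq h hΨ i]
          obtain ⟨μ, hμ, he⟩ := (h.col i).dir _ hnotK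
          rw [hΨ.step i y, he]
          refine ⟨smul_ne_zero hμ.ne' (sub_ne_zero.2 ?_), BLOWH_dir_smul hμ _⟩
          rintro he2
          exact hnotK (he2 ▸ BLOWH_cK Y i)
        have hdh : Filter.Tendsto (fun y => BLOWH_dir (Ψ i y - Y.c i)) l
            (𝓝 (BLOWH_dir (x - Y.c i))) := by
          refine hdu.congr' ?_
          filter_upwards [hmem] with y hy
          exact (hkey y hy).2.symm
        have hlit : (fun y => Psi κ 0 i (Ψ i y) - Psi κ 0 i (Y.c i) -
            (A i : P2 →L[ℝ] P2) (Ψ i y - Y.c i)) =o[l] fun y => Ψ i y - Y.c i :=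
          (hA i).isLittleO.comp_tendsto hh
        have hlit2 := (hlit.norm_right).tendsto_inv_smul_nhds_zero
        have hAd : Filter.Tendsto (fun y => (A i) (BLOWH_dir (Ψ i y - Y.c i))) l
            (𝓝 ((A i) (BLOWH_dir (x - Y.c i)))) :=
          ((A i).continuous.tendsto _).comp hdh
        have hsum := hlit2.add hAd
        rw [zero_add] at hsum
        have hlim : Filter.Tendsto (fun y => ‖Ψ i y - Y.c i‖⁻¹ • (Ψ 0 y - p i)) l
            (𝓝 ((A i) (BLOWH_dir (x - Y.c i)))) := by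
          refine hsum.congr' ?_
          filter_upwards [hmem] with y hy
          have e1 : Psi κ 0 i (Ψ i y) = Ψ 0 y := BLOWH_rel hΨ i y
          have e2 : Psi κ 0 i (Y.c i) = p i := (BLOWH_p_eq h hΨ i).symm
          have e3 : (A i) (BLOWH_dir (Ψ i y - Y.c i)) =
              ‖Ψ i y - Y.c i‖⁻¹ • (A i : P2 →L[ℝ] P2) (Ψ i y - Y.c i) := by
            unfold BLOWH_dir
            rw [map_smul]
            rfl
          rw [e1, e2, e3, ← smul_add, sub_add_cancel]
        have hfin : Filter.Tendsto (fun y => BLOWH_dir (‖Ψ i y - Y.c i‖⁻¹ • (Ψ 0 y - p i))) l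
            (𝓝 (BLOWH_dir ((A i) (BLOWH_dir (x - Y.c i))))) :=
          (BLOWH_dir_cont (hAne i _ (BLOWH_dir_ne hxc))).tendsto.comp hlim
        have hval : BLOWH_dir ((A i) (BLOWH_dir (x - Y.c i))) =
            BLOWH_dir ((A i) (x - Y.c i)) := by
          have : (A i) (BLOWH_dir (x - Y.c i)) = ‖x - Y.c i‖⁻¹ • (A i) (x - Y.c i) := by
            unfold BLOWH_dir
            rw [map_smul]
          rw [this]
          exact BLOWH_dir_smul (inv_pos.2 (norm_pos_iff.2 hxc)) _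
        rw [hval] at hfin
        refine hfin.congr' ?_
        filter_upwards [hmem] with y hy
        rw [hθN i y hy.2]
        exact BLOWH_dir_smul (inv_pos.2 (norm_pos_iff.2 (hkey y hy).1)) _
    · have h1 : ContinuousWithinAt (fun y => BLOWH_dir (Ψ 0 y - p i)) Y.X x := by
        refine ContinuousAt.comp_continuousWithinAt (g := BLOWH_dir)
          (BLOWH_dir_cont (hne x hx i hxK)) ?_
        exact ((hΨ.cont 0).sub continuous_const).continuousWithinAt
      refine h1.congr_of_eventuallyEq ?_ (hθN i x hxK)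
      have hop : (Y.K i)ᶜ ∈ 𝓝[Y.X] x :=
        mem_nhdsWithin_of_mem_nhds ((Y.compK i).isClosed.isOpen_compl.mem_nhds hxK)
      filter_upwards [hop] with y hy
      exact hθN i y hy
  have hθnorm : ∀ i, ∀ x ∈ Y.X, ‖θ i x‖ = 1 := by
    intro i x hx
    by_cases hxK : x ∈ Y.K i
    · rw [hθK i x hxK]
      exact BLOWH_dir_norm (hAne i _ (sub_ne_zero.2 (hXc x hx i)))
    · rw [hθN i x hxK]
      exact BLOWH_dir_norm (hne x hx i hxK)
  refine ⟨p, hpinj, fun i => ?_, ?_, ?_⟩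
  · show Ψ 0 (Y.c i) ∈ interior Y.D
    rw [BLOWH_p_eq h hΨ i]
    exact BLOWH_int h i _ (Y.inD i (BLOWH_cK Y i))
  · intro z hz
    obtain ⟨x, hx, rfl⟩ := hΨ.surjD 0 hz
    have h1 : Ψ 0 x ∈ Ψ 0 '' closure (⋃ i, Y.K i) := Set.mem_image_of_mem _ (Y.dense hx)
    have h2 := image_closure_subset_closure_image (hΨ.cont 0) h1
    refine closure_mono ?_ h2
    rintro _ ⟨y, hy, rfl⟩
    obtain ⟨i, hi⟩ := Set.mem_iUnion.1 hy
    exact ⟨i, (hKp i y hi).symm⟩
  · -- the homeomorphism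
    have hXcomp : IsCompact Y.X := Y.compD.diff (isOpen_iUnion fun i => isOpen_interior)
    have : CompactSpace Y.X := isCompact_iff_compactSpace.1 hXcomp
    let f : Y.X → Blow Y.D p := fun x => ⟨(Ψ 0 x, fun i => θ i x), by
      refine ⟨hΨ.mapsD 0 (hXD x x.2), fun i => ⟨hθnorm i x x.2, fun hx => ?_⟩⟩
      have hxK : (x : P2) ∉ Y.K i := fun hm => hx (hKp i x hm)
      exact hθN i x hxK⟩
    have hfc : Continuous f := by
      refine Continuous.subtype_mk (Continuous.prodMk ?_ (continuous_pi fun i => ?_)) _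
      · exact (hΨ.cont 0).comp continuous_subtype_val
      · exact continuousOn_iff_continuous_domRestrict.1 (hcontθ i)
    have hfinj : Function.Injective f := by
      intro x y hxy
      have h1 : Ψ 0 x = Ψ 0 y := congrArg (fun z => z.1.1) hxy
      have h2 : ∀ i, θ i x = θ i y := fun i => congrFun (congrArg (fun z => z.1.2) hxy) i
      rcases hΨ.inj x (hXD x x.2) y (hXD y y.2) h1 with he | ⟨i, hxi, hyi⟩
      · exact Subtype.ext he
      · have h3 := h2 i
        rw [hθK i x hxi, hθK i y hyi] at h3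
        have hxc : (x : P2) - Y.c i ≠ 0 := sub_ne_zero.2 (hXc x x.2 i)
        have hyc : (y : P2) - Y.c i ≠ 0 := sub_ne_zero.2 (hXc y y.2 i)
        obtain ⟨t, ht, he⟩ := BLOWH_dir_eq (hAne i _ hxc) (hAne i _ hyc) h3
        have he' : (x : P2) - Y.c i = t • ((y : P2) - Y.c i) := by
          rw [← map_smul] at he
          exact (A i).injective he
        -- a general statement : if `x = c + t (y - c)` with `t < 1` then `x` is interior
        have gen : ∀ (a b : P2) (s : ℝ), 0 < s → s < 1 → b ∈ Y.K i →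
            a - Y.c i = s • (b - Y.c i) → a ∈ interior (Y.K i) := by
          intro a b s hs hs1 hb hab
          have h4 := (Y.convK i).combo_interior_self_mem_interior (Y.center i) hb
            (a := 1 - s) (b := s) (by linarith) hs.le (by ring)
          have h5 : a = (1 - s) • Y.c i + s • b := by
            rw [sub_eq_iff_eq_add] at hab
            rw [hab, smul_sub, sub_smul, one_smul]
            abel
          rwa [h5]
        rcases lt_trichotomy t 1 with h6 | h6 | h6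
        · exact absurd (gen x y t ht h6 hyi he') (hXint x x.2 i)
        · rw [h6, one_smul] at he'
          exact Subtype.ext (sub_left_injective he')
        · have he2 : (y : P2) - Y.c i = t⁻¹ • ((x : P2) - Y.c i) := by
            rw [he', smul_smul, inv_mul_cancel₀ ht.ne', one_smul]
          exact absurd (gen y x t⁻¹ (inv_pos.2 ht) (inv_lt_one_of_one_lt₀ h6) hxi he2)
            (hXint y y.2 i)
    have hfsurj : Function.Surjective f := by
      rintro ⟨⟨z, η⟩, hz, hη⟩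
      simp only at hz hη
      by_cases hzp : ∃ i, z = p i
      · obtain ⟨i, rfl⟩ := hzp
        have hηi : ‖η i‖ = 1 := (hη i).1
        have hηne : η i ≠ 0 := by
          intro h0
          rw [h0, norm_zero] at hηi
          exact zero_ne_one hηi
        have hv : (A i).symm (η i) ≠ 0 := fun h0 => hηne (by
          have := congrArg (A i) h0
          rwa [(A i).apply_symm_apply, map_zero] at this)
        obtain ⟨t, ht, hin, hnin⟩ := BLOWH_ray (Y.compK i) (Y.center i) hv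
        set x : P2 := Y.c i + t • (A i).symm (η i) with hx
        have hxX : x ∈ Y.X := by
          refine ⟨BLOWH_KD Y i hin, fun hm => ?_⟩
          obtain ⟨j, hj⟩ := Set.mem_iUnion.1 hm
          have := BLOWH_uniq Y hin (interior_subset hj)
          subst this
          exact hnin hj
        refine ⟨⟨x, hxX⟩, Subtype.ext (Prod.ext (hKp i x hin) ?_)⟩
        funext j
        show θ j x = η j
        by_cases hj : j = i
        · subst hj
          rw [hθK j x hin, hx, add_sub_cancel_left, map_smul, (A j).apply_symm_apply,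
            BLOWH_dir_smul ht, BLOWH_dir_of_norm hηi]
        · have hxj : x ∉ Y.K j := fun hm => hj (BLOWH_uniq Y hm hin)
          rw [hθN j x hxj, hKp i x hin]
          exact ((hη j).2 fun he => hj (hpinj he).symm).symm
      · push Not at hzp
        obtain ⟨x, hx, rfl⟩ := hΨ.surjD 0 hz
        have hxK : ∀ i, x ∉ Y.K i := fun i hm => hzp i (hKp i x hm)
        have hxX : x ∈ Y.X := ⟨hx, fun hm => by
          obtain ⟨j, hj⟩ := Set.mem_iUnion.1 hm
          exact hxK j (interior_subset hj)⟩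
        refine ⟨⟨x, hxX⟩, Subtype.ext (Prod.ext rfl ?_)⟩
        funext j
        show θ j x = η j
        rw [hθN j x (hxK j)]
        exact ((hη j).2 (hzp j)).symm
    exact ⟨Continuous.homeoOfEquivCompactToT2 (f := Equiv.ofBijective f ⟨hfinj, hfsurj⟩) hfc⟩

end Pool.Agent.Carpet
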