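import Pool.Agent.Lib_helper45.Carpet.CertK

/-! # Block CERTC : the complex representation and its certificate -/

set_option autoImplicit false

namespace Pool.Agent.Carpet

open scoped ComplexConjugate

namespace Cert

def dC : Dat where
  ops k := match k.val with
    | 0 => [⟨⟨1, 0⟩, [⟨2, 0⟩], [⟨1, 0⟩]⟩, ⟨⟨1, 0⟩, [⟨0, 0⟩, ⟨2, 0⟩], [⟨0, 0⟩, ⟨1, 0⟩]⟩]
    | 1 => [⟨⟨1, 0⟩, [⟨0, 0⟩, ⟨0, 0⟩, ⟨2, 0⟩], [⟨0, 0⟩, ⟨0, 0⟩, ⟨1, 0⟩]⟩,
        ⟨⟨1, 0⟩, [⟨0, 0⟩, ⟨0, 0⟩, ⟨0, 0⟩, ⟨2, 0⟩], [⟨0, 0⟩, ⟨0, 0⟩, ⟨0, 0⟩, ⟨1, 0⟩]⟩]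
    | 2 => [⟨⟨2, 0⟩, [⟨2, 1⟩, ⟨0, 0⟩, ⟨2, 1⟩, ⟨0, 0⟩, ⟨0, -2⟩],
          [⟨1, 0⟩, ⟨0, 0⟩, ⟨1, 0⟩, ⟨0, 0⟩, ⟨1, 0⟩]⟩,
        ⟨⟨2, 0⟩, [⟨0, 0⟩, ⟨2, 1⟩, ⟨0, 0⟩, ⟨2, 1⟩, ⟨0, 0⟩, ⟨0, -2⟩],
          [⟨0, 0⟩, ⟨1, 0⟩, ⟨0, 0⟩, ⟨1, 0⟩, ⟨0, 0⟩, ⟨1, 0⟩]⟩]
    | _ => [⟨⟨-2, 4⟩, [⟨0, 1⟩, ⟨0, 2⟩, ⟨0, 1⟩, ⟨0, -2⟩, ⟨0, -2⟩],
          [⟨1, 0⟩, ⟨2, 0⟩, ⟨1, 0⟩, ⟨-2, 0⟩, ⟨-1, 2⟩]⟩,
        ⟨⟨-2, 4⟩, [⟨0, -2⟩, ⟨0, 1⟩, ⟨0, 2⟩, ⟨0, 1⟩, ⟨0, 0⟩, ⟨0, -2⟩],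
          [⟨-2, 0⟩, ⟨1, 0⟩, ⟨2, 0⟩, ⟨1, 0⟩, ⟨0, 0⟩, ⟨-1, 2⟩]⟩]
  sc k := match k.val with
    | 0 => 1
    | 1 => 1
    | 2 => 4
    | _ => 20
  J5 := [[⟨5, 0⟩], [⟨5, 0⟩], [⟨5, 0⟩], [⟨5, 0⟩], [⟨2, -4⟩], [⟨2, -4⟩]]
  I5 := [[⟨5, 0⟩], [⟨5, 0⟩], [⟨5, 0⟩], [⟨5, 0⟩], [⟨5, 0⟩], [⟨5, 0⟩]]

/-- the real form of a Hermitian form with Gaussian integer entries -/
def hermTri (a b c p q r s t u : ℤ) : TF :=
  [[⟨a, 0⟩, ⟨0, 0⟩, ⟨2 * p, 0⟩, ⟨-2 * q, 0⟩, ⟨2 * r, 0⟩, ⟨-2 * s, 0⟩],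
    [⟨a, 0⟩, ⟨2 * q, 0⟩, ⟨2 * p, 0⟩, ⟨2 * s, 0⟩, ⟨2 * r, 0⟩],
    [⟨b, 0⟩, ⟨0, 0⟩, ⟨2 * t, 0⟩, ⟨-2 * u, 0⟩],
    [⟨b, 0⟩, ⟨2 * u, 0⟩, ⟨2 * t, 0⟩],
    [⟨c, 0⟩, ⟨0, 0⟩],
    [⟨c, 0⟩]]

def QC : St → TF
  | .D false => hermTri (-7) (-7) 15 (-2) (-4) (-55) (-34) (-55) 34
  | .D true => hermTri (-65) (-65) (-41) 16 31 35 22 35 (-22)
  | .S x => match x.val with
    | 0 => hermTri (-60) (-61) (-37) (-16) (-31) (-35) (-22) 35 (-22)
    | 1 => hermTri (-61) (-60) (-37) (-16) (-31) 35 22 (-35) 22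
    | 2 => hermTri (-67) (-67) (-41) 29 (-15) 39 (-9) 39 9
    | _ => hermTri (-67) (-67) (-41) (-29) 15 9 39 9 (-39)
  | .E x y => match x.val, y.val with
    | 0, 2 => hermTri (-2) 5 21 (-17) 15 (-49) (-20) 8 48
    | 0, 3 => hermTri (-2) 5 21 22 (-5) (-40) (-35) (-39) (-29)
    | 1, 2 => hermTri 5 (-2) 21 (-17) 15 8 (-48) (-49) 20
    | 1, 3 => hermTri 5 (-2) 21 22 (-5) (-39) 29 (-40) 35
    | 2, 0 => hermTri (-54) 6 (-37) 15 (-20) 30 1 54 (-20)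
    | 2, 1 => hermTri 6 (-54) (-37) 15 (-20) 54 20 30 (-1)
    | 3, 0 => hermTri (-54) 6 (-37) (-25) 0 15 26 42 (-39)
    | 3, 1 => hermTri 6 (-54) (-37) (-25) 0 42 39 15 (-26)
    | _, _ => hermTri 0 0 0 0 0 0 0 0 0

def mCS (b : Bool) : List ℕ := if b then [4, 131, 154, 330, 310, 476, 397, 506, 374]
  else [119, 152, 303, 293, 448, 377, 493, 364, 420]

def mCE (b : Bool) : List ℕ := if b then [13, 133, 166, 341, 331, 503, 429, 547, 413]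
  else [84, 130, 293, 303, 502, 450, 632, 509, 632]

def mCDD (b : Bool) : ℕ := if b then 22 else 219

def mCSD (b : Bool) : ℕ := if b then 0 else 181

def mCED (b : Bool) : ℕ := if b then 26 else 149

def mCDS (b : Bool) : ℕ := if b then 0 else 115

theorem checkC_runS : ∀ x y, side x ≠ side y →
    run dC (tgts QC (mCS (side x)) y x) (QC (.S x)) 1 y x = true := by
  decide +kernel

theorem checkC_runE : ∀ x z y, side x ≠ side z → side x ≠ side y → y ≠ z →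
    run dC (tgts QC (mCE (side x)) y x) (QC (.E x z)) 1 y x = true := by
  decide +kernel

theorem checkC : Checks dC QC mCS mCE mCDD mCSD mCED mCDS where
  lenS := by decide
  lenE := by decide
  DD := by decide +kernel
  SD := by decide +kernel
  ED := by decide +kernel
  DS := by decide +kernel
  runS := checkC_runS
  runE := checkC_runE

/-- the constant `√(2/√5)` -/
noncomputable def ck : ℝ := √(2 * √5 / 5)

theorem ck_sq : ck ^ 2 = 2 * √5 / 5 := by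
  have := sq5_pos
  rw [ck, Real.sq_sqrt (by positivity)]

theorem ck_pos : 0 < ck := by
  have := sq5_pos
  rw [ck, Real.sqrt_pos]
  positivity

theorem ck_inv : ck⁻¹ = ck * √5 / 2 := by
  have h := ck_sq
  have h5 := sq5
  refine inv_eq_of_mul_eq_one_right ?_
  linear_combination (√5 / 2) * h + (1 / 5 : ℝ) * h5

theorem sq5_lt' : √5 < 5 / 2 := by
  rw [Real.sqrt_lt' (by norm_num)]
  norm_num

theorem sq5_inv : (√5)⁻¹ = √5 / 5 := by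
  have h5 := sq5
  refine inv_eq_of_mul_eq_one_right ?_
  linear_combination (1 / 5 : ℝ) * h5

/-- scaled real coordinates -/
noncomputable def coC (v : E2 × ℂ) : ℕ → ℝ
  | 0 => (v.1 0).re
  | 1 => (v.1 0).im
  | 2 => (v.1 1).re
  | 3 => (v.1 1).im
  | 4 => v.2.re * ck⁻¹
  | 5 => v.2.im * ck⁻¹
  | _ => 0

/-- the polar vectors -/
noncomputable def nC : Fin 4 → E2 × ℂ :=
  ![(!₂[1, 0], 0), (!₂[0, 1], 0), (!₂[1, 1], (ck : ℂ)),
    (!₂[⟨√5 / 5, 2 * √5 / 5⟩, ⟨√5 / 5, -(2 * √5 / 5)⟩], (ck : ℂ))]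

noncomputable def cC : Fin 4 → ℝ := ![2, 2, (5 + √5) / 4, (5 + √5) / 4]

theorem B_C (a₀ a₁ a₂ : ℂ) (v : E2 × ℂ) :
    B ((!₂[a₀, a₁], a₂) : E2 × ℂ) v = conj a₀ * v.1 0 + conj a₁ * v.1 1 - conj a₂ * v.2 := by
  simp [B, PiLp.inner_apply, Fin.sum_univ_two]
  ring

theorem q_C (v : E2 × ℂ) : q v = (v.1 0).re ^ 2 + (v.1 0).im ^ 2 + ((v.1 1).re ^ 2 +
    (v.1 1).im ^ 2) - (v.2.re ^ 2 + v.2.im ^ 2) := by
  simp [q, EuclideanSpace.norm_sq_eq, Fin.sum_univ_two, Complex.sq_norm, Complex.normSq_apply]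
  ring

theorem nsq_C (v : E2 × ℂ) : nsq v = (v.1 0).re ^ 2 + (v.1 0).im ^ 2 + ((v.1 1).re ^ 2 +
    (v.1 1).im ^ 2) + (v.2.re ^ 2 + v.2.im ^ 2) := by
  simp [nsq, EuclideanSpace.norm_sq_eq, Fin.sum_univ_two, Complex.sq_norm, Complex.normSq_apply]
  ring

theorem exists_repC : ∃ R : Rep W ℂ E2, ∀ i, R.ρ (cs.simple i) = gr (cC i) (nC i) := by
  have h5 := sq5
  have hk := ck_sq
  refine exists_rep cC nC ?_ ?_ ?_ ?_
  · intro i
    fin_cases i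
    · simp [nC, cC, q_C]
    · simp [nC, cC, q_C]
    · simp [nC, cC, q_C]
      grind
    · simp [nC, cC, q_C]
      grind
  · simp [nC, B_C]
  · simp [nC, B_C]
    apply Complex.ext <;> simp <;> grind
  · intro i j hij
    fin_cases i <;> fin_cases j <;>
      first
        | exact absurd (by decide) hij
        | (simp [nC, cC, B_C, Complex.sq_norm, Complex.normSq_apply]; grind)

theorem coC_smul (T : TF) (a b c p q r s t u : ℤ) (hT : T = hermTri a b c p q r s t u) (z : ℂ)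
    (v : E2 × ℂ) : etf T (coC (z • v)) = ‖z‖ ^ 2 * etf T (coC v) := by
  rw [hT, Complex.sq_norm, Complex.normSq_apply]
  simp only [hermTri, etf, edot, coC, ev, Prod.smul_fst, Prod.smul_snd, PiLp.smul_apply,
    smul_eq_mul, Complex.mul_re, Complex.mul_im]
  push_cast
  ring

theorem QC_herm (s' : St) : ∃ a b c p q r s t u : ℤ, QC s' = hermTri a b c p q r s t u := by
  rcases s' with b | x | ⟨x, y⟩
  · cases b <;> exact ⟨_, _, _, _, _, _, _, _, _, rfl⟩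
  · fin_cases x <;> exact ⟨_, _, _, _, _, _, _, _, _, rfl⟩
  · fin_cases x <;> fin_cases y <;> exact ⟨_, _, _, _, _, _, _, _, _, rfl⟩

theorem opsC0 (v : E2 × ℂ) : acts (dC.ops 0) (coC v) =
    fun i => (dC.sc 0 : ℝ) * coC (gr (cC 0) (nC 0) v) i := by
  have h5 := sq5
  have hk := ck_sq
  have hi := ck_inv
  have hz : (F5.zero.a : ℝ) + (F5.zero.b : ℝ) * Real.goldenRatio = 0 := by simp [F5.zero]
  funext i
  rcases i with _ | _ | _ | _ | _ | _ | i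
  all_goals simp [acts, act, dC, edot, coC, ev, nC, cC, gr_apply, B_C, Real.goldenRatio, hi]
  all_goals grind

theorem opsC1 (v : E2 × ℂ) : acts (dC.ops 1) (coC v) =
    fun i => (dC.sc 1 : ℝ) * coC (gr (cC 1) (nC 1) v) i := by
  have h5 := sq5
  have hk := ck_sq
  have hi := ck_inv
  have hz : (F5.zero.a : ℝ) + (F5.zero.b : ℝ) * Real.goldenRatio = 0 := by simp [F5.zero]
  funext i
  rcases i with _ | _ | _ | _ | _ | _ | i
  all_goals simp [acts, act, dC, edot, coC, ev, nC, cC, gr_apply, B_C, Real.goldenRatio, hi]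
  all_goals grind

theorem opsC2 (v : E2 × ℂ) : acts (dC.ops 2) (coC v) =
    fun i => (dC.sc 2 : ℝ) * coC (gr (cC 2) (nC 2) v) i := by
  have h5 := sq5
  have hk := ck_sq
  have hi := ck_inv
  have hz : (F5.zero.a : ℝ) + (F5.zero.b : ℝ) * Real.goldenRatio = 0 := by simp [F5.zero]
  funext i
  rcases i with _ | _ | _ | _ | _ | _ | i
  all_goals simp [acts, act, dC, edot, coC, ev, nC, cC, gr_apply, B_C, Real.goldenRatio, hi]
  all_goals grind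

theorem opsC3 (v : E2 × ℂ) : acts (dC.ops 3) (coC v) =
    fun i => (dC.sc 3 : ℝ) * coC (gr (cC 3) (nC 3) v) i := by
  have h5 := sq5
  have hk := ck_sq
  have hi := ck_inv
  have hz : (F5.zero.a : ℝ) + (F5.zero.b : ℝ) * Real.goldenRatio = 0 := by simp [F5.zero]
  funext i
  rcases i with _ | _ | _ | _ | _ | _ | i
  all_goals simp [acts, act, dC, edot, coC, ev, nC, cC, gr_apply, B_C, Real.goldenRatio, hi]
  all_goals grind

theorem linkC (R : Rep W ℂ E2) (hR : ∀ i, R.ρ (cs.simple i) = gr (cC i) (nC i)) :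
    Link R dC coC where
  ops := by
    intro k v
    rw [hR k]
    fin_cases k
    · exact opsC0 v
    · exact opsC1 v
    · exact opsC2 v
    · exact opsC3 v
  sc := by decide
  J := by
    intro v
    have h5 := sq5
    have hk := ck_sq
    have hi := ck_inv
    rw [q_C]
    simp only [dC, etf, edot, coC, ev, Real.goldenRatio, hi]
    push_cast
    grind
  I := by
    intro v
    have h1 : 1 ≤ (ck⁻¹) ^ 2 := by
      have h := sq5_lt'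
      have h' := sq5_pos
      rw [inv_pow, ck_sq]
      rw [one_le_inv₀ (by positivity)]
      linarith
    rw [nsq_C]
    simp only [dC, etf, edot, coC, ev, Real.goldenRatio]
    push_cast
    nlinarith [mul_nonneg (sub_nonneg.2 h1) (sq_nonneg v.2.re),
      mul_nonneg (sub_nonneg.2 h1) (sq_nonneg v.2.im), sq_nonneg (v.1 0).re,
      sq_nonneg (v.1 0).im, sq_nonneg (v.1 1).re, sq_nonneg (v.1 1).im, sq_nonneg v.2.re,
      sq_nonneg v.2.im]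
  sub := by
    intro u v i
    rcases i with _ | _ | _ | _ | _ | _ | i <;> simp [coC, sub_mul]
  bound := by
    refine ⟨2, by norm_num, fun v i => ?_⟩
    have h1 : (ck⁻¹) ^ 2 ≤ 4 := by
      have h := sq5_gt
      have h' := sq5_pos
      rw [inv_pow, ck_sq, inv_le_comm₀ (by positivity) (by norm_num)]
      linarith
    have h0 : (2 : ℝ) * √(nsq v) = √(4 * nsq v) := by
      rw [Real.sqrt_mul (by norm_num), show (4 : ℝ) = 2 ^ 2 by norm_num,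
        Real.sqrt_sq (by norm_num)]
    rw [h0]
    refine Real.abs_le_sqrt ?_
    rw [nsq_C]
    rcases i with _ | _ | _ | _ | _ | _ | i
    all_goals simp only [coC]
    all_goals nlinarith [mul_nonneg (sub_nonneg.2 h1) (sq_nonneg v.2.re),
      mul_nonneg (sub_nonneg.2 h1) (sq_nonneg v.2.im), sq_nonneg (v.1 0).re,
      sq_nonneg (v.1 0).im, sq_nonneg (v.1 1).re, sq_nonneg (v.1 1).im, sq_nonneg v.2.re,
      sq_nonneg v.2.im]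

end Cert

theorem exists_certC : ∃ R : Rep W ℂ E2, Certified R Tr := by
  obtain ⟨R, hR⟩ := Cert.exists_repC
  refine ⟨R, (Cert.linkC R hR).certified Cert.checkC (fun s c v => ?_)⟩
  obtain ⟨a, b, c', p, q, r, s', t, u, h⟩ := Cert.QC_herm s
  exact Cert.coC_smul _ a b c' p q r s' t u h c v

end Pool.Agent.Carpet
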