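import Mathlib

/-!
# Computable core for the Lyapunov certificates

Quadratic forms over `ℤ[φ]` as triangular lists, pull-back by rank one maps, division free test of
positive semidefiniteness, and soundness.
-/

set_option autoImplicit false

namespace Pool.Agent.Carpet.Cert

open scoped goldenRatio

/-- `a + b φ` with `φ` the golden ratio. -/
structure F5 where
  a : Int
  b : Int

namespace F5

def zero : F5 := ⟨0, 0⟩

def add (x y : F5) : F5 := ⟨x.a + y.a, x.b + y.b⟩

def neg (x : F5) : F5 := ⟨-x.a, -x.b⟩

def mul (x y : F5) : F5 := ⟨x.a * y.a + x.b * y.b, x.a * y.b + x.b * y.a + x.b * y.b⟩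

def pos (x : F5) : Bool :=
  if 0 < 2 * x.a + x.b then
    (decide (0 ≤ x.b) || decide (5 * (x.b * x.b) < (2 * x.a + x.b) * (2 * x.a + x.b)))
  else (decide (0 < x.b) && decide ((2 * x.a + x.b) * (2 * x.a + x.b) < 5 * (x.b * x.b)))

end F5

/-- addition of vectors -/
def vadd : List F5 → List F5 → List F5
  | [], l => l
  | a :: l, [] => a :: l
  | a :: l, b :: m => a.add b :: vadd l m

/-- multiplication of a vector by a scalar -/
def vsmul (c : F5) : List F5 → List F5
  | [] => []
  | a :: l => c.mul a :: vsmul c l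

/-- scalar product -/
def vdot : List F5 → List F5 → F5
  | [], _ => F5.zero
  | _ :: _, [] => F5.zero
  | a :: l, b :: m => (a.mul b).add (vdot l m)

def vhead : List F5 → F5
  | [] => F5.zero
  | a :: _ => a

def vtail : List F5 → List F5
  | [] => []
  | _ :: l => l

/-- triangular forms: the row `i` contains the coefficients of `x i * x j`, `j ≥ i` -/
abbrev TF : Type := List (List F5)

def tadd : TF → TF → TF
  | [], l => l
  | a :: l, [] => a :: l
  | a :: l, b :: m => vadd a b :: tadd l m

def tsmul (c : F5) : TF → TF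
  | [] => []
  | a :: l => vsmul c a :: tsmul c l

/-- product of two linear forms -/
def mulLin : List F5 → List F5 → TF
  | [], _ => []
  | _ :: _, [] => []
  | a :: m, b :: z => (a.mul b :: vadd (vsmul a z) (vsmul b m)) :: mulLin m z

/-- value of a form at a vector -/
def teval : TF → List F5 → F5
  | [], _ => F5.zero
  | r :: Q, n => ((vhead n).mul (vdot r n)).add (teval Q (vtail n))

/-- gradient of a form at a vector -/
def grad : TF → List F5 → List F5
  | [], _ => []
  | r :: Q, n => vadd (vsmul (vhead n) r) (vdot r n :: grad Q (vtail n))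

/-- the map `x ↦ δ x - (m · x) n` -/
structure Op where
  δ : F5
  m : List F5
  n : List F5

def pull (Q : TF) (p : Op) : TF :=
  tadd (tsmul (p.δ.mul p.δ) Q)
    (mulLin p.m (vadd (vsmul p.δ.neg (grad Q p.n)) (vsmul (teval Q p.n) p.m)))

def pulls : TF → List Op → TF
  | Q, [] => Q
  | Q, p :: l => pulls (pull Q p) l

/-- test of positive semidefiniteness -/
def psd : ℕ → TF → Bool
  | _, [] => true
  | 0, _ :: _ => false
  | k + 1, [] :: Q => psd k Q
  | k + 1, (a :: b) :: Q =>
    a.pos && psd k (tadd (tsmul ((F5.mk 4 0).mul a) Q) (tsmul ⟨-1, 0⟩ (mulLin b b)))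

/-- the data of a representation: `ops k` computes `sc k` times the generator `k` -/
structure Dat where
  ops : Fin 4 → List Op
  sc : Fin 4 → ℕ
  J5 : TF
  I5 : TF

/-- `s (5 T + μ J5 - I5) - 5 Q` -/
def comb (d : Dat) (T : TF) (μ : ℕ) (s : ℕ) (Q : TF) : TF :=
  tadd (tsmul ⟨s, 0⟩ (tadd (tsmul ⟨5, 0⟩ T) (tadd (tsmul ⟨μ, 0⟩ d.J5) (tsmul ⟨-1, 0⟩ d.I5))))
    (tsmul ⟨-5, 0⟩ Q)

/-- the checks along an alternating word -/
def run (d : Dat) : List (TF × ℕ) → TF → ℕ → Fin 4 → Fin 4 → Bool
  | [], _, _, _, _ => true
  | p :: L, Q, s, y, x =>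
    psd 6 (comb d p.1 p.2 (s * (d.sc y * d.sc y)) (pulls Q (d.ops y))) &&
      run d L (pulls Q (d.ops y)) (s * (d.sc y * d.sc y)) x y

/-! ### Evaluation -/

noncomputable def ev (x : F5) : ℝ := (x.a : ℝ) + (x.b : ℝ) * φ

noncomputable def edot : List F5 → (ℕ → ℝ) → ℝ
  | [], _ => 0
  | a :: l, x => ev a * x 0 + edot l (fun i => x (i + 1))

noncomputable def etf : TF → (ℕ → ℝ) → ℝ
  | [], _ => 0
  | r :: Q, x => x 0 * edot r x + etf Q (fun i => x (i + 1))

noncomputable def act (p : Op) (x : ℕ → ℝ) : ℕ → ℝ :=
  fun i => ev p.δ * x i - edot p.m x * ev (p.n.getD i F5.zero)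

/-- composition of the maps, the first one of the list acts last -/
noncomputable def acts : List Op → (ℕ → ℝ) → (ℕ → ℝ)
  | [], x => x
  | p :: l, x => act p (acts l x)

theorem ev_zero : ev F5.zero = 0 := by simp [ev, F5.zero]

theorem ev_add (x y : F5) : ev (x.add y) = ev x + ev y := by
  simp only [ev, F5.add]
  push_cast
  ring

theorem ev_neg (x : F5) : ev x.neg = - ev x := by
  simp only [ev, F5.neg]
  push_cast
  ring

theorem ev_mul (x y : F5) : ev (x.mul y) = ev x * ev y := by
  have h : φ ^ 2 = φ + 1 := Real.goldenRatio_sq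
  simp only [ev, F5.mul]
  push_cast
  linear_combination (-(x.b : ℝ) * (y.b : ℝ)) * h

theorem ev_pos {x : F5} (h : x.pos = true) : 0 < ev x := by
  have h5 : √5 ^ 2 = (5 : ℝ) := Real.sq_sqrt (by norm_num)
  have h50 : (0 : ℝ) < √5 := Real.sqrt_pos.2 (by norm_num)
  have he : ev x = (((2 * x.a + x.b : ℤ) : ℝ) + (x.b : ℝ) * √5) / 2 := by
    simp only [ev, Real.goldenRatio]
    push_cast
    ring
  rw [he]
  unfold F5.pos at h
  set A : ℤ := 2 * x.a + x.b with hA
  split_ifs at h with h0
  · have hA0 : (0 : ℝ) < (A : ℝ) := by exact_mod_cast h0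
    rw [Bool.or_eq_true, decide_eq_true_eq, decide_eq_true_eq] at h
    rcases h with h | h
    · have hB : (0 : ℝ) ≤ (x.b : ℝ) := by exact_mod_cast h
      positivity
    · have hB : 5 * ((x.b : ℝ) * (x.b : ℝ)) < (A : ℝ) * (A : ℝ) := by exact_mod_cast h
      have h2 : ((x.b : ℝ) * √5) ^ 2 < (A : ℝ) ^ 2 := by
        rw [mul_pow, h5]
        linarith
      have h3 := abs_lt_of_sq_lt_sq h2 hA0.le
      linarith [(abs_lt.1 h3).1]
  · rw [Bool.and_eq_true, decide_eq_true_eq, decide_eq_true_eq] at h
    have hB : (0 : ℝ) < (x.b : ℝ) := by exact_mod_cast h.1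
    have h1 : (A : ℝ) * (A : ℝ) < 5 * ((x.b : ℝ) * (x.b : ℝ)) := by exact_mod_cast h.2
    have h2 : (A : ℝ) ^ 2 < ((x.b : ℝ) * √5) ^ 2 := by
      rw [mul_pow, h5]
      linarith
    have h3 := abs_lt_of_sq_lt_sq h2 (by positivity)
    linarith [neg_abs_le (A : ℝ), h3]

theorem edot_vadd (l m : List F5) (x : ℕ → ℝ) : edot (vadd l m) x = edot l x + edot m x := by
  induction l generalizing m x with
  | nil => simp [vadd, edot]
  | cons a l ih =>
    cases m with
    | nil => simp [vadd, edot]
    | cons b m =>
      simp only [vadd, edot, ev_add, ih]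
      ring

theorem edot_vsmul (c : F5) (l : List F5) (x : ℕ → ℝ) : edot (vsmul c l) x = ev c * edot l x := by
  induction l generalizing x with
  | nil => simp [vsmul, edot]
  | cons a l ih =>
    simp only [vsmul, edot, ev_mul, ih]
    ring

theorem etf_tadd (P Q : TF) (x : ℕ → ℝ) : etf (tadd P Q) x = etf P x + etf Q x := by
  induction P generalizing Q x with
  | nil => simp [tadd, etf]
  | cons a l ih =>
    cases Q with
    | nil => simp [tadd, etf]
    | cons b m =>
      simp only [tadd, etf, edot_vadd, ih]
      ring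

theorem etf_tsmul (c : F5) (Q : TF) (x : ℕ → ℝ) : etf (tsmul c Q) x = ev c * etf Q x := by
  induction Q generalizing x with
  | nil => simp [tsmul, etf]
  | cons a l ih =>
    simp only [tsmul, etf, edot_vsmul, ih]
    ring

theorem etf_mulLin (l m : List F5) (x : ℕ → ℝ) : etf (mulLin l m) x = edot l x * edot m x := by
  induction l generalizing m x with
  | nil => simp [mulLin, etf, edot]
  | cons a l ih =>
    cases m with
    | nil => simp [mulLin, etf, edot]
    | cons b m =>
      simp only [mulLin, etf, edot, edot_vadd, edot_vsmul, ev_mul, ih]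
      ring

/-- the stream of a vector -/
noncomputable def evl (n : List F5) : ℕ → ℝ := fun i => ev (n.getD i F5.zero)

theorem evl_zero (n : List F5) : evl n 0 = ev (vhead n) := by
  cases n <;> simp [evl, vhead]

theorem evl_succ (n : List F5) : (fun i => evl n (i + 1)) = evl (vtail n) := by
  funext i
  cases n <;> simp [evl, vtail]

theorem ev_vdot (l n : List F5) : ev (vdot l n) = edot l (evl n) := by
  induction l generalizing n with
  | nil => simp [vdot, edot, ev_zero]
  | cons a l ih =>
    cases n with
    | nil =>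
      have h : ∀ l : List F5, edot l (evl []) = 0 := by
        intro l
        induction l with
        | nil => rfl
        | cons a l ih =>
          simp only [edot, evl_succ, vtail, ih, evl_zero, vhead, ev_zero]
          ring
      rw [h]
      simp [vdot, ev_zero]
    | cons b m =>
      simp only [vdot, edot, ev_add, ev_mul, ih, evl_succ, vtail, evl_zero, vhead]

theorem ev_teval (Q : TF) (n : List F5) : ev (teval Q n) = etf Q (evl n) := by
  induction Q generalizing n with
  | nil => simp [teval, etf, ev_zero]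
  | cons r Q ih =>
    simp only [teval, etf, ev_add, ev_mul, ih, evl_succ, evl_zero, ev_vdot]

theorem edot_sub_smul (l : List F5) (x y : ℕ → ℝ) (s t : ℝ) :
    edot l (fun i => s * x i - t * y i) = s * edot l x - t * edot l y := by
  induction l generalizing x y with
  | nil => simp [edot]
  | cons a l ih =>
    simp only [edot]
    rw [ih (fun i => x (i + 1)) (fun i => y (i + 1))]
    ring

theorem etf_sub_smul (Q : TF) (x : ℕ → ℝ) (n : List F5) (s t : ℝ) :
    etf Q (fun i => s * x i - t * evl n i) =
      s ^ 2 * etf Q x - s * t * edot (grad Q n) x + t ^ 2 * etf Q (evl n) := by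
  induction Q generalizing x n with
  | nil => simp [etf, grad, edot]
  | cons r Q ih =>
    have h := ih (fun i => x (i + 1)) (vtail n)
    rw [← evl_succ] at h
    simp only [etf, grad, edot, edot_vadd, edot_vsmul]
    rw [h, edot_sub_smul, ev_vdot, evl_zero, evl_succ]
    ring

theorem etf_pull (Q : TF) (p : Op) (x : ℕ → ℝ) : etf (pull Q p) x = etf Q (act p x) := by
  have h : act p x = fun i => ev p.δ * x i - edot p.m x * evl p.n i := rfl
  rw [h, etf_sub_smul]
  simp only [pull, etf_tadd, etf_tsmul, etf_mulLin, edot_vadd, edot_vsmul, ev_mul, ev_neg,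
    ev_teval]
  ring

theorem etf_pulls (Q : TF) (l : List Op) (x : ℕ → ℝ) :
    etf (pulls Q l) x = etf Q (acts l x) := by
  induction l generalizing Q with
  | nil => rfl
  | cons p l ih =>
    simp only [pulls, acts]
    rw [ih, etf_pull]

theorem psd_sound (k : ℕ) (Q : TF) (h : psd k Q = true) (x : ℕ → ℝ) : 0 ≤ etf Q x := by
  induction k generalizing Q x with
  | zero =>
    cases Q with
    | nil => simp [etf]
    | cons r Q => simp [psd] at h
  | succ k ih =>
    cases Q with
    | nil => simp [etf]
    | cons r Q =>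
      cases r with
      | nil =>
        simp only [psd] at h
        simp only [etf, edot, mul_zero, zero_add]
        exact ih Q h _
      | cons a b =>
        simp only [psd, Bool.and_eq_true] at h
        have ha := ev_pos h.1
        have h2 := ih _ h.2 (fun i => x (i + 1))
        rw [etf_tadd, etf_tsmul, etf_tsmul, etf_mulLin, ev_mul] at h2
        have e4 : ev ⟨4, 0⟩ = 4 := by simp [ev]
        have e1 : ev ⟨-1, 0⟩ = -1 := by simp [ev]
        rw [e4, e1] at h2
        have h3 : 0 ≤ 4 * ev a * (x 0 * (ev a * x 0 + edot b (fun i => x (i + 1))) +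
            etf Q (fun i => x (i + 1))) := by
          nlinarith [sq_nonneg (2 * ev a * x 0 + edot b (fun i => x (i + 1)))]
        simp only [etf, edot]
        exact nonneg_of_mul_nonneg_right h3 (by positivity)

end Pool.Agent.Carpet.Cert
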