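import Pool.Agent.Lib_helper45.Carpet.CertLink

/-! # Block CERTK : the real representation and its certificate -/

set_option autoImplicit false

namespace Pool.Agent.Carpet

namespace Cert

def dK : Dat where
  ops k := match k.val with
    | 0 => [⟨⟨1, 0⟩, [⟨2, 0⟩], [⟨1, 0⟩]⟩]
    | 1 => [⟨⟨1, 0⟩, [⟨0, 0⟩, ⟨2, 0⟩], [⟨0, 0⟩, ⟨1, 0⟩]⟩]
    | 2 => [⟨⟨2, 0⟩, [⟨-2, -1⟩, ⟨-2, -1⟩, ⟨2, 0⟩, ⟨-2, -2⟩], [⟨-1, 0⟩, ⟨-1, 0⟩, ⟨1, 0⟩, ⟨1, 0⟩]⟩]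
    | _ => [⟨⟨2, 0⟩, [⟨-2, -1⟩, ⟨-2, -1⟩, ⟨-2, 0⟩, ⟨-2, -2⟩],
        [⟨-1, 0⟩, ⟨-1, 0⟩, ⟨-1, 0⟩, ⟨1, 0⟩]⟩]
  sc k := match k.val with
    | 0 => 1
    | 1 => 1
    | _ => 2
  J5 := [[⟨5, 0⟩], [⟨5, 0⟩], [⟨6, -2⟩], [⟨-4, -2⟩]]
  I5 := [[⟨5, 0⟩], [⟨5, 0⟩], [⟨5, 0⟩], [⟨5, 0⟩]]

def QK : St → TF
  | .D false => [[⟨14, 0⟩, ⟨-2, 0⟩, ⟨0, 0⟩, ⟨146, 0⟩], [⟨14, 0⟩, ⟨0, 0⟩, ⟨146, 0⟩], [⟨-18, 0⟩, ⟨0, 0⟩], [⟨20, 0⟩]]
  | .D true => [[⟨-39, 0⟩, ⟨122, 0⟩, ⟨0, 0⟩, ⟨-106, 0⟩], [⟨-39, 0⟩, ⟨0, 0⟩, ⟨-106, 0⟩], [⟨-55, 0⟩, ⟨0, 0⟩], [⟨-99, 0⟩]]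
  | .S x => match x.val with
    | 0 => [[⟨-13, 0⟩, ⟨-102, 0⟩, ⟨0, 0⟩, ⟨122, 0⟩], [⟨4, 0⟩, ⟨0, 0⟩, ⟨-52, 0⟩], [⟨-48, 0⟩, ⟨0, 0⟩], [⟨-55, 0⟩]]
    | 1 => [[⟨4, 0⟩, ⟨-102, 0⟩, ⟨0, 0⟩, ⟨-52, 0⟩], [⟨-13, 0⟩, ⟨0, 0⟩, ⟨122, 0⟩], [⟨-48, 0⟩, ⟨0, 0⟩], [⟨-55, 0⟩]]
    | 2 => [[⟨-55, 0⟩, ⟨90, 0⟩, ⟨-54, 0⟩, ⟨-80, 0⟩], [⟨-55, 0⟩, ⟨-54, 0⟩, ⟨-80, 0⟩], [⟨-39, 0⟩, ⟨48, 0⟩], [⟨-110, 0⟩]]
    | _ => [[⟨-55, 0⟩, ⟨90, 0⟩, ⟨54, 0⟩, ⟨-80, 0⟩], [⟨-55, 0⟩, ⟨54, 0⟩, ⟨-80, 0⟩], [⟨-39, 0⟩, ⟨-48, 0⟩], [⟨-110, 0⟩]]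
  | .E x y => match x.val, y.val with
    | 0, 2 => [[⟨-24, 0⟩, ⟨-78, 0⟩, ⟨-12, 0⟩, ⟨166, 0⟩], [⟨-31, 0⟩, ⟨-64, 0⟩, ⟨-10, 0⟩], [⟨27, 0⟩, ⟨50, 0⟩], [⟨40, 0⟩]]
    | 0, 3 => [[⟨-24, 0⟩, ⟨-78, 0⟩, ⟨12, 0⟩, ⟨166, 0⟩], [⟨-31, 0⟩, ⟨64, 0⟩, ⟨-10, 0⟩], [⟨27, 0⟩, ⟨-50, 0⟩], [⟨40, 0⟩]]
    | 1, 2 => [[⟨-31, 0⟩, ⟨-78, 0⟩, ⟨-64, 0⟩, ⟨-10, 0⟩], [⟨-24, 0⟩, ⟨-12, 0⟩, ⟨166, 0⟩], [⟨27, 0⟩, ⟨50, 0⟩], [⟨40, 0⟩]]
    | 1, 3 => [[⟨-31, 0⟩, ⟨-78, 0⟩, ⟨64, 0⟩, ⟨-10, 0⟩], [⟨-24, 0⟩, ⟨12, 0⟩, ⟨166, 0⟩], [⟨27, 0⟩, ⟨-50, 0⟩], [⟨40, 0⟩]]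
    | 2, 0 => [[⟨-59, 0⟩, ⟨34, 0⟩, ⟨-34, 0⟩, ⟨-38, 0⟩], [⟨0, 0⟩, ⟨8, 0⟩, ⟨-178, 0⟩], [⟨-27, 0⟩, ⟨28, 0⟩], [⟨-51, 0⟩]]
    | 2, 1 => [[⟨0, 0⟩, ⟨34, 0⟩, ⟨8, 0⟩, ⟨-178, 0⟩], [⟨-59, 0⟩, ⟨-34, 0⟩, ⟨-38, 0⟩], [⟨-27, 0⟩, ⟨28, 0⟩], [⟨-51, 0⟩]]
    | 3, 0 => [[⟨-59, 0⟩, ⟨34, 0⟩, ⟨34, 0⟩, ⟨-38, 0⟩], [⟨0, 0⟩, ⟨-8, 0⟩, ⟨-178, 0⟩], [⟨-27, 0⟩, ⟨-28, 0⟩], [⟨-51, 0⟩]]
    | 3, 1 => [[⟨0, 0⟩, ⟨34, 0⟩, ⟨-8, 0⟩, ⟨-178, 0⟩], [⟨-59, 0⟩, ⟨34, 0⟩, ⟨-38, 0⟩], [⟨-27, 0⟩, ⟨-28, 0⟩], [⟨-51, 0⟩]]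
    | _, _ => []

def mKS (b : Bool) : List ℕ := if b then [47, 225, 346, 513, 686, 682, 865, 611, 736]
  else [225, 342, 574, 722, 834, 984, 890, 965, 664]

def mKE (b : Bool) : List ℕ := if b then [46, 194, 330, 505, 701, 727, 951, 745, 939]
  else [181, 348, 587, 806, 890, 1147, 972, 1199, 746]

def mKDD (b : Bool) : ℕ := if b then 46 else 373

def mKSD (b : Bool) : ℕ := if b then 48 else 348

def mKED (b : Bool) : ℕ := if b then 5 else 304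

def mKDS (b : Bool) : ℕ := if b then 0 else 128

theorem checkK_runS : ∀ x y, side x ≠ side y →
    run dK (tgts QK (mKS (side x)) y x) (QK (.S x)) 1 y x = true := by
  decide +kernel

theorem checkK_runE : ∀ x z y, side x ≠ side z → side x ≠ side y → y ≠ z →
    run dK (tgts QK (mKE (side x)) y x) (QK (.E x z)) 1 y x = true := by
  decide +kernel

theorem checkK : Checks dK QK mKS mKE mKDD mKSD mKED mKDS where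
  lenS := by decide
  lenE := by decide
  DD := by decide +kernel
  SD := by decide +kernel
  ED := by decide +kernel
  DS := by decide +kernel
  runS := checkK_runS
  runE := checkK_runE

end Cert

namespace Cert

theorem sq5 : √5 ^ 2 = (5 : ℝ) := Real.sq_sqrt (by norm_num)

theorem sq5_pos : (0 : ℝ) < √5 := Real.sqrt_pos.2 (by norm_num)

theorem sq5_lt : √5 < 3 := by
  rw [Real.sqrt_lt' (by norm_num)]
  norm_num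

theorem sq5_gt : 2 < √5 := by
  rw [Real.lt_sqrt (by norm_num)]
  norm_num

theorem cb_sq' : cb ^ 2 = (5 + √5) / 8 := by
  have := sq5_pos
  rw [cb, Real.sq_sqrt (by positivity)]

theorem cb_pos' : 0 < cb := by
  have := sq5_pos
  rw [cb, Real.sqrt_pos]
  positivity

theorem ca_sq' : ca ^ 2 = 1 / 2 := by
  rw [ca, div_pow, Real.sq_sqrt (by norm_num), one_pow]

theorem ca_pos' : 0 < ca := by
  rw [ca]
  positivity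

theorem cz_sq' : cz ^ 2 = (3 + √5) / 4 := by
  have := sq5_pos
  rw [cz, Real.sq_sqrt (by rw [cb_sq']; linarith), cb_sq']
  ring

theorem cz_pos' : 0 < cz := by
  have := sq5_pos
  rw [cz, Real.sqrt_pos, cb_sq']
  linarith

/-- scaled coordinates -/
noncomputable def coK (v : E3 × ℝ) : ℕ → ℝ
  | 0 => v.1 0
  | 1 => v.1 1
  | 2 => v.1 2 * (cb / ca)
  | 3 => v.2 * (cb / cz)
  | _ => 0

theorem B_K (a₀ a₁ a₂ a₃ : ℝ) (v : E3 × ℝ) :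
    B ((!₂[a₀, a₁, a₂], a₃) : E3 × ℝ) v = a₀ * v.1 0 + a₁ * v.1 1 + a₂ * v.1 2 - a₃ * v.2 := by
  simp [B, PiLp.inner_apply, Fin.sum_univ_three]
  ring

theorem q_K (v : E3 × ℝ) : q v = v.1 0 ^ 2 + v.1 1 ^ 2 + v.1 2 ^ 2 - v.2 ^ 2 := by
  simp [q, EuclideanSpace.norm_sq_eq, Fin.sum_univ_three]

theorem nsq_K (v : E3 × ℝ) : nsq v = v.1 0 ^ 2 + v.1 1 ^ 2 + v.1 2 ^ 2 + v.2 ^ 2 := by
  simp [nsq, EuclideanSpace.norm_sq_eq, Fin.sum_univ_three]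

theorem cb_div_ca : cb / ca = 2 * cb * ca := by
  have h2 := ca_sq'
  rw [div_eq_iff ca_pos'.ne']
  linear_combination (-2 * cb) * h2

theorem cb_div_cz : cb / cz = cb * cz * (3 - √5) := by
  have h3 := cz_sq'
  have h5 := sq5
  rw [div_eq_iff cz_pos'.ne']
  linear_combination (-cb * (3 - √5)) * h3 + (1 / 4 * cb) * h5

theorem cb_ca_sq : 1 ≤ (cb / ca) ^ 2 ∧ (cb / ca) ^ 2 ≤ 4 := by
  have h := sq5_lt
  have h' := sq5_pos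
  rw [div_pow, cb_sq', ca_sq']
  constructor <;> linarith

theorem cb_cz_sq : 1 / 2 ≤ (cb / cz) ^ 2 ∧ (cb / cz) ^ 2 ≤ 4 := by
  have h := sq5_lt
  have h' := sq5_pos
  rw [div_pow, cb_sq', cz_sq']
  constructor
  · rw [le_div_iff₀ (by positivity)]
    linarith
  · rw [div_le_iff₀ (by positivity)]
    linarith

theorem exists_repK : ∃ R : Rep W ℝ E3, IsKleinian R := by
  have h5 := sq5
  have hq : ∀ i, (fun _ : Fin 4 => (2 : ℝ)) i * q (nK i) = 2 := by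
    intro i
    fin_cases i
    · simp [nK, q_K]
    · simp [nK, q_K]
    · simp [nK, q_K]
      linear_combination 2 * cb_sq' + ca_sq' - cz_sq'
    · simp [nK, q_K]
      linear_combination 2 * cb_sq' + ca_sq' - cz_sq'
  have hside : ∀ i j, side i ≠ side j → B (nK i) (nK j) = -cb := by
    intro i j hij
    fin_cases i <;> fin_cases j <;>
      first
        | exact absurd (by decide) hij
        | (simp [nK, B_K])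
  obtain ⟨R, hR⟩ := exists_rep (fun _ : Fin 4 => (2 : ℝ)) nK hq
    (by simp [nK, B_K])
    (by
      simp [nK, B_K]
      linear_combination 2 * cb_sq' - ca_sq' - cz_sq')
    (by
      intro i j hij
      rw [hside i j hij, norm_neg, Real.norm_eq_abs, sq_abs, cb_sq']
      ring)
  exact ⟨R, fun i => (hR i).trans (gr_two _)⟩

theorem linkK (R : Rep W ℝ E3) (hR : IsKleinian R) : Link R dK coK where
  ops := by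
    intro k v
    rw [hR k]
    have hcb := cb_pos'.ne'
    have hca := ca_pos'.ne'
    have hcz := cz_pos'.ne'
    have h5 := sq5
    have h1 := cb_sq'
    have h2 := ca_sq'
    have h3 := cz_sq'
    funext i
    have hd1 := cb_div_ca
    have hd2 := cb_div_cz
    have hz : (F5.zero.a : ℝ) + (F5.zero.b : ℝ) * Real.goldenRatio = 0 := by simp [F5.zero]
    fin_cases k
    · rcases i with _ | _ | _ | _ | i
      all_goals simp [acts, act, dK, edot, coK, ev, nK, refl, B_K, Real.goldenRatio, hd1, hd2]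
      all_goals grind
    · rcases i with _ | _ | _ | _ | i
      all_goals simp [acts, act, dK, edot, coK, ev, nK, refl, B_K, Real.goldenRatio, hd1, hd2]
      all_goals grind
    · rcases i with _ | _ | _ | _ | i
      all_goals simp [acts, act, dK, edot, coK, ev, nK, refl, B_K, Real.goldenRatio, hd1, hd2]
      all_goals grind
    · rcases i with _ | _ | _ | _ | i
      all_goals simp [acts, act, dK, edot, coK, ev, nK, refl, B_K, Real.goldenRatio, hd1, hd2]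
      all_goals grind
  sc := by decide
  J := by
    intro v
    have h1 := cb_sq'
    have h2 := ca_sq'
    have h3 := cz_sq'
    have h5 := sq5
    have hd1 := cb_div_ca
    have hd2 := cb_div_cz
    rw [q_K]
    simp only [dK, etf, edot, coK, ev, Real.goldenRatio, hd1, hd2]
    push_cast
    grind
  I := by
    intro v
    have h1 := cb_ca_sq
    have h2 := cb_cz_sq
    have h3 := sq5_lt
    have h4 := sq5_pos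
    rw [nsq_K]
    simp only [dK, etf, edot, coK, ev, Real.goldenRatio]
    push_cast
    nlinarith [mul_nonneg (sub_nonneg.2 h1.1) (sq_nonneg (v.1 2)),
      mul_nonneg (sub_nonneg.2 h2.1) (sq_nonneg v.2), sq_nonneg (v.1 0), sq_nonneg (v.1 1),
      sq_nonneg (v.1 2), sq_nonneg v.2]
  sub := by
    intro u v i
    rcases i with _ | _ | _ | _ | i <;> simp [coK, sub_mul]
  bound := by
    refine ⟨2, by norm_num, fun v i => ?_⟩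
    have h1 := cb_ca_sq
    have h2 := cb_cz_sq
    have h0 : (2 : ℝ) * √(nsq v) = √(4 * nsq v) := by
      rw [Real.sqrt_mul (by norm_num), show (4 : ℝ) = 2 ^ 2 by norm_num,
        Real.sqrt_sq (by norm_num)]
    rw [h0]
    refine Real.abs_le_sqrt ?_
    rw [nsq_K]
    rcases i with _ | _ | _ | _ | i
    all_goals simp only [coK]
    · nlinarith [sq_nonneg (v.1 0), sq_nonneg (v.1 1), sq_nonneg (v.1 2), sq_nonneg v.2]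
    · nlinarith [sq_nonneg (v.1 0), sq_nonneg (v.1 1), sq_nonneg (v.1 2), sq_nonneg v.2]
    · nlinarith [mul_nonneg (sub_nonneg.2 h1.2) (sq_nonneg (v.1 2)), sq_nonneg (v.1 0),
        sq_nonneg (v.1 1), sq_nonneg (v.1 2), sq_nonneg v.2]
    · nlinarith [mul_nonneg (sub_nonneg.2 h2.2) (sq_nonneg v.2), sq_nonneg (v.1 0),
        sq_nonneg (v.1 1), sq_nonneg (v.1 2), sq_nonneg v.2]
    · nlinarith [sq_nonneg (v.1 0), sq_nonneg (v.1 1), sq_nonneg (v.1 2), sq_nonneg v.2]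

end Cert

theorem exists_certK : ∃ R : Rep W ℝ E3, IsKleinian R ∧ Certified R Tr := by
  obtain ⟨R, hR⟩ := Cert.exists_repK
  refine ⟨R, hR, (Cert.linkK R hR).certified Cert.checkK (fun s c v => ?_)⟩
  have h : Cert.coK (c • v) = fun i => c * Cert.coK v i := by
    funext i
    rcases i with _ | _ | _ | _ | i <;> simp [Cert.coK, mul_assoc]
  rw [h, Cert.etf_smul, Real.norm_eq_abs, sq_abs]

end Pool.Agent.Carpet
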