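import Pool.Agent.Lib_helper45.Carpet.CertRep
import Pool.Agent.Lib_helper45.Carpet.CertCore

/-!
# From the kernel checks to `Certified`
-/

set_option autoImplicit false

namespace Pool.Agent.Carpet.Cert

open scoped ComplexConjugate InnerProductSpace

/-- the targets of the transitions along an alternating word -/
def tgts (Q : St → TF) : List ℕ → Fin 4 → Fin 4 → List (TF × ℕ)
  | [], _, _ => []
  | μ :: l, y, x => (Q (.E y x), μ) :: tgts Q l x y

/-- alternating words -/
def altL : ℕ → Fin 4 → Fin 4 → List (Fin 4)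
  | 0, _, _ => []
  | k + 1, y, x => y :: altL k x y

/-- the doubles -/
def dblL : Bool → List (Fin 4)
  | false => [0, 1]
  | true => [2, 3]

def pullw (d : Dat) : TF → List (Fin 4) → TF
  | Q, [] => Q
  | Q, k :: w => pullw d (pulls Q (d.ops k)) w

def tot (d : Dat) : List (Fin 4) → ℕ
  | [] => 1
  | k :: w => (d.sc k * d.sc k) * tot d w

theorem alt_eq (k : ℕ) (y x : Fin 4) : alt k y x = cs.wordProd (altL k y x) := by
  induction k generalizing y x with
  | zero => simp [alt, altL]
  | succ k ih =>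
    rw [alt, altL, cs.wordProd_cons, ih]

theorem dbl_eq (b : Bool) : dbl b = cs.wordProd (dblL b) := by
  cases b <;> simp [dbl, dblL, cs.wordProd_cons]

theorem run_sound (d : Dat) (L : List (TF × ℕ)) (Q : TF) (s : ℕ) (y x : Fin 4)
    (h : run d L Q s y x = true) (i : ℕ) (hi : i < L.length) :
    psd 6 (comb d (L[i]).1 (L[i]).2 (s * tot d (altL (i + 1) y x))
      (pullw d Q (altL (i + 1) y x))) = true := by
  induction L generalizing Q s y x i with
  | nil => simp at hi
  | cons p L ih =>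
    simp only [run, Bool.and_eq_true] at h
    cases i with
    | zero =>
      have h1 : s * tot d (altL (0 + 1) y x) = s * (d.sc y * d.sc y) := by
        simp [altL, tot]
      rw [h1]
      exact h.1
    | succ i =>
      have h2 := ih (pulls Q (d.ops y)) (s * (d.sc y * d.sc y)) x y h.2 i
        (by simpa using hi)
      have h1 : s * tot d (altL (i + 1 + 1) y x) =
          s * (d.sc y * d.sc y) * tot d (altL (i + 1) x y) := by
        rw [altL, tot]
        ring
      rw [h1]
      exact h2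

theorem tgts_get (Q : St → TF) (L : List ℕ) (y x : Fin 4) (i : ℕ) (hi : i < L.length)
    (hi' : i < (tgts Q L y x).length) :
    (tgts Q L y x)[i].2 = L[i] ∧
      (tgts Q L y x)[i].1 = if i % 2 = 0 then Q (.E y x) else Q (.E x y) := by
  induction L generalizing y x i with
  | nil => simp at hi
  | cons μ L ih =>
    cases i with
    | zero => simp [tgts]
    | succ i =>
      have h := ih x y i (by simpa using hi) (by simpa [tgts] using hi')
      simp only [tgts, List.getElem_cons_succ]
      refine ⟨h.1, ?_⟩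
      rw [h.2]
      rcases Nat.mod_two_eq_zero_or_one i with h0 | h0
      · have h1 : (i + 1) % 2 = 1 := by omega
        simp [h0, h1]
      · have h1 : (i + 1) % 2 = 0 := by omega
        simp [h0, h1]

theorem tgts_length (Q : St → TF) (L : List ℕ) (y x : Fin 4) :
    (tgts Q L y x).length = L.length := by
  induction L generalizing y x with
  | nil => rfl
  | cons μ L ih => simp [tgts, ih]

theorem etf_smul (Q : TF) (s : ℝ) (x : ℕ → ℝ) : etf Q (fun i => s * x i) = s ^ 2 * etf Q x := by
  have h := etf_sub_smul Q x [] s 0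
  have h1 : (fun i => s * x i - 0 * evl [] i) = fun i => s * x i := by
    funext i
    ring
  rw [h1] at h
  rw [h]
  ring

/-- the sum of the absolute values of the entries -/
noncomputable def nrmv : List F5 → ℝ
  | [] => 0
  | a :: l => |ev a| + nrmv l

noncomputable def nrm : TF → ℝ
  | [] => 0
  | r :: Q => nrmv r + nrm Q

theorem nrmv_nonneg (l : List F5) : 0 ≤ nrmv l := by
  induction l with
  | nil => exact le_rfl
  | cons a l ih => exact add_nonneg (abs_nonneg _) ih

theorem nrm_nonneg (Q : TF) : 0 ≤ nrm Q := by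
  induction Q with
  | nil => exact le_rfl
  | cons a l ih => exact add_nonneg (nrmv_nonneg _) ih

theorem edot_le (l : List F5) (x : ℕ → ℝ) (a : ℝ) (hx : ∀ i, |x i| ≤ a) :
    |edot l x| ≤ nrmv l * a := by
  induction l generalizing x with
  | nil => simp [edot, nrmv]
  | cons b l ih =>
    simp only [edot, nrmv]
    have h := ih (fun i => x (i + 1)) (fun i => hx (i + 1))
    calc |ev b * x 0 + edot l fun i => x (i + 1)| ≤ |ev b * x 0| + |edot l fun i => x (i + 1)| :=
          abs_add_le _ _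
      _ ≤ |ev b| * a + nrmv l * a := by
          rw [abs_mul]
          exact add_le_add (mul_le_mul_of_nonneg_left (hx 0) (abs_nonneg _)) h
      _ = (|ev b| + nrmv l) * a := by ring

theorem edot_sub (l : List F5) (x y : ℕ → ℝ) :
    edot l x - edot l y = edot l (fun i => x i - y i) := by
  have h := edot_sub_smul l x y 1 1
  simp only [one_mul] at h
  exact h.symm

theorem etf_lip (Q : TF) (x y : ℕ → ℝ) (a b c : ℝ) (ha : ∀ i, |x i - y i| ≤ a)
    (hb : ∀ i, |x i| ≤ b) (hc : ∀ i, |y i| ≤ c) :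
    |etf Q x - etf Q y| ≤ nrm Q * (a * (b + c)) := by
  induction Q generalizing x y with
  | nil => simp [etf, nrm]
  | cons r Q ih =>
    have h := ih (fun i => x (i + 1)) (fun i => y (i + 1)) (fun i => ha (i + 1))
      (fun i => hb (i + 1)) (fun i => hc (i + 1))
    have ha0 : 0 ≤ a := (abs_nonneg _).trans (ha 0)
    have hb0 : 0 ≤ b := (abs_nonneg _).trans (hb 0)
    have hc0 : 0 ≤ c := (abs_nonneg _).trans (hc 0)
    simp only [etf, nrm]
    have e : x 0 * edot r x + etf Q (fun i => x (i + 1)) -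
        (y 0 * edot r y + etf Q (fun i => y (i + 1))) =
        (x 0 - y 0) * edot r x + y 0 * edot r (fun i => x i - y i) +
          (etf Q (fun i => x (i + 1)) - etf Q (fun i => y (i + 1))) := by
      rw [← edot_sub]
      ring
    rw [e]
    have h1 : |(x 0 - y 0) * edot r x| ≤ a * (nrmv r * b) := by
      rw [abs_mul]
      exact mul_le_mul (ha 0) (edot_le r x b hb) (abs_nonneg _) ha0
    have h2 : |y 0 * edot r (fun i => x i - y i)| ≤ c * (nrmv r * a) := by
      rw [abs_mul]
      exact mul_le_mul (hc 0) (edot_le r _ a ha) (abs_nonneg _) hc0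
    calc _ ≤ |(x 0 - y 0) * edot r x + y 0 * edot r (fun i => x i - y i)| +
          |etf Q (fun i => x (i + 1)) - etf Q (fun i => y (i + 1))| := abs_add_le _ _
      _ ≤ (|(x 0 - y 0) * edot r x| + |y 0 * edot r (fun i => x i - y i)|) +
          |etf Q (fun i => x (i + 1)) - etf Q (fun i => y (i + 1))| := by
          gcongr
          exact abs_add_le _ _
      _ ≤ (a * (nrmv r * b) + c * (nrmv r * a)) + nrm Q * (a * (b + c)) := by
          gcongr
      _ = (nrmv r + nrm Q) * (a * (b + c)) := by ring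

theorem finite_St : Finite St := by
  let f : St → Bool ⊕ (Fin 4 ⊕ (Fin 4 × Fin 4)) := fun s =>
    match s with
    | .D b => Sum.inl b
    | .S x => Sum.inr (Sum.inl x)
    | .E x y => Sum.inr (Sum.inr (x, y))
  refine Finite.of_injective f ?_
  intro s t h
  cases s <;> cases t <;> simp_all [f]

section

variable {𝕜 E : Type*} [RCLike 𝕜] [NormedAddCommGroup E] [InnerProductSpace 𝕜 E]

/-- The link between the computable data and a representation. -/
structure Link (R : Rep W 𝕜 E) (d : Dat) (co : E × 𝕜 → ℕ → ℝ) : Prop where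
  ops : ∀ k v, acts (d.ops k) (co v) = fun i => (d.sc k : ℝ) * co (R.ρ (cs.simple k) v) i
  sc : ∀ k, 0 < d.sc k
  J : ∀ v, etf d.J5 (co v) = 5 * q v
  I : ∀ v, 5 / 2 * nsq v ≤ etf d.I5 (co v)
  sub : ∀ u v i, co (u - v) i = co u i - co v i
  bound : ∃ K : ℝ, 0 ≤ K ∧ ∀ v i, |co v i| ≤ K * √(nsq v)

variable {R : Rep W 𝕜 E} {d : Dat} {co : E × 𝕜 → ℕ → ℝ}

theorem Link.tot_pos (h : Link R d co) (w : List (Fin 4)) : 0 < tot d w := by
  induction w with
  | nil => exact Nat.one_pos
  | cons k w ih => exact Nat.mul_pos (Nat.mul_pos (h.sc k) (h.sc k)) ih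

theorem Link.pullw_eq (h : Link R d co) (Q : TF) (w : List (Fin 4)) (v : E × 𝕜) :
    etf (pullw d Q w) (co v) = (tot d w : ℝ) * etf Q (co (R.ρ (cs.wordProd w) v)) := by
  induction w generalizing Q with
  | nil => simp [pullw, tot]
  | cons k w ih =>
    rw [pullw, ih, etf_pulls, h.ops, etf_smul, cs.wordProd_cons, map_mul,
      Module.End.mul_apply, tot]
    push_cast
    ring

theorem Link.lmi (h : Link R d co) {T Q : TF} {μ : ℕ} {w : List (Fin 4)}
    (hc : psd 6 (comb d T μ (tot d w) (pullw d Q w)) = true) (v : E × 𝕜) (hv : q v ≤ 0) :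
    etf Q (co (R.ρ (cs.wordProd w) v)) ≤ etf T (co v) - 1 / 2 * nsq v := by
  have h1 := psd_sound _ _ hc (co v)
  have ht : (0 : ℝ) < (tot d w : ℝ) := by exact_mod_cast h.tot_pos w
  have hev : ∀ n : ℕ, ev ⟨(n : ℤ), 0⟩ = (n : ℝ) := by
    intro n
    simp [ev]
  have e5 : ev ⟨5, 0⟩ = 5 := by simp [ev]
  have e5' : ev ⟨-5, 0⟩ = -5 := by simp [ev]
  have e1' : ev ⟨-1, 0⟩ = -1 := by simp [ev]
  rw [comb, etf_tadd, etf_tsmul, etf_tadd, etf_tsmul, etf_tadd, etf_tsmul, etf_tsmul, etf_tsmul,
    hev, hev, e5, e5', e1', h.pullw_eq, h.J] at h1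
  have h2 := h.I v
  have h3 : (μ : ℝ) * (5 * q v) ≤ 0 :=
    mul_nonpos_of_nonneg_of_nonpos (Nat.cast_nonneg _) (by linarith)
  have h4 : 0 ≤ (tot d w : ℝ) * (5 * etf T (co v) + ((μ : ℝ) * (5 * q v) +
      -1 * etf d.I5 (co v)) + -5 * etf Q (co (R.ρ (cs.wordProd w) v))) := by
    linarith
  have h5 := nonneg_of_mul_nonneg_right h4 ht
  linarith

/-- The conditions checked by the kernel. -/
structure Checks (d : Dat) (Q : St → TF) (mS mE : Bool → List ℕ) (mDD mSD mED : Bool → ℕ)
    (mDS : Bool → ℕ) : Prop where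
  lenS : ∀ b, (mS b).length = 9
  lenE : ∀ b, (mE b).length = 9
  DD : ∀ b, psd 6 (comb d (Q (.D (!b))) (mDD b) (tot d (dblL (!b)))
    (pullw d (Q (.D b)) (dblL (!b)))) = true
  SD : ∀ x, psd 6 (comb d (Q (.D (!side x))) (mSD (side x)) (tot d (dblL (!side x)))
    (pullw d (Q (.S x)) (dblL (!side x)))) = true
  ED : ∀ x y, side x ≠ side y →
    psd 6 (comb d (Q (.D (!side x))) (mED (side x)) (tot d (dblL (!side x)))
      (pullw d (Q (.E x y)) (dblL (!side x)))) = true
  DS : ∀ b y, side y ≠ b → psd 6 (comb d (Q (.S y)) (mDS b) (tot d [y])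
    (pullw d (Q (.D b)) [y])) = true
  runS : ∀ x y, side x ≠ side y → run d (tgts Q (mS (side x)) y x) (Q (.S x)) 1 y x = true
  runE : ∀ x z y, side x ≠ side z → side x ≠ side y → y ≠ z →
    run d (tgts Q (mE (side x)) y x) (Q (.E x z)) 1 y x = true

theorem Link.run_lmi (h : Link R d co) {Q : St → TF} {L : List ℕ} (hL : L.length = 9) {P : TF}
    {y x : Fin 4} (hr : run d (tgts Q L y x) P 1 y x = true) {k : ℕ} (hk : k < 9) (v : E × 𝕜)
    (hv : q v ≤ 0) :
    etf P (co (R.ρ (alt (k + 1) y x) v)) ≤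
      etf (if k % 2 = 0 then Q (.E y x) else Q (.E x y)) (co v) - 1 / 2 * nsq v := by
  have hk' : k < (tgts Q L y x).length := by rw [tgts_length, hL]; exact hk
  have h1 := run_sound d _ _ _ _ _ hr k hk'
  rw [one_mul, (tgts_get Q L y x k (by rw [hL]; exact hk) hk').2] at h1
  rw [alt_eq]
  exact h.lmi h1 v hv

theorem Link.certified (h : Link R d co) {Q : St → TF} {mS mE : Bool → List ℕ}
    {mDD mSD mED mDS : Bool → ℕ} (hc : Checks d Q mS mE mDD mSD mED mDS)
    (hhom : ∀ s (c : 𝕜) v, etf (Q s) (co (c • v)) = ‖c‖ ^ 2 * etf (Q s) (co v)) :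
    Certified R Tr := by
  obtain ⟨K, hK0, hK⟩ := h.bound
  have := finite_St
  obtain ⟨C₀, hC₀⟩ : ∃ C₀ : ℝ, ∀ s, nrm (Q s) ≤ C₀ := by
    obtain ⟨C₀, hC₀⟩ := (Set.finite_range (fun s => nrm (Q s))).bddAbove
    exact ⟨C₀, fun s => hC₀ ⟨s, rfl⟩⟩
  have hC₀0 : 0 ≤ C₀ := (nrm_nonneg _).trans (hC₀ (.D false))
  have hlip : ∀ s u v, |etf (Q s) (co u) - etf (Q s) (co v)| ≤
      (C₀ * K ^ 2 + 1) * (√(nsq (u - v)) * (√(nsq u) + √(nsq v))) := by
    intro s u v
    have h1 := etf_lip (Q s) (co u) (co v) (K * √(nsq (u - v))) (K * √(nsq u)) (K * √(nsq v))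
      (fun i => by rw [← h.sub]; exact hK _ _) (fun i => hK _ _) (fun i => hK _ _)
    refine h1.trans ?_
    have h2 : K * √(nsq (u - v)) * (K * √(nsq u) + K * √(nsq v)) =
        K ^ 2 * (√(nsq (u - v)) * (√(nsq u) + √(nsq v))) := by ring
    rw [h2, ← mul_assoc]
    refine mul_le_mul_of_nonneg_right ?_ (by positivity)
    have := mul_le_mul_of_nonneg_right (hC₀ s) (sq_nonneg K)
    linarith
  have h0 : ∀ s, etf (Q s) (co 0) = 0 := by
    intro s
    have := hhom s 0 0
    rw [smul_zero, norm_zero] at this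
    rw [this]
    ring
  refine ⟨fun s v => etf (Q s) (co v), C₀ * K ^ 2 + 1, 1 / 2, by positivity, by norm_num,
    hhom, fun s v => ?_, hlip, ?_⟩
  · have h1 := hlip s v 0
    have h2 : nsq (0 : E × 𝕜) = 0 := by simp [nsq]
    have h3 : 0 ≤ nsq v := by unfold nsq; positivity
    rw [h0, sub_zero, sub_zero, h2, Real.sqrt_zero, add_zero, Real.mul_self_sqrt h3] at h1
    exact h1
  · intro s g s' ht v hv
    cases ht with
    | DD b =>
      rw [dbl_eq]
      exact h.lmi (hc.DD b) v hv
    | SD x =>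
      rw [dbl_eq]
      exact h.lmi (hc.SD x) v hv
    | ED x y hxy =>
      rw [dbl_eq]
      exact h.lmi (hc.ED x y hxy) v hv
    | DS b y hy =>
      have := h.lmi (hc.DS b y hy) v hv
      rw [cs.wordProd_singleton] at this
      exact this
    | SEo x y k hxy hk =>
      have h1 := h.run_lmi (hc.lenS (side x)) (hc.runS x y hxy) (k := 2 * k) (by omega) v hv
      have h2 : 2 * k % 2 = 0 := by omega
      rw [if_pos h2] at h1
      exact h1
    | SEe x y k hxy hk =>
      have h1 := h.run_lmi (hc.lenS (side x)) (hc.runS x y hxy) (k := 2 * k - 1) (by omega) v hv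
      have h2 : ¬ (2 * k - 1) % 2 = 0 := by omega
      have h3 : 2 * k - 1 + 1 = 2 * k := by omega
      rw [if_neg h2, h3] at h1
      exact h1
    | EEo x z y k hz hxy hzy hk =>
      have h1 := h.run_lmi (hc.lenE (side x)) (hc.runE x z y hz hxy hzy) (k := 2 * k) (by omega) v hv
      have h2 : 2 * k % 2 = 0 := by omega
      rw [if_pos h2] at h1
      exact h1
    | EEe x z y k hz hxy hzy hk =>
      have h1 := h.run_lmi (hc.lenE (side x)) (hc.runE x z y hz hxy hzy) (k := 2 * k - 1) (by omega)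
        v hv
      have h2 : ¬ (2 * k - 1) % 2 = 0 := by omega
      have h3 : 2 * k - 1 + 1 = 2 * k := by omega
      rw [if_neg h2, h3] at h1
      exact h1

end

end Pool.Agent.Carpet.Cert
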