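import Pool.Agent.Lib_helper45.Carpet.Geo

/-!
# Representations of `W` by four reflections
-/

set_option autoImplicit false

namespace Pool.Agent.Carpet

open scoped ComplexConjugate InnerProductSpace

section

variable {𝕜 E : Type*} [RCLike 𝕜] [NormedAddCommGroup E] [InnerProductSpace 𝕜 E]

/-- The reflection `v ↦ v - c B(n, v) n`. -/
noncomputable def gr (c : ℝ) (n : E × 𝕜) : Module.End 𝕜 (E × 𝕜) :=
  { toFun := fun v => v - ((c : 𝕜) * B n v) • n
    map_add' := by
      intro x y
      have h : B n (x + y) = B n x + B n y := B_add_right n x y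
      rw [h, mul_add, add_smul]
      abel
    map_smul' := by
      intro c x
      have h : B n (c • x) = c * B n x := B_smul_right c n x
      rw [h, RingHom.id_apply, smul_sub, smul_smul]
      congr 2
      ring }

theorem gr_apply (c : ℝ) (n v : E × 𝕜) : gr c n v = v - ((c : 𝕜) * B n v) • n := rfl

theorem gr_two (n : E × 𝕜) : gr 2 n = refl n := by
  refine LinearMap.ext fun v => ?_
  show v - (((2 : ℝ) : 𝕜) * B n v) • n = v - (2 * B n v) • n
  rw [RCLike.ofReal_ofNat]

theorem gr_pres {c : ℝ} {n : E × 𝕜} (h : c * q n = 2) (u v : E × 𝕜) :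
    B (gr c n u) (gr c n v) = B u v := by
  have hc : ((c : 𝕜)) * B n n = 2 := by
    rw [B_self, ← RCLike.ofReal_mul, h, RCLike.ofReal_ofNat]
  have hcc : conj (c : 𝕜) = (c : 𝕜) := RCLike.conj_ofReal c
  rw [gr_apply, gr_apply, B_sub_right, B_sub_left, B_sub_left, B_smul_right, B_smul_left,
    B_smul_right, B_smul_left, map_mul, hcc, B_conj]
  linear_combination (c : 𝕜) * B n v * B u n * hc

theorem gr_self {c : ℝ} {n : E × 𝕜} (h : c * q n = 2) : gr c n n = - n := by
  have hc : ((c : 𝕜)) * B n n = 2 := by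
    rw [B_self, ← RCLike.ofReal_mul, h, RCLike.ofReal_ofNat]
  rw [gr_apply, hc, two_smul]
  abel

theorem gr_sq {c : ℝ} {n : E × 𝕜} (h : c * q n = 2) : gr c n * gr c n = 1 := by
  refine LinearMap.ext fun v => ?_
  rw [Module.End.mul_apply, gr_apply c n v, map_sub, map_smul, gr_self h, gr_apply,
    Module.End.one_apply, smul_neg]
  abel

theorem gr_comm {c c' : ℝ} {n n' : E × 𝕜} (h : c * q n = 2) (h' : c' * q n' = 2)
    (h0 : B n n' = 0) : (gr c n * gr c' n') ^ 2 = 1 := by
  have h0' : B n' n = 0 := by rw [← B_conj, h0, map_zero]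
  have hcomm : gr c n * gr c' n' = gr c' n' * gr c n := by
    refine LinearMap.ext fun v => ?_
    simp only [Module.End.mul_apply, gr_apply, B_sub_right, B_smul_right, h0, h0', mul_zero,
      sub_zero]
    abel
  rw [pow_two]
  calc gr c n * gr c' n' * (gr c n * gr c' n') = gr c n * gr c' n' * (gr c' n' * gr c n) := by
        rw [← hcomm]
    _ = gr c n * (gr c' n' * gr c' n') * gr c n := by
        simp only [mul_assoc]
    _ = 1 := by rw [gr_sq h', mul_one, gr_sq h]

theorem gr_ten {c c' : ℝ} {n n' : E × 𝕜} (h : c * q n = 2) (h' : c' * q n' = 2)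
    (h0 : c * c' * ‖B n n'‖ ^ 2 = (5 + √5) / 2) : (gr c n * gr c' n') ^ 10 = 1 := by
  obtain ⟨p, hp⟩ : ∃ p : ℝ, p = (1 + √5) / 2 := ⟨_, rfl⟩
  have h5 : √5 ^ 2 = (5 : ℝ) := Real.sq_sqrt (by norm_num)
  have hpp : (p : 𝕜) ^ 2 = (p : 𝕜) + 1 := by
    have : p ^ 2 = p + 1 := by
      rw [hp]
      linear_combination (1 / 4 : ℝ) * h5
    exact_mod_cast this
  have hb : (c : 𝕜) * (c' : 𝕜) * (B n n' * B n' n) = (p : 𝕜) + 2 := by
    have h1 : B n n' * B n' n = ((‖B n n'‖ ^ 2 : ℝ) : 𝕜) := by
      rw [← B_conj n n', RCLike.mul_conj]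
      push_cast
      rfl
    rw [h1, ← RCLike.ofReal_mul, ← RCLike.ofReal_mul, h0, hp]
    push_cast
    ring
  set T : Module.End 𝕜 (E × 𝕜) := gr c n * gr c' n' with hT
  have hTn' : T n' = ((c : 𝕜) * B n n') • n - n' := by
    rw [hT, Module.End.mul_apply, gr_self h', map_neg, gr_apply]
    abel
  have hTn : T n = ((p : 𝕜) + 1) • n - ((c' : 𝕜) * B n' n) • n' := by
    rw [hT, Module.End.mul_apply, gr_apply c' n' n, map_sub, map_smul, gr_self h, gr_apply]
    have : ((p : 𝕜) + 1) • n = (-1 + (c' : 𝕜) * B n' n * ((c : 𝕜) * B n n')) • n := by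
      congr 1
      linear_combination -hb
    rw [this, add_smul, smul_sub, smul_smul]
    simp only [neg_smul, one_smul]
    abel
  have e1 : (c : 𝕜) * B n n' * ((c' : 𝕜) * B n' n) = (p : 𝕜) + 2 := by
    linear_combination hb
  generalize (c : 𝕜) * B n n' = γ at hTn' e1
  generalize (c' : 𝕜) * B n' n = γ' at hTn e1
  have hTTn' : T (T n') = (p : 𝕜) • T n' - n' := by
    have h1 : T (T n') = γ • T n - T n' := by
      conv_lhs => rw [hTn']
      rw [map_sub, map_smul]
    rw [h1, hTn, hTn']
    linear_combination (norm := module) (-e1) • n'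
  have hTTn : T (T n) = (p : 𝕜) • T n - n := by
    have h1 : T (T n) = ((p : 𝕜) + 1) • T n - γ' • T n' := by
      conv_lhs => rw [hTn]
      rw [map_sub, map_smul, map_smul]
    rw [h1, hTn, hTn']
    linear_combination (norm := module) (-e1) • n
  -- the quadratic relation on the span
  have hq : ∀ u ∈ Submodule.span 𝕜 {n, n'}, T (T u) = (p : 𝕜) • T u - u := by
    intro u hu
    obtain ⟨a, b, rfl⟩ := Submodule.mem_span_pair.1 hu
    simp only [map_add, map_smul, hTTn, hTTn']
    module
  have h5u : ∀ u ∈ Submodule.span 𝕜 {n, n'}, (T ^ 5) u = -u := by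
    intro u hu
    have h2 := hq u hu
    have h3 : T (T (T u)) = (p : 𝕜) • T u - (p : 𝕜) • u := by
      rw [h2, map_sub, map_smul, h2]
      linear_combination (norm := module) hpp • (T u)
    have h4 : T (T (T (T u))) = T u - (p : 𝕜) • u := by
      rw [h3, map_sub, map_smul, map_smul, h2]
      linear_combination (norm := module) hpp • (T u)
    have h5 : T (T (T (T (T u)))) = -u := by
      rw [h4, map_sub, map_smul, h2]
      module
    rw [← h5]
    rfl
  have hmem : ∀ v, T v - v ∈ Submodule.span 𝕜 {n, n'} := by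
    intro v
    rw [Submodule.mem_span_pair]
    refine ⟨-((c : 𝕜) * B n (gr c' n' v)), -((c' : 𝕜) * B n' v), ?_⟩
    rw [hT, Module.End.mul_apply, gr_apply c n, gr_apply c' n' v]
    module
  refine LinearMap.ext fun v => ?_
  have hw : (T ^ 5) v - v ∈ Submodule.span 𝕜 {n, n'} := by
    have h6 := add_mem (add_mem (add_mem (add_mem (hmem v) (hmem (T v))) (hmem (T (T v))))
      (hmem (T (T (T v))))) (hmem (T (T (T (T v)))))
    have h7 : (T ^ 5) v = T (T (T (T (T v)))) := rfl
    rw [h7]
    convert h6 using 1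
    abel
  have h8 := h5u _ hw
  rw [map_sub] at h8
  have h9 : (T ^ 10) v = (T ^ 5) ((T ^ 5) v) := rfl
  rw [h9, Module.End.one_apply]
  have h10 : (T ^ 5) ((T ^ 5) v) = (T ^ 5) v + -((T ^ 5) v - v) := by
    rw [← h8]
    abel
  rw [h10]
  abel

end

/-- the representation generated by four reflections -/
theorem exists_rep {𝕜 E : Type*} [RCLike 𝕜] [NormedAddCommGroup E] [InnerProductSpace 𝕜 E]
    (c : Fin 4 → ℝ) (n : Fin 4 → E × 𝕜) (hq : ∀ i, c i * q (n i) = 2)
    (h01 : B (n 0) (n 1) = 0) (h23 : B (n 2) (n 3) = 0)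
    (hc : ∀ i j, side i ≠ side j → c i * c j * ‖B (n i) (n j)‖ ^ 2 = (5 + √5) / 2) :
    ∃ R : Rep W 𝕜 E, ∀ i, R.ρ (cs.simple i) = gr (c i) (n i) := by
  have h10 : B (n 1) (n 0) = 0 := by rw [← B_conj, h01, map_zero]
  have h32 : B (n 3) (n 2) = 0 := by rw [← B_conj, h23, map_zero]
  have hl : M.IsLiftable (fun i => gr (c i) (n i)) := by
    intro i j
    by_cases hij : side i = side j
    · by_cases hij' : i = j
      · subst hij'
        rw [gr_sq (hq i), one_pow]
      · fin_cases i <;> fin_cases j <;>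
          first
            | exact absurd rfl hij'
            | exact absurd hij (by decide)
            | exact gr_comm (hq _) (hq _) h01
            | exact gr_comm (hq _) (hq _) h10
            | exact gr_comm (hq _) (hq _) h23
            | exact gr_comm (hq _) (hq _) h32
    · have hM : M i j = 10 := by
        fin_cases i <;> fin_cases j <;>
          first
            | rfl
            | exact absurd (by decide) hij
      rw [hM]
      exact gr_ten (hq i) (hq j) (hc i j hij)
  let ρ : W →* Module.End 𝕜 (E × 𝕜) := cs.lift ⟨fun i => gr (c i) (n i), hl⟩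
  have hρ : ∀ i, ρ (cs.simple i) = gr (c i) (n i) := fun i => cs.lift_apply_simple hl i
  refine ⟨⟨ρ, fun g => ?_⟩, hρ⟩
  refine cs.simple_induction (p := fun g => ∀ u v, B (ρ g u) (ρ g v) = B u v) g ?_ ?_ ?_
  · intro i u v
    rw [hρ i]
    exact gr_pres (hq i) u v
  · intro u v
    rw [map_one]
    rfl
  · intro g g' hg hg' u v
    rw [map_mul, Module.End.mul_apply, Module.End.mul_apply, hg, hg']

end Pool.Agent.Carpet
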