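import Pool.Agent.Lib_helper45.Carpet.Fold

set_option autoImplicit false

namespace Pool.Agent.Carpet

open scoped Topology

namespace Chart

theorem Bc (u v : E3 × ℝ) :
    B u v = u.1 0 * v.1 0 + u.1 1 * v.1 1 + u.1 2 * v.1 2 - u.2 * v.2 := by
  simp only [B, PiLp.inner_apply, Fin.sum_univ_three, conj_trivial]
  simp only [inner]
  simp
  ring

theorem nsq3 (x : E3) : ‖x‖ ^ 2 = x 0 ^ 2 + x 1 ^ 2 + x 2 ^ 2 := by
  rw [EuclideanSpace.norm_sq_eq, Fin.sum_univ_three]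
  simp

theorem nsq2 (x : P2) : ‖x‖ ^ 2 = x 0 ^ 2 + x 1 ^ 2 := by
  rw [EuclideanSpace.norm_sq_eq, Fin.sum_univ_two]
  simp

/-- inverse stereographic projection -/
noncomputable def sg (z : P2) : E3 :=
  !₂[(1 - ‖z‖ ^ 2) / (1 + ‖z‖ ^ 2), 2 * z 0 / (1 + ‖z‖ ^ 2), 2 * z 1 / (1 + ‖z‖ ^ 2)]

/-- stereographic projection -/
noncomputable def tg (x : E3) : P2 := !₂[x 1 / (1 + x 0), x 2 / (1 + x 0)]

theorem pos1 (z : P2) : 0 < 1 + ‖z‖ ^ 2 := by positivity

theorem norm_sg (z : P2) : ‖sg z‖ = 1 := by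
  have h : ‖sg z‖ ^ 2 = 1 := by
    rw [nsq3]
    simp only [sg]
    have h1 := pos1 z
    have h2 := nsq2 z
    simp
    field_simp
    rw [h2]
    ring
  have h0 := norm_nonneg (sg z)
  nlinarith

theorem sg_zero (z : P2) : sg z 0 = (1 - ‖z‖ ^ 2) / (1 + ‖z‖ ^ 2) := by simp [sg]
theorem sg_one (z : P2) : sg z 1 = 2 * z 0 / (1 + ‖z‖ ^ 2) := by simp [sg]
theorem sg_two (z : P2) : sg z 2 = 2 * z 1 / (1 + ‖z‖ ^ 2) := by simp [sg]

theorem sg_ne (z : P2) : 1 + sg z 0 ≠ 0 := by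
  rw [sg_zero]
  have h1 := pos1 z
  have : 1 + (1 - ‖z‖ ^ 2) / (1 + ‖z‖ ^ 2) = 2 / (1 + ‖z‖ ^ 2) := by field_simp; ring
  rw [this]
  positivity

theorem tg_sg (z : P2) : tg (sg z) = z := by
  have h1 := pos1 z
  have h3 : 1 + sg z 0 = 2 / (1 + ‖z‖ ^ 2) := by
    rw [sg_zero]; field_simp; ring
  ext i
  fin_cases i
  · simp only [tg]
    rw [h3, sg_one]
    simp
    field_simp
  · simp only [tg]
    rw [h3, sg_two]
    simp
    field_simp

theorem sg_tg {x : E3} (hx : ‖x‖ = 1) (h0 : 1 + x 0 ≠ 0) : sg (tg x) = x := by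
  have h1 : x 0 ^ 2 + x 1 ^ 2 + x 2 ^ 2 = 1 := by rw [← nsq3, hx]; norm_num
  have h2 : ‖tg x‖ ^ 2 = (1 - x 0) / (1 + x 0) := by
    rw [nsq2]
    simp only [tg]
    simp
    field_simp
    nlinarith
  have h3 : 1 + ‖tg x‖ ^ 2 = 2 / (1 + x 0) := by rw [h2]; field_simp; ring
  have h4 : 1 - ‖tg x‖ ^ 2 = 2 * x 0 / (1 + x 0) := by rw [h2]; field_simp; ring
  ext i
  fin_cases i
  · show sg (tg x) 0 = x 0
    rw [sg_zero, h3, h4]; field_simp
  · show sg (tg x) 1 = x 1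
    rw [sg_one, h3]; simp [tg]; field_simp
  · show sg (tg x) 2 = x 2
    rw [sg_two, h3]; simp [tg]; field_simp

theorem continuous_sg : Continuous sg := by
  have h : ∀ z : P2, (1 + ‖z‖ ^ 2) ≠ 0 := fun z => (pos1 z).ne'
  refine (PiLp.continuous_toLp 2 _).comp ?_
  refine continuous_pi fun i => ?_
  have hc : ∀ i : Fin 2, Continuous fun z : P2 => z i := fun i =>
    (continuous_apply i).comp (PiLp.continuous_ofLp 2 _)
  fin_cases i
  · show Continuous fun z : P2 => (1 - ‖z‖ ^ 2) / (1 + ‖z‖ ^ 2)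
    exact (by fun_prop : Continuous fun z : P2 => 1 - ‖z‖ ^ 2).div (by fun_prop) h
  · show Continuous fun z : P2 => 2 * z 0 / (1 + ‖z‖ ^ 2)
    exact ((continuous_const.mul (hc 0))).div (by fun_prop) h
  · show Continuous fun z : P2 => 2 * z 1 / (1 + ‖z‖ ^ 2)
    exact ((continuous_const.mul (hc 1))).div (by fun_prop) h

theorem continuousOn_tg : ContinuousOn tg {x : E3 | 1 + x 0 ≠ 0} := by
  have hc : ∀ i : Fin 3, Continuous fun z : E3 => z i := fun i =>
    (continuous_apply i).comp (PiLp.continuous_ofLp 2 _)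
  refine (PiLp.continuous_toLp 2 _).comp_continuousOn ?_
  refine continuousOn_pi.2 fun i => ?_
  fin_cases i
  · show ContinuousOn (fun x : E3 => x 1 / (1 + x 0)) _
    exact (hc 1).continuousOn.div (continuous_const.add (hc 0)).continuousOn (fun x hx => hx)
  · show ContinuousOn (fun x : E3 => x 2 / (1 + x 0)) _
    exact (hc 2).continuousOn.div (continuous_const.add (hc 0)).continuousOn (fun x hx => hx)

/-- centre of the disk of a hole vector -/
noncomputable def cen (u : E3 × ℝ) : P2 := !₂[u.1 1 / (u.1 0 + u.2), u.1 2 / (u.1 0 + u.2)]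

/-- radius of the disk of a hole vector -/
noncomputable def rad (u : E3 × ℝ) : ℝ := √pK / (u.1 0 + u.2)

theorem B_sg {u : E3 × ℝ} (hq : q u = pK) (ha : 0 < u.1 0 + u.2) (z : P2) :
    B (sg z, (1 : ℝ)) u * (1 + ‖z‖ ^ 2) = (u.1 0 + u.2) * (rad u ^ 2 - dist z (cen u) ^ 2) := by
  have h1 := pos1 z
  have hp : √pK ^ 2 = pK := Real.sq_sqrt pK_pos.le
  have hq' : pK = u.1 0 ^ 2 + u.1 1 ^ 2 + u.1 2 ^ 2 - u.2 ^ 2 := by
    rw [← hq, q, nsq3]; simp
  have hd : dist z (cen u) ^ 2 = (z 0 - u.1 1 / (u.1 0 + u.2)) ^ 2 +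
      (z 1 - u.1 2 / (u.1 0 + u.2)) ^ 2 := by
    rw [dist_eq_norm, nsq2]; simp [cen]
  rw [hd, Bc]
  simp only [sg_zero, sg_one, sg_two, rad]
  have hz := nsq2 z
  rw [div_pow, hp, hq']
  rw [hz] at h1 ⊢
  field_simp
  ring

theorem cap_lt {u : E3 × ℝ} (hq : q u = pK) (ha : 0 < u.1 0 + u.2) (z : P2) :
    0 < B (sg z, (1 : ℝ)) u ↔ dist z (cen u) < rad u := by
  have h := B_sg hq ha z
  have h1 := pos1 z
  have hr : 0 < rad u := div_pos (Real.sqrt_pos.2 pK_pos) ha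
  have hd : 0 ≤ dist z (cen u) := dist_nonneg
  constructor
  · intro hb
    have : 0 < (u.1 0 + u.2) * (rad u ^ 2 - dist z (cen u) ^ 2) := by rw [← h]; positivity
    have h2 := (mul_pos_iff_of_pos_left ha).1 this
    nlinarith
  · intro hb
    have h2 : 0 < rad u ^ 2 - dist z (cen u) ^ 2 := by nlinarith
    have h3 : 0 < B (sg z, (1 : ℝ)) u * (1 + ‖z‖ ^ 2) := by rw [h]; positivity
    exact (mul_pos_iff_of_pos_right h1).1 h3

theorem cap_le {u : E3 × ℝ} (hq : q u = pK) (ha : 0 < u.1 0 + u.2) (z : P2) :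
    0 ≤ B (sg z, (1 : ℝ)) u ↔ dist z (cen u) ≤ rad u := by
  have h := B_sg hq ha z
  have h1 := pos1 z
  have hr : 0 < rad u := div_pos (Real.sqrt_pos.2 pK_pos) ha
  have hd : 0 ≤ dist z (cen u) := dist_nonneg
  constructor
  · intro hb
    have : 0 ≤ (u.1 0 + u.2) * (rad u ^ 2 - dist z (cen u) ^ 2) := by rw [← h]; positivity
    by_contra hc
    push Not at hc
    have h2 : rad u ^ 2 - dist z (cen u) ^ 2 < 0 := by nlinarith
    nlinarith [mul_neg_of_pos_of_neg ha h2]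
  · intro hb
    have h2 : 0 ≤ rad u ^ 2 - dist z (cen u) ^ 2 := by nlinarith
    have h3 : 0 ≤ B (sg z, (1 : ℝ)) u * (1 + ‖z‖ ^ 2) := by rw [h]; positivity
    by_contra hc
    push Not at hc
    nlinarith [mul_neg_of_neg_of_pos hc h1]

/-- the radius of the outer circle -/
noncomputable def r0 : ℝ := √((cz + cb) / (cz - cb))

theorem r0_sq : r0 ^ 2 = (cz + cb) / (cz - cb) :=
  Real.sq_sqrt (div_nonneg (add_pos cz_pos cb_pos).le (sub_pos.2 cb_lt_cz).le)

theorem r0_pos : 0 < r0 :=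
  Real.sqrt_pos.2 (div_pos (add_pos cz_pos cb_pos) (sub_pos.2 cb_lt_cz))

theorem B_sg_zero (z : P2) :
    B (sg z, (1 : ℝ)) (ωK 0) * (1 + ‖z‖ ^ 2) = (1 - cb / cz) * (‖z‖ ^ 2 - r0 ^ 2) := by
  have h1 := pos1 z
  have h2 := cz_pos
  have h3 := sub_pos.2 cb_lt_cz
  rw [Bc, r0_sq]
  simp only [sg_zero, sg_one, sg_two, ωK]
  simp
  field_simp
  ring

theorem k1 : 0 < 1 - cb / cz := by
  have := (div_lt_one cz_pos).2 cb_lt_cz
  linarith

theorem cap0_lt (z : P2) : 0 < B (sg z, (1 : ℝ)) (ωK 0) ↔ r0 < ‖z‖ := by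
  have h := B_sg_zero z
  have h1 := pos1 z
  have hr := r0_pos
  have hk := k1
  constructor
  · intro hb
    have : 0 < (1 - cb / cz) * (‖z‖ ^ 2 - r0 ^ 2) := by rw [← h]; positivity
    have h2 := (mul_pos_iff_of_pos_left hk).1 this
    nlinarith [norm_nonneg z]
  · intro hb
    have h2 : 0 < ‖z‖ ^ 2 - r0 ^ 2 := by nlinarith [norm_nonneg z]
    have h3 : 0 < B (sg z, (1 : ℝ)) (ωK 0) * (1 + ‖z‖ ^ 2) := by rw [h]; positivity
    exact (mul_pos_iff_of_pos_right h1).1 h3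

theorem cap0_le (z : P2) : 0 ≤ B (sg z, (1 : ℝ)) (ωK 0) ↔ r0 ≤ ‖z‖ := by
  have h := B_sg_zero z
  have h1 := pos1 z
  have hr := r0_pos
  have hk := k1
  constructor
  · intro hb
    have : 0 ≤ (1 - cb / cz) * (‖z‖ ^ 2 - r0 ^ 2) := by rw [← h]; positivity
    by_contra hc
    push Not at hc
    have h2 : ‖z‖ ^ 2 - r0 ^ 2 < 0 := by nlinarith [norm_nonneg z]
    nlinarith [mul_neg_of_pos_of_neg hk h2]
  · intro hb
    have h2 : 0 ≤ ‖z‖ ^ 2 - r0 ^ 2 := by nlinarith [norm_nonneg z]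
    have h3 : 0 ≤ B (sg z, (1 : ℝ)) (ωK 0) * (1 + ‖z‖ ^ 2) := by rw [h]; positivity
    by_contra hc
    push Not at hc
    nlinarith [mul_neg_of_neg_of_pos hc h1]

theorem mem_hole0 (R : Rep W ℝ E3) : ωK 0 ∈ Holes R := ⟨1, 0, by simp⟩

/-- the point at infinity of the chart is in the open cap of `ωK 0` -/
theorem inf_cap {x : E3} (hx : ‖x‖ = 1) (h0 : 1 + x 0 = 0) : 0 < B (x, (1 : ℝ)) (ωK 0) := by
  have h1 : x 0 ^ 2 + x 1 ^ 2 + x 2 ^ 2 = 1 := by rw [← nsq3, hx]; norm_num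
  have h2 : x 0 = -1 := by linarith
  have hk := k1
  rw [Bc]
  simp only [ωK]
  simp
  rw [h2]
  linarith

theorem apos {R : Rep W ℝ E3} (hR : IsKleinian R) {u : E3 × ℝ} (hu : u ∈ Holes R)
    (h0 : u ≠ ωK 0) : 0 < u.1 0 + u.2 := by
  by_contra hc
  push Not at hc
  have hN : ‖(!₂[-1, 0, 0] : E3)‖ = 1 := by
    have : ‖(!₂[-1, 0, 0] : E3)‖ ^ 2 = 1 := by rw [nsq3]; simp
    nlinarith [norm_nonneg (!₂[-1, 0, 0] : E3)]
  refine hole_disjoint hR hu (mem_hole0 R) h0 hN ?_ (inf_cap hN (by simp)).le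
  rw [Bc]
  simp
  linarith

/-- the closed disk of a hole vector -/
def Kf (u : E3 × ℝ) : Set P2 := Metric.closedBall (cen u) (rad u)

section

variable {R : Rep W ℝ E3} (hR : IsKleinian R)
include hR

theorem rpos {u : E3 × ℝ} (hu : u ∈ Holes R) (h0 : u ≠ ωK 0) : 0 < rad u :=
  div_pos (Real.sqrt_pos.2 pK_pos) (apos hR hu h0)

theorem mem_Kf {u : E3 × ℝ} (hu : u ∈ Holes R) (h0 : u ≠ ωK 0) (z : P2) :
    z ∈ Kf u ↔ 0 ≤ B (sg z, (1 : ℝ)) u :=
  (cap_le (q_hole hR hu) (apos hR hu h0) z).symm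

theorem Kf_sub {u : E3 × ℝ} (hu : u ∈ Holes R) (h0 : u ≠ ωK 0) : Kf u ⊆ Metric.ball 0 r0 := by
  intro z hz
  rw [mem_Kf hR hu h0] at hz
  rw [mem_ball_zero_iff]
  by_contra hc
  push Not at hc
  exact hole_disjoint hR hu (mem_hole0 R) h0 (norm_sg z) hz ((cap0_le z).2 hc)

theorem Kf_disj {u u' : E3 × ℝ} (hu : u ∈ Holes R) (h0 : u ≠ ωK 0) (hu' : u' ∈ Holes R)
    (h0' : u' ≠ ωK 0) (h : u ≠ u') : Disjoint (Kf u) (Kf u') := by
  rw [Set.disjoint_left]
  intro z hz hz'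
  rw [mem_Kf hR hu h0] at hz
  rw [mem_Kf hR hu' h0'] at hz'
  exact hole_disjoint hR hu hu' h (norm_sg z) hz hz'

theorem Kf_dense (f : ∀ r : ℝ, {g : W | R.N g ≤ r}.Finite) :
    Metric.closedBall (0 : P2) r0 ⊆
      closure (⋃ u : {u : E3 × ℝ // u ∈ Holes R ∧ u ≠ ωK 0}, Kf u.1) := by
  rw [← closure_ball (0 : P2) r0_pos.ne']
  refine closure_minimal ?_ isClosed_closure
  intro z hz
  rw [Metric.mem_closure_iff]
  intro ε hε
  have hz' : sg z ∈ {x : E3 | 1 + x 0 ≠ 0} := sg_ne z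
  have hopen : IsOpen {x : E3 | 1 + x 0 ≠ 0} := by
    have hc : Continuous fun x : E3 => 1 + x 0 :=
      continuous_const.add ((continuous_apply (0 : Fin 3)).comp (PiLp.continuous_ofLp 2 _))
    exact isOpen_ne_fun hc continuous_const
  have hcont : ContinuousAt tg (sg z) := continuousOn_tg.continuousAt (hopen.mem_nhds hz')
  have hz0 : ‖z‖ < r0 := mem_ball_zero_iff.1 hz
  have hev : ∀ᶠ x in 𝓝 (sg z), x ∈ {x : E3 | 1 + x 0 ≠ 0} ∧ dist (tg x) z < ε ∧ ‖tg x‖ < r0 := by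
    refine Filter.Eventually.and (hopen.mem_nhds hz') (Filter.Eventually.and ?_ ?_)
    · have := hcont.tendsto
      rw [tg_sg] at this
      exact this.eventually (Metric.ball_mem_nhds z hε)
    · have h2 : Filter.Tendsto (fun x => ‖tg x‖) (𝓝 (sg z)) (𝓝 ‖z‖) := by
        have := hcont.tendsto.norm
        rwa [tg_sg] at this
      exact h2.eventually (gt_mem_nhds hz0)
  obtain ⟨δ, hδ, hδ'⟩ := Metric.eventually_nhds_iff.1 hev
  obtain ⟨η, hη, hηz, u, hu, hB⟩ := holes_dense hR f (norm_sg z) hδ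
  obtain ⟨h1, h2, h3⟩ := hδ' (by rw [dist_eq_norm]; exact hηz : dist η (sg z) < δ)
  have h4 := sg_tg hη h1
  have hu0 : u ≠ ωK 0 := by
    rintro rfl
    rw [← h4, cap0_lt] at hB
    exact absurd h3 (not_lt.2 hB.le)
  refine ⟨tg η, Set.mem_iUnion.2 ⟨⟨u, hu, hu0⟩, ?_⟩, by rwa [dist_comm]⟩
  rw [mem_Kf hR hu hu0, h4]
  exact hB.le

theorem mem_limSet (f : ∀ r : ℝ, {g : W | R.N g ≤ r}.Finite) (x : E3) :
    x ∈ R.limSet ↔ ‖x‖ = 1 ∧ ∀ u ∈ Holes R, B (x, (1 : ℝ)) u ≤ 0 :=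
  ⟨fun h => ⟨h.1, fun _ hu => limSet_hole hR h hu⟩, fun h => fold hR f h.1 h.2⟩

theorem fin_rad {ε : ℝ} (hε : 0 < ε) :
    {u : {u : E3 × ℝ // u ∈ Holes R ∧ u ≠ ωK 0} | ε ≤ rad u.1}.Finite := by
  have htb : TotallyBounded (Metric.closedBall (0 : P2) r0) :=
    (isCompact_closedBall (0 : P2) r0).totallyBounded
  obtain ⟨t, ht, hcov⟩ := Metric.totallyBounded_iff.1 htb ε hε
  have hch : ∀ u : {u : E3 × ℝ // u ∈ Holes R ∧ u ≠ ωK 0}, ∃ y ∈ t, dist (cen u.1) y < ε := by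
    intro u
    have h1 : cen u.1 ∈ Metric.closedBall (0 : P2) r0 := Metric.ball_subset_closedBall
      (Kf_sub hR u.2.1 u.2.2 (Metric.mem_closedBall_self (rpos hR u.2.1 u.2.2).le))
    obtain ⟨y, hy, hy'⟩ := Set.mem_iUnion₂.1 (hcov h1)
    exact ⟨y, hy, hy'⟩
  choose F hF hF' using hch
  refine Set.Finite.of_injOn (f := F) (t := t) (fun u _ => hF u) ?_ ht
  intro u hu v hv huv
  by_contra hne
  have hd := Kf_disj hR u.2.1 u.2.2 v.2.1 v.2.2 (fun h => hne (Subtype.ext h))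
  rw [Kf, Kf, disjoint_closedBall_closedBall_iff (rpos hR u.2.1 u.2.2).le
    (rpos hR v.2.1 v.2.2).le] at hd
  have h1 := hF' u
  have h2 := hF' v
  rw [← huv, dist_comm] at h2
  have h3 := dist_triangle (cen u.1) (F u) (cen v.1)
  simp only [Set.mem_ofPred_eq] at hu hv
  linarith

end

end Chart

open Chart in
theorem limSet_carpet {R : Rep W ℝ E3} (hR : IsKleinian R)
    (f : ∀ r : ℝ, {g : W | R.N g ≤ r}.Finite) :
    ∃ (Y : ConvexCarpet) (r : ℝ), 0 < r ∧ Y.D = Metric.closedBall 0 r ∧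
      Nonempty (R.limSet ≃ₜ Y.X) := by
  classical
  have hcW : Countable W := by
    have := cs.wordProd_surjective
    exact this.countable
  have hcH : Countable {u : E3 × ℝ // u ∈ Holes R ∧ u ≠ ωK 0} := by
    have h1 : (Holes R).Countable := by
      have : Holes R = Set.range (fun wk : W × Fin 4 => R.ρ wk.1 (ωK wk.2)) := by
        ext u
        constructor
        · rintro ⟨w, k, rfl⟩; exact ⟨(w, k), rfl⟩
        · rintro ⟨⟨w, k⟩, rfl⟩; exact ⟨w, k, rfl⟩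
      rw [this]
      exact Set.countable_range _
    exact (h1.mono (fun u hu => hu.1 : {u : E3 × ℝ | u ∈ Holes R ∧ u ≠ ωK 0} ⊆ Holes R)).to_subtype
  have hdense := Kf_dense hR f
  have hinf : Infinite {u : E3 × ℝ // u ∈ Holes R ∧ u ≠ ωK 0} := by
    by_contra hc
    rw [not_infinite_iff_finite] at hc
    have hcl : IsClosed (⋃ u : {u : E3 × ℝ // u ∈ Holes R ∧ u ≠ ωK 0}, Kf u.1) :=
      isClosed_iUnion_of_finite fun u => Metric.isClosed_closedBall
    rw [hcl.closure_eq] at hdense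
    have hx : ‖(!₂[r0, 0] : P2)‖ = r0 := by
      have : ‖(!₂[r0, 0] : P2)‖ ^ 2 = r0 ^ 2 := by rw [nsq2]; simp
      have h2 := r0_pos
      nlinarith [norm_nonneg (!₂[r0, 0] : P2)]
    have h1 : (!₂[r0, 0] : P2) ∈ Metric.closedBall (0 : P2) r0 := by
      rw [mem_closedBall_zero_iff, hx]
    obtain ⟨u, hu⟩ := Set.mem_iUnion.1 (hdense h1)
    have h2 := mem_ball_zero_iff.1 (Kf_sub hR u.2.1 u.2.2 hu)
    rw [hx] at h2
    exact lt_irrefl _ h2
  obtain ⟨e⟩ : Nonempty (ℕ ≃ {u : E3 × ℝ // u ∈ Holes R ∧ u ≠ ωK 0}) :=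
    ⟨(nonempty_denumerable _).some.eqv.symm⟩
  let Y : ConvexCarpet :=
    { D := Metric.closedBall 0 r0
      K := fun i => Kf (e i).1
      c := fun i => cen (e i).1
      convD := convex_closedBall _ _
      compD := isCompact_closedBall _ _
      convK := fun i => convex_closedBall _ _
      compK := fun i => isCompact_closedBall _ _
      center := fun i => by
        have := rpos hR (e i).2.1 (e i).2.2
        rw [Kf, interior_closedBall _ this.ne']
        exact Metric.mem_ball_self this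
      inD := fun i => by
        rw [interior_closedBall _ r0_pos.ne']
        exact Kf_sub hR (e i).2.1 (e i).2.2
      disj := fun i j hij => Kf_disj hR (e i).2.1 (e i).2.2 (e j).2.1 (e j).2.2
        (fun h => hij (e.injective (Subtype.ext h)))
      diam0 := by
        have h1 : Filter.Tendsto (fun u : {u : E3 × ℝ // u ∈ Holes R ∧ u ≠ ωK 0} =>
            Metric.diam (Kf u.1)) Filter.cofinite (𝓝 0) := by
          rw [Metric.tendsto_nhds]
          intro ε hε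
          have h2 := fin_rad hR (half_pos hε)
          rw [Filter.eventually_cofinite]
          refine (fin_rad hR (by positivity : (0 : ℝ) < ε / 4)).subset ?_
          intro u hu
          simp only [Set.mem_ofPred_eq] at hu ⊢
          by_contra hc
          push Not at hc
          apply hu
          have h3 : Metric.diam (Kf u.1) ≤ 2 * rad u.1 :=
            Metric.diam_closedBall (rpos hR u.2.1 u.2.2).le
          rw [Real.dist_eq, sub_zero, abs_of_nonneg Metric.diam_nonneg]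
          linarith
        have h2 := h1.comp e.injective.tendsto_cofinite
        rw [Nat.cofinite_eq_atTop] at h2
        exact h2
      dense := by
        refine hdense.trans (closure_mono ?_)
        intro z hz
        obtain ⟨u, hu⟩ := Set.mem_iUnion.1 hz
        exact Set.mem_iUnion.2 ⟨e.symm u, by rw [e.apply_symm_apply]; exact hu⟩ }
  refine ⟨Y, r0, r0_pos, rfl, ?_⟩
  have hX : ∀ z : P2, z ∈ Y.X ↔ sg z ∈ R.limSet := by
    intro z
    rw [mem_limSet hR f]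
    constructor
    · rintro ⟨hzD, hzK⟩
      refine ⟨norm_sg z, fun u hu => ?_⟩
      by_contra hc
      push Not at hc
      by_cases hu0 : u = ωK 0
      · rw [hu0, cap0_lt] at hc
        exact absurd (mem_closedBall_zero_iff.1 hzD) (not_le.2 hc)
      · apply hzK
        refine Set.mem_iUnion.2 ⟨e.symm ⟨u, hu, hu0⟩, ?_⟩
        show z ∈ interior (Kf (e (e.symm ⟨u, hu, hu0⟩)).1)
        rw [e.apply_symm_apply, Kf, interior_closedBall _ (rpos hR hu hu0).ne', Metric.mem_ball]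
        exact (cap_lt (q_hole hR hu) (apos hR hu hu0) z).1 hc
    · rintro ⟨_, h⟩
      refine ⟨?_, ?_⟩
      · rw [show Y.D = Metric.closedBall 0 r0 from rfl, mem_closedBall_zero_iff]
        by_contra hc
        push Not at hc
        exact absurd (h _ (mem_hole0 R)) (not_le.2 ((cap0_lt z).2 hc))
      · intro hz
        obtain ⟨i, hi⟩ := Set.mem_iUnion.1 hz
        have hi' : z ∈ interior (Kf (e i).1) := hi
        rw [Kf, interior_closedBall _ (rpos hR (e i).2.1 (e i).2.2).ne', Metric.mem_ball] at hi'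
        exact absurd (h _ (e i).2.1)
          (not_le.2 ((cap_lt (q_hole hR (e i).2.1) (apos hR (e i).2.1 (e i).2.2) z).2 hi'))
  have hne : ∀ x ∈ R.limSet, 1 + x 0 ≠ 0 := by
    intro x hx h0
    have h1 := (mem_limSet hR f x).1 hx
    exact absurd (h1.2 _ (mem_hole0 R)) (not_le.2 (inf_cap h1.1 h0))
  refine ⟨{ toFun := fun x => ⟨tg x.1, (hX _).2 ?_⟩
            invFun := fun z => ⟨sg z.1, (hX _).1 z.2⟩
            left_inv := ?_
            right_inv := ?_
            continuous_toFun := ?_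
            continuous_invFun := ?_ }⟩
  · rw [sg_tg x.2.1 (hne _ x.2)]
    exact x.2
  · intro x
    exact Subtype.ext (sg_tg x.2.1 (hne _ x.2))
  · intro z
    exact Subtype.ext (tg_sg z.1)
  · refine Continuous.subtype_mk ?_ _
    exact continuousOn_tg.comp_continuous continuous_subtype_val (fun x => hne _ x.2)
  · exact Continuous.subtype_mk (continuous_sg.comp continuous_subtype_val) _

end Pool.Agent.Carpet
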