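import Pool.Agent.Lib_helper45.Carpet.Dist

/-! # Block COLL : local collapse maps -/

set_option autoImplicit false

namespace Pool.Agent.Carpet

open scoped Topology InnerProductSpace

/-- `κ` collapses `K` to `c`, is a homeomorphism off `K`, preserves the rays at `c`, and is the
identity off `Nb`. -/
structure Collapse (K : Set P2) (c : P2) (Nb : Set P2) (κ : P2 → P2) : Prop where
  cont : Continuous κ
  compNb : IsCompact Nb
  subNb : K ⊆ interior Nb
  off : ∀ x, x ∉ Nb → κ x = x
  mapsNb : ∀ x ∈ Nb, κ x ∈ Nb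
  surjNb : ∀ y ∈ Nb, ∃ x ∈ Nb, κ x = y
  collapse : ∀ x ∈ K, κ x = c
  inj : ∀ x y, κ x = κ y → x = y ∨ (x ∈ K ∧ y ∈ K)
  dir : ∀ x, x ∉ K → ∃ μ : ℝ, 0 < μ ∧ κ x - c = μ • (x - c)
  diff : ∀ x, x ∉ K → ∃ A : P2 ≃L[ℝ] P2, HasFDerivAt κ (A : P2 →L[ℝ] P2) x

/-- The distance to `K` along the rays from a point of `K`. -/
theorem COLL_ray {K : Set P2} (hK : Convex ℝ K) (hc : IsCompact K) {c : P2} (hcK : c ∈ K)
    {ρ : ℝ} (h0 : 0 ≤ ρ) (h1 : ρ ≤ 1) (y : P2) :
    Metric.infDist (c + ρ • (y - c)) K ≤ ρ * Metric.infDist y K := by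
  obtain ⟨p, hp, hd, -⟩ := DIST_exists_proj hK hc ⟨c, hcK⟩ y
  have hm : c + ρ • (p - c) ∈ K := by
    have := hK hcK hp (sub_nonneg.mpr h1) h0 (by ring)
    convert this using 1
    module
  refine (Metric.infDist_le_dist_of_mem hm).trans ?_
  rw [hd, dist_eq_norm]
  have : c + ρ • (y - c) - (c + ρ • (p - c)) = ρ • (y - p) := by module
  rw [this, norm_smul, Real.norm_eq_abs, abs_of_nonneg h0]

theorem COLL_infDist_pos {K : Set P2} (hc : IsCompact K) (hn : K.Nonempty) {x : P2}
    (hx : x ∉ K) : 0 < Metric.infDist x K :=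
  (hc.isClosed.notMem_iff_infDist_pos hn).mp hx

theorem COLL_main {K : Set P2} (hK : Convex ℝ K) (hc : IsCompact K) {c : P2} (hcK : c ∈ K)
    {s₀ : ℝ} (hs : 0 < s₀) (l : ℝ → ℝ) (hl : Differentiable ℝ l) (hm : Monotone l)
    (hl0 : l 0 = 0) (hpos : ∀ t, 0 < t → 0 < l t) (hone : ∀ t, s₀ ≤ t → l t = 1) :
    Collapse K c {x | Metric.infDist x K ≤ s₀}
      (fun x => c + l (Metric.infDist x K) • (x - c)) := by
  have hn : K.Nonempty := ⟨c, hcK⟩
  have hnn : ∀ t, 0 ≤ t → 0 ≤ l t := fun t ht => hl0 ▸ hm ht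
  have hle : ∀ t, l t ≤ 1 := by
    intro t
    have := hm (le_max_left t s₀)
    rwa [hone _ (le_max_right t s₀)] at this
  have hcont : Continuous fun x : P2 => c + l (Metric.infDist x K) • (x - c) := by
    refine continuous_const.add ((hl.continuous.comp (Metric.continuous_infDist_pt K)).smul ?_)
    exact continuous_id.sub continuous_const
  have hclosed : IsClosed {x : P2 | Metric.infDist x K ≤ s₀} :=
    isClosed_le (Metric.continuous_infDist_pt K) continuous_const
  have hbdd : Bornology.IsBounded {x : P2 | Metric.infDist x K ≤ s₀} := by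
    refine (hc.isBounded.cthickening (δ := s₀)).subset fun x hx => ?_
    obtain ⟨p, hp, hd, -⟩ := DIST_exists_proj hK hc hn x
    refine Metric.mem_cthickening_of_dist_le x p s₀ K hp ?_
    rw [dist_eq_norm, ← hd]
    exact hx
  have hoff : ∀ x : P2, x ∉ {x : P2 | Metric.infDist x K ≤ s₀} →
      c + l (Metric.infDist x K) • (x - c) = x := by
    intro x hx
    rw [Set.mem_ofPred_eq, not_le] at hx
    rw [hone _ hx.le]
    module
  refine ⟨hcont, Metric.isCompact_of_isClosed_isBounded hclosed hbdd, ?_, hoff, ?_, ?_, ?_, ?_, ?_,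
    ?_⟩
  · intro x hx
    rw [mem_interior]
    refine ⟨{x | Metric.infDist x K < s₀}, fun y (hy : Metric.infDist y K < s₀) =>
      show Metric.infDist y K ≤ s₀ from hy.le,
      isOpen_lt (Metric.continuous_infDist_pt K) continuous_const, ?_⟩
    rw [Set.mem_ofPred_eq, Metric.infDist_zero_of_mem hx]
    exact hs
  · intro x hx
    have h1 := COLL_ray hK hc hcK (hnn _ Metric.infDist_nonneg) (hle (Metric.infDist x K)) x
    refine h1.trans ?_
    calc l (Metric.infDist x K) * Metric.infDist x K ≤ 1 * Metric.infDist x K :=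
          mul_le_mul_of_nonneg_right (hle _) Metric.infDist_nonneg
      _ ≤ s₀ := by rw [one_mul]; exact hx
  · intro y hy
    by_cases hyc : y = c
    · refine ⟨c, ?_, ?_⟩
      · rw [Set.mem_ofPred_eq, Metric.infDist_zero_of_mem hcK]
        exact hs.le
      · simp [hyc]
    have hv : 0 < ‖y - c‖ := norm_pos_iff.mpr (sub_ne_zero.mpr hyc)
    obtain ⟨R, hR⟩ := hbdd.subset_closedBall c
    have hout : ∃ T : ℝ, 1 ≤ T ∧ c + T • (y - c) ∉ {x : P2 | Metric.infDist x K ≤ s₀} := by
      refine ⟨max 1 ((R + 1) / ‖y - c‖), le_max_left _ _, fun hm => ?_⟩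
      have h1 := hR hm
      rw [Metric.mem_closedBall, dist_eq_norm, add_sub_cancel_left, norm_smul, Real.norm_eq_abs,
        abs_of_nonneg (zero_le_one.trans (le_max_left _ _))] at h1
      have h2 : (R + 1) / ‖y - c‖ * ‖y - c‖ ≤ max 1 ((R + 1) / ‖y - c‖) * ‖y - c‖ :=
        mul_le_mul_of_nonneg_right (le_max_right _ _) hv.le
      rw [div_mul_cancel₀ _ hv.ne'] at h2
      linarith
    obtain ⟨T, hT1, hT⟩ := hout
    have hT' : l (Metric.infDist (c + T • (y - c)) K) = 1 := by
      rw [Set.mem_ofPred_eq, not_le] at hT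
      exact hone _ hT.le
    have hg : Continuous fun t : ℝ => t * l (Metric.infDist (c + t • (y - c)) K) := by
      refine continuous_id.mul (hl.continuous.comp ((Metric.continuous_infDist_pt K).comp ?_))
      exact continuous_const.add (continuous_id.smul continuous_const)
    have hmem : (1 : ℝ) ∈ Set.Icc ((fun t : ℝ => t * l (Metric.infDist (c + t • (y - c)) K)) 0)
        ((fun t : ℝ => t * l (Metric.infDist (c + t • (y - c)) K)) T) := by
      constructor
      · simp
      · simp only [hT', mul_one]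
        exact hT1
    obtain ⟨t, -, ht⟩ := intermediate_value_Icc (zero_le_one.trans hT1) hg.continuousOn hmem
    have hκ : c + l (Metric.infDist (c + t • (y - c)) K) • (c + t • (y - c) - c) = y := by
      rw [add_sub_cancel_left, smul_smul, mul_comm, show t * l (Metric.infDist
        (c + t • (y - c)) K) = 1 from ht]
      module
    refine ⟨c + t • (y - c), ?_, hκ⟩
    by_contra hnot
    rw [hoff _ hnot] at hκ
    rw [hκ] at hnot
    exact hnot hy
  · intro x hx
    rw [Metric.infDist_zero_of_mem hx, hl0]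
    simp
  · -- injectivity
    have key : ∀ x y : P2, x ∉ K → y ∉ K → l (Metric.infDist y K) ≤ l (Metric.infDist x K) →
        c + l (Metric.infDist x K) • (x - c) = c + l (Metric.infDist y K) • (y - c) →
        x = y := by
      intro x y hx hy hlxy he
      have hlx := hpos _ (COLL_infDist_pos hc hn hx)
      have hly := hpos _ (COLL_infDist_pos hc hn hy)
      have he' : l (Metric.infDist x K) • (x - c) = l (Metric.infDist y K) • (y - c) :=
        add_left_cancel he
      have hρ0 : 0 ≤ l (Metric.infDist y K) / l (Metric.infDist x K) := (div_pos hly hlx).le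
      have hρ1 : l (Metric.infDist y K) / l (Metric.infDist x K) ≤ 1 :=
        (div_le_one hlx).mpr hlxy
      have hx' : x = c + (l (Metric.infDist y K) / l (Metric.infDist x K)) • (y - c) := by
        rw [div_eq_inv_mul, ← smul_smul, ← he', smul_smul, inv_mul_cancel₀ hlx.ne']
        module
      have h1 := COLL_ray hK hc hcK hρ0 hρ1 y
      rw [← hx'] at h1
      have h2 : Metric.infDist x K ≤ Metric.infDist y K :=
        h1.trans (mul_le_of_le_one_left Metric.infDist_nonneg hρ1)
      have h3 : l (Metric.infDist x K) = l (Metric.infDist y K) := le_antisymm (hm h2) hlxy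
      rw [h3, div_self hly.ne'] at hx'
      rw [hx']
      module
    have keyK : ∀ x y : P2, x ∈ K → y ∉ K →
        c + l (Metric.infDist x K) • (x - c) = c + l (Metric.infDist y K) • (y - c) → False := by
      intro x y hx hy he
      rw [Metric.infDist_zero_of_mem hx, hl0, zero_smul, add_zero] at he
      have hly := hpos _ (COLL_infDist_pos hc hn hy)
      have h1 : l (Metric.infDist y K) • (y - c) = 0 := by
        have : l (Metric.infDist y K) • (y - c) = (c + l (Metric.infDist y K) • (y - c)) - c := by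
          module
        rw [this, ← he, sub_self]
      rcases smul_eq_zero.mp h1 with h2 | h2
      · exact hly.ne' h2
      · rw [sub_eq_zero] at h2
        exact hy (h2 ▸ hcK)
    intro x y he
    by_cases hx : x ∈ K
    · by_cases hy : y ∈ K
      · exact Or.inr ⟨hx, hy⟩
      · exact (keyK x y hx hy he).elim
    · by_cases hy : y ∈ K
      · exact (keyK y x hy hx he.symm).elim
      · left
        rcases le_total (l (Metric.infDist y K)) (l (Metric.infDist x K)) with h | h
        · exact key x y hx hy h he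
        · exact (key y x hy hx h he.symm).symm
  · intro x hx
    exact ⟨l (Metric.infDist x K), hpos _ (COLL_infDist_pos hc hn hx), by module⟩
  · intro x hx
    obtain ⟨ν, -, hder, hν⟩ := hasFDerivAt_infDist hK hc hn hx
    have hlx := hpos _ (COLL_infDist_pos hc hn hx)
    have hl' : HasDerivAt l (deriv l (Metric.infDist x K)) (Metric.infDist x K) :=
      (hl _).hasDerivAt
    have hd0 : 0 ≤ deriv l (Metric.infDist x K) := hm.deriv_nonneg
    have h1 : HasFDerivAt (fun y : P2 => l (Metric.infDist y K))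
        (deriv l (Metric.infDist x K) • innerSL ℝ ν) x := hl'.comp_hasFDerivAt x hder
    have h2 : HasFDerivAt (fun y : P2 => y - c) (ContinuousLinearMap.id ℝ P2) x :=
      (hasFDerivAt_id x).sub_const c
    have h3 := (h1.smul h2).const_add c
    set D : P2 →L[ℝ] P2 := l (Metric.infDist x K) • ContinuousLinearMap.id ℝ P2 +
      (deriv l (Metric.infDist x K) • innerSL ℝ ν).smulRight (x - c) with hD
    have hDh : ∀ h, D h = l (Metric.infDist x K) • h +
        (deriv l (Metric.infDist x K) * ⟪ν, h⟫_ℝ) • (x - c) := by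
      intro h
      simp [hD]
    have hinj : Function.Injective D := by
      rw [injective_iff_map_eq_zero]
      intro h hh
      rw [hDh] at hh
      have h4 : ⟪ν, h⟫_ℝ * (l (Metric.infDist x K) +
          deriv l (Metric.infDist x K) * ⟪ν, x - c⟫_ℝ) = 0 := by
        have := congrArg (fun w => ⟪ν, w⟫_ℝ) hh
        simp only [inner_add_right, real_inner_smul_right, inner_zero_right] at this
        linarith
      have h5 : 0 < l (Metric.infDist x K) + deriv l (Metric.infDist x K) * ⟪ν, x - c⟫_ℝ := by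
        have := mul_nonneg hd0 (hν c hcK)
        linarith
      have h6 := (mul_eq_zero.mp h4).resolve_right h5.ne'
      rw [h6, mul_zero, zero_smul, add_zero] at hh
      exact (smul_eq_zero.mp hh).resolve_left hlx.ne'
    let e : P2 ≃ₗ[ℝ] P2 := LinearEquiv.ofInjectiveEndo (D : P2 →ₗ[ℝ] P2) hinj
    refine ⟨e.toContinuousLinearEquiv, ?_⟩
    have he : (e.toContinuousLinearEquiv : P2 →L[ℝ] P2) = D := by
      ext1 v
      rfl
    rw [he]
    exact h3

/-- Holes near `K n` are small. -/
theorem COLL_near (Y : ConvexCarpet) (n : ℕ) {η : ℝ} (hη : 0 < η) :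
    ∃ s : ℝ, 0 < s ∧ s ≤ η ∧ ∀ m, m ≠ n → (∃ x ∈ Y.K m, Metric.infDist x (Y.K n) ≤ s) →
      Metric.diam (Y.K m) ≤ η := by
  have hfin : {m | ¬ Metric.diam (Y.K m) ≤ η}.Finite := by
    have h1 := Y.diam0.eventually (Iic_mem_nhds hη)
    have h2 : ∀ᶠ m in Filter.cofinite, Metric.diam (Y.K m) ≤ η := by
      rw [Nat.cofinite_eq_atTop]
      exact h1
    exact h2
  have h3 : ∀ m, m ≠ n → ∀ᶠ s in 𝓝[>] (0 : ℝ), ∀ x ∈ Y.K m,
      ¬ Metric.infDist x (Y.K n) ≤ s := by
    intro m hm
    obtain ⟨x₀, hx₀, hmin⟩ := (Y.compK m).exists_isMinOn ⟨Y.c m, interior_subset (Y.center m)⟩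
      (Metric.continuous_infDist_pt (Y.K n)).continuousOn
    have hpos : 0 < Metric.infDist x₀ (Y.K n) :=
      COLL_infDist_pos (Y.compK n) ⟨Y.c n, interior_subset (Y.center n)⟩
        (Set.disjoint_left.mp (Y.disj m n hm) hx₀)
    filter_upwards [nhdsWithin_le_nhds (Iio_mem_nhds hpos)] with s hs x hx hle
    have h4 : Metric.infDist x₀ (Y.K n) ≤ Metric.infDist x (Y.K n) := hmin hx
    exact absurd (h4.trans hle) (not_le.mpr hs)
  have h5 : ∀ᶠ s in 𝓝[>] (0 : ℝ), ∀ m ∈ {m | ¬ Metric.diam (Y.K m) ≤ η}, m ≠ n →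
      ∀ x ∈ Y.K m, ¬ Metric.infDist x (Y.K n) ≤ s := by
    rw [Filter.eventually_all_finite hfin]
    intro m _
    by_cases hm : m = n
    · exact Filter.Eventually.of_forall fun s h => (h hm).elim
    · filter_upwards [h3 m hm] with s hs _ using hs
  have h6 : ∀ᶠ s in 𝓝[>] (0 : ℝ), 0 < s := self_mem_nhdsWithin
  have h7 : ∀ᶠ s in 𝓝[>] (0 : ℝ), s ≤ η := nhdsWithin_le_nhds (Iic_mem_nhds hη)
  obtain ⟨s, hs1, hs2, hs3⟩ := (h5.and (h6.and h7)).exists
  refine ⟨s, hs2, hs3, fun m hm hx => ?_⟩
  by_contra hc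
  obtain ⟨x, hx1, hx2⟩ := hx
  exact hs1 m hc hm x hx1 hx2

/-- The elementary transition between `a` and `b`. -/
noncomputable def COLL_S (a b t : ℝ) : ℝ := Real.smoothTransition ((t - a) / (b - a))

theorem COLL_S_diff (a b : ℝ) : Differentiable ℝ (COLL_S a b) := by
  have h1 : Differentiable ℝ Real.smoothTransition :=
    (Real.smoothTransition.contDiff (n := 1)).differentiable (by simp)
  exact h1.comp ((differentiable_id.sub_const a).div_const (b - a))

theorem COLL_S_mono {a b : ℝ} (h : a < b) : Monotone (COLL_S a b) := by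
  intro t t' htt
  refine Real.smoothTransition.monotone ?_
  exact div_le_div_of_nonneg_right (by linarith) (by linarith)

theorem COLL_S_zero {a b t : ℝ} (h : a < b) (ht : t ≤ a) : COLL_S a b t = 0 :=
  Real.smoothTransition.zero_of_nonpos (div_nonpos_of_nonpos_of_nonneg (by linarith) (by linarith))

theorem COLL_S_one {a b t : ℝ} (h : a < b) (ht : b ≤ t) : COLL_S a b t = 1 :=
  Real.smoothTransition.one_of_one_le ((one_le_div (by linarith)).mpr (by linarith))

theorem COLL_S_pos {a b t : ℝ} (h : a < b) (ht : a < t) : 0 < COLL_S a b t :=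
  Real.smoothTransition.pos_of_pos (div_pos (by linarith) (by linarith))

theorem COLL_S_nonneg (a b t : ℝ) : 0 ≤ COLL_S a b t := Real.smoothTransition.nonneg _

theorem COLL_S_le_one (a b t : ℝ) : COLL_S a b t ≤ 1 := Real.smoothTransition.le_one _

/-- A slowly varying cut-off function. -/
theorem COLL_lambda (Y : ConvexCarpet) (n : ℕ) {s₀ : ℝ} (hs₀ : 0 < s₀) (J : ℕ) :
    ∃ l : ℝ → ℝ, Differentiable ℝ l ∧ Monotone l ∧ l 0 = 0 ∧ (∀ t, 0 < t → 0 < l t) ∧
      (∀ t, s₀ ≤ t → l t = 1) ∧
      ∀ m, m ≠ n → ∀ x ∈ Y.K m, ∀ y ∈ Y.K m,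
        Metric.infDist x (Y.K n) ≤ Metric.infDist y (Y.K n) →
        l (Metric.infDist y (Y.K n)) - l (Metric.infDist x (Y.K n)) ≤ 2 / ((J : ℝ) + 1) := by
  have hch : ∀ η : ℝ, ∃ s : ℝ, 0 < η → 0 < s ∧ s ≤ η ∧ ∀ m, m ≠ n →
      (∃ x ∈ Y.K m, Metric.infDist x (Y.K n) ≤ s) → Metric.diam (Y.K m) ≤ η := by
    intro η
    by_cases hη : 0 < η
    · obtain ⟨s, hs⟩ := COLL_near Y n hη
      exact ⟨s, fun _ => hs⟩
    · exact ⟨0, fun h => (hη h).elim⟩
  choose f hf using hch
  let s : ℕ → ℝ := fun j => Nat.rec s₀ (fun _ t => f (t / 2)) j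
  have hs0 : s 0 = s₀ := rfl
  have hss : ∀ j, s (j + 1) = f (s j / 2) := fun j => rfl
  have hspos : ∀ j, 0 < s j := by
    intro j
    induction j with
    | zero => exact hs₀
    | succ j ih =>
      rw [hss]
      exact (hf _ (half_pos ih)).1
  have hshalf : ∀ j, s (j + 1) ≤ s j / 2 := fun j => (hf _ (half_pos (hspos j))).2.1
  have hsdiam : ∀ j m, m ≠ n → (∃ x ∈ Y.K m, Metric.infDist x (Y.K n) ≤ s (j + 1)) →
      Metric.diam (Y.K m) ≤ s j / 2 := fun j => (hf _ (half_pos (hspos j))).2.2
  have hanti : Antitone s := antitone_nat_of_succ_le fun j => by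
    have := hshalf j
    have := hspos j
    linarith
  let a : ℕ → ℝ := fun j => if j < J then s (j + 1) else 0
  have ha1 : ∀ j, j < J → a j = s (j + 1) := fun j hj => if_pos hj
  have ha2 : a J = 0 := if_neg (lt_irrefl J)
  have hab : ∀ j, a j < s j := by
    intro j
    by_cases hj : j < J
    · rw [ha1 j hj]
      have := hshalf j
      have := hspos j
      linarith
    · simp only [a]
      rw [if_neg hj]
      exact hspos j
  have ha0 : ∀ j, 0 ≤ a j := by
    intro j
    by_cases hj : j < J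
    · rw [ha1 j hj]
      exact (hspos (j + 1)).le
    · simp only [a]
      rw [if_neg hj]
  have hJ : (0 : ℝ) < (J : ℝ) + 1 := by positivity
  refine ⟨fun t => ((J : ℝ) + 1)⁻¹ * ∑ j ∈ Finset.range (J + 1), COLL_S (a j) (s j) t, ?_, ?_, ?_,
    ?_, ?_, ?_⟩
  · exact (Differentiable.fun_sum fun j _ => COLL_S_diff (a j) (s j)).const_mul _
  · intro t t' htt
    refine mul_le_mul_of_nonneg_left (Finset.sum_le_sum fun j _ => COLL_S_mono (hab j) htt) ?_
    exact inv_nonneg.mpr hJ.le
  · simp only
    rw [Finset.sum_eq_zero, mul_zero]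
    intro j _
    exact COLL_S_zero (hab j) (ha0 j)
  · intro t ht
    refine mul_pos (inv_pos.mpr hJ) ?_
    refine Finset.sum_pos' (fun j _ => COLL_S_nonneg _ _ _) ⟨J, Finset.self_mem_range_succ J, ?_⟩
    exact COLL_S_pos (hab J) (by rw [ha2]; exact ht)
  · intro t ht
    simp only
    rw [Finset.sum_congr rfl (g := fun _ => (1 : ℝ)) (fun j _ => COLL_S_one (hab j)
      ((hanti (Nat.zero_le j)).trans ht))]
    rw [Finset.sum_const, Finset.card_range, nsmul_eq_mul, mul_one]
    push_cast
    exact inv_mul_cancel₀ hJ.ne'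
  · intro m hm x hx y hy hxy
    set dx := Metric.infDist x (Y.K n) with hdx
    set dy := Metric.infDist y (Y.K n) with hdy
    have hdx0 : 0 < dx := COLL_infDist_pos (Y.compK n) ⟨Y.c n, interior_subset (Y.center n)⟩
        (Set.disjoint_left.mp (Y.disj m n hm) hx)
    have hdyx : dy ≤ dx + Metric.diam (Y.K m) := by
      have h1 : dy ≤ dx + dist y x := by
        rw [hdy, hdx, add_comm]
        rw [add_comm]
        exact Metric.infDist_le_infDist_add_dist
      have h2 := Metric.dist_le_diam_of_mem (Y.compK m).isBounded hy hx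
      linarith
    have hex : ∃ j, j ≤ J ∧ a j < dx := ⟨J, le_rfl, by rw [ha2]; exact hdx0⟩
    classical
    obtain ⟨hkJ, hk⟩ := Nat.find_spec hex
    set k := Nat.find hex with hkdef
    have hkmin : ∀ j, j < k → dx ≤ a j := by
      intro j hj
      by_contra hc
      exact Nat.find_min hex hj ⟨by omega, not_le.mp hc⟩
    have hterm : ∀ j ∈ Finset.range (J + 1), COLL_S (a j) (s j) dy - COLL_S (a j) (s j) dx ≤
        (if j = k then 1 else 0) + (if j = k - 1 then 1 else 0) := by
      intro j hj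
      have hjJ : j ≤ J := by
        rw [Finset.mem_range] at hj
        omega
      have hb := COLL_S_le_one (a j) (s j) dy
      have hb' := COLL_S_nonneg (a j) (s j) dx
      by_cases h1 : j = k
      · rw [if_pos h1]
        split_ifs <;> linarith
      by_cases h2 : j = k - 1
      · rw [if_pos h2]
        split_ifs <;> linarith
      rw [if_neg h1, if_neg h2, add_zero]
      rcases Nat.lt_or_gt_of_ne h1 with h3 | h3
      · -- both zero
        obtain ⟨i, hi⟩ : ∃ i, k = i + 2 := ⟨k - 2, by omega⟩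
        have hji : j ≤ i := by omega
        have h4 : dx ≤ s (i + 2) := by
          have h5 := hkmin (i + 1) (by omega)
          rwa [ha1 (i + 1) (by omega)] at h5
        have h5 := hsdiam (i + 1) m hm ⟨x, hx, h4⟩
        have h6 := hshalf (i + 1)
        have h7 : dy ≤ a j := by
          rw [ha1 j (by omega)]
          have h8 : s (i + 1) ≤ s (j + 1) := hanti (show j + 1 ≤ i + 1 by omega)
          linarith
        rw [COLL_S_zero (hab j) h7, COLL_S_zero (hab j) (hxy.trans h7), sub_zero]
      · -- both one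
        have h4 : s j ≤ dx := by
          have h5 : a k = s (k + 1) := ha1 k (by omega)
          rw [h5] at hk
          exact (hanti (show k + 1 ≤ j by omega)).trans hk.le
        rw [COLL_S_one (hab j) h4, COLL_S_one (hab j) (h4.trans hxy), sub_self]
    have hsum : ∑ j ∈ Finset.range (J + 1), COLL_S (a j) (s j) dy -
        ∑ j ∈ Finset.range (J + 1), COLL_S (a j) (s j) dx ≤ 2 := by
      rw [← Finset.sum_sub_distrib]
      refine (Finset.sum_le_sum hterm).trans ?_
      rw [Finset.sum_add_distrib, Finset.sum_ite_eq', Finset.sum_ite_eq']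
      split_ifs <;> norm_num
    rw [← mul_sub, inv_mul_eq_div]
    exact div_le_div_of_nonneg_right hsum hJ.le

/-- Local collapse of the hole `K n`: the neighbourhood is as thin as we want, and the images of
the other holes have almost the same diameter as the holes. -/
theorem exists_collapse (Y : ConvexCarpet) (n : ℕ) {δ : ℝ} (hδ : 0 < δ) :
    ∃ (Nb : Set P2) (κ : P2 → P2), Collapse (Y.K n) (Y.c n) Nb κ ∧
      Nb ⊆ Metric.cthickening δ (Y.K n) ∧
      (∀ m, m ≠ n → Metric.diam (κ '' Y.K m) ≤ Metric.diam (Y.K m) + δ) ∧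
      (∀ m, m ≠ n → ¬ Disjoint (Y.K m) Nb → Metric.diam (Y.K m) ≤ δ) := by
  obtain ⟨s₀, hs₀, hsδ, hnear⟩ := COLL_near Y n hδ
  have hcK : Y.c n ∈ Y.K n := interior_subset (Y.center n)
  have hn : (Y.K n).Nonempty := ⟨_, hcK⟩
  set R : ℝ := Metric.diam (Y.K n) + 2 * δ with hR
  have hR0 : 0 < R := by
    have := Metric.diam_nonneg (s := Y.K n)
    rw [hR]
    linarith
  obtain ⟨J, hJ⟩ := exists_nat_gt (2 * R / δ)
  obtain ⟨l, hl, hm, hl0, hpos, hone, hosc⟩ := COLL_lambda Y n hs₀ J
  have hnn : ∀ t, 0 ≤ t → 0 ≤ l t := fun t ht => hl0 ▸ hm ht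
  have hle : ∀ t, l t ≤ 1 := by
    intro t
    have := hm (le_max_left t s₀)
    rwa [hone _ (le_max_right t s₀)] at this
  have hJ1 : (0 : ℝ) < (J : ℝ) + 1 := by positivity
  have hJR : 2 / ((J : ℝ) + 1) * R ≤ δ := by
    rw [div_mul_eq_mul_div, div_le_iff₀ hJ1]
    rw [div_lt_iff₀ hδ] at hJ
    nlinarith
  refine ⟨{x | Metric.infDist x (Y.K n) ≤ s₀},
    fun x => Y.c n + l (Metric.infDist x (Y.K n)) • (x - Y.c n),
    COLL_main (Y.convK n) (Y.compK n) hcK hs₀ l hl hm hl0 hpos hone, ?_, ?_, ?_⟩
  · intro x hx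
    obtain ⟨p, hp, hd, -⟩ := DIST_exists_proj (Y.convK n) (Y.compK n) hn x
    refine Metric.mem_cthickening_of_dist_le x p δ (Y.K n) hp ?_
    rw [dist_eq_norm, ← hd]
    exact le_trans hx hsδ
  · intro m hmn
    by_cases hdis : ∃ z ∈ Y.K m, Metric.infDist z (Y.K n) ≤ s₀
    · obtain ⟨z, hz, hzs⟩ := hdis
      have hdm := hnear m hmn ⟨z, hz, hzs⟩
      have hy : ∀ y ∈ Y.K m, ‖y - Y.c n‖ ≤ R := by
        intro y hy
        obtain ⟨p, hp, hd, -⟩ := DIST_exists_proj (Y.convK n) (Y.compK n) hn y
        have h1 : Metric.infDist y (Y.K n) ≤ Metric.infDist z (Y.K n) + dist y z :=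
          Metric.infDist_le_infDist_add_dist
        have h2 := Metric.dist_le_diam_of_mem (Y.compK m).isBounded hy hz
        have h3 := Metric.dist_le_diam_of_mem (Y.compK n).isBounded hp hcK
        rw [dist_eq_norm] at h3
        have h4 : ‖y - Y.c n‖ ≤ ‖y - p‖ + ‖p - Y.c n‖ := by
          have := norm_add_le (y - p) (p - Y.c n)
          rwa [sub_add_sub_cancel] at this
        rw [← hd] at h4
        rw [hR]
        linarith
      have key : ∀ x ∈ Y.K m, ∀ y ∈ Y.K m,
          Metric.infDist x (Y.K n) ≤ Metric.infDist y (Y.K n) →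
          dist (Y.c n + l (Metric.infDist x (Y.K n)) • (x - Y.c n))
            (Y.c n + l (Metric.infDist y (Y.K n)) • (y - Y.c n)) ≤
            Metric.diam (Y.K m) + δ := by
        intro x hx y hy' hxy
        have h1 := hosc m hmn x hx y hy' hxy
        have h2 := hm hxy
        have h3 := Metric.dist_le_diam_of_mem (Y.compK m).isBounded hx hy'
        rw [dist_eq_norm] at h3 ⊢
        have e1 : Y.c n + l (Metric.infDist x (Y.K n)) • (x - Y.c n) -
            (Y.c n + l (Metric.infDist y (Y.K n)) • (y - Y.c n)) =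
            l (Metric.infDist x (Y.K n)) • (x - y) -
              (l (Metric.infDist y (Y.K n)) - l (Metric.infDist x (Y.K n))) • (y - Y.c n) := by
          module
        rw [e1]
        refine (norm_sub_le _ _).trans ?_
        rw [norm_smul, norm_smul, Real.norm_eq_abs, Real.norm_eq_abs,
          abs_of_nonneg (hnn _ Metric.infDist_nonneg), abs_of_nonneg (sub_nonneg.mpr h2)]
        have h4 : l (Metric.infDist x (Y.K n)) * ‖x - y‖ ≤ Metric.diam (Y.K m) :=
          (mul_le_of_le_one_left (norm_nonneg _) (hle _)).trans h3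
        have h5 : (l (Metric.infDist y (Y.K n)) - l (Metric.infDist x (Y.K n))) * ‖y - Y.c n‖ ≤
            2 / ((J : ℝ) + 1) * R :=
          mul_le_mul h1 (hy y hy') (norm_nonneg _) (by positivity)
        linarith
      refine Metric.diam_le_of_forall_dist_le ?_ ?_
      · have := Metric.diam_nonneg (s := Y.K m)
        linarith
      · rintro _ ⟨x, hx, rfl⟩ _ ⟨y, hy', rfl⟩
        rcases le_total (Metric.infDist x (Y.K n)) (Metric.infDist y (Y.K n)) with h | h
        · exact key x hx y hy' h
        · rw [dist_comm]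
          exact key y hy' x hx h
    · have him : (fun x => Y.c n + l (Metric.infDist x (Y.K n)) • (x - Y.c n)) '' Y.K m =
          Y.K m := by
        have hid : ∀ x ∈ Y.K m, Y.c n + l (Metric.infDist x (Y.K n)) • (x - Y.c n) = x := by
          intro x hx
          have h1 : s₀ ≤ Metric.infDist x (Y.K n) := by
            by_contra hc
            exact hdis ⟨x, hx, (not_le.mp hc).le⟩
          rw [hone _ h1]
          module
        rw [Set.image_congr hid, Set.image_id']
      rw [him]
      linarith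
  · intro m hmn hdis
    rw [Set.not_disjoint_iff] at hdis
    obtain ⟨x, hx, hx'⟩ := hdis
    exact hnear m hmn ⟨x, hx, hx'⟩

end Pool.Agent.Carpet
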