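import Mathlib

/-!
# Complex hyperbolic plane, `PU(2,1)`, convex-cocompact groups, Sierpinski carpet (MP_32b4ed_gt)

The complex hyperbolic plane is the open unit ball of `ℂ²` (`E2`), its ideal boundary the unit
sphere `S³`.
-/

set_option autoImplicit false

namespace Pool.Agent.Carpet

open scoped ComplexConjugate Topology

/-- `ℂ²` with its Euclidean norm; the complex hyperbolic plane is the open unit ball `‖z‖ < 1`,
its ideal boundary is the unit sphere. -/
abbrev E2 : Type := EuclideanSpace ℂ (Fin 2)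

/-- The standard Hermitian form of signature `(2,1)` on `ℂ³`. -/
def herm (v w : Fin 3 → ℂ) : ℂ := v 0 * conj (w 0) + v 1 * conj (w 1) - v 2 * conj (w 2)

/-- The group `U(2,1)` of the matrices preserving the Hermitian form. -/
def U21 : Subgroup (Matrix.GeneralLinearGroup (Fin 3) ℂ) where
  carrier := {A | ∀ v w : Fin 3 → ℂ,
    herm ((A : Matrix (Fin 3) (Fin 3) ℂ).mulVec v) ((A : Matrix (Fin 3) (Fin 3) ℂ).mulVec w) =
      herm v w}
  mul_mem' := by
    intro A A' hA hA' v w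
    simp only [Matrix.GeneralLinearGroup.coe_mul, ← Matrix.mulVec_mulVec]
    rw [hA, hA']
  one_mem' := by
    intro v w
    simp
  inv_mem' := by
    intro A hA v w
    have h := hA ((((A⁻¹ : Matrix.GeneralLinearGroup (Fin 3) ℂ)) : Matrix (Fin 3) (Fin 3) ℂ).mulVec v)
      ((((A⁻¹ : Matrix.GeneralLinearGroup (Fin 3) ℂ)) : Matrix (Fin 3) (Fin 3) ℂ).mulVec w)
    rw [Matrix.mulVec_mulVec, Matrix.mulVec_mulVec, ← Matrix.GeneralLinearGroup.coe_mul,
      mul_inv_cancel, Matrix.GeneralLinearGroup.coe_one, Matrix.one_mulVec, Matrix.one_mulVec] at h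
    exact h.symm

/-- The scalar matrices of `U(2,1)`. -/
def scalars : Subgroup U21 where
  carrier := {A | ∃ c : ℂ, ((A : Matrix.GeneralLinearGroup (Fin 3) ℂ) : Matrix (Fin 3) (Fin 3) ℂ) =
    c • (1 : Matrix (Fin 3) (Fin 3) ℂ)}
  mul_mem' := by
    rintro A A' ⟨c, hc⟩ ⟨c', hc'⟩
    refine ⟨c * c', ?_⟩
    simp only [Subgroup.coe_mul, Matrix.GeneralLinearGroup.coe_mul, hc, hc']
    rw [Matrix.smul_mul, Matrix.one_mul, smul_smul]
  one_mem' := ⟨1, by simp⟩
  inv_mem' := by
    rintro A ⟨c, hc⟩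
    have hmul : ((A : Matrix.GeneralLinearGroup (Fin 3) ℂ) : Matrix (Fin 3) (Fin 3) ℂ) *
        (((A : Matrix.GeneralLinearGroup (Fin 3) ℂ)⁻¹ : Matrix.GeneralLinearGroup (Fin 3) ℂ) :
          Matrix (Fin 3) (Fin 3) ℂ) = 1 := by
      rw [← Matrix.GeneralLinearGroup.coe_mul, mul_inv_cancel, Matrix.GeneralLinearGroup.coe_one]
    rw [hc, Matrix.smul_mul, Matrix.one_mul] at hmul
    have hc0 : c ≠ 0 := by
      rintro rfl
      rw [zero_smul] at hmul
      have := congrFun (congrFun hmul 0) 0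
      simp at this
    refine ⟨c⁻¹, ?_⟩
    have h2 : (((A : Matrix.GeneralLinearGroup (Fin 3) ℂ)⁻¹ :
        Matrix.GeneralLinearGroup (Fin 3) ℂ) : Matrix (Fin 3) (Fin 3) ℂ) =
        c⁻¹ • (1 : Matrix (Fin 3) (Fin 3) ℂ) := by
      rw [← hmul, smul_smul, inv_mul_cancel₀ hc0, one_smul]
    exact h2

instance : scalars.Normal := by
  constructor
  rintro A ⟨c, hc⟩ B
  refine ⟨c, ?_⟩
  simp only [Subgroup.coe_mul, Matrix.GeneralLinearGroup.coe_mul, hc]
  rw [Matrix.mul_smul, Matrix.mul_one, Matrix.smul_mul, ← Matrix.GeneralLinearGroup.coe_mul,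
    ← Subgroup.coe_mul, mul_inv_cancel]
  simp

/-- The group `PU(2,1)` of holomorphic isometries of the complex hyperbolic plane, with its
quotient topology. -/
abbrev PU21 : Type := U21 ⧸ scalars

/-- The lift `(z, 1)` of a point of the closed ball. -/
def lift1 (z : E2) : Fin 3 → ℂ := ![z 0, z 1, 1]

/-- Projective action of a matrix on the closed ball. -/
noncomputable def actM (A : Matrix (Fin 3) (Fin 3) ℂ) (z : E2) : E2 :=
  WithLp.toLp 2 ![(A.mulVec (lift1 z)) 0 / (A.mulVec (lift1 z)) 2,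
    (A.mulVec (lift1 z)) 1 / (A.mulVec (lift1 z)) 2]

/-- Action of `PU(2,1)` on the closed ball. -/
noncomputable def actP (g : PU21) (z : E2) : E2 :=
  Quotient.liftOn' g (fun A : U21 => actM ((A : Matrix.GeneralLinearGroup (Fin 3) ℂ) :
    Matrix (Fin 3) (Fin 3) ℂ) z) (by
    intro A B h
    rw [QuotientGroup.leftRel_apply] at h
    obtain ⟨c, hc⟩ := h
    have hAB : ((B : Matrix.GeneralLinearGroup (Fin 3) ℂ) : Matrix (Fin 3) (Fin 3) ℂ) =
        c • ((A : Matrix.GeneralLinearGroup (Fin 3) ℂ) : Matrix (Fin 3) (Fin 3) ℂ) := by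
      have h1 : ((B : Matrix.GeneralLinearGroup (Fin 3) ℂ) : Matrix (Fin 3) (Fin 3) ℂ) =
          ((A : Matrix.GeneralLinearGroup (Fin 3) ℂ) : Matrix (Fin 3) (Fin 3) ℂ) *
          (((A⁻¹ * B : U21) : Matrix.GeneralLinearGroup (Fin 3) ℂ) :
            Matrix (Fin 3) (Fin 3) ℂ) := by
        rw [← Matrix.GeneralLinearGroup.coe_mul, ← Subgroup.coe_mul]
        simp
      rw [h1, hc, Matrix.mul_smul, Matrix.mul_one]
    have hc0 : c ≠ 0 := by
      rintro rfl
      rw [zero_smul] at hAB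
      have h2 : ((B : Matrix.GeneralLinearGroup (Fin 3) ℂ) : Matrix (Fin 3) (Fin 3) ℂ) *
        (((B : Matrix.GeneralLinearGroup (Fin 3) ℂ)⁻¹ : Matrix.GeneralLinearGroup (Fin 3) ℂ) :
          Matrix (Fin 3) (Fin 3) ℂ) = 1 := by
        rw [← Matrix.GeneralLinearGroup.coe_mul, mul_inv_cancel,
          Matrix.GeneralLinearGroup.coe_one]
      rw [hAB, Matrix.zero_mul] at h2
      have := congrFun (congrFun h2 0) 0
      simp at this
    simp only [actM, hAB, Matrix.smul_mulVec, Pi.smul_apply, smul_eq_mul,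
      mul_div_mul_left _ _ hc0])

/-- The limit set of `G`: the accumulation points in the sphere of the orbit of `x`. -/
def limitSet (G : Subgroup PU21) (x : E2) : Set E2 :=
  {ξ | ‖ξ‖ = 1 ∧ AccPt ξ (Filter.principal {z | ∃ g ∈ G, z = actP g x})}

/-- The distance of the complex hyperbolic plane of holomorphic sectional curvature `-1`:
`cosh² (d/2) = |1 - ⟨z,w⟩|² / ((1-|z|²)(1-|w|²))`. -/
noncomputable def hdist (z w : E2) : ℝ :=
  2 * Real.arcosh (‖1 - inner ℂ z w‖ / √((1 - ‖z‖ ^ 2) * (1 - ‖w‖ ^ 2)))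

/-- Convex subsets of the complex hyperbolic plane (a point `z` is on the geodesic segment
`[x, y]` iff `d(x,z) + d(z,y) = d(x,y)`). -/
def GeodConvex (C : Set E2) : Prop :=
  C ⊆ Metric.ball 0 1 ∧
    ∀ x ∈ C, ∀ y ∈ C, ∀ z ∈ Metric.ball (0 : E2) 1, hdist x z + hdist z y = hdist x y → z ∈ C

/-- The convex hull in the complex hyperbolic plane of a set `L` of ideal points: the smallest
(relatively) closed convex subset of the plane whose closure in the closed ball contains `L`. -/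
def hull (L : Set E2) : Set E2 :=
  {z | ‖z‖ < 1 ∧ ∀ C : Set E2, GeodConvex C → (∀ x ∈ closure C, ‖x‖ < 1 → x ∈ C) →
    L ⊆ closure C → z ∈ C}

/-- `G` is convex-cocompact: it is discrete and acts cocompactly on the convex hull of its limit
set. -/
def ConvexCocompact (G : Subgroup PU21) : Prop :=
  DiscreteTopology G ∧ ∃ K : Set E2, IsCompact K ∧ K ⊆ Metric.ball 0 1 ∧
    hull (limitSet G 0) ⊆ {z | ∃ g ∈ G, ∃ x ∈ K, z = actP g x}

/-- One step of the construction of the Sierpinski carpet: the union of eight copies, scaled by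
`1/3`, of the set, placed in the eight subsquares different from the middle one. -/
def carpetStep (S : Set (ℝ × ℝ)) : Set (ℝ × ℝ) :=
  {p | ∃ i j : Fin 3, (i, j) ≠ (1, 1) ∧ (3 * p.1 - (i : ℕ), 3 * p.2 - (j : ℕ)) ∈ S}

/-- The Sierpinski carpet. -/
def carpet : Set (ℝ × ℝ) := ⋂ n : ℕ, carpetStep^[n] (Set.Icc 0 1 ×ˢ Set.Icc 0 1)

end Pool.Agent.Carpet
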