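import Pool.Agent.Lib_helper45.Carpet.Hull

/-! # Block DISC : discreteness -/

set_option autoImplicit false

namespace Pool.Agent.Carpet

open scoped Topology

variable {Γ : Type*} [Group Γ]

/-- the matrix of an element of `U(2,1)` -/
def disc_mat (A : U21) : Matrix (Fin 3) (Fin 3) ℂ :=
  ((A : Matrix.GeneralLinearGroup (Fin 3) ℂ) : Matrix (Fin 3) (Fin 3) ℂ)

theorem disc_mat_continuous : Continuous disc_mat :=
  Units.continuous_val.comp continuous_subtype_val

theorem disc_entry_continuous (i j : Fin 3) : Continuous (fun A : U21 => disc_mat A i j) :=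
  (continuous_apply j).comp ((continuous_apply i).comp disc_mat_continuous)

theorem disc_scalars_closed : IsClosed (scalars : Set U21) := by
  have h : (scalars : Set U21) = ⋂ (i : Fin 3) (j : Fin 3),
      {A : U21 | disc_mat A i j = if i = j then disc_mat A 0 0 else 0} := by
    ext A
    simp only [Set.mem_iInter]
    constructor
    · rintro ⟨c, hc⟩ i j
      have hc' : disc_mat A = c • (1 : Matrix (Fin 3) (Fin 3) ℂ) := hc
      show disc_mat A i j = if i = j then disc_mat A 0 0 else 0
      rw [hc']
      by_cases hij : i = j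
      · subst hij
        simp
      · simp [hij]
    · intro hA
      refine ⟨disc_mat A 0 0, ?_⟩
      show disc_mat A = disc_mat A 0 0 • (1 : Matrix (Fin 3) (Fin 3) ℂ)
      ext i j
      have := hA i j
      have h2 : disc_mat A i j = if i = j then disc_mat A 0 0 else 0 := this
      rw [h2]
      by_cases hij : i = j
      · subst hij
        simp
      · simp [hij]
  rw [h]
  refine isClosed_iInter fun i => isClosed_iInter fun j => ?_
  refine isClosed_eq (disc_entry_continuous i j) ?_
  by_cases hij : i = j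
  · simp only [hij, if_true]
    exact disc_entry_continuous 0 0
  · simp only [hij, if_false]
    exact continuous_const

instance disc_t1 : T1Space PU21 := QuotientGroup.t1Space_iff.2 disc_scalars_closed

theorem disc_ne (A : U21) : disc_mat A 2 2 ≠ 0 := by
  intro h
  have h1 := A.2 ![0, 0, 1] ![0, 0, 1]
  have e : ∀ i, ((disc_mat A).mulVec ![0, 0, 1]) i = disc_mat A i 2 := by
    intro i
    simp [Matrix.mulVec, dotProduct, Fin.sum_univ_three]
  have h2 : herm ((disc_mat A).mulVec ![0, 0, 1]) ((disc_mat A).mulVec ![0, 0, 1]) =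
      herm ![0, 0, 1] ![0, 0, 1] := h1
  unfold herm at h2
  rw [e, e, e, h] at h2
  simp only [Matrix.cons_val_zero, Matrix.cons_val_one, Matrix.cons_val, map_zero, mul_zero,
    map_one, mul_one, zero_mul] at h2
  rw [Complex.mul_conj, Complex.mul_conj] at h2
  have h3 := congrArg Complex.re h2
  simp only [Complex.add_re, Complex.sub_re, Complex.ofReal_re, Complex.zero_re,
    Complex.one_re] at h3
  have h4 := Complex.normSq_nonneg (disc_mat A 0 2)
  have h5 := Complex.normSq_nonneg (disc_mat A 1 2)
  linarith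

theorem disc_actM (A : U21) : actM (disc_mat A) 0 =
    WithLp.toLp 2 ![disc_mat A 0 2 / disc_mat A 2 2, disc_mat A 1 2 / disc_mat A 2 2] := by
  have e : ∀ i, ((disc_mat A).mulVec (lift1 0)) i = disc_mat A i 2 := by
    intro i
    simp [Matrix.mulVec, dotProduct, Fin.sum_univ_three, lift1]
  unfold actM
  rw [e, e, e]

theorem disc_continuous : Continuous (fun y : PU21 => actP y 0) := by
  refine continuous_quot_lift _ ?_
  show Continuous (fun A : U21 => actM (disc_mat A) 0)
  simp only [disc_actM]
  refine (PiLp.continuous_toLp 2 _).comp ?_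
  refine continuous_pi fun i => ?_
  fin_cases i
  · exact (disc_entry_continuous 0 2).div (disc_entry_continuous 2 2) disc_ne
  · exact (disc_entry_continuous 1 2).div (disc_entry_continuous 2 2) disc_ne

theorem discrete_range {R : Rep Γ ℂ E2} (f : ∀ r : ℝ, {g : Γ | R.N g ≤ r}.Finite)
    {φ : Γ →* PU21} (hφ : ∀ (g : Γ) (x : E2), actP (φ g) x = R.act g x) :
    DiscreteTopology φ.range := by
  have hpt : ∀ g : Γ, actP (φ g) 0 = R.pt g := fun g => hφ g 0
  have hfin : ∀ c : ℝ, c < 1 → {y : φ.range | ‖actP (y : PU21) 0‖ < c}.Finite := by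
    intro c hc
    have h1 : ((fun g : Γ => (⟨φ g, ⟨g, rfl⟩⟩ : φ.range)) ''
        {g : Γ | R.N g ≤ 1 / (1 - c)}).Finite := (f (1 / (1 - c))).image _
    refine h1.subset ?_
    rintro ⟨y, g, rfl⟩ hy
    refine ⟨g, ?_, rfl⟩
    show R.N g ≤ 1 / (1 - c)
    have hy' : ‖R.pt g‖ < c := by
      rw [← hpt g]
      exact hy
    have h2 := R.one_sub_norm_pt g
    have h3 := R.one_le_N g
    have h4 := norm_nonneg (R.pt g)
    have hc1 : 0 < 1 - c := by linarith
    rw [le_div_iff₀ hc1]
    have h5 : (1 - c) * R.N g ^ 2 ≤ 1 := by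
      rw [← h2]
      apply mul_le_mul_of_nonneg_right _ (by positivity)
      nlinarith
    nlinarith
  rw [discreteTopology_iff_isOpen_singleton]
  intro y
  obtain ⟨c, hc1, hc2⟩ : ∃ c : ℝ, ‖actP (y : PU21) 0‖ < c ∧ c < 1 := by
    obtain ⟨g, hg⟩ := y.2
    have : ‖actP (y : PU21) 0‖ < 1 := by
      rw [← hg, hpt]
      exact R.norm_pt_lt g
    exact exists_between this
  set U : Set φ.range := {y : φ.range | ‖actP (y : PU21) 0‖ < c} with hU
  have hUo : IsOpen U :=
    isOpen_lt (disc_continuous.comp continuous_subtype_val).norm continuous_const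
  have hfU : U.Finite := hfin c hc2
  have h6 : ({y} : Set φ.range) = U ∩ (U \ {y})ᶜ := by
    ext z
    simp only [Set.mem_singleton_iff, Set.mem_inter_iff, Set.mem_compl_iff, Set.mem_sdiff, not_and,
      not_not]
    constructor
    · rintro rfl
      exact ⟨hc1, fun _ => rfl⟩
    · rintro ⟨h, h'⟩
      exact h' h
  rw [h6]
  exact hUo.inter (hfU.sdiff.isClosed.isOpen_compl)

end Pool.Agent.Carpet
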