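import Pool.Agent.Lib_helper45.Carpet.Frame

/-! # Block DIST : the distance to a convex set is differentiable off the set -/

set_option autoImplicit false

namespace Pool.Agent.Carpet

open scoped Topology InnerProductSpace

/-- The nearest point and its variational characterization. -/
theorem DIST_exists_proj {K : Set P2} (hK : Convex ℝ K) (hc : IsCompact K) (hn : K.Nonempty)
    (x : P2) : ∃ p ∈ K, Metric.infDist x K = ‖x - p‖ ∧ ∀ w ∈ K, ⟪x - p, w - p⟫_ℝ ≤ 0 := by
  obtain ⟨p, hp, hd⟩ := hc.exists_infDist_eq_dist hn x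
  refine ⟨p, hp, by rw [hd, dist_eq_norm], ?_⟩
  rw [← norm_eq_iInf_iff_real_inner_le_zero hK hp]
  have : Nonempty K := ⟨⟨p, hp⟩⟩
  rw [← dist_eq_norm, ← hd, Metric.infDist_eq_iInf]
  exact iInf_congr fun w => dist_eq_norm _ _

/-- The derivative of the norm. -/
theorem DIST_hasFDerivAt_norm {z : P2} (hz : z ≠ 0) :
    HasFDerivAt (fun y : P2 => ‖y‖) (innerSL ℝ (‖z‖⁻¹ • z)) z := by
  have hz' : ‖z‖ ≠ 0 := norm_ne_zero_iff.mpr hz
  have h1 : HasFDerivAt (fun y : P2 => ‖y‖ ^ 2) (2 • (innerSL ℝ z)) z :=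
    (hasStrictFDerivAt_norm_sq z).hasFDerivAt
  have h2 := h1.sqrt (pow_ne_zero 2 hz')
  have h3 : (fun y : P2 => √(‖y‖ ^ 2)) = fun y => ‖y‖ := by
    funext y
    exact Real.sqrt_sq (norm_nonneg y)
  rw [h3] at h2
  refine h2.congr_fderiv ?_
  ext h
  simp only [Real.sqrt_sq (norm_nonneg z), smul_apply, innerSL_apply_apply,
    real_inner_smul_left, smul_eq_mul, nsmul_eq_mul]
  push_cast
  field_simp

theorem hasFDerivAt_infDist {K : Set P2} (hK : Convex ℝ K) (hc : IsCompact K) (hn : K.Nonempty)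
    {x : P2} (hx : x ∉ K) :
    ∃ n : P2, ‖n‖ = 1 ∧ HasFDerivAt (fun y => Metric.infDist y K) (innerSL ℝ n) x ∧
      ∀ c ∈ K, 0 ≤ ⟪n, x - c⟫_ℝ := by
  obtain ⟨p, hp, hd, hvar⟩ := DIST_exists_proj hK hc hn x
  have hz : x - p ≠ 0 := by
    intro h
    rw [sub_eq_zero] at h
    exact hx (h ▸ hp)
  have hz' : 0 < ‖x - p‖ := norm_pos_iff.mpr hz
  have hn1 : ‖(‖x - p‖⁻¹ • (x - p))‖ = 1 := by
    rw [norm_smul, norm_inv, norm_norm, inv_mul_cancel₀ hz'.ne']
  refine ⟨‖x - p‖⁻¹ • (x - p), hn1, ?_, ?_⟩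
  · have h1 : HasFDerivAt (fun y : P2 => ‖y - p‖) (innerSL ℝ (‖x - p‖⁻¹ • (x - p))) x := by
      have h0 : HasFDerivAt (fun y : P2 => y - p) (ContinuousLinearMap.id ℝ P2) x :=
        (hasFDerivAt_id x).sub_const p
      have := HasFDerivAt.comp x (DIST_hasFDerivAt_norm hz) h0
      rw [ContinuousLinearMap.comp_id] at this
      exact this
    rw [hasFDerivAt_iff_isLittleO] at h1 ⊢
    refine (Asymptotics.IsBigO.of_bound 1 (Filter.Eventually.of_forall fun y => ?_)).trans_isLittleO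
      h1
    obtain ⟨p', hp', hd', -⟩ := DIST_exists_proj hK hc hn y
    have hlow : Metric.infDist x K + ⟪‖x - p‖⁻¹ • (x - p), y - x⟫_ℝ ≤ Metric.infDist y K := by
      have e1 : ⟪‖x - p‖⁻¹ • (x - p), y - p'⟫_ℝ ≤ ‖y - p'‖ := by
        have := real_inner_le_norm (‖x - p‖⁻¹ • (x - p)) (y - p')
        rwa [hn1, one_mul] at this
      have e2 : y - p' = (x - p) + (y - x) - (p' - p) := by abel
      rw [e2, inner_sub_right, inner_add_right] at e1
      have e3 : ⟪‖x - p‖⁻¹ • (x - p), x - p⟫_ℝ = ‖x - p‖ := by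
        rw [real_inner_smul_left, real_inner_self_eq_norm_sq]
        field_simp
      have e4 : ⟪‖x - p‖⁻¹ • (x - p), p' - p⟫_ℝ ≤ 0 := by
        rw [real_inner_smul_left]
        exact mul_nonpos_of_nonneg_of_nonpos (inv_nonneg.mpr hz'.le) (hvar p' hp')
      rw [← e2] at e1
      rw [hd, hd']
      linarith
    have hup : Metric.infDist y K ≤ ‖y - p‖ := by
      rw [← dist_eq_norm]
      exact Metric.infDist_le_dist_of_mem hp
    rw [one_mul, Real.norm_eq_abs, Real.norm_eq_abs, innerSL_apply_apply]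
    rw [hd] at hlow ⊢
    rw [abs_of_nonneg (by linarith), abs_of_nonneg (by linarith)]
    linarith
  · intro c hc'
    rw [real_inner_smul_left]
    apply mul_nonneg (inv_nonneg.mpr hz'.le)
    have e1 := hvar c hc'
    have e2 : x - c = (x - p) - (c - p) := by abel
    rw [e2, inner_sub_right, real_inner_self_eq_norm_sq]
    nlinarith [sq_nonneg ‖x - p‖]

end Pool.Agent.Carpet
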