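import Pool.Agent.Lib_helper45.Carpet.Geo

/-! # Block FIN -/

set_option autoImplicit false

namespace Pool.Agent.Carpet

variable {St Γ 𝕜 E : Type*} [Group Γ] [RCLike 𝕜] [NormedAddCommGroup E] [InnerProductSpace 𝕜 E]

private theorem fin_lists {T : St → Γ → St → Prop} (hT : AutGood T) (w : Γ) :
    ∃ l : List {g | ∃ s s', T s g s'}, (∃ s s', Path T s (l.map Subtype.val) s') ∧
      (l.map Subtype.val).prod = w := by
  obtain ⟨s, l, s', hp, hw⟩ := hT.2 w
  have hmem : ∀ g ∈ l, g ∈ {g | ∃ s s', T s g s'} := fun g hg => Path.mem hp hg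
  refine ⟨l.attach.map (fun x => ⟨x.1, hmem x.1 x.2⟩), ?_, ?_⟩
  · refine ⟨s, s', ?_⟩
    rw [List.map_map]
    have : (Subtype.val ∘ fun x : {x // x ∈ l} => (⟨x.1, hmem x.1 x.2⟩ :
        {g | ∃ s s', T s g s'})) = Subtype.val := rfl
    rw [this, List.attach_map_subtype_val]
    exact hp
  · rw [List.map_map]
    have : (Subtype.val ∘ fun x : {x // x ∈ l} => (⟨x.1, hmem x.1 x.2⟩ :
        {g | ∃ s s', T s g s'})) = Subtype.val := rfl
    rw [this, List.attach_map_subtype_val]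
    exact hw

theorem finite_of_growth {T : St → Γ → St → Prop} (hT : AutGood T) {R : Rep Γ 𝕜 E}
    (h : Growth R T) (r : ℝ) : {g : Γ | R.N g ≤ r}.Finite := by
  obtain ⟨c, θ, hc, hθ, hg⟩ := h
  obtain ⟨L, hL⟩ := pow_unbounded_of_one_lt (r / c) hθ
  have hfin : Finite {g | ∃ s s', T s g s'} := hT.1.to_subtype
  have h1 : ((fun l : List {g | ∃ s s', T s g s'} => (l.map Subtype.val).prod) ''
      {l | l.length ≤ L}).Finite := (List.finite_length_le _ L).image _
  refine h1.subset ?_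
  intro w hw
  obtain ⟨l, ⟨s, s', hp⟩, hl⟩ := fin_lists hT w
  refine ⟨l, ?_, hl⟩
  by_contra hlt
  simp only [Set.mem_ofPred_eq, not_le] at hlt
  have h2 := hg s _ s' hp
  rw [hl, List.length_map] at h2
  have h3 : θ ^ L ≤ θ ^ l.length := pow_le_pow_right₀ hθ.le hlt.le
  rw [div_lt_iff₀ hc] at hL
  have h4 : R.N w ≤ r := hw
  nlinarith

private theorem fin_summable_list (S : Type*) [Finite S] {x : ℝ} (hx : 0 ≤ x)
    (h : (Nat.card S : ℝ) * x < 1) : Summable fun l : List S => x ^ l.length := by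
  have := Fintype.ofFinite S
  rw [← (List.equivSigmaTuple (α := S)).symm.summable_iff]
  have h1 : ∀ y : (Σ n, Fin n → S),
      ((fun l : List S => x ^ l.length) ∘ (List.equivSigmaTuple (α := S)).symm) y = x ^ y.1 := by
    rintro ⟨n, f⟩
    simp [List.equivSigmaTuple]
  rw [summable_congr h1, summable_sigma_of_nonneg (fun y => pow_nonneg hx _)]
  constructor
  · intro n
    exact Summable.of_finite
  · have h2 : ∀ n : ℕ, ∑' f : Fin n → S, x ^ n = ((Nat.card S : ℝ) * x) ^ n := by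
      intro n
      rw [tsum_fintype, Finset.sum_const, Finset.card_univ, nsmul_eq_mul, mul_pow]
      simp
    rw [summable_congr h2]
    exact summable_geometric_of_lt_one (by positivity) h

theorem summable_of_growth {T : St → Γ → St → Prop} (hT : AutGood T) {R : Rep Γ 𝕜 E}
    (h : Growth R T) : ∃ s : ℕ, 0 < s ∧ Summable fun g : Γ => (R.N g ^ (2 * s))⁻¹ := by
  obtain ⟨c, θ, hc, hθ, hg⟩ := h
  have hfin : Finite {g | ∃ s s', T s g s'} := hT.1.to_subtype
  obtain ⟨k, hk⟩ := pow_unbounded_of_one_lt (Nat.card {g | ∃ s s', T s g s'} : ℝ) hθ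
  choose φ hφ hφ2 using fun w => fin_lists hT w
  have hinj : Function.Injective φ := by
    intro a b hab
    rw [← hφ2 a, ← hφ2 b, hab]
  set s := k + 1 with hs
  refine ⟨s, Nat.succ_pos k, ?_⟩
  have hθ0 : 0 < θ := by linarith
  set x : ℝ := (θ ^ (2 * s))⁻¹ with hx
  have hx0 : 0 ≤ x := by positivity
  have hxlt : (Nat.card {g | ∃ s s', T s g s'} : ℝ) * x < 1 := by
    rw [hx, ← div_eq_mul_inv, div_lt_one (by positivity)]
    refine hk.trans_le (pow_le_pow_right₀ hθ.le (by omega))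
  have h1 := fin_summable_list {g | ∃ s s', T s g s'} hx0 hxlt
  have h2 := (h1.comp_injective hinj).mul_left ((c ^ (2 * s))⁻¹)
  refine Summable.of_nonneg_of_le (fun g => ?_) (fun g => ?_) h2
  · have := R.one_le_N g
    positivity
  · obtain ⟨a, b, hp⟩ := hφ g
    have h3 := hg a _ b hp
    rw [hφ2 g, List.length_map] at h3
    have h4 : (c ^ (2 * s))⁻¹ * x ^ (φ g).length = ((c * θ ^ (φ g).length) ^ (2 * s))⁻¹ := by
      rw [hx, mul_pow, mul_inv, inv_pow, ← pow_mul, ← pow_mul, mul_comm (φ g).length]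
    simp only [Function.comp_apply]
    rw [h4]
    apply inv_anti₀ (by positivity)
    exact pow_le_pow_left₀ (by positivity) h3 _

theorem bounded_letters {T : St → Γ → St → Prop} (hT : AutGood T) (R : Rep Γ 𝕜 E) :
    ∃ m : ℝ, 1 ≤ m ∧ ∀ s g s', T s g s' → R.N g ≤ m := by
  obtain ⟨m, hm⟩ := (hT.1.image R.N).bddAbove
  refine ⟨max 1 m, le_max_left _ _, ?_⟩
  intro s g s' h
  exact (hm ⟨g, ⟨s, s', h⟩, rfl⟩).trans (le_max_right _ _)

end Pool.Agent.Carpet
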