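import Pool.Agent.Lib_helper45.Carpet.Hyp

/-! # Block HULL : the orbit is cobounded in the hull -/

set_option autoImplicit false

namespace Pool.Agent.Carpet

open scoped Topology ComplexConjugate

variable {Γ : Type*} [Group Γ]

/-- The projective action on the ball of `ℂ²`. -/
noncomputable def Rep.act (R : Rep Γ ℂ E2) (g : Γ) (x : E2) : E2 :=
  ((R.ρ g (x, 1)).2)⁻¹ • (R.ρ g (x, 1)).1

namespace HullAux

theorem q_one (z : E2) : q ((z, 1) : E2 × ℂ) = ‖z‖ ^ 2 - 1 := by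
  simp [q]

/-- The normalized lift. -/
noncomputable def nl (z : E2) : E2 × ℂ := (((√(1 - ‖z‖ ^ 2))⁻¹ : ℝ) : ℂ) • (z, 1)

theorem one_sub_pos {z : E2} (hz : ‖z‖ < 1) : 0 < 1 - ‖z‖ ^ 2 := by
  have := norm_nonneg z
  nlinarith

theorem q_nl {z : E2} (hz : ‖z‖ < 1) : q (nl z) = -1 := by
  have h := one_sub_pos hz
  rw [nl, q_smul, q_one]
  rw [Complex.norm_real, Real.norm_eq_abs, sq_abs, inv_pow, Real.sq_sqrt h.le]
  field_simp
  ring

/-- unit-scalar invariance of the potential -/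
theorem pot_lift (R : Rep Γ ℂ E2) (s : ℕ) {z : E2} (hz : ‖z‖ < 1) {α : ℂ}
    (hα : q (α • (z, 1) : E2 × ℂ) = -1) : pot R s (α • (z, 1) : E2 × ℂ) = pot R s (nl z) := by
  have h := one_sub_pos hz
  have h1 : ‖α‖ = (√(1 - ‖z‖ ^ 2))⁻¹ := by
    rw [q_smul, q_one] at hα
    have h2 : ‖α‖ ^ 2 = ((√(1 - ‖z‖ ^ 2))⁻¹) ^ 2 := by
      rw [inv_pow, Real.sq_sqrt h.le]
      field_simp
      linarith
    have h3 : 0 ≤ (√(1 - ‖z‖ ^ 2))⁻¹ := by positivity
    exact (pow_left_inj₀ (norm_nonneg _) h3 two_ne_zero).mp h2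
  unfold pot
  refine tsum_congr fun g => ?_
  have e1 : ‖B (α • (z, 1) : E2 × ℂ) (R.ρ g o)‖ = ‖α‖ * ‖B ((z, 1) : E2 × ℂ) (R.ρ g o)‖ := by
    rw [B_smul_left, norm_mul, RCLike.norm_conj]
  have e2 : ‖B (nl z) (R.ρ g o)‖ = ‖α‖ * ‖B ((z, 1) : E2 × ℂ) (R.ρ g o)‖ := by
    rw [nl, B_smul_left, norm_mul, RCLike.norm_conj, Complex.norm_real, Real.norm_eq_abs,
      abs_of_nonneg (by positivity), h1]
  rw [e1, e2]

theorem q_comb {X Y : E2 × ℂ} {C : ℝ} (a b : ℝ) (hX : q X = -1) (hY : q Y = -1)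
    (hXY : B X Y = ((C : ℝ) : ℂ)) :
    q ((a : ℂ) • X + (b : ℂ) • Y) = -a ^ 2 - b ^ 2 + 2 * a * b * C := by
  have hYX : B Y X = ((C : ℝ) : ℂ) := by
    rw [← B_conj, hXY]
    exact Complex.conj_ofReal _
  have hBX : B X X = (-1 : ℂ) := by rw [B_self, hX]; norm_num
  have hBY : B Y Y = (-1 : ℂ) := by rw [B_self, hY]; norm_num
  have h1 : ((q ((a : ℂ) • X + (b : ℂ) • Y) : ℝ) : ℂ) =
      ((-a ^ 2 - b ^ 2 + 2 * a * b * C : ℝ) : ℂ) := by
    have h2 : ((q ((a : ℂ) • X + (b : ℂ) • Y) : ℝ) : ℂ) =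
      B ((a : ℂ) • X + (b : ℂ) • Y) ((a : ℂ) • X + (b : ℂ) • Y) := by rw [B_self]; rfl
    rw [h2, B_add_left, B_add_right, B_add_right]
    simp only [B_smul_left, B_smul_right, hBX, hBY, hXY, hYX, Complex.conj_ofReal]
    push_cast
    ring
  exact Complex.ofReal_injective h1

theorem q_geod {X Y : E2 × ℂ} {L t : ℝ} (hX : q X = -1) (hY : q Y = -1) (hL : 0 < L)
    (hXY : B X Y = ((-Real.cosh L : ℝ) : ℂ)) : q (geod X Y L t) = -1 := by
  have hs : Real.sinh L ≠ 0 := (Real.sinh_pos_iff.mpr hL).ne'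
  have h := q_comb ((Real.sinh L)⁻¹ * Real.sinh (L - t)) ((Real.sinh L)⁻¹ * Real.sinh t) hX hY hXY
  have h' : q (geod X Y L t) = _ := h
  rw [h']
  have hsum : L = (L - t) + t := by ring
  have e1 : Real.cosh L = Real.cosh (L - t) * Real.cosh t + Real.sinh (L - t) * Real.sinh t := by
    conv_lhs => rw [hsum]
    rw [Real.cosh_add]
  have e2 : Real.sinh L = Real.sinh (L - t) * Real.cosh t + Real.cosh (L - t) * Real.sinh t := by
    conv_lhs => rw [hsum]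
    rw [Real.sinh_add]
  have c1 : Real.cosh (L - t) ^ 2 = Real.sinh (L - t) ^ 2 + 1 := Real.cosh_sq _
  have c2 : Real.cosh t ^ 2 = Real.sinh t ^ 2 + 1 := Real.cosh_sq _
  rw [e1]
  generalize Real.sinh (L - t) = a at *
  generalize Real.cosh (L - t) = a' at *
  generalize Real.sinh t = b at *
  generalize Real.cosh t = b' at *
  have key : a ^ 2 + b ^ 2 + 2 * a * b * (a' * b' + a * b) = Real.sinh L ^ 2 := by
    rw [e2]
    linear_combination (-a ^ 2) * c2 - b ^ 2 * c1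
  field_simp
  linear_combination (-1) * key

theorem act_eq (R : Rep Γ ℂ E2) (g : Γ) (z : E2) :
    ∃ c : ℂ, c = (R.ρ g (z, 1)).2 ∧ R.act g z = c⁻¹ • (R.ρ g (z, 1)).1 := ⟨_, rfl, rfl⟩

theorem snd_ne {v : E2 × ℂ} (hv : q v < 0) : v.2 ≠ 0 := by
  intro h
  unfold q at hv
  rw [h, norm_zero] at hv
  have := sq_nonneg ‖v.1‖
  linarith

theorem lift_act (R : Rep Γ ℂ E2) (g : Γ) {z : E2} (hz : ‖z‖ < 1) :
    ((R.act g z, 1) : E2 × ℂ) = ((R.ρ g (z, 1)).2)⁻¹ • R.ρ g (z, 1) := by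
  have h0 : q (R.ρ g ((z, 1) : E2 × ℂ)) < 0 := by
    rw [R.q_act, q_one]
    have := one_sub_pos hz
    linarith
  have h1 := snd_ne h0
  refine Prod.ext rfl ?_
  simp only [Prod.smul_snd, smul_eq_mul]
  exact (inv_mul_cancel₀ h1).symm

theorem norm_act_lt (R : Rep Γ ℂ E2) (g : Γ) {z : E2} (hz : ‖z‖ < 1) : ‖R.act g z‖ < 1 := by
  have h0 : q (R.ρ g ((z, 1) : E2 × ℂ)) < 0 := by
    rw [R.q_act, q_one]
    have := one_sub_pos hz
    linarith
  have h1 := snd_ne h0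
  have h2 : q ((R.act g z, 1) : E2 × ℂ) < 0 := by
    rw [lift_act R g hz, q_smul]
    have : 0 < ‖((R.ρ g (z, 1)).2)⁻¹‖ ^ 2 := by
      have := norm_pos_iff.mpr (inv_ne_zero h1)
      positivity
    exact mul_neg_of_pos_of_neg this h0
  rw [q_one] at h2
  have := norm_nonneg (R.act g z)
  nlinarith

theorem act_mul (R : Rep Γ ℂ E2) (g h : Γ) {z : E2} (hz : ‖z‖ < 1) :
    R.act (g * h) z = R.act g (R.act h z) := by
  have h0 : q (R.ρ h ((z, 1) : E2 × ℂ)) < 0 := by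
    rw [R.q_act, q_one]
    have := one_sub_pos hz
    linarith
  have h1 := snd_ne h0
  have e : R.ρ g ((R.act h z, 1) : E2 × ℂ) =
      ((R.ρ h (z, 1)).2)⁻¹ • R.ρ (g * h) (z, 1) := by
    rw [lift_act R h hz, map_smul, R.ρ_mul]
  have e' : R.act g (R.act h z) = ((R.ρ g ((R.act h z, 1) : E2 × ℂ)).2)⁻¹ •
      (R.ρ g ((R.act h z, 1) : E2 × ℂ)).1 := rfl
  rw [e', e]
  simp only [Prod.smul_snd, Prod.smul_fst, smul_smul, smul_eq_mul]
  have e2 : R.act (g * h) z = ((R.ρ (g * h) ((z, 1) : E2 × ℂ)).2)⁻¹ •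
      (R.ρ (g * h) ((z, 1) : E2 × ℂ)).1 := rfl
  rw [e2]
  congr 1
  rw [mul_inv, inv_inv, mul_assoc, mul_comm, mul_assoc, inv_mul_cancel₀ h1, mul_one]

theorem act_one (R : Rep Γ ℂ E2) (z : E2) : R.act 1 z = z := by
  have e2 : R.act 1 z = ((R.ρ 1 ((z, 1) : E2 × ℂ)).2)⁻¹ • (R.ρ 1 ((z, 1) : E2 × ℂ)).1 := rfl
  rw [e2, map_one]
  simp

theorem continuousOn_potnl {R : Rep Γ ℂ E2} {s : ℕ} (hs0 : 0 < s)
    (hs : Summable fun g : Γ => (R.N g ^ (2 * s))⁻¹) :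
    ContinuousOn (fun z : E2 => pot R s (nl z)) (Metric.ball 0 1) := by
  refine (pot_continuousOn hs0 hs).comp ?_ ?_
  · unfold nl
    have h1 : ContinuousOn (fun z : E2 => ((√(1 - ‖z‖ ^ 2))⁻¹ : ℝ)) (Metric.ball 0 1) := by
      refine ContinuousOn.inv₀ ?_ ?_
      · exact (Real.continuous_sqrt.comp (by fun_prop)).continuousOn
      · intro z hz
        have := one_sub_pos (by simpa using hz : ‖z‖ < 1)
        exact (Real.sqrt_pos.mpr this).ne'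
    have h2 : ContinuousOn (fun z : E2 => ((((√(1 - ‖z‖ ^ 2))⁻¹ : ℝ)) : ℂ)) (Metric.ball 0 1) :=
      Complex.continuous_ofReal.comp_continuousOn h1
    refine h2.smul ?_
    fun_prop
  · intro z hz
    have hz' : ‖z‖ < 1 := by simpa using hz
    show q (nl z) < 0
    rw [q_nl hz']
    norm_num

end HullAux

open HullAux in
theorem hull_cocompact {R : Rep Γ ℂ E2} {s : ℕ} (hs0 : 0 < s)
    (hs : Summable fun g : Γ => (R.N g ^ (2 * s))⁻¹) {c : ℝ} (hc : 0 < c) (hn : NearProp R c) :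
    ∃ K : Set E2, IsCompact K ∧ K ⊆ Metric.ball 0 1 ∧
      hull R.limSet ⊆ {z | ∃ g : Γ, ∃ x ∈ K, z = R.act g x} := by
  obtain ⟨m, hm0, hm1, hconv⟩ := pot_convex hs0 hs hc hn
  obtain ⟨r₀, hr₀⟩ := pot_near hs0 hs hc hn hm0
  set C : Set E2 := {z | ‖z‖ < 1 ∧ m ≤ pot R s (nl z)} with hC
  have hconvC : GeodConvex C := by
    refine ⟨fun z hz => by simpa using hz.1, ?_⟩
    intro x hx y hy z hz h
    have hz' : ‖z‖ < 1 := by simpa using hz
    by_cases hxy : x = y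
    · subst hxy
      have h0 : hdist x x = 0 := (hdist_eq_zero hx.1 hx.1).mpr rfl
      rw [h0] at h
      have h1 := hdist_nonneg hx.1 hz'
      have h2 := hdist_nonneg hz' hx.1
      have h3 : hdist x z = 0 := by linarith
      have h4 := (hdist_eq_zero hx.1 hz').mp h3
      rw [← h4]
      exact hx
    · obtain ⟨α, β, L, t, hα, hβ, hL, ht, hB, δ, hδ, hg⟩ := hdist_eq_case hx.1 hy.1 hz' hxy h
      have h1 := hconv (α • (x, 1)) (β • (y, 1)) L hα hβ hL hB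
        (by rw [pot_lift R s hx.1 hα]; exact hx.2) (by rw [pot_lift R s hy.1 hβ]; exact hy.2) t ht
      have h2 : q (geod (α • (x, 1) : E2 × ℂ) (β • (y, 1)) L t) = -1 := q_geod hα hβ hL hB
      rw [hg] at h1 h2
      rw [pot_lift R s hz' h2] at h1
      exact ⟨hz', h1⟩
  have hclC : ∀ x ∈ closure C, ‖x‖ < 1 → x ∈ C := by
    intro x hx hx1
    refine ⟨hx1, ?_⟩
    obtain ⟨u, hu, hux⟩ := mem_closure_iff_seq_limit.mp hx
    have hcont : ContinuousAt (fun z : E2 => pot R s (nl z)) x :=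
      (continuousOn_potnl hs0 hs).continuousAt (Metric.isOpen_ball.mem_nhds (by simpa using hx1))
    exact ge_of_tendsto' (hcont.tendsto.comp hux) (fun n => (hu n).2)
  have hlim : R.limSet ⊆ closure C := by
    rintro ξ ⟨-, hξ⟩
    refine closure_mono ?_ hξ
    rintro _ ⟨g, rfl⟩
    have hq : q (R.ρ g (o : E2 × ℂ)) = -1 := by rw [R.q_act, q_o]
    have hne := snd_ne (v := R.ρ g (o : E2 × ℂ)) (by rw [hq]; norm_num)
    have e : R.ρ g (o : E2 × ℂ) = (R.ρ g (o : E2 × ℂ)).2 • ((R.pt g, 1) : E2 × ℂ) := by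
      refine Prod.ext ?_ ?_
      · simp only [Prod.smul_fst, Rep.pt, smul_smul, mul_inv_cancel₀ hne, one_smul]
      · simp
    refine ⟨R.norm_pt_lt g, ?_⟩
    have h1 := one_le_pot hs0 hs g
    rw [e, pot_lift R s (R.norm_pt_lt g) (by rw [← e]; exact hq)] at h1
    linarith
  set r : ℝ := max r₀ 1 with hr
  have hr1 : 1 ≤ r := le_max_right _ _
  have hrinv : 0 < 1 / r ^ 2 := by positivity
  have hrinv1 : 1 / r ^ 2 ≤ 1 := by
    rw [div_le_one (by positivity)]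
    nlinarith
  refine ⟨Metric.closedBall 0 (√(1 - 1 / r ^ 2)), isCompact_closedBall _ _, ?_, ?_⟩
  · intro x hx
    have h1 : ‖x‖ ≤ √(1 - 1 / r ^ 2) := by simpa using hx
    have h2 : √(1 - 1 / r ^ 2) < 1 := by
      rw [Real.sqrt_lt' one_pos]
      linarith
    simpa using lt_of_le_of_lt h1 h2
  · intro z hz
    have hzC : z ∈ C := hz.2 C hconvC hclC hlim
    obtain ⟨g, hg⟩ := hr₀ (nl z) (q_nl hz.1) hzC.2
    refine ⟨g, R.act g⁻¹ z, ?_, ?_⟩
    · -- the norm bound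
      have e1 : ‖B (nl z) (R.ρ g o)‖ = ‖(R.ρ g⁻¹ (nl z)).2‖ := by
        rw [← R.B_inv, B_o_right, norm_neg, RCLike.norm_conj]
      rw [e1] at hg
      set Z := R.ρ g⁻¹ (nl z) with hZ
      have hqZ : q Z = -1 := by rw [hZ, R.q_act, q_nl hz.1]
      have hZne : Z.2 ≠ 0 := snd_ne (by rw [hqZ]; norm_num)
      have hlift := lift_act R g⁻¹ hz.1
      have hlam : (((√(1 - ‖z‖ ^ 2))⁻¹ : ℝ) : ℂ) ≠ 0 := by
        have := one_sub_pos hz.1
        have h2 : (0 : ℝ) < (√(1 - ‖z‖ ^ 2))⁻¹ := by positivity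
        exact_mod_cast h2.ne'
      have hZ2 : Z = (((√(1 - ‖z‖ ^ 2))⁻¹ : ℝ) : ℂ) • R.ρ g⁻¹ (z, 1) := by
        rw [hZ, nl, map_smul]
      have hact : ((R.act g⁻¹ z, 1) : E2 × ℂ) = (Z.2)⁻¹ • Z := by
        rw [hlift, hZ2]
        simp only [Prod.smul_snd, smul_eq_mul, smul_smul]
        congr 1
        rw [mul_inv, mul_comm, ← mul_assoc, mul_inv_cancel₀ hlam, one_mul]
      have hq1 : q ((R.act g⁻¹ z, 1) : E2 × ℂ) = ‖(Z.2)⁻¹‖ ^ 2 * (-1) := by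
        rw [hact, q_smul, hqZ]
      rw [q_one] at hq1
      have hZr : ‖Z.2‖ ≤ r := hg.trans (le_max_left _ _)
      have hZpos : 0 < ‖Z.2‖ := norm_pos_iff.mpr hZne
      have h3 : 1 / r ^ 2 ≤ ‖(Z.2)⁻¹‖ ^ 2 := by
        rw [norm_inv, inv_pow, one_div]
        exact inv_anti₀ (by positivity) (pow_le_pow_left₀ hZpos.le hZr 2)
      have h4 : ‖R.act g⁻¹ z‖ ^ 2 ≤ 1 - 1 / r ^ 2 := by linarith
      have h5 : ‖R.act g⁻¹ z‖ ≤ √(1 - 1 / r ^ 2) := Real.le_sqrt_of_sq_le h4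
      simpa using h5
    · rw [← act_mul R g g⁻¹ hz.1, mul_inv_cancel, act_one]

end Pool.Agent.Carpet
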