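import Pool.Agent.Lib_helper45.Carpet.Hull

/-! # Block LSET : the limit set of the subgroup -/

set_option autoImplicit false

namespace Pool.Agent.Carpet

open scoped Topology InnerProductSpace ComplexConjugate

variable {Γ : Type*} [Group Γ]

theorem lset_closure {ι E : Type*} [NormedAddCommGroup E] {f g : ι → E} {C : ℝ} (hC : 0 ≤ C)
    (h : ∀ i, ‖f i - g i‖ ^ 2 ≤ C * (1 - ‖f i‖)) {ξ : E} (hξ : ‖ξ‖ = 1)
    (hf : ξ ∈ closure (Set.range f)) : ξ ∈ closure (Set.range g) := by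
  rw [Metric.mem_closure_range_iff] at hf ⊢
  intro ε hε
  obtain ⟨i, hi⟩ := hf (min (ε / 2) (ε ^ 2 / (4 * (C + 1)))) (by positivity)
  refine ⟨i, ?_⟩
  have h1 : dist ξ (f i) < ε / 2 := hi.trans_le (min_le_left _ _)
  have h2 : dist ξ (f i) < ε ^ 2 / (4 * (C + 1)) := hi.trans_le (min_le_right _ _)
  have h3 : 1 - ‖f i‖ ≤ dist ξ (f i) := by
    rw [← hξ, dist_eq_norm]
    exact norm_sub_norm_le _ _
  have h4 : ‖f i - g i‖ ^ 2 < (ε / 2) ^ 2 := by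
    calc ‖f i - g i‖ ^ 2 ≤ C * (1 - ‖f i‖) := h i
      _ ≤ C * (ε ^ 2 / (4 * (C + 1))) := mul_le_mul_of_nonneg_left (h3.trans h2.le) hC
      _ < (C + 1) * (ε ^ 2 / (4 * (C + 1))) :=
          mul_lt_mul_of_pos_right (by linarith) (by positivity)
      _ = (ε / 2) ^ 2 := by field_simp; ring
  have h5 : dist (f i) (g i) < ε / 2 := by
    rw [dist_eq_norm]
    exact lt_of_pow_lt_pow_left₀ 2 (by positivity) h4
  calc dist ξ (g i) ≤ dist ξ (f i) + dist (f i) (g i) := dist_triangle _ _ _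
    _ < ε / 2 + ε / 2 := add_lt_add h1 h5
    _ = ε := by ring

theorem lset_q (R : Rep Γ ℂ E2) {x : E2} (g : Γ) :
    ‖(R.ρ g (x, 1)).2‖ ^ 2 - ‖(R.ρ g (x, 1)).1‖ ^ 2 = 1 - ‖x‖ ^ 2 := by
  have h := R.q_act g (x, 1)
  unfold q at h
  simp only [norm_one] at h
  linarith

theorem lset_pos (R : Rep Γ ℂ E2) {x : E2} (hx : ‖x‖ < 1) (g : Γ) :
    0 < ‖(R.ρ g (x, 1)).2‖ := by
  have h := lset_q R (x := x) g
  have h1 : ‖x‖ ^ 2 < 1 := by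
    have := norm_nonneg x
    nlinarith
  rcases (norm_nonneg (R.ρ g (x, 1)).2).eq_or_lt with h0 | h0
  · rw [← h0] at h
    nlinarith [sq_nonneg ‖(R.ρ g (x, 1)).1‖]
  · exact h0

theorem lset_act (R : Rep Γ ℂ E2) {x : E2} (hx : ‖x‖ < 1) (g : Γ) :
    (1 - ‖R.act g x‖ ^ 2) * ‖(R.ρ g (x, 1)).2‖ ^ 2 = 1 - ‖x‖ ^ 2 := by
  have h := lset_q R (x := x) g
  have h0 := lset_pos R hx g
  unfold Rep.act
  rw [norm_smul, norm_inv, mul_pow, inv_pow, sub_mul, one_mul]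
  have : (‖(R.ρ g (x, 1)).2‖ ^ 2)⁻¹ * ‖(R.ρ g (x, 1)).1‖ ^ 2 * ‖(R.ρ g (x, 1)).2‖ ^ 2 =
      ‖(R.ρ g (x, 1)).1‖ ^ 2 := by
    field_simp
  rw [this, h]

theorem lset_act_lt (R : Rep Γ ℂ E2) {x : E2} (hx : ‖x‖ < 1) (g : Γ) : ‖R.act g x‖ < 1 := by
  have h := lset_act R hx g
  have h0 := lset_pos R hx g
  have h1 : 0 < 1 - ‖x‖ ^ 2 := by
    have := norm_nonneg x
    nlinarith
  have h2 : 0 < 1 - ‖R.act g x‖ ^ 2 := by
    by_contra hc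
    have : (1 - ‖R.act g x‖ ^ 2) * ‖(R.ρ g (x, 1)).2‖ ^ 2 ≤ 0 :=
      mul_nonpos_of_nonpos_of_nonneg (not_lt.1 hc) (by positivity)
    linarith
  have := norm_nonneg (R.act g x)
  nlinarith

theorem lset_B (R : Rep Γ ℂ E2) (x : E2) (g : Γ) :
    ‖(R.ρ g (x, 1)).2‖ = ‖B (R.ρ g⁻¹ o) ((x, 1) : E2 × ℂ)‖ := by
  rw [R.B_inv, B_o_left, norm_neg]

theorem lset_lower (R : Rep Γ ℂ E2) {x : E2} (hx : ‖x‖ < 1) (g : Γ) :
    (1 - ‖x‖) * R.N g ≤ ‖(R.ρ g (x, 1)).2‖ := by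
  rw [lset_B]
  have h1 : ‖(R.ρ g⁻¹ o).1‖ ≤ ‖(R.ρ g⁻¹ o).2‖ := by
    have h := R.q_act g⁻¹ (o : E2 × ℂ)
    rw [q_o] at h
    unfold q at h
    have := norm_nonneg (R.ρ g⁻¹ (o : E2 × ℂ)).2
    nlinarith [norm_nonneg (R.ρ g⁻¹ (o : E2 × ℂ)).1]
  have h2 : ‖(R.ρ g⁻¹ o).2‖ = R.N g := R.N_inv g
  have h3 : ‖⟪(R.ρ g⁻¹ o).1, x⟫_ℂ‖ ≤ R.N g * ‖x‖ := by
    refine (norm_inner_le_norm _ _).trans ?_
    rw [← h2]
    exact mul_le_mul_of_nonneg_right h1 (norm_nonneg _)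
  unfold B
  simp only [mul_one]
  have h4 : ‖conj (R.ρ g⁻¹ o).2‖ = R.N g := by rw [RCLike.norm_conj, h2]
  have h5 := norm_sub_norm_le (conj (R.ρ g⁻¹ (o : E2 × ℂ)).2) (⟪(R.ρ g⁻¹ o).1, x⟫_ℂ)
  rw [norm_sub_rev]
  rw [h4] at h5
  linarith

theorem lset_upper (R : Rep Γ ℂ E2) {x : E2} (hx : ‖x‖ < 1) (g : Γ) :
    ‖(R.ρ g (x, 1)).2‖ ≤ 2 * R.N g := by
  rw [lset_B]
  have hq1 : q (R.ρ g⁻¹ (o : E2 × ℂ)) ≤ 0 := by
    rw [R.q_act, q_o]; norm_num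
  have hq2 : q ((x, 1) : E2 × ℂ) ≤ 0 := by
    unfold q
    simp only [norm_one]
    have := norm_nonneg x
    nlinarith
  have h := norm_B_le hq1 hq2
  have h2 : ‖(R.ρ g⁻¹ o).2‖ = R.N g := R.N_inv g
  rw [h2] at h
  simpa using h

theorem lset_dist (R : Rep Γ ℂ E2) {x : E2} (hx : ‖x‖ < 1) (g : Γ) :
    ‖R.act g x - R.pt g‖ ^ 2 * (‖(R.ρ g (x, 1)).2‖ * R.N g) ≤ 2 := by
  have h0 := lset_pos R hx g
  have hN := R.one_le_N g
  have h1 := one_sub_inner_ge (𝕜 := ℂ) (lset_act_lt R hx g).le (R.norm_pt_lt g).le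
  have h2 : ‖B (R.ρ g (x, 1)) (R.ρ g o)‖ = 1 := by
    rw [R.pres, B_o_right]
    simp
  have h3 : (R.ρ g (x, 1)).2 ≠ 0 := norm_pos_iff.1 h0
  have h4 : (R.ρ g (o : E2 × ℂ)).2 ≠ 0 := by
    apply norm_pos_iff.1
    have : ‖(R.ρ g (o : E2 × ℂ)).2‖ = R.N g := rfl
    rw [this]
    linarith
  rw [B_lift h3 h4] at h2
  have h5 : ‖(R.ρ g (x, 1)).2‖ * R.N g * ‖1 - ⟪R.act g x, R.pt g⟫_ℂ‖ = 1 := h2
  have h6 : 0 ≤ ‖(R.ρ g (x, 1)).2‖ * R.N g := by positivity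
  have h7 := mul_le_mul_of_nonneg_right h1 h6
  linarith

theorem limitSet_eq {R : Rep Γ ℂ E2}
    {φ : Γ →* PU21} (hφ : ∀ (g : Γ) (x : E2), actP (φ g) x = R.act g x) {x : E2} (hx : ‖x‖ < 1) :
    limitSet φ.range x = R.limSet := by
  have hc : 0 < 1 - ‖x‖ := by linarith
  have hx0 := norm_nonneg x
  have horb : {z : E2 | ∃ g ∈ φ.range, z = actP g x} = Set.range (fun g => R.act g x) := by
    ext z
    constructor
    · rintro ⟨g, ⟨γ, rfl⟩, rfl⟩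
      exact ⟨γ, (hφ γ x).symm⟩
    · rintro ⟨γ, rfl⟩
      exact ⟨φ γ, ⟨γ, rfl⟩, (hφ γ x).symm⟩
  ext ξ
  unfold limitSet Rep.limSet
  simp only [Set.mem_ofPred_eq]
  rw [horb]
  refine and_congr_right fun hξ => ?_
  have hξn : ξ ∉ Set.range (fun g => R.act g x) := by
    rintro ⟨g, rfl⟩
    exact absurd hξ (lset_act_lt R hx g).ne
  rw [accPt_principal_iff_clusterPt, Set.sdiff_singleton_eq_self hξn, ← mem_closure_iff_clusterPt]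
  constructor
  · refine lset_closure (C := 8 / (1 - ‖x‖)) (by positivity) (fun g => ?_) hξ
    have h1 := lset_dist R hx g
    have h2 := lset_upper R hx g
    have h3 := lset_act R hx g
    have h4 := lset_pos R hx g
    have h5 := lset_act_lt R hx g
    have h6 := norm_nonneg (R.act g x)
    set Y := ‖(R.ρ g (x, 1)).2‖ with hY
    have h7 : ‖R.act g x - R.pt g‖ ^ 2 * Y ^ 2 ≤ 4 := by
      have : ‖R.act g x - R.pt g‖ ^ 2 * (Y * (Y / 2)) ≤ ‖R.act g x - R.pt g‖ ^ 2 * (Y * R.N g) := by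
        apply mul_le_mul_of_nonneg_left _ (by positivity)
        apply mul_le_mul_of_nonneg_left _ h4.le
        linarith
      nlinarith
    -- 1 - |x| ≤ 1 - |x|² = (1 - |a|²) Y² ≤ 2 (1 - |a|) Y²
    have h8 : 1 - ‖x‖ ≤ 2 * (1 - ‖R.act g x‖) * Y ^ 2 := by
      have e1 : 1 - ‖x‖ ≤ 1 - ‖x‖ ^ 2 := by nlinarith
      have e2 : (1 - ‖R.act g x‖ ^ 2) * Y ^ 2 ≤ 2 * (1 - ‖R.act g x‖) * Y ^ 2 := by
        apply mul_le_mul_of_nonneg_right _ (by positivity)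
        nlinarith
      linarith
    rw [div_mul_eq_mul_div, le_div_iff₀ hc]
    have h9 : 0 ≤ ‖R.act g x - R.pt g‖ ^ 2 := by positivity
    calc ‖R.act g x - R.pt g‖ ^ 2 * (1 - ‖x‖)
        ≤ ‖R.act g x - R.pt g‖ ^ 2 * (2 * (1 - ‖R.act g x‖) * Y ^ 2) :=
          mul_le_mul_of_nonneg_left h8 h9
      _ = (‖R.act g x - R.pt g‖ ^ 2 * Y ^ 2) * (2 * (1 - ‖R.act g x‖)) := by ring
      _ ≤ 4 * (2 * (1 - ‖R.act g x‖)) := mul_le_mul_of_nonneg_right h7 (by linarith)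
      _ = 8 * (1 - ‖R.act g x‖) := by ring
  · refine lset_closure (C := 4 / (1 - ‖x‖)) (by positivity) (fun g => ?_) hξ
    have h1 := lset_dist R hx g
    have h2 := lset_lower R hx g
    have h3 := R.one_sub_norm_pt g
    have h5 := R.norm_pt_lt g
    have h6 := norm_nonneg (R.pt g)
    have hN := R.one_le_N g
    rw [norm_sub_rev]
    set Y := ‖(R.ρ g (x, 1)).2‖ with hY
    have h9 : 0 ≤ ‖R.act g x - R.pt g‖ ^ 2 := by positivity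
    have h7 : ‖R.act g x - R.pt g‖ ^ 2 * (1 - ‖x‖) * R.N g ^ 2 ≤ 2 := by
      calc ‖R.act g x - R.pt g‖ ^ 2 * (1 - ‖x‖) * R.N g ^ 2
          = ‖R.act g x - R.pt g‖ ^ 2 * (((1 - ‖x‖) * R.N g) * R.N g) := by ring
        _ ≤ ‖R.act g x - R.pt g‖ ^ 2 * (Y * R.N g) := by
            apply mul_le_mul_of_nonneg_left _ h9
            exact mul_le_mul_of_nonneg_right h2 (by linarith)
        _ ≤ 2 := h1
    have h8 : 1 ≤ 2 * (1 - ‖R.pt g‖) * R.N g ^ 2 := by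
      rw [← h3]
      apply mul_le_mul_of_nonneg_right _ (by positivity)
      nlinarith
    rw [div_mul_eq_mul_div, le_div_iff₀ hc]
    have h10 : 0 ≤ ‖R.act g x - R.pt g‖ ^ 2 * (1 - ‖x‖) := by positivity
    calc ‖R.act g x - R.pt g‖ ^ 2 * (1 - ‖x‖)
        ≤ ‖R.act g x - R.pt g‖ ^ 2 * (1 - ‖x‖) * (2 * (1 - ‖R.pt g‖) * R.N g ^ 2) :=
          le_mul_of_one_le_right h10 h8
      _ = (‖R.act g x - R.pt g‖ ^ 2 * (1 - ‖x‖) * R.N g ^ 2) * (2 * (1 - ‖R.pt g‖)) := by ring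
      _ ≤ 2 * (2 * (1 - ‖R.pt g‖)) := mul_le_mul_of_nonneg_right h7 (by linarith)
      _ = 4 * (1 - ‖R.pt g‖) := by ring

end Pool.Agent.Carpet
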