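import Pool.Agent.Lib_helper45.Carpet.Geo

/-! # Block LANG : the automaton generates `W` -/

set_option autoImplicit false

namespace Pool.Agent.Carpet

namespace LangAux

/-- Syllables: a single generator, or the double of a side. -/
inductive Syl
  | sg (x : Fin 4)
  | db (b : Bool)
  deriving DecidableEq

/-- value in the group -/
def Syl.val : Syl → W
  | .sg x => cs.simple x
  | .db b => dbl b

/-- weight -/
def Syl.wt : Syl → ℕ
  | .sg _ => 2
  | .db _ => 3

/-- side -/
def Syl.sd : Syl → Bool
  | .sg x => side x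
  | .db b => b

/-- product of a list of syllables -/
def prodS (σ : List Syl) : W := (σ.map Syl.val).prod

/-- total weight of a list of syllables -/
def wtS (σ : List Syl) : ℕ := (σ.map Syl.wt).sum

theorem prodS_nil : prodS [] = 1 := rfl

theorem prodS_cons (s : Syl) (σ : List Syl) : prodS (s :: σ) = s.val * prodS σ := by
  simp [prodS]

theorem prodS_append (σ τ : List Syl) : prodS (σ ++ τ) = prodS σ * prodS τ := by
  simp [prodS]

theorem wtS_nil : wtS [] = 0 := rfl

theorem wtS_cons (s : Syl) (σ : List Syl) : wtS (s :: σ) = s.wt + wtS σ := by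
  simp [wtS]

theorem wtS_append (σ τ : List Syl) : wtS (σ ++ τ) = wtS σ + wtS τ := by
  simp [wtS]

/-- minimal weight -/
def Red (σ : List Syl) : Prop := ∀ τ, prodS τ = prodS σ → wtS σ ≤ wtS τ

theorem Red.mid {a b c : List Syl} (h : Red (a ++ (b ++ c))) : Red b := by
  intro τ hτ
  have := h (a ++ (τ ++ c)) (by simp only [prodS_append, hτ])
  simp only [wtS_append] at this
  omega

theorem Red.left {a b : List Syl} (h : Red (a ++ b)) : Red a := by
  have h' : Red ([] ++ (a ++ b)) := h
  exact h'.mid

theorem Red.right {a b : List Syl} (h : Red (a ++ b)) : Red b := by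
  have h' : Red (a ++ (b ++ [])) := by simpa using h
  exact h'.mid

theorem Red.tail {s : Syl} {σ : List Syl} (h : Red (s :: σ)) : Red σ := by
  have h' : Red ([s] ++ σ) := h
  exact h'.right

theorem exists_red (w : W) : ∃ σ, prodS σ = w ∧ Red σ := by
  have hne : ∃ n, ∃ σ, prodS σ = w ∧ wtS σ = n := by
    obtain ⟨l, hl⟩ := cs.wordProd_surjective w
    refine ⟨_, l.map Syl.sg, ?_, rfl⟩
    rw [← hl]
    simp only [prodS, List.map_map]
    rfl
  classical
  obtain ⟨σ, h1, h2⟩ := Nat.find_spec hne
  refine ⟨σ, h1, fun τ hτ => ?_⟩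
  rw [h2]
  exact Nat.find_min' hne ⟨τ, hτ.trans h1, rfl⟩

theorem ss (i : Fin 4) : cs.simple i * cs.simple i = 1 := cs.simple_mul_simple_self i

theorem comm_of {G : Type*} [Group G] (a b : G) (ha : a * a = 1) (hb : b * b = 1)
    (h : (a * b) ^ 2 = 1) : b * a = a * b := by
  have h1 : a⁻¹ = a := inv_eq_of_mul_eq_one_left ha
  have h2 : b⁻¹ = b := inv_eq_of_mul_eq_one_left hb
  have h3 : (a * b)⁻¹ = a * b := inv_eq_of_mul_eq_one_left (by rw [← pow_two]; exact h)
  rw [mul_inv_rev, h1, h2] at h3
  exact h3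

theorem comm01 : cs.simple 1 * cs.simple 0 = cs.simple 0 * cs.simple 1 :=
  comm_of _ _ (ss 0) (ss 1) (cs.simple_mul_simple_pow 0 1)

theorem comm23 : cs.simple 3 * cs.simple 2 = cs.simple 2 * cs.simple 3 :=
  comm_of _ _ (ss 2) (ss 3) (cs.simple_mul_simple_pow 2 3)

theorem keyl (i : Fin 4) (w : W) : cs.simple i * (cs.simple i * w) = w := by
  rw [← mul_assoc, ss, one_mul]

theorem keyr (i : Fin 4) (w : W) : w * cs.simple i * cs.simple i = w := by
  rw [mul_assoc, ss, mul_one]

theorem two_same (x y : Fin 4) (hxy : x ≠ y) (h : side x = side y) :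
    dbl (side x) = cs.simple x * cs.simple y := by
  fin_cases x <;> fin_cases y
  · exact absurd rfl hxy
  · rfl
  · exact absurd h (by decide)
  · exact absurd h (by decide)
  · exact comm01.symm
  · exact absurd rfl hxy
  · exact absurd h (by decide)
  · exact absurd h (by decide)
  · exact absurd h (by decide)
  · exact absurd h (by decide)
  · exact absurd rfl hxy
  · rfl
  · exact absurd h (by decide)
  · exact absurd h (by decide)
  · exact comm23.symm
  · exact absurd rfl hxy

theorem one_two (x : Fin 4) : ∃ x' : Fin 4, cs.simple x * dbl (side x) = cs.simple x' := by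
  fin_cases x
  · exact ⟨1, keyl 0 _⟩
  · refine ⟨0, ?_⟩
    have : dbl (side 1) = cs.simple 1 * cs.simple 0 := two_same 1 0 (by decide) (by decide)
    show cs.simple 1 * dbl (side 1) = _
    rw [this, keyl]
  · exact ⟨3, keyl 2 _⟩
  · refine ⟨2, ?_⟩
    have : dbl (side 3) = cs.simple 3 * cs.simple 2 := two_same 3 2 (by decide) (by decide)
    show cs.simple 3 * dbl (side 3) = _
    rw [this, keyl]

theorem two_one (x : Fin 4) : ∃ x' : Fin 4, dbl (side x) * cs.simple x = cs.simple x' := by
  fin_cases x
  · refine ⟨1, ?_⟩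
    have : dbl (side 0) = cs.simple 1 * cs.simple 0 := two_same 1 0 (by decide) (by decide)
    show dbl (side 0) * cs.simple 0 = _
    rw [this, keyr]
  · exact ⟨0, keyr 1 _⟩
  · refine ⟨3, ?_⟩
    have : dbl (side 2) = cs.simple 3 * cs.simple 2 := two_same 3 2 (by decide) (by decide)
    show dbl (side 2) * cs.simple 2 = _
    rw [this, keyr]
  · exact ⟨2, keyr 3 _⟩

theorem two_two (b : Bool) : dbl b * dbl b = 1 := by
  cases b
  · have h2 : (cs.simple 0 * cs.simple 1) ^ 2 = 1 := cs.simple_mul_simple_pow 0 1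
    rw [pow_two] at h2
    exact h2
  · have h2 : (cs.simple 2 * cs.simple 3) ^ 2 = 1 := cs.simple_mul_simple_pow 2 3
    rw [pow_two] at h2
    exact h2

theorem collapse (s t : Syl) (h : s.sd = t.sd) :
    ∃ τ, prodS τ = prodS [s, t] ∧ wtS τ < wtS [s, t] := by
  cases s with
  | sg x =>
    cases t with
    | sg y =>
      by_cases hxy : x = y
      · subst hxy
        refine ⟨[], ?_, ?_⟩
        · simp only [prodS_cons, prodS_nil, mul_one, Syl.val, ss]
        · simp only [wtS_cons, wtS_nil, Syl.wt]; norm_num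
      · refine ⟨[.db (side x)], ?_, ?_⟩
        · simp only [prodS_cons, prodS_nil, mul_one, Syl.val]
          exact two_same x y hxy h
        · simp only [wtS_cons, wtS_nil, Syl.wt]; norm_num
    | db b =>
      have h' : side x = b := h
      subst h'
      obtain ⟨x', hx'⟩ := one_two x
      refine ⟨[.sg x'], ?_, ?_⟩
      · simp only [prodS_cons, prodS_nil, mul_one, Syl.val, hx']
      · simp only [wtS_cons, wtS_nil, Syl.wt]; norm_num
  | db b =>
    cases t with
    | sg x =>
      have h' : b = side x := h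
      subst h'
      obtain ⟨x', hx'⟩ := two_one x
      refine ⟨[.sg x'], ?_, ?_⟩
      · simp only [prodS_cons, prodS_nil, mul_one, Syl.val, hx']
      · simp only [wtS_cons, wtS_nil, Syl.wt]; norm_num
    | db b' =>
      have h' : b = b' := h
      subst h'
      refine ⟨[], ?_, ?_⟩
      · simp only [prodS_cons, prodS_nil, mul_one, Syl.val, two_two]
      · simp only [wtS_cons, wtS_nil, Syl.wt]; norm_num

theorem Red.sd_ne {s t : Syl} {σ : List Syl} (h : Red (s :: t :: σ)) : s.sd ≠ t.sd := by
  intro hst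
  obtain ⟨τ, h1, h2⟩ := collapse s t hst
  have h' : Red ([s, t] ++ σ) := h
  have := h'.left τ h1
  omega

/-- The run `y x y x …` (`k` letters) -/
def run : ℕ → Fin 4 → Fin 4 → List Syl
  | 0, _, _ => []
  | k + 1, y, x => .sg y :: run k x y

theorem prodS_run (k : ℕ) : ∀ y x : Fin 4, prodS (run k y x) = alt k y x := by
  induction k with
  | zero => intro y x; rfl
  | succ k ih => intro y x; rw [run, prodS_cons, ih x y]; rfl

theorem wtS_run (k : ℕ) : ∀ y x : Fin 4, wtS (run k y x) = 2 * k := by
  induction k with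
  | zero => intro y x; rfl
  | succ k ih => intro y x; rw [run, wtS_cons, ih x y]; simp only [Syl.wt]; ring

theorem run_add_even (j k : ℕ) (y x : Fin 4) : run (2 * j + k) y x = run (2 * j) y x ++ run k y x := by
  induction j with
  | zero => simp [run]
  | succ j ih =>
    have e1 : 2 * (j + 1) + k = (2 * j + k) + 1 + 1 := by ring
    have e2 : 2 * (j + 1) = 2 * j + 1 + 1 := by ring
    rw [e1, e2]
    simp only [run, List.cons_append, ih]

theorem alt_even (j : ℕ) (y x : Fin 4) : alt (2 * j) y x = (cs.simple y * cs.simple x) ^ j := by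
  induction j with
  | zero => rfl
  | succ j ih =>
    have e2 : 2 * (j + 1) = 2 * j + 1 + 1 := by ring
    rw [e2, alt, alt, ih, pow_succ', mul_assoc]

theorem long_rel {y x : Fin 4} (h : side x ≠ side y) : alt 11 y x = alt 9 x y := by
  have hM : M.M y x = 10 := by
    revert h
    fin_cases x <;> fin_cases y <;> simp [side, M]
  have h10 : (cs.simple y * cs.simple x) ^ 10 = 1 := by
    have := cs.simple_mul_simple_pow y x
    rwa [hM] at this
  have e11 : alt 11 y x = cs.simple y * alt 10 x y := rfl
  have e9 : alt 9 x y = cs.simple x * alt 8 y x := rfl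
  have e10 : alt 10 x y = (cs.simple x * cs.simple y) ^ 5 := alt_even 5 x y
  have e8 : alt 8 y x = (cs.simple y * cs.simple x) ^ 4 := alt_even 4 y x
  rw [e11, e9, e10, e8]
  have hx : cs.simple x * cs.simple x = 1 := ss x
  have hy : cs.simple y * cs.simple y = 1 := ss y
  have hinv : cs.simple x * cs.simple y = (cs.simple y * cs.simple x)⁻¹ := by
    rw [mul_inv_rev, inv_eq_of_mul_eq_one_left hx, inv_eq_of_mul_eq_one_left hy]
  -- a = y x, a^10 = 1
  have h1 : (cs.simple x * cs.simple y) ^ 5 = (cs.simple y * cs.simple x) ^ 5 := by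
    rw [hinv, inv_pow]
    refine inv_eq_of_mul_eq_one_left ?_
    rw [← pow_add]
    exact h10
  rw [h1]
  have h2 : (cs.simple y * cs.simple x) ^ 5 = (cs.simple y * cs.simple x) * (cs.simple y * cs.simple x) ^ 4 := by
    rw [← pow_succ']
  rw [h2, ← mul_assoc, ← mul_assoc, hy, one_mul]

theorem red_run_le {k : ℕ} {y x : Fin 4} (h : side x ≠ side y) {σ : List Syl}
    (hr : Red (run k y x ++ σ)) : k ≤ 10 := by
  by_contra hk
  push Not at hk
  have hr1 : Red (run k y x) := hr.left
  obtain ⟨j, rfl⟩ : ∃ j, k = 11 + j := ⟨k - 11, by omega⟩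
  have e1 : run (11 + j) y x = run 11 y x ++ run j x y := by
    have a1 : 11 + j = 2 * 5 + (j + 1) := by ring
    have a2 : run 11 y x = run (2 * 5) y x ++ run 1 y x := run_add_even 5 1 y x
    rw [a1, run_add_even, a2, List.append_assoc]
    rfl
  rw [e1] at hr1
  have hr2 := hr1.left (run 9 x y) (by rw [prodS_run, prodS_run, long_rel h])
  rw [wtS_run, wtS_run] at hr2
  omega

/-- maximal run -/
theorem exists_run (σ : List Syl) : ∀ y x : Fin 4, ∃ k rest, σ = run k y x ++ rest ∧
    rest.head? ≠ some (.sg (if k % 2 = 0 then y else x)) := by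
  induction σ with
  | nil => intro y x; exact ⟨0, [], rfl, by simp⟩
  | cons s σ ih =>
    intro y x
    by_cases hs : s = .sg y
    · subst hs
      obtain ⟨k, rest, h1, h2⟩ := ih x y
      refine ⟨k + 1, rest, ?_, ?_⟩
      · rw [h1]; rfl
      · intro h3
        apply h2
        rw [h3]
        rcases Nat.mod_two_eq_zero_or_one k with hk | hk
        · have : (k + 1) % 2 = 1 := by omega
          simp [hk, this]
        · have : (k + 1) % 2 = 0 := by omega
          simp [hk, this]
    · refine ⟨0, s :: σ, rfl, ?_⟩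
      simp only [List.head?_cons, Nat.zero_mod, if_true]
      intro h
      exact hs (Option.some.inj h)

theorem length_run (k : ℕ) : ∀ y x : Fin 4, (run k y x).length = k := by
  induction k with
  | zero => intro y x; rfl
  | succ k ih => intro y x; rw [run, List.length_cons, ih x y]

/-- The data of a maximal run after a last letter `x`. -/
theorem run_data {x y : Fin 4} {σ : List Syl} (hr : Red (.sg x :: .sg y :: σ)) :
    side x ≠ side y ∧ ∃ rest : List Syl, rest.length ≤ σ.length ∧
      ((∃ j ≤ 4, prodS (.sg y :: σ) = alt (2 * j + 1) y x * prodS rest ∧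
          Red (.sg y :: rest) ∧ rest.head? ≠ some (.sg x)) ∨
       (∃ j, (1 ≤ j ∧ j ≤ 4) ∧ prodS (.sg y :: σ) = alt (2 * j) y x * prodS rest ∧
          Red (.sg x :: rest) ∧ rest.head? ≠ some (.sg y))) := by
  have hxy : side x ≠ side y := hr.sd_ne
  refine ⟨hxy, ?_⟩
  obtain ⟨k, rest, h1, h2⟩ := exists_run (.sg y :: σ) y x
  have hk0 : k ≠ 0 := by
    rintro rfl
    apply h2
    have : rest = .sg y :: σ := by rw [h1]; rfl
    rw [this]
    simp
  have hlen : rest.length ≤ σ.length := by
    have := congrArg List.length h1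
    rw [List.length_append, length_run, List.length_cons] at this
    omega
  have hr' : Red (run (k + 1) x y ++ rest) := by
    have : run (k + 1) x y ++ rest = .sg x :: .sg y :: σ := by
      rw [h1]; rfl
    rw [this]; exact hr
  have hk10 : k + 1 ≤ 10 := red_run_le hxy.symm hr'
  refine ⟨rest, hlen, ?_⟩
  rcases Nat.mod_two_eq_zero_or_one k with hk | hk
  · right
    obtain ⟨j, rfl⟩ : ∃ j, k = 2 * j := ⟨k / 2, by omega⟩
    refine ⟨j, ⟨by omega, by omega⟩, ?_, ?_, ?_⟩
    · rw [h1, prodS_append, prodS_run]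
    · obtain ⟨i, rfl⟩ : ∃ i, j = i + 1 := ⟨j - 1, by omega⟩
      have e : run (2 * (i + 1) + 1) x y = run (2 * (i + 1)) x y ++ [.sg x] :=
        run_add_even (i + 1) 1 x y
      rw [e, List.append_assoc] at hr'
      exact hr'.right
    · simpa [hk] using h2
  · left
    obtain ⟨j, rfl⟩ : ∃ j, k = 2 * j + 1 := ⟨k / 2, by omega⟩
    refine ⟨j, by omega, ?_, ?_, ?_⟩
    · rw [h1, prodS_append, prodS_run]
    · have e : run (2 * j + 1 + 1) x y = run (2 * j) x y ++ [.sg x, .sg y] :=
        run_add_even j 2 x y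
      rw [e, List.append_assoc] at hr'
      have h3 : Red ([Syl.sg x] ++ (Syl.sg y :: rest)) := hr'.right
      exact h3.right
    · simpa [hk] using h2

theorem path_of (n : ℕ) : ∀ σ : List Syl, σ.length ≤ n →
    (∀ b, Red σ → (∀ s ∈ σ.head?, s.sd ≠ b) →
      ∃ l s', Path Tr (.D b) l s' ∧ l.prod = prodS σ) ∧
    (∀ x, Red (.sg x :: σ) → ∃ l s', Path Tr (.S x) l s' ∧ l.prod = prodS σ) ∧
    (∀ x z, side x ≠ side z → Red (.sg x :: σ) → σ.head? ≠ some (.sg z) →
      ∃ l s', Path Tr (.E x z) l s' ∧ l.prod = prodS σ) := by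
  induction n with
  | zero =>
    intro σ hσ
    have : σ = [] := List.length_eq_zero_iff.mp (by omega)
    subst this
    exact ⟨fun b _ _ => ⟨[], _, Path.nil _, rfl⟩, fun x _ => ⟨[], _, Path.nil _, rfl⟩,
      fun x z _ _ _ => ⟨[], _, Path.nil _, rfl⟩⟩
  | succ n ih =>
    intro σ hσ
    cases σ with
    | nil =>
      exact ⟨fun b _ _ => ⟨[], _, Path.nil _, rfl⟩, fun x _ => ⟨[], _, Path.nil _, rfl⟩,
        fun x z _ _ _ => ⟨[], _, Path.nil _, rfl⟩⟩
    | cons s σ =>
      have hσn : σ.length ≤ n := by simpa using hσ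
      have hbool : ∀ b b' : Bool, b ≠ b' → b = !b' := by decide
      -- after a double
      have hdb : ∀ b : Bool, Red (.db b :: σ) → ∃ l s', Path Tr (.D b) l s' ∧ l.prod = prodS σ := by
        intro b hr
        refine (ih σ hσn).1 b hr.tail ?_
        intro t ht
        cases σ with
        | nil => simp at ht
        | cons t' σ' =>
          simp only [List.head?_cons, Option.mem_some_iff] at ht
          subst ht
          exact (hr.sd_ne).symm
      refine ⟨?_, ?_, ?_⟩
      · intro b hr hs
        have hs' : s.sd ≠ b := hs s (by simp)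
        cases s with
        | sg y =>
          obtain ⟨l, s', hl, hp⟩ := (ih σ hσn).2.1 y hr
          refine ⟨_, _, Path.cons (Tr.DS b y hs') hl, ?_⟩
          rw [List.prod_cons, hp, prodS_cons]
          rfl
        | db b' =>
          have hb : b' = !b := hbool _ _ hs'
          subst hb
          obtain ⟨l, s', hl, hp⟩ := hdb _ hr
          refine ⟨_, _, Path.cons (Tr.DD b) hl, ?_⟩
          rw [List.prod_cons, hp, prodS_cons]
          rfl
      · intro x hr
        cases s with
        | sg y =>
          obtain ⟨hxy, rest, hlen, h | h⟩ := run_data hr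
          · obtain ⟨j, hj, h1, h2, h3⟩ := h
            obtain ⟨l, s', hl, hp⟩ := (ih rest (by omega)).2.2 y x hxy.symm h2 h3
            refine ⟨_, _, Path.cons (Tr.SEo x y j hxy hj) hl, ?_⟩
            rw [List.prod_cons, hp, h1]
          · obtain ⟨j, hj, h1, h2, h3⟩ := h
            obtain ⟨l, s', hl, hp⟩ := (ih rest (by omega)).2.2 x y hxy h2 h3
            refine ⟨_, _, Path.cons (Tr.SEe x y j hxy hj) hl, ?_⟩
            rw [List.prod_cons, hp, h1]
        | db b =>
          have hb : b = !side x := hbool _ _ (hr.sd_ne).symm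
          subst hb
          obtain ⟨l, s', hl, hp⟩ := hdb _ hr.tail
          refine ⟨_, _, Path.cons (Tr.SD x) hl, ?_⟩
          rw [List.prod_cons, hp, prodS_cons]
          rfl
      · intro x z hxz hr hz
        cases s with
        | sg y =>
          have hyz : y ≠ z := by
            rintro rfl
            exact hz rfl
          obtain ⟨hxy, rest, hlen, h | h⟩ := run_data hr
          · obtain ⟨j, hj, h1, h2, h3⟩ := h
            obtain ⟨l, s', hl, hp⟩ := (ih rest (by omega)).2.2 y x hxy.symm h2 h3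
            refine ⟨_, _, Path.cons (Tr.EEo x z y j hxz hxy hyz hj) hl, ?_⟩
            rw [List.prod_cons, hp, h1]
          · obtain ⟨j, hj, h1, h2, h3⟩ := h
            obtain ⟨l, s', hl, hp⟩ := (ih rest (by omega)).2.2 x y hxy h2 h3
            refine ⟨_, _, Path.cons (Tr.EEe x z y j hxz hxy hyz hj) hl, ?_⟩
            rw [List.prod_cons, hp, h1]
        | db b =>
          have hb : b = !side x := hbool _ _ (hr.sd_ne).symm
          subst hb
          obtain ⟨l, s', hl, hp⟩ := hdb _ hr.tail
          refine ⟨_, _, Path.cons (Tr.ED x z hxz) hl, ?_⟩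
          rw [List.prod_cons, hp, prodS_cons]
          rfl

end LangAux

open LangAux in
theorem autGood_Tr : AutGood Tr := by
  constructor
  · have hfin : (Set.range (fun b : Bool => dbl b) ∪ Set.range (fun y : Fin 4 => cs.simple y) ∪
        Set.range (fun p : Fin 10 × Fin 4 × Fin 4 => alt (p.1 : ℕ) p.2.1 p.2.2)).Finite :=
      ((Set.finite_range _).union (Set.finite_range _)).union (Set.finite_range _)
    refine hfin.subset ?_
    rintro g ⟨s, s', h⟩
    cases h with
    | DD b => exact Or.inl (Or.inl ⟨_, rfl⟩)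
    | SD x => exact Or.inl (Or.inl ⟨_, rfl⟩)
    | ED x y h => exact Or.inl (Or.inl ⟨_, rfl⟩)
    | DS b y h => exact Or.inl (Or.inr ⟨_, rfl⟩)
    | SEo x y k h hk => exact Or.inr ⟨(⟨2 * k + 1, by omega⟩, y, x), rfl⟩
    | SEe x y k h hk => exact Or.inr ⟨(⟨2 * k, by omega⟩, y, x), rfl⟩
    | EEo x z y k hz h hzy hk => exact Or.inr ⟨(⟨2 * k + 1, by omega⟩, y, x), rfl⟩
    | EEe x z y k hz h hzy hk => exact Or.inr ⟨(⟨2 * k, by omega⟩, y, x), rfl⟩
  · intro w
    obtain ⟨σ, h1, h2⟩ := exists_red w
    have hb : ∃ b : Bool, ∀ s ∈ σ.head?, s.sd ≠ b := by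
      cases σ with
      | nil => exact ⟨false, by simp⟩
      | cons s σ =>
        refine ⟨!s.sd, ?_⟩
        intro t ht
        simp only [List.head?_cons, Option.mem_some_iff] at ht
        subst ht
        cases s.sd <;> decide
    obtain ⟨b, hb⟩ := hb
    obtain ⟨l, s', hl, hp⟩ := (path_of σ.length σ le_rfl).1 b h2 hb
    exact ⟨_, l, s', hl, hp.trans h1⟩

end Pool.Agent.Carpet
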