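import Pool.Agent.Lib_helper45.Carpet.Geo

/-! # Block LIMH (helper20) -/

set_option autoImplicit false

namespace Pool.Agent.Carpet

open scoped InnerProductSpace Topology
open Filter

variable {Γ : Type*} [Group Γ]
variable {𝕜₁ E₁ : Type*} [RCLike 𝕜₁] [NormedAddCommGroup E₁] [InnerProductSpace 𝕜₁ E₁]
variable {𝕜₂ E₂ : Type*} [RCLike 𝕜₂] [NormedAddCommGroup E₂] [InnerProductSpace 𝕜₂ E₂]

/-- the closure of the graph -/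
def LimRel (R₁ : Rep Γ 𝕜₁ E₁) (R₂ : Rep Γ 𝕜₂ E₂) (ξ : E₁) (η : E₂) : Prop :=
  ∀ ε > 0, ∃ g : Γ, ‖R₁.pt g - ξ‖ < ε ∧ ‖R₂.pt g - η‖ < ε

theorem LimRel.symm {R₁ : Rep Γ 𝕜₁ E₁} {R₂ : Rep Γ 𝕜₂ E₂} {ξ : E₁} {η : E₂}
    (h : LimRel R₁ R₂ ξ η) : LimRel R₂ R₁ η ξ := fun ε hε => by
  obtain ⟨g, h1, h2⟩ := h ε hε
  exact ⟨g, h2, h1⟩

/-- the hypothesis in terms of the points -/
theorem limh_key {R₁ : Rep Γ 𝕜₁ E₁} {R₂ : Rep Γ 𝕜₂ E₂}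
    (h₁ : ∀ ε > 0, ∃ δ > 0, ∀ g h : Γ, R₁.N (g⁻¹ * h) < δ * (R₁.N g * R₁.N h) →
      R₂.N (g⁻¹ * h) < ε * (R₂.N g * R₂.N h)) :
    ∀ ε > 0, ∃ δ > 0, ∀ g h : Γ, ‖1 - ⟪R₁.pt g, R₁.pt h⟫_𝕜₁‖ < δ →
      ‖1 - ⟪R₂.pt g, R₂.pt h⟫_𝕜₂‖ < ε := by
  intro ε hε
  obtain ⟨δ, hδ, H⟩ := h₁ ε hε
  refine ⟨δ, hδ, fun g h hgh => ?_⟩
  have a1 := R₁.one_le_N g
  have a2 := R₁.one_le_N h
  have b1 := R₂.one_le_N g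
  have b2 := R₂.one_le_N h
  have ha : 0 < R₁.N g * R₁.N h := by positivity
  have hb : 0 < R₂.N g * R₂.N h := by positivity
  have h3 := H g h (by rw [← R₁.one_sub_inner_pt g h]; gcongr)
  rw [← R₂.one_sub_inner_pt g h] at h3
  exact lt_of_mul_lt_mul_right h3 hb.le

theorem limh_near {R₁ : Rep Γ 𝕜₁ E₁} {ξ : E₁} (hξ : ‖ξ‖ = 1) (g h : Γ) :
    ‖1 - ⟪R₁.pt g, R₁.pt h⟫_𝕜₁‖ ≤ ‖R₁.pt g - ξ‖ + ‖R₁.pt h - ξ‖ := by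
  set x := R₁.pt g
  set y := R₁.pt h
  have hx : ‖x‖ ≤ 1 := (R₁.norm_pt_lt g).le
  have e1 : (1 : 𝕜₁) - ⟪x, y⟫_𝕜₁ = ⟪ξ - x, ξ⟫_𝕜₁ + ⟪x, ξ - y⟫_𝕜₁ := by
    rw [inner_sub_left, inner_sub_right, inner_self_eq_norm_sq_to_K, hξ]
    simp
  rw [e1]
  calc ‖⟪ξ - x, ξ⟫_𝕜₁ + ⟪x, ξ - y⟫_𝕜₁‖ ≤ ‖⟪ξ - x, ξ⟫_𝕜₁‖ + ‖⟪x, ξ - y⟫_𝕜₁‖ := norm_add_le _ _
    _ ≤ ‖ξ - x‖ * ‖ξ‖ + ‖x‖ * ‖ξ - y‖ := add_le_add (norm_inner_le_norm _ _) (norm_inner_le_norm _ _)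
    _ ≤ ‖ξ - x‖ * 1 + 1 * ‖ξ - y‖ := by rw [hξ]; gcongr
    _ = ‖x - ξ‖ + ‖y - ξ‖ := by rw [mul_one, one_mul, norm_sub_rev ξ x, norm_sub_rev ξ y]

theorem limh_unif {R₁ : Rep Γ 𝕜₁ E₁} {R₂ : Rep Γ 𝕜₂ E₂}
    (h₁ : ∀ ε > 0, ∃ δ > 0, ∀ g h : Γ, R₁.N (g⁻¹ * h) < δ * (R₁.N g * R₁.N h) →
      R₂.N (g⁻¹ * h) < ε * (R₂.N g * R₂.N h)) :
    ∀ ε > 0, ∃ δ > 0, ∀ (ξ ξ' : E₁) (η η' : E₂), ‖ξ‖ = 1 → LimRel R₁ R₂ ξ η →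
      LimRel R₁ R₂ ξ' η' → ‖ξ - ξ'‖ < δ → ‖η - η'‖ < ε := by
  intro ε hε
  obtain ⟨δ, hδ, H⟩ := limh_key h₁ ((ε / 4) ^ 2 / 2) (by positivity)
  refine ⟨δ / 4, by positivity, fun ξ ξ' η η' hξ hr hr' hd => ?_⟩
  obtain ⟨g, hg1, hg2⟩ := hr (min (δ / 4) (ε / 4)) (by positivity)
  obtain ⟨h, hh1, hh2⟩ := hr' (min (δ / 4) (ε / 4)) (by positivity)
  have hg1' := lt_of_lt_of_le hg1 (min_le_left _ _)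
  have hg2' := lt_of_lt_of_le hg2 (min_le_right _ _)
  have hh1' := lt_of_lt_of_le hh1 (min_le_left _ _)
  have hh2' := lt_of_lt_of_le hh2 (min_le_right _ _)
  have h3 := limh_near (R₁ := R₁) hξ g h
  have h4 : ‖R₁.pt h - ξ‖ ≤ ‖R₁.pt h - ξ'‖ + ‖ξ - ξ'‖ := by
    calc ‖R₁.pt h - ξ‖ = ‖(R₁.pt h - ξ') + (ξ' - ξ)‖ := by congr 1; abel
      _ ≤ ‖R₁.pt h - ξ'‖ + ‖ξ' - ξ‖ := norm_add_le _ _
      _ = _ := by rw [norm_sub_rev ξ' ξ]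
  have h5 := H g h (by linarith)
  have h6 := one_sub_inner_ge (𝕜 := 𝕜₂) (R₂.norm_pt_lt g).le (R₂.norm_pt_lt h).le
  have h7 : ‖R₂.pt g - R₂.pt h‖ < ε / 4 := by
    apply lt_of_pow_lt_pow_left₀ 2 (by positivity)
    linarith
  calc ‖η - η'‖ = ‖-(R₂.pt g - η) + (R₂.pt g - R₂.pt h) + (R₂.pt h - η')‖ := by congr 1; abel
    _ ≤ ‖-(R₂.pt g - η)‖ + ‖R₂.pt g - R₂.pt h‖ + ‖R₂.pt h - η'‖ := norm_add₃_le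
    _ = ‖R₂.pt g - η‖ + ‖R₂.pt g - R₂.pt h‖ + ‖R₂.pt h - η'‖ := by rw [norm_neg]
    _ < ε := by linarith

theorem limh_exists [CompleteSpace E₂] {R₁ : Rep Γ 𝕜₁ E₁} {R₂ : Rep Γ 𝕜₂ E₂}
    (h₁ : ∀ ε > 0, ∃ δ > 0, ∀ g h : Γ, R₁.N (g⁻¹ * h) < δ * (R₁.N g * R₁.N h) →
      R₂.N (g⁻¹ * h) < ε * (R₂.N g * R₂.N h)) {ξ : E₁} (hξ : ξ ∈ R₁.limSet) :
    ∃ η ∈ R₂.limSet, LimRel R₁ R₂ ξ η := by
  obtain ⟨hξ1, hξ2⟩ := hξ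
  obtain ⟨x, hx, hlim⟩ := mem_closure_iff_seq_limit.1 hξ2
  choose g hg using hx
  have hlim' : Tendsto (fun n => R₁.pt (g n)) atTop (𝓝 ξ) := by
    simp_rw [hg]; exact hlim
  rw [Metric.tendsto_atTop] at hlim'
  have hsmall : ∀ ε > 0, ∃ n₀, ∀ n ≥ n₀, ∀ m ≥ n₀,
      ‖1 - ⟪R₂.pt (g n), R₂.pt (g m)⟫_𝕜₂‖ < ε := by
    intro ε hε
    obtain ⟨δ, hδ, H⟩ := limh_key h₁ ε hε
    obtain ⟨n₀, hn₀⟩ := hlim' (δ / 2) (by positivity)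
    refine ⟨n₀, fun n hn m hm => H _ _ ?_⟩
    have h3 := limh_near (R₁ := R₁) hξ1 (g n) (g m)
    have h4 := hn₀ n hn
    have h5 := hn₀ m hm
    rw [dist_eq_norm] at h4 h5
    linarith
  have hc : CauchySeq (fun n => R₂.pt (g n)) := by
    rw [Metric.cauchySeq_iff]
    intro ε hε
    obtain ⟨n₀, hn₀⟩ := hsmall (ε ^ 2 / 2) (by positivity)
    refine ⟨n₀, fun m hm n hn => ?_⟩
    have h6 := one_sub_inner_ge (𝕜 := 𝕜₂) (R₂.norm_pt_lt (g m)).le (R₂.norm_pt_lt (g n)).le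
    have h7 := hn₀ m hm n hn
    rw [dist_eq_norm]
    apply lt_of_pow_lt_pow_left₀ 2 (by positivity)
    linarith
  obtain ⟨η, hη⟩ := cauchySeq_tendsto_of_complete hc
  refine ⟨η, ⟨?_, ?_⟩, ?_⟩
  · have h3 : Tendsto (fun n => ‖R₂.pt (g n)‖) atTop (𝓝 ‖η‖) := hη.norm
    have h4 : Tendsto (fun n => ‖R₂.pt (g n)‖) atTop (𝓝 1) := by
      rw [Metric.tendsto_atTop]
      intro ε hε
      obtain ⟨n₀, hn₀⟩ := hsmall ε hε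
      refine ⟨n₀, fun n hn => ?_⟩
      have h5 := hn₀ n hn n hn
      have h6 := one_sub_norm_le (𝕜 := 𝕜₂) (R₂.norm_pt_lt (g n)).le (R₂.norm_pt_lt (g n)).le
      have h7 := R₂.norm_pt_lt (g n)
      rw [Real.dist_eq, abs_lt]
      constructor <;> linarith
    exact tendsto_nhds_unique h3 h4
  · exact mem_closure_of_tendsto hη (Eventually.of_forall fun n => ⟨g n, rfl⟩)
  · intro ε hε
    rw [Metric.tendsto_atTop] at hη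
    obtain ⟨n₁, hn₁⟩ := hlim' ε hε
    obtain ⟨n₂, hn₂⟩ := hη ε hε
    refine ⟨g (max n₁ n₂), ?_, ?_⟩
    · have := hn₁ _ (le_max_left n₁ n₂)
      rwa [dist_eq_norm] at this
    · have := hn₂ _ (le_max_right n₁ n₂)
      rwa [dist_eq_norm] at this

theorem limSet_homeo [CompleteSpace E₁] [CompleteSpace E₂] {R₁ : Rep Γ 𝕜₁ E₁} {R₂ : Rep Γ 𝕜₂ E₂}
    (h₁ : ∀ ε > 0, ∃ δ > 0, ∀ g h : Γ, R₁.N (g⁻¹ * h) < δ * (R₁.N g * R₁.N h) →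
      R₂.N (g⁻¹ * h) < ε * (R₂.N g * R₂.N h))
    (h₂ : ∀ ε > 0, ∃ δ > 0, ∀ g h : Γ, R₂.N (g⁻¹ * h) < δ * (R₂.N g * R₂.N h) →
      R₁.N (g⁻¹ * h) < ε * (R₁.N g * R₁.N h)) :
    Nonempty (R₁.limSet ≃ₜ R₂.limSet) := by
  choose F hF hFr using fun ξ : R₁.limSet => limh_exists h₁ ξ.2
  choose G hG hGr using fun η : R₂.limSet => limh_exists h₂ η.2
  have u1 := limh_unif h₁
  have u2 := limh_unif h₂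
  refine ⟨{ toFun := fun ξ => ⟨F ξ, hF ξ⟩, invFun := fun η => ⟨G η, hG η⟩,
            left_inv := ?_, right_inv := ?_, continuous_toFun := ?_, continuous_invFun := ?_ }⟩
  · intro ξ
    apply Subtype.ext
    show G ⟨F ξ, hF ξ⟩ = (ξ : E₁)
    have h3 := hGr ⟨F ξ, hF ξ⟩
    have h4 := (hFr ξ).symm
    rw [← sub_eq_zero, ← norm_le_zero_iff]
    apply le_of_forall_pos_lt_add
    intro ε hε
    rw [zero_add]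
    obtain ⟨δ, hδ, H⟩ := u2 ε hε
    exact H _ _ _ _ (hF ξ).1 h3 h4 (by simpa using hδ)
  · intro η
    apply Subtype.ext
    show F ⟨G η, hG η⟩ = (η : E₂)
    have h3 := hFr ⟨G η, hG η⟩
    have h4 := (hGr η).symm
    rw [← sub_eq_zero, ← norm_le_zero_iff]
    apply le_of_forall_pos_lt_add
    intro ε hε
    rw [zero_add]
    obtain ⟨δ, hδ, H⟩ := u1 ε hε
    exact H _ _ _ _ (hG η).1 h3 h4 (by simpa using hδ)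
  · rw [Metric.continuous_iff]
    intro ξ ε hε
    obtain ⟨δ, hδ, H⟩ := u1 ε hε
    refine ⟨δ, hδ, fun ξ' hd => ?_⟩
    rw [Subtype.dist_eq, dist_eq_norm] at hd ⊢
    exact H _ _ _ _ ξ'.2.1 (hFr ξ') (hFr ξ) hd
  · rw [Metric.continuous_iff]
    intro η ε hε
    obtain ⟨δ, hδ, H⟩ := u2 ε hε
    refine ⟨δ, hδ, fun η' hd => ?_⟩
    rw [Subtype.dist_eq, dist_eq_norm] at hd ⊢
    exact H _ _ _ _ η'.2.1 (hGr η') (hGr η) hd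

end Pool.Agent.Carpet
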