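import Pool.Agent.Lib_helper45.Carpet.Hull

/-! # Block PHOM, DISC, LSET : the subgroup of `PU(2,1)` -/

set_option autoImplicit false

namespace Pool.Agent.Carpet

open scoped Topology ComplexConjugate InnerProductSpace

variable {Γ : Type*} [Group Γ]

/-- coordinates on `E2 × ℂ` -/
noncomputable def phE : (E2 × ℂ) ≃ₗ[ℂ] (Fin 3 → ℂ) where
  toFun := fun v => ![v.1 0, v.1 1, v.2]
  map_add' := by
    intro u v
    ext i
    fin_cases i <;> simp
  map_smul' := by
    intro c v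
    ext i
    fin_cases i <;> simp
  invFun := fun f => (!₂[f 0, f 1], f 2)
  left_inv := by
    intro v
    refine Prod.ext ?_ ?_
    · ext i
      fin_cases i <;> simp
    · simp
  right_inv := by
    intro f
    ext i
    fin_cases i <;> simp

theorem phE_herm (u v : E2 × ℂ) : herm (phE u) (phE v) = B v u := by
  unfold herm B
  have h0 : phE u 0 = u.1 0 := rfl
  have h1 : phE u 1 = u.1 1 := rfl
  have h2 : phE u 2 = u.2 := rfl
  have k0 : phE v 0 = v.1 0 := rfl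
  have k1 : phE v 1 = v.1 1 := rfl
  have k2 : phE v 2 = v.2 := rfl
  rw [h0, h1, h2, k0, k1, k2, PiLp.inner_apply, Fin.sum_univ_two]
  simp only [RCLike.inner_apply]
  ring

/-- the matrix of an endomorphism -/
noncomputable def phM : Module.End ℂ (E2 × ℂ) →* Matrix (Fin 3) (Fin 3) ℂ where
  toFun := fun f => LinearMap.toMatrix' (phE.toLinearMap ∘ₗ f ∘ₗ phE.symm.toLinearMap)
  map_one' := by
    have h : phE.toLinearMap ∘ₗ (1 : Module.End ℂ (E2 × ℂ)) ∘ₗ phE.symm.toLinearMap =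
        LinearMap.id := by
      ext v
      simp
    rw [h, LinearMap.toMatrix'_id]
  map_mul' := by
    intro f g
    have h : phE.toLinearMap ∘ₗ (f * g) ∘ₗ phE.symm.toLinearMap =
        (phE.toLinearMap ∘ₗ f ∘ₗ phE.symm.toLinearMap) ∘ₗ
          (phE.toLinearMap ∘ₗ g ∘ₗ phE.symm.toLinearMap) := by
      ext v
      simp
    rw [h, LinearMap.toMatrix'_comp]

theorem phM_mulVec (f : Module.End ℂ (E2 × ℂ)) (v : Fin 3 → ℂ) :
    (phM f).mulVec v = phE (f (phE.symm v)) := by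
  show (LinearMap.toMatrix' (phE.toLinearMap ∘ₗ f ∘ₗ phE.symm.toLinearMap)).mulVec v = _
  rw [LinearMap.toMatrix'_mulVec]
  rfl

theorem exists_hom (R : Rep Γ ℂ E2) :
    ∃ φ : Γ →* PU21, ∀ (g : Γ) (x : E2), actP (φ g) x = R.act g x := by
  set φ0 : Γ →* Matrix.GeneralLinearGroup (Fin 3) ℂ := (phM.comp R.ρ).toHomUnits with hφ0
  have hc : ∀ g : Γ, ((φ0 g : Matrix.GeneralLinearGroup (Fin 3) ℂ) : Matrix (Fin 3) (Fin 3) ℂ) =
      phM (R.ρ g) := fun g => rfl
  have hU : ∀ g : Γ, φ0 g ∈ U21 := by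
    intro g v w
    rw [hc, phM_mulVec, phM_mulVec, phE_herm, R.pres, ← phE_herm, LinearEquiv.apply_symm_apply,
      LinearEquiv.apply_symm_apply]
  refine ⟨(QuotientGroup.mk' scalars).comp (φ0.codRestrict U21 hU), fun g x => ?_⟩
  show actM ((φ0 g : Matrix.GeneralLinearGroup (Fin 3) ℂ) : Matrix (Fin 3) (Fin 3) ℂ) x = _
  have hl : phE.symm (lift1 x) = (x, 1) := by
    refine Prod.ext ?_ ?_
    · show (!₂[lift1 x 0, lift1 x 1] : E2) = x
      ext i
      fin_cases i <;> simp [lift1]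
    · rfl
  unfold actM Rep.act
  rw [hc, phM_mulVec, hl]
  have h0 : phE (R.ρ g (x, 1)) 0 = (R.ρ g (x, 1)).1 0 := rfl
  have h1 : phE (R.ρ g (x, 1)) 1 = (R.ρ g (x, 1)).1 1 := rfl
  have h2 : phE (R.ρ g (x, 1)) 2 = (R.ρ g (x, 1)).2 := rfl
  rw [h0, h1, h2]
  ext i
  fin_cases i
  · simp [div_eq_inv_mul]
  · simp [div_eq_inv_mul]

end Pool.Agent.Carpet
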