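import Pool.Agent.Lib_helper45.Carpet.Frame

/-! # Block SCAR : the standard carpet is a convex carpet -/

set_option autoImplicit false

namespace Pool.Agent.Carpet

open scoped Topology

/-- the eight digits -/
abbrev ScD : Type := {d : Fin 3 × Fin 3 // d ≠ (1, 1)}

/-- the translation of a digit -/
def scTv (i : Fin 3) : ℝ := 2 * ((i : ℕ) : ℝ) - 2

/-- centre of the hole of a word -/
noncomputable def scCen : List ScD → ℝ × ℝ
  | [] => (0, 0)
  | d :: w => (((scCen w).1 + scTv d.1.1) / 3, ((scCen w).2 + scTv d.1.2) / 3)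

/-- half side of the hole of a word -/
noncomputable def scRad (w : List ScD) : ℝ := (1 / 3) ^ (w.length + 1)

/-- the closed hole of a word -/
def scK (w : List ScD) (a b : ℝ) : Prop :=
  |a - (scCen w).1| ≤ scRad w ∧ |b - (scCen w).2| ≤ scRad w

/-- the open hole of a word -/
def scO (w : List ScD) (a b : ℝ) : Prop :=
  |a - (scCen w).1| < scRad w ∧ |b - (scCen w).2| < scRad w

theorem scRad_pos (w : List ScD) : 0 < scRad w := by
  unfold scRad
  positivity

theorem scRad_cons (d : ScD) (w : List ScD) : scRad (d :: w) = scRad w / 3 := by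
  unfold scRad
  rw [List.length_cons, pow_succ]
  ring

theorem sc_le_iff (a c t r : ℝ) : |a - (c + t) / 3| ≤ r / 3 ↔ |3 * a - t - c| ≤ r := by
  have h : 3 * a - t - c = 3 * (a - (c + t) / 3) := by ring
  rw [h, abs_mul, abs_of_pos (by norm_num : (0 : ℝ) < 3)]
  constructor <;> intro h <;> linarith

theorem sc_lt_iff (a c t r : ℝ) : |a - (c + t) / 3| < r / 3 ↔ |3 * a - t - c| < r := by
  have h : 3 * a - t - c = 3 * (a - (c + t) / 3) := by ring
  rw [h, abs_mul, abs_of_pos (by norm_num : (0 : ℝ) < 3)]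
  constructor <;> intro h <;> linarith

theorem scK_cons (d : ScD) (w : List ScD) (a b : ℝ) :
    scK (d :: w) a b ↔ scK w (3 * a - scTv d.1.1) (3 * b - scTv d.1.2) := by
  unfold scK
  rw [scRad_cons]
  show |a - ((scCen w).1 + scTv d.1.1) / 3| ≤ scRad w / 3 ∧
    |b - ((scCen w).2 + scTv d.1.2) / 3| ≤ scRad w / 3 ↔ _
  rw [sc_le_iff, sc_le_iff]

theorem scO_cons (d : ScD) (w : List ScD) (a b : ℝ) :
    scO (d :: w) a b ↔ scO w (3 * a - scTv d.1.1) (3 * b - scTv d.1.2) := by
  unfold scO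
  rw [scRad_cons]
  show |a - ((scCen w).1 + scTv d.1.1) / 3| < scRad w / 3 ∧
    |b - ((scCen w).2 + scTv d.1.2) / 3| < scRad w / 3 ↔ _
  rw [sc_lt_iff, sc_lt_iff]

theorem scO_sub (w : List ScD) {a b : ℝ} (h : scO w a b) : scK w a b := ⟨h.1.le, h.2.le⟩

theorem scK_nil (a b : ℝ) : scK [] a b ↔ |a| ≤ 1 / 3 ∧ |b| ≤ 1 / 3 := by
  unfold scK scRad scCen
  simp

theorem scO_nil (a b : ℝ) : scO [] a b ↔ |a| < 1 / 3 ∧ |b| < 1 / 3 := by
  unfold scO scRad scCen
  simp

theorem scTv_cases (i : Fin 3) : scTv i = -2 ∨ scTv i = 0 ∨ scTv i = 2 := by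
  unfold scTv
  fin_cases i <;> norm_num

theorem scTv_zero {i : Fin 3} (h : scTv i = 0) : i = 1 := by
  unfold scTv at h
  fin_cases i
  · norm_num at h
  · rfl
  · norm_num at h

theorem scTv_sep {i j : Fin 3} (h : i ≠ j) {a : ℝ} (h1 : |3 * a - scTv i| < 1)
    (h2 : |3 * a - scTv j| ≤ 1) : False := by
  rw [abs_lt] at h1
  rw [abs_le] at h2
  unfold scTv at h1 h2
  fin_cases i <;> fin_cases j <;> first | exact h rfl | (norm_num at h1 h2; linarith [h1.1, h1.2, h2.1, h2.2])

theorem scTv_abs (i : Fin 3) : |scTv i| ≤ 2 := by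
  rcases scTv_cases i with h | h | h <;> rw [h] <;> norm_num

theorem scK_lt (w : List ScD) {a b : ℝ} (h : scK w a b) : |a| < 1 ∧ |b| < 1 := by
  induction w generalizing a b with
  | nil =>
    rw [scK_nil] at h
    constructor
    · linarith [h.1]
    · linarith [h.2]
  | cons d w ih =>
    rw [scK_cons] at h
    obtain ⟨h1, h2⟩ := ih h
    have k1 := abs_le.mp (scTv_abs d.1.1)
    have k2 := abs_le.mp (scTv_abs d.1.2)
    rw [abs_lt] at h1 h2 ⊢
    rw [abs_lt]
    refine ⟨⟨?_, ?_⟩, ⟨?_, ?_⟩⟩ <;> linarith [h1.1, h1.2, h2.1, h2.2, k1.1, k1.2, k2.1, k2.2]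

theorem sc_digit_ne (d : ScD) : scTv d.1.1 ≠ 0 ∨ scTv d.1.2 ≠ 0 := by
  by_contra hcon
  push Not at hcon
  exact d.2 (Prod.ext (scTv_zero hcon.1) (scTv_zero hcon.2))

theorem sc_far {t a : ℝ} (ht : t = -2 ∨ t = 0 ∨ t = 2) (h0 : t ≠ 0) (h : |3 * a - t| ≤ 1) :
    1 / 3 ≤ |a| := by
  rw [abs_le] at h
  rcases ht with h1 | h1 | h1
  · subst h1
    have : a ≤ -(1 / 3) := by linarith [h.2]
    rw [abs_of_neg (by linarith)]
    linarith
  · exact absurd h1 h0
  · subst h1
    have : 1 / 3 ≤ a := by linarith [h.1]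
    exact le_trans this (le_abs_self a)

theorem sc_far' {t a : ℝ} (ht : t = -2 ∨ t = 0 ∨ t = 2) (h0 : t ≠ 0) (h : |3 * a - t| < 1) :
    1 / 3 < |a| := by
  rw [abs_lt] at h
  rcases ht with h1 | h1 | h1
  · subst h1
    have : a < -(1 / 3) := by linarith [h.2]
    rw [abs_of_neg (by linarith)]
    linarith
  · exact absurd h1 h0
  · subst h1
    have : 1 / 3 < a := by linarith [h.1]
    exact lt_of_lt_of_le this (le_abs_self a)

theorem scK_disj (w w' : List ScD) (hne : w ≠ w') {a b : ℝ} (h : scK w a b) (h' : scK w' a b) :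
    False := by
  induction w generalizing w' a b with
  | nil =>
    cases w' with
    | nil => exact hne rfl
    | cons d u =>
      rw [scK_nil] at h
      rw [scK_cons] at h'
      obtain ⟨k1, k2⟩ := scK_lt u h'
      rcases sc_digit_ne d with hd | hd
      · exact absurd (sc_far' (scTv_cases _) hd k1) (not_lt.mpr h.1)
      · exact absurd (sc_far' (scTv_cases _) hd k2) (not_lt.mpr h.2)
  | cons d u ih =>
    cases w' with
    | nil =>
      rw [scK_nil] at h'
      rw [scK_cons] at h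
      obtain ⟨k1, k2⟩ := scK_lt u h
      rcases sc_digit_ne d with hd | hd
      · exact absurd (sc_far' (scTv_cases _) hd k1) (not_lt.mpr h'.1)
      · exact absurd (sc_far' (scTv_cases _) hd k2) (not_lt.mpr h'.2)
    | cons d' u' =>
      rw [scK_cons] at h h'
      by_cases hd : d = d'
      · subst hd
        exact ih u' (fun e => hne (by rw [e])) h h'
      · obtain ⟨k1, k2⟩ := scK_lt u h
        obtain ⟨k1', k2'⟩ := scK_lt u' h'
        by_cases h1 : d.1.1 = d'.1.1
        · have h2 : d.1.2 ≠ d'.1.2 := fun h2 => hd (Subtype.ext (Prod.ext h1 h2))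
          exact scTv_sep h2 k2 k2'.le
        · exact scTv_sep h1 k1 k1'.le

/-- choice of a digit -/
theorem sc_digit {t : ℝ} (ht : |t| ≤ 1) : ∃ i : Fin 3, |3 * t - scTv i| ≤ 1 ∧
    (i = 1 → |t| < 1 / 3) := by
  rw [abs_le] at ht
  by_cases h : |t| < 1 / 3
  · refine ⟨1, ?_, fun _ => h⟩
    rw [abs_lt] at h
    rw [abs_le]
    unfold scTv
    constructor <;> norm_num <;> linarith [h.1, h.2]
  · push Not at h
    rcases le_total 0 t with h0 | h0
    · rw [abs_of_nonneg h0] at h
      refine ⟨2, ?_, fun h => absurd h (by decide)⟩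
      rw [abs_le]
      unfold scTv
      constructor <;> norm_num <;> linarith [ht.1, ht.2]
    · rw [abs_of_nonpos h0] at h
      refine ⟨0, ?_, fun h => absurd h (by decide)⟩
      rw [abs_le]
      unfold scTv
      constructor <;> norm_num <;> linarith [ht.1, ht.2]

/-- every point outside the central open hole lies in a cell -/
theorem sc_cell {a b : ℝ} (ha : |a| ≤ 1) (hb : |b| ≤ 1) (h : ¬ scO [] a b) :
    ∃ d : ScD, |3 * a - scTv d.1.1| ≤ 1 ∧ |3 * b - scTv d.1.2| ≤ 1 := by
  obtain ⟨i, hi, hi'⟩ := sc_digit ha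
  obtain ⟨j, hj, hj'⟩ := sc_digit hb
  refine ⟨⟨(i, j), ?_⟩, hi, hj⟩
  intro e
  rw [Prod.mk.injEq] at e
  exact h ((scO_nil a b).mpr ⟨hi' e.1, hj' e.2⟩)

theorem sc_near (n : ℕ) {a b : ℝ} (ha : |a| ≤ 1) (hb : |b| ≤ 1) :
    ∃ (w : List ScD) (a' b' : ℝ), scK w a' b' ∧ |a - a'| ≤ (1 / 3) ^ n ∧
      |b - b'| ≤ (1 / 3) ^ n := by
  induction n generalizing a b with
  | zero =>
    refine ⟨[], 0, 0, ?_, ?_, ?_⟩
    · rw [scK_nil]
      norm_num
    · simpa using ha
    · simpa using hb
  | succ n ih =>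
    by_cases h : scO [] a b
    · exact ⟨[], a, b, scO_sub _ h, by simp, by simp⟩
    · obtain ⟨d, h1, h2⟩ := sc_cell ha hb h
      obtain ⟨w, a', b', hw, k1, k2⟩ := ih h1 h2
      refine ⟨d :: w, (a' + scTv d.1.1) / 3, (b' + scTv d.1.2) / 3, ?_, ?_, ?_⟩
      · rw [scK_cons]
        have e1 : 3 * ((a' + scTv d.1.1) / 3) - scTv d.1.1 = a' := by ring
        have e2 : 3 * ((b' + scTv d.1.2) / 3) - scTv d.1.2 = b' := by ring
        rw [e1, e2]
        exact hw
      · have e : a - (a' + scTv d.1.1) / 3 = (3 * a - scTv d.1.1 - a') / 3 := by ring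
        rw [e, abs_div, abs_of_pos (by norm_num : (0 : ℝ) < 3), pow_succ]
        linarith
      · have e : b - (b' + scTv d.1.2) / 3 = (3 * b - scTv d.1.2 - b') / 3 := by ring
        rw [e, abs_div, abs_of_pos (by norm_num : (0 : ℝ) < 3), pow_succ]
        linarith

/-- the finite stages of the carpet -/
theorem sc_stage (n : ℕ) (p : ℝ × ℝ) :
    p ∈ carpetStep^[n] (Set.Icc 0 1 ×ˢ Set.Icc 0 1) ↔
      (|2 * p.1 - 1| ≤ 1 ∧ |2 * p.2 - 1| ≤ 1) ∧
        ∀ w : List ScD, w.length < n → ¬ scO w (2 * p.1 - 1) (2 * p.2 - 1) := by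
  induction n generalizing p with
  | zero =>
    rw [Function.iterate_zero, id_eq, Set.mem_prod, Set.mem_Icc, Set.mem_Icc, abs_le, abs_le]
    constructor
    · rintro ⟨⟨h1, h2⟩, h3, h4⟩
      exact ⟨⟨⟨by linarith, by linarith⟩, by linarith, by linarith⟩,
        fun w hw => absurd hw (Nat.not_lt_zero _)⟩
    · rintro ⟨⟨⟨h1, h2⟩, h3, h4⟩, -⟩
      exact ⟨⟨by linarith, by linarith⟩, by linarith, by linarith⟩
  | succ n ih =>
    rw [Function.iterate_succ_apply']
    have step : p ∈ carpetStep (carpetStep^[n] (Set.Icc 0 1 ×ˢ Set.Icc 0 1)) ↔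
        ∃ d : ScD, (|3 * (2 * p.1 - 1) - scTv d.1.1| ≤ 1 ∧ |3 * (2 * p.2 - 1) - scTv d.1.2| ≤ 1) ∧
          ∀ w : List ScD, w.length < n → ¬ scO (d :: w) (2 * p.1 - 1) (2 * p.2 - 1) := by
      constructor
      · rintro ⟨i, j, hij, h⟩
        rw [ih] at h
        have e1 : 2 * (3 * p.1 - ((i : ℕ) : ℝ)) - 1 = 3 * (2 * p.1 - 1) - scTv i := by
          unfold scTv; ring
        have e2 : 2 * (3 * p.2 - ((j : ℕ) : ℝ)) - 1 = 3 * (2 * p.2 - 1) - scTv j := by
          unfold scTv; ring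
        simp only [e1, e2] at h
        refine ⟨⟨(i, j), hij⟩, h.1, fun w hw => ?_⟩
        rw [scO_cons]
        exact h.2 w hw
      · rintro ⟨⟨⟨i, j⟩, hij⟩, h1, h2⟩
        refine ⟨i, j, hij, ?_⟩
        rw [ih]
        have e1 : 2 * (3 * p.1 - ((i : ℕ) : ℝ)) - 1 = 3 * (2 * p.1 - 1) - scTv i := by
          unfold scTv; ring
        have e2 : 2 * (3 * p.2 - ((j : ℕ) : ℝ)) - 1 = 3 * (2 * p.2 - 1) - scTv j := by
          unfold scTv; ring
        simp only [e1, e2]
        refine ⟨h1, fun w hw => ?_⟩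
        have := h2 w hw
        rwa [scO_cons] at this
    rw [step]
    constructor
    · rintro ⟨d, ⟨h1, h2⟩, h3⟩
      refine ⟨⟨?_, ?_⟩, ?_⟩
      · have k := abs_le.mp (scTv_abs d.1.1)
        rw [abs_le] at h1 ⊢
        constructor <;> linarith [h1.1, h1.2, k.1, k.2]
      · have k := abs_le.mp (scTv_abs d.1.2)
        rw [abs_le] at h2 ⊢
        constructor <;> linarith [h2.1, h2.2, k.1, k.2]
      · intro w hw hO
        cases w with
        | nil =>
          rw [scO_nil] at hO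
          rcases sc_digit_ne d with hd | hd
          · exact absurd (sc_far (scTv_cases _) hd h1) (not_le.mpr hO.1)
          · exact absurd (sc_far (scTv_cases _) hd h2) (not_le.mpr hO.2)
        | cons d' u =>
          rw [List.length_cons] at hw
          by_cases hd : d = d'
          · subst hd
            exact h3 u (by omega) hO
          · rw [scO_cons] at hO
            obtain ⟨k1, k2⟩ := scK_lt u (scO_sub _ hO)
            by_cases e1 : d'.1.1 = d.1.1
            · have e2 : d'.1.2 ≠ d.1.2 := fun e2 => hd (Subtype.ext (Prod.ext e1.symm e2.symm))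
              exact scTv_sep e2 k2 h2
            · exact scTv_sep e1 k1 h1
    · rintro ⟨⟨h1, h2⟩, h3⟩
      obtain ⟨d, k1, k2⟩ := sc_cell h1 h2 (h3 [] (by simp))
      exact ⟨d, ⟨k1, k2⟩, fun w hw => h3 (d :: w) (by rw [List.length_cons]; omega)⟩

theorem sc_carpet (p : ℝ × ℝ) : p ∈ carpet ↔ (|2 * p.1 - 1| ≤ 1 ∧ |2 * p.2 - 1| ≤ 1) ∧
    ∀ w : List ScD, ¬ scO w (2 * p.1 - 1) (2 * p.2 - 1) := by
  unfold carpet
  rw [Set.mem_iInter]
  constructor
  · intro h
    refine ⟨((sc_stage 0 p).mp (h 0)).1, fun w => ?_⟩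
    exact ((sc_stage (w.length + 1) p).mp (h _)).2 w (Nat.lt_succ_self _)
  · rintro ⟨h1, h2⟩ n
    exact (sc_stage n p).mpr ⟨h1, fun w _ => h2 w⟩

/-! ### squares in the plane -/

theorem sc_norm_le (x : P2) : ‖x‖ ≤ |x 0| + |x 1| := by
  have h : ‖x‖ ^ 2 = x 0 ^ 2 + x 1 ^ 2 := by
    rw [EuclideanSpace.norm_sq_eq, Fin.sum_univ_two, Real.norm_eq_abs, Real.norm_eq_abs, sq_abs,
      sq_abs]
  have h0 : x 0 ^ 2 = |x 0| ^ 2 := (sq_abs _).symm
  have h1 : x 1 ^ 2 = |x 1| ^ 2 := (sq_abs _).symm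
  rw [h0, h1] at h
  by_contra hcon
  push Not at hcon
  nlinarith [abs_nonneg (x 0), abs_nonneg (x 1), norm_nonneg x,
    mul_nonneg (abs_nonneg (x 0)) (abs_nonneg (x 1))]

/-- closed square -/
def scSq (c : ℝ × ℝ) (r : ℝ) : Set P2 := {x | |x 0 - c.1| ≤ r ∧ |x 1 - c.2| ≤ r}

/-- open square -/
def scSqO (c : ℝ × ℝ) (r : ℝ) : Set P2 := {x | |x 0 - c.1| < r ∧ |x 1 - c.2| < r}

theorem scSq_conv (c : ℝ × ℝ) (r : ℝ) : Convex ℝ (scSq c r) := by
  intro x hx y hy s t hs ht hst
  obtain ⟨h1, h2⟩ := hx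
  obtain ⟨h3, h4⟩ := hy
  rw [abs_le] at h1 h2 h3 h4
  have e : t = 1 - s := by linarith
  subst e
  constructor
  · have : (s • x + (1 - s) • y) 0 - c.1 = s * (x 0 - c.1) + (1 - s) * (y 0 - c.1) := by
      simp only [PiLp.add_apply, PiLp.smul_apply, smul_eq_mul]
      ring
    rw [this, abs_le]
    constructor <;> nlinarith
  · have : (s • x + (1 - s) • y) 1 - c.2 = s * (x 1 - c.2) + (1 - s) * (y 1 - c.2) := by
      simp only [PiLp.add_apply, PiLp.smul_apply, smul_eq_mul]
      ring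
    rw [this, abs_le]
    constructor <;> nlinarith

theorem scSq_closed (c : ℝ × ℝ) (r : ℝ) : IsClosed (scSq c r) := by
  have h0 : Continuous (fun x : P2 => |x 0 - c.1|) := by fun_prop
  have h1 : Continuous (fun x : P2 => |x 1 - c.2|) := by fun_prop
  exact (isClosed_le h0 continuous_const).inter (isClosed_le h1 continuous_const)

theorem scSqO_open (c : ℝ × ℝ) (r : ℝ) : IsOpen (scSqO c r) := by
  have h0 : Continuous (fun x : P2 => |x 0 - c.1|) := by fun_prop
  have h1 : Continuous (fun x : P2 => |x 1 - c.2|) := by fun_prop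
  exact (isOpen_lt h0 continuous_const).inter (isOpen_lt h1 continuous_const)

theorem scSq_dist {c : ℝ × ℝ} {r : ℝ} {x y : P2} (hx : x ∈ scSq c r) (hy : y ∈ scSq c r) :
    dist x y ≤ 4 * r := by
  rw [dist_eq_norm]
  refine (sc_norm_le (x - y)).trans ?_
  have e0 : (x - y) 0 = (x 0 - c.1) - (y 0 - c.1) := by simp
  have e1 : (x - y) 1 = (x 1 - c.2) - (y 1 - c.2) := by simp
  rw [e0, e1]
  have h1 := abs_sub (x 0 - c.1) (y 0 - c.1)
  have h2 := abs_sub (x 1 - c.2) (y 1 - c.2)
  linarith [hx.1, hx.2, hy.1, hy.2]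

theorem scSq_compact (c : ℝ × ℝ) (r : ℝ) : IsCompact (scSq c r) := by
  refine Metric.isCompact_of_isClosed_isBounded (scSq_closed c r) ?_
  rw [Metric.isBounded_iff]
  exact ⟨4 * r, fun x hx y hy => scSq_dist hx hy⟩

theorem scSq_interior (c : ℝ × ℝ) (r : ℝ) : interior (scSq c r) = scSqO c r := by
  apply Set.Subset.antisymm
  · intro x hx
    have key : ∀ (i : Fin 2) (t : ℝ), scSq c r ⊆ {x : P2 | |x i - t| ≤ r} → |x i - t| < r := by
      intro i t hsub
      have hopen : IsOpenMap (EuclideanSpace.proj i : P2 →L[ℝ] ℝ) := by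
        apply ContinuousLinearMap.isOpenMap
        intro t
        exact ⟨EuclideanSpace.single i t, by simp⟩
      have h1 := hopen.preimage_interior_eq_interior_preimage
        (EuclideanSpace.proj i : P2 →L[ℝ] ℝ).continuous (Set.Icc (t - r) (t + r))
      have h2 : scSq c r ⊆ (EuclideanSpace.proj i : P2 →L[ℝ] ℝ) ⁻¹' Set.Icc (t - r) (t + r) := by
        intro y hy
        have h3 : |y i - t| ≤ r := hsub hy
        rw [abs_le] at h3
        exact ⟨by show t - r ≤ y i; linarith [h3.1], by show y i ≤ t + r; linarith [h3.2]⟩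
      have h3 := interior_mono h2 hx
      rw [← h1, interior_Icc] at h3
      have h4 : t - r < x i ∧ x i < t + r := h3
      rw [abs_lt]
      constructor <;> linarith [h4.1, h4.2]
    exact ⟨key 0 c.1 (fun y hy => hy.1), key 1 c.2 (fun y hy => hy.2)⟩
  · exact interior_maximal (fun x hx => ⟨hx.1.le, hx.2.le⟩) (scSqO_open c r)

/-- enumeration of the words -/
noncomputable def scE : ℕ ≃ List ScD :=
  have : Infinite (List ScD) := by
    have : Nonempty ScD := ⟨⟨(0, 0), by decide⟩⟩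
    infer_instance
  (Denumerable.ofEncodableOfInfinite (List ScD)).eqv.symm

theorem sc_len : Filter.Tendsto (fun i => (scE i).length) Filter.atTop Filter.atTop := by
  have h1 : Filter.Tendsto scE Filter.cofinite Filter.cofinite := scE.injective.tendsto_cofinite
  have h2 : Filter.Tendsto (List.length : List ScD → ℕ) Filter.cofinite Filter.atTop := by
    rw [Filter.tendsto_atTop]
    intro n
    rw [Filter.eventually_cofinite]
    refine (List.finite_length_le ScD n).subset ?_
    intro l hl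
    have : ¬ n ≤ l.length := hl
    show l.length ≤ n
    omega
  have h3 := h2.comp h1
  rwa [Nat.cofinite_eq_atTop] at h3

/-- the standard carpet as a convex carpet -/
noncomputable def scY : ConvexCarpet where
  D := scSq (0, 0) 1
  K := fun i => scSq (scCen (scE i)) (scRad (scE i))
  c := fun i => !₂[(scCen (scE i)).1, (scCen (scE i)).2]
  convD := scSq_conv _ _
  compD := scSq_compact _ _
  convK := fun i => scSq_conv _ _
  compK := fun i => scSq_compact _ _
  center := by
    intro i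
    rw [scSq_interior]
    constructor
    · simpa using scRad_pos _
    · simpa using scRad_pos _
  inD := by
    intro i x hx
    rw [scSq_interior]
    have h : scK (scE i) (x 0) (x 1) := hx
    have h1 := scK_lt _ h
    constructor
    · simpa using h1.1
    · simpa using h1.2
  disj := by
    intro i j hij
    rw [Set.disjoint_left]
    intro x hx hy
    exact scK_disj (scE i) (scE j) (fun h => hij (scE.injective h)) hx hy
  diam0 := by
    have h1 : Filter.Tendsto (fun i => 4 * ((1 / 3 : ℝ) ^ ((scE i).length + 1))) Filter.atTop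
        (𝓝 (4 * 0)) := by
      refine Filter.Tendsto.const_mul 4 ?_
      have h2 : Filter.Tendsto (fun n : ℕ => (1 / 3 : ℝ) ^ n) Filter.atTop (𝓝 0) :=
        tendsto_pow_atTop_nhds_zero_of_lt_one (by norm_num) (by norm_num)
      exact h2.comp ((Filter.tendsto_add_atTop_nat 1).comp sc_len)
    rw [mul_zero] at h1
    refine squeeze_zero (fun i => Metric.diam_nonneg) (fun i => ?_) h1
    exact Metric.diam_le_of_forall_dist_le (by positivity) (fun x hx y hy => scSq_dist hx hy)
  dense := by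
    intro x hx
    rw [Metric.mem_closure_iff]
    intro ε hε
    have hx0 : |x 0| ≤ 1 := by simpa using hx.1
    have hx1 : |x 1| ≤ 1 := by simpa using hx.2
    obtain ⟨n, hn⟩ := exists_pow_lt_of_lt_one (by positivity : 0 < ε / 2)
      (by norm_num : (1 / 3 : ℝ) < 1)
    obtain ⟨w, a', b', hw, k1, k2⟩ := sc_near n hx0 hx1
    refine ⟨!₂[a', b'], ?_, ?_⟩
    · rw [Set.mem_iUnion]
      refine ⟨scE.symm w, ?_⟩
      rw [Equiv.apply_symm_apply]
      constructor
      · simpa using hw.1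
      · simpa using hw.2
    · rw [dist_eq_norm]
      refine lt_of_le_of_lt (sc_norm_le _) ?_
      have e0 : (x - !₂[a', b']) 0 = x 0 - a' := by simp
      have e1 : (x - !₂[a', b']) 1 = x 1 - b' := by simp
      rw [e0, e1]
      linarith

/-- the affine change of coordinates -/
noncomputable def scT : (ℝ × ℝ) ≃ₜ P2 where
  toFun := fun p => !₂[2 * p.1 - 1, 2 * p.2 - 1]
  invFun := fun x => ((x 0 + 1) / 2, (x 1 + 1) / 2)
  left_inv := by
    intro p
    ext
    · simp
    · simp
  right_inv := by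
    intro x
    ext i
    fin_cases i
    · simp; ring
    · simp; ring
  continuous_toFun := by fun_prop
  continuous_invFun := by fun_prop

theorem carpet_convex : ∃ Y : ConvexCarpet, Y.D = {x : P2 | |x 0| ≤ 1 ∧ |x 1| ≤ 1} ∧
    Nonempty (carpet ≃ₜ Y.X) := by
  refine ⟨scY, ?_, ?_⟩
  · show scSq (0, 0) 1 = _
    unfold scSq
    simp only [sub_zero]
  · refine ⟨scT.subtype fun p => ?_⟩
    rw [sc_carpet]
    have e0 : scT p 0 = 2 * p.1 - 1 := by simp [scT]
    have e1 : scT p 1 = 2 * p.2 - 1 := by simp [scT]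
    have hX : scT p ∈ scY.X ↔ (scT p ∈ scSq (0, 0) 1 ∧
        ∀ i, scT p ∉ scSqO (scCen (scE i)) (scRad (scE i))) := by
      unfold ConvexCarpet.X
      rw [Set.mem_sdiff, Set.mem_iUnion, not_exists]
      have : ∀ i, interior (scY.K i) = scSqO (scCen (scE i)) (scRad (scE i)) :=
        fun i => scSq_interior _ _
      simp only [this]
      rfl
    show _ ↔ scT p ∈ scY.X
    rw [hX]
    constructor
    · rintro ⟨⟨h1, h2⟩, h3⟩
      refine ⟨⟨?_, ?_⟩, fun i hi => h3 (scE i) ?_⟩
      · rw [e0]; simpa using h1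
      · rw [e1]; simpa using h2
      · rw [← e0, ← e1]
        exact hi
    · rintro ⟨⟨h1, h2⟩, h3⟩
      rw [e0] at h1
      rw [e1] at h2
      refine ⟨⟨by simpa using h1, by simpa using h2⟩, fun w hw => ?_⟩
      refine h3 (scE.symm w) ?_
      rw [Equiv.apply_symm_apply]
      rw [← e0, ← e1] at hw
      exact hw

end Pool.Agent.Carpet
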