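import Pool.Agent.Lib_helper45.Carpet.Frame

/-! # Block SQ : from the square to the disk -/

set_option autoImplicit false

namespace Pool.Agent.Carpet

open scoped Topology

/-- the map from the square to the disk -/
noncomputable def sqF (x : P2) : P2 :=
  !₂[x 0 * √(1 - x 1 ^ 2 / 2), x 1 * √(1 - x 0 ^ 2 / 2)]

theorem sqF_zero (x : P2) : sqF x 0 = x 0 * √(1 - x 1 ^ 2 / 2) := by simp [sqF]

theorem sqF_one (x : P2) : sqF x 1 = x 1 * √(1 - x 0 ^ 2 / 2) := by simp [sqF]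

theorem sq_ext {x y : P2} (h0 : x 0 = y 0) (h1 : x 1 = y 1) : x = y := by
  ext i
  fin_cases i
  · exact h0
  · exact h1

theorem sq_half {t : ℝ} (ht : |t| ≤ 1) : 0 < 1 - t ^ 2 / 2 := by
  have := (sq_le_one_iff_abs_le_one t).mpr ht
  linarith

theorem sq_norm_sq (x : P2) : ‖x‖ ^ 2 = x 0 ^ 2 + x 1 ^ 2 := by
  rw [EuclideanSpace.norm_sq_eq, Fin.sum_univ_two, Real.norm_eq_abs, Real.norm_eq_abs, sq_abs,
    sq_abs]

theorem sqF_norm (x : P2) (h0 : |x 0| ≤ 1) (h1 : |x 1| ≤ 1) :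
    ‖sqF x‖ ^ 2 = 1 - (1 - x 0 ^ 2) * (1 - x 1 ^ 2) := by
  rw [sq_norm_sq, sqF_zero, sqF_one, mul_pow, mul_pow, Real.sq_sqrt (sq_half h1).le,
    Real.sq_sqrt (sq_half h0).le]
  ring

theorem sq_interior {x : P2} (hx : x ∈ interior {x : P2 | |x 0| ≤ 1 ∧ |x 1| ≤ 1}) :
    |x 0| < 1 ∧ |x 1| < 1 := by
  have key : ∀ i : Fin 2, |x i| < 1 := by
    intro i
    have hopen : IsOpenMap (EuclideanSpace.proj i : P2 →L[ℝ] ℝ) := by
      apply ContinuousLinearMap.isOpenMap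
      intro t
      exact ⟨EuclideanSpace.single i t, by simp⟩
    have h1 := hopen.preimage_interior_eq_interior_preimage
      (EuclideanSpace.proj i : P2 →L[ℝ] ℝ).continuous (Set.Icc (-1 : ℝ) 1)
    have h2 : {x : P2 | |x 0| ≤ 1 ∧ |x 1| ≤ 1} ⊆
        (EuclideanSpace.proj i : P2 →L[ℝ] ℝ) ⁻¹' Set.Icc (-1 : ℝ) 1 := by
      intro y hy
      have : |y i| ≤ 1 := by
        fin_cases i
        · exact hy.1
        · exact hy.2
      exact abs_le.mp this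
    have h3 := interior_mono h2 hx
    rw [← h1, interior_Icc] at h3
    exact abs_lt.mpr h3
  exact ⟨key 0, key 1⟩

theorem sqF_cont : Continuous sqF := by
  unfold sqF
  fun_prop

theorem sqF_inj : Set.InjOn sqF {x : P2 | |x 0| ≤ 1 ∧ |x 1| ≤ 1} := by
  intro x hx y hy h
  have e0 : x 0 * √(1 - x 1 ^ 2 / 2) = y 0 * √(1 - y 1 ^ 2 / 2) := by
    rw [← sqF_zero, ← sqF_zero, h]
  have e1 : x 1 * √(1 - x 0 ^ 2 / 2) = y 1 * √(1 - y 0 ^ 2 / 2) := by
    rw [← sqF_one, ← sqF_one, h]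
  have s0 := congrArg (· ^ 2) e0
  have s1 := congrArg (· ^ 2) e1
  simp only [mul_pow, Real.sq_sqrt (sq_half hx.1).le, Real.sq_sqrt (sq_half hx.2).le,
    Real.sq_sqrt (sq_half hy.1).le, Real.sq_sqrt (sq_half hy.2).le] at s0 s1
  have a0 := (sq_le_one_iff_abs_le_one _).mpr hx.1
  have a1 := (sq_le_one_iff_abs_le_one _).mpr hx.2
  have b0 := (sq_le_one_iff_abs_le_one _).mpr hy.1
  have b1 := (sq_le_one_iff_abs_le_one _).mpr hy.2
  have hd : x 0 ^ 2 = y 0 ^ 2 ∧ x 1 ^ 2 = y 1 ^ 2 := by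
    have d1 : x 0 ^ 2 - x 1 ^ 2 = y 0 ^ 2 - y 1 ^ 2 := by linarith
    have d2 : x 0 ^ 2 + x 1 ^ 2 - x 0 ^ 2 * x 1 ^ 2 = y 0 ^ 2 + y 1 ^ 2 - y 0 ^ 2 * y 1 ^ 2 := by
      linarith
    have d3 : (y 0 ^ 2 - x 0 ^ 2) * (2 - x 1 ^ 2 - y 0 ^ 2) = 0 := by
      have : y 1 ^ 2 = y 0 ^ 2 - x 0 ^ 2 + x 1 ^ 2 := by linarith
      rw [this] at d2
      linarith
    rcases mul_eq_zero.mp d3 with h | h
    · constructor <;> linarith
    · have h1 : x 1 ^ 2 = 1 := by linarith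
      have h2 : y 0 ^ 2 = 1 := by linarith
      constructor <;> nlinarith
  have p0 : 0 < √(1 - x 1 ^ 2 / 2) := Real.sqrt_pos.mpr (sq_half hx.2)
  have p1 : 0 < √(1 - x 0 ^ 2 / 2) := Real.sqrt_pos.mpr (sq_half hx.1)
  rw [← hd.2] at e0
  rw [← hd.1] at e1
  exact sq_ext (mul_right_cancel₀ p0.ne' e0) (mul_right_cancel₀ p1.ne' e1)

theorem sqF_surj : Set.SurjOn sqF {x : P2 | |x 0| ≤ 1 ∧ |x 1| ≤ 1} (Metric.closedBall 0 1) := by
  intro w hw
  have hn : w 0 ^ 2 + w 1 ^ 2 ≤ 1 := by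
    rw [← sq_norm_sq]
    have : ‖w‖ ≤ 1 := by simpa using hw
    nlinarith [norm_nonneg w]
  set u := w 0
  set v := w 1
  set a : ℝ := u ^ 2 - v ^ 2 with ha
  set Δ : ℝ := 4 * (1 - u ^ 2 - v ^ 2) + a ^ 2 with hΔ
  have hΔ0 : a ^ 2 ≤ Δ := by rw [hΔ]; linarith
  have hΔ1 : 0 ≤ Δ := le_trans (sq_nonneg a) hΔ0
  have hs : √Δ ^ 2 = Δ := Real.sq_sqrt hΔ1
  have hs0 : |a| ≤ √Δ := Real.abs_le_sqrt hΔ0
  have ha1 : |a| ≤ 1 := by
    rw [abs_le, ha]
    constructor <;> nlinarith [sq_nonneg u, sq_nonneg v]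
  have ha2 := abs_le.mp hs0
  have ha3 := abs_le.mp ha1
  set A : ℝ := ((2 + a) - √Δ) / 2 with hA
  set Bq : ℝ := ((2 - a) - √Δ) / 2 with hB
  have hA1 : A ≤ 1 := by rw [hA]; linarith [ha2.2]
  have hB1 : Bq ≤ 1 := by rw [hB]; linarith [ha2.1]
  have hA0 : 0 ≤ A := by
    have : √Δ ≤ 2 + a := by
      apply Real.sqrt_le_iff.mpr
      constructor
      · linarith [ha3.1]
      · rw [hΔ, ha]
        nlinarith [sq_nonneg u]
    rw [hA]; linarith
  have hB0 : 0 ≤ Bq := by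
    have : √Δ ≤ 2 - a := by
      apply Real.sqrt_le_iff.mpr
      constructor
      · linarith [ha3.2]
      · rw [hΔ, ha]
        nlinarith [sq_nonneg v]
    rw [hB]; linarith
  have hu : A * (1 - Bq / 2) = u ^ 2 := by
    have : A * (1 - Bq / 2) = ((2 + a) - √Δ) * (2 + a + √Δ) / 8 := by rw [hA, hB]; ring
    rw [this]
    have e : ((2 + a) - √Δ) * (2 + a + √Δ) = (2 + a) ^ 2 - √Δ ^ 2 := by ring
    rw [e, hs, hΔ, ha]
    ring
  have hv : Bq * (1 - A / 2) = v ^ 2 := by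
    have : Bq * (1 - A / 2) = ((2 - a) - √Δ) * (2 - a + √Δ) / 8 := by rw [hA, hB]; ring
    rw [this]
    have e : ((2 - a) - √Δ) * (2 - a + √Δ) = (2 - a) ^ 2 - √Δ ^ 2 := by ring
    rw [e, hs, hΔ, ha]
    ring
  have q1 : 0 < 1 - Bq / 2 := by linarith
  have q2 : 0 < 1 - A / 2 := by linarith
  have r1 : 0 < √(1 - Bq / 2) := Real.sqrt_pos.mpr q1
  have r2 : 0 < √(1 - A / 2) := Real.sqrt_pos.mpr q2
  have hx0 : (u / √(1 - Bq / 2)) ^ 2 = A := by
    rw [div_pow, Real.sq_sqrt q1.le, ← hu, mul_div_cancel_right₀ _ q1.ne']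
  have hx1 : (v / √(1 - A / 2)) ^ 2 = Bq := by
    rw [div_pow, Real.sq_sqrt q2.le, ← hv, mul_div_cancel_right₀ _ q2.ne']
  refine ⟨!₂[u / √(1 - Bq / 2), v / √(1 - A / 2)], ⟨?_, ?_⟩, ?_⟩
  · have : (!₂[u / √(1 - Bq / 2), v / √(1 - A / 2)] : P2) 0 = u / √(1 - Bq / 2) := by simp
    rw [this, ← sq_le_one_iff_abs_le_one, hx0]
    exact hA1
  · have : (!₂[u / √(1 - Bq / 2), v / √(1 - A / 2)] : P2) 1 = v / √(1 - A / 2) := by simp
    rw [this, ← sq_le_one_iff_abs_le_one, hx1]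
    exact hB1
  · have t0 : (!₂[u / √(1 - Bq / 2), v / √(1 - A / 2)] : P2) 0 = u / √(1 - Bq / 2) := by simp
    have t1 : (!₂[u / √(1 - Bq / 2), v / √(1 - A / 2)] : P2) 1 = v / √(1 - A / 2) := by simp
    apply sq_ext
    · rw [sqF_zero, t0, t1, hx1]
      exact div_mul_cancel₀ _ r1.ne'
    · rw [sqF_one, t0, t1, hx0]
      exact div_mul_cancel₀ _ r2.ne'

theorem sq_deriv (i j : Fin 2) (x : P2) (hx : |x j| ≤ 1) :
    HasFDerivAt (fun z : P2 => z i * √(1 - z j ^ 2 / 2))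
      (√(1 - x j ^ 2 / 2) • (EuclideanSpace.proj i : P2 →L[ℝ] ℝ) -
        (x i * x j / (2 * √(1 - x j ^ 2 / 2))) • (EuclideanSpace.proj j : P2 →L[ℝ] ℝ)) x := by
  have hp : ∀ i : Fin 2, HasFDerivAt (fun z : P2 => z i) (EuclideanSpace.proj i : P2 →L[ℝ] ℝ) x :=
    fun i => (EuclideanSpace.proj i : P2 →L[ℝ] ℝ).hasFDerivAt
  have h1 : HasFDerivAt (fun z : P2 => 1 - z j * z j / 2)
      (-((1 / 2 : ℝ) • (x j • (EuclideanSpace.proj j : P2 →L[ℝ] ℝ) +
        x j • (EuclideanSpace.proj j : P2 →L[ℝ] ℝ)))) x := by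
    have h2 := (((hp j).mul (hp j)).const_mul (1 / 2 : ℝ)).const_sub 1
    refine h2.congr_of_eventuallyEq (Filter.Eventually.of_forall fun z => ?_)
    simp only [Pi.mul_apply]
    ring
  have hpos : (1 - x j * x j / 2) ≠ 0 := by
    have := sq_half hx
    rw [sq] at this
    exact this.ne'
  have h3 := (hp i).mul (h1.sqrt hpos)
  have h4 : (fun z : P2 => z i * √(1 - z j ^ 2 / 2)) =
      fun z : P2 => z i * √(1 - z j * z j / 2) := by
    funext z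
    rw [sq]
  rw [h4]
  refine h3.congr_fderiv ?_
  ext h
  simp only [ContinuousLinearMap.add_apply, ContinuousLinearMap.smul_apply,
    ContinuousLinearMap.neg_apply, ContinuousLinearMap.sub_apply, smul_eq_mul, sq]
  have hs : √(1 - x j * x j / 2) ≠ 0 := by
    have := sq_half hx
    rw [sq] at this
    exact (Real.sqrt_pos.mpr this).ne'
  field_simp
  ring

theorem square_disk : ∃ F : P2 → P2, ContinuousOn F {x : P2 | |x 0| ≤ 1 ∧ |x 1| ≤ 1} ∧
    Set.BijOn F {x : P2 | |x 0| ≤ 1 ∧ |x 1| ≤ 1} (Metric.closedBall 0 1) ∧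
    Set.MapsTo F (interior {x : P2 | |x 0| ≤ 1 ∧ |x 1| ≤ 1}) (Metric.ball 0 1) ∧
    ∀ x ∈ interior {x : P2 | |x 0| ≤ 1 ∧ |x 1| ≤ 1},
      ∃ A : P2 ≃L[ℝ] P2, HasFDerivAt F (A : P2 →L[ℝ] P2) x := by
  refine ⟨sqF, sqF_cont.continuousOn, ⟨?_, sqF_inj, sqF_surj⟩, ?_, ?_⟩
  · intro x hx
    have h := sqF_norm x hx.1 hx.2
    have a0 := (sq_le_one_iff_abs_le_one _).mpr hx.1
    have a1 := (sq_le_one_iff_abs_le_one _).mpr hx.2
    have h1 : ‖sqF x‖ ^ 2 ≤ 1 := by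
      rw [h]
      nlinarith [mul_nonneg (sub_nonneg.mpr a0) (sub_nonneg.mpr a1)]
    rw [mem_closedBall_zero_iff]
    nlinarith [norm_nonneg (sqF x)]
  · intro x hx
    obtain ⟨i0, i1⟩ := sq_interior hx
    have h := sqF_norm x i0.le i1.le
    have a0 := (sq_lt_one_iff_abs_lt_one _).mpr i0
    have a1 := (sq_lt_one_iff_abs_lt_one _).mpr i1
    have h1 : ‖sqF x‖ ^ 2 < 1 := by
      rw [h]
      nlinarith [mul_pos (sub_pos.mpr a0) (sub_pos.mpr a1)]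
    rw [mem_ball_zero_iff]
    nlinarith [norm_nonneg (sqF x)]
  · intro x hx
    obtain ⟨i0, i1⟩ := sq_interior hx
    have a0 := (sq_lt_one_iff_abs_lt_one _).mpr i0
    have a1 := (sq_lt_one_iff_abs_lt_one _).mpr i1
    set p0 : P2 →L[ℝ] ℝ := EuclideanSpace.proj 0
    set p1 : P2 →L[ℝ] ℝ := EuclideanSpace.proj 1
    set s : ℝ := √(1 - x 1 ^ 2 / 2) with hs
    set r : ℝ := √(1 - x 0 ^ 2 / 2) with hr
    have hs0 : 0 < s := Real.sqrt_pos.mpr (sq_half i1.le)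
    have hr0 : 0 < r := Real.sqrt_pos.mpr (sq_half i0.le)
    have hs2 : s ^ 2 = 1 - x 1 ^ 2 / 2 := Real.sq_sqrt (sq_half i1.le).le
    have hr2 : r ^ 2 = 1 - x 0 ^ 2 / 2 := Real.sq_sqrt (sq_half i0.le).le
    set L0 : P2 →L[ℝ] ℝ := s • p0 - (x 0 * x 1 / (2 * s)) • p1 with hL0
    set L1 : P2 →L[ℝ] ℝ := r • p1 - (x 1 * x 0 / (2 * r)) • p0 with hL1
    set f' : P2 →L[ℝ] P2 :=
      ((EuclideanSpace.equiv (Fin 2) ℝ).symm : (Fin 2 → ℝ) →L[ℝ] P2).comp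
        (ContinuousLinearMap.pi ![L0, L1]) with hf'
    have f0 : ∀ h : P2, f' h 0 = s * h 0 - (x 0 * x 1 / (2 * s)) * h 1 := by
      intro h
      simp [hf', hL0, p0, p1]
    have f1 : ∀ h : P2, f' h 1 = r * h 1 - (x 1 * x 0 / (2 * r)) * h 0 := by
      intro h
      simp [hf', hL1, p0, p1]
    have hinj : Function.Injective (f' : P2 →ₗ[ℝ] P2) := by
      rw [← LinearMap.ker_eq_bot, LinearMap.ker_eq_bot']
      intro h hh
      have e0 : s * h 0 - (x 0 * x 1 / (2 * s)) * h 1 = 0 := by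
        rw [← f0]
        have : f' h = 0 := hh
        rw [this]
        rfl
      have e1 : r * h 1 - (x 1 * x 0 / (2 * r)) * h 0 = 0 := by
        rw [← f1]
        have : f' h = 0 := hh
        rw [this]
        rfl
      have g0 : 2 * s ^ 2 * h 0 = x 0 * x 1 * h 1 := by
        field_simp at e0
        linarith
      have g1 : 2 * r ^ 2 * h 1 = x 1 * x 0 * h 0 := by
        field_simp at e1
        linarith
      rw [hs2] at g0
      rw [hr2] at g1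
      have hdet : 0 < 4 - 2 * (x 0 ^ 2 + x 1 ^ 2) := by linarith
      have z0 : (4 - 2 * (x 0 ^ 2 + x 1 ^ 2)) * h 0 = 0 := by
        linear_combination (2 - x 0 ^ 2) * g0 + (x 0 * x 1) * g1
      have z1 : (4 - 2 * (x 0 ^ 2 + x 1 ^ 2)) * h 1 = 0 := by
        linear_combination (2 - x 1 ^ 2) * g1 + (x 0 * x 1) * g0
      apply sq_ext
      · exact (mul_eq_zero.mp z0).resolve_left hdet.ne'
      · exact (mul_eq_zero.mp z1).resolve_left hdet.ne'
    refine ⟨(LinearEquiv.ofInjectiveEndo (f' : P2 →ₗ[ℝ] P2) hinj).toContinuousLinearEquiv, ?_⟩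
    have hA : (((LinearEquiv.ofInjectiveEndo (f' : P2 →ₗ[ℝ] P2) hinj).toContinuousLinearEquiv :
        P2 ≃L[ℝ] P2) : P2 →L[ℝ] P2) = f' := by
      ext h : 1
      rfl
    rw [hA, ← hasFDerivWithinAt_univ, hasFDerivWithinAt_euclidean]
    intro i
    rw [hasFDerivWithinAt_univ]
    fin_cases i
    · have h := sq_deriv 0 1 x i1.le
      have e1 : (fun z : P2 => sqF z 0) = fun z : P2 => z 0 * √(1 - z 1 ^ 2 / 2) := by
        funext z
        exact sqF_zero z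
      show HasFDerivAt (fun z : P2 => sqF z 0) _ x
      rw [e1]
      refine h.congr_fderiv ?_
      ext h
      show _ = f' h 0
      rw [f0]
      simp [hs]
    · have h := sq_deriv 1 0 x i0.le
      have e1 : (fun z : P2 => sqF z 1) = fun z : P2 => z 1 * √(1 - z 0 ^ 2 / 2) := by
        funext z
        exact sqF_one z
      show HasFDerivAt (fun z : P2 => sqF z 1) _ x
      rw [e1]
      refine h.congr_fderiv ?_
      ext h
      show _ = f' h 1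
      rw [f1]
      simp [hr]

end Pool.Agent.Carpet
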