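import Pool.Agent.Lib_helper45.Carpet.Fin

/-! # Block THETA -/

set_option autoImplicit false

namespace Pool.Agent.Carpet

variable {St Γ : Type*} [Group Γ]
variable {𝕜₁ E₁ : Type*} [RCLike 𝕜₁] [NormedAddCommGroup E₁] [InnerProductSpace 𝕜₁ E₁]
variable {𝕜₂ E₂ : Type*} [RCLike 𝕜₂] [NormedAddCommGroup E₂] [InnerProductSpace 𝕜₂ E₂]

section ThetaAux

variable {𝕜 E : Type*} [RCLike 𝕜] [NormedAddCommGroup E] [InnerProductSpace 𝕜 E]

/-- splitting of a path at `k` -/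
theorem theta_split {T : St → Γ → St → Prop} {R : Rep Γ 𝕜 E} {κ : ℝ}
    (hκ : ∀ s l₁ s' l₂ s'', Path T s l₁ s' → Path T s' l₂ s'' →
      κ * (R.N l₁.prod * R.N l₂.prod) ≤ R.N (l₁ ++ l₂).prod)
    {s s' : St} {l : List Γ} (p : Path T s l s') (k : ℕ) :
    κ * (R.N (l.take k).prod * R.N (l.drop k).prod) ≤ R.N l.prod := by
  obtain ⟨s₁, p₁, p₂⟩ := p.take_drop k
  have := hκ _ _ _ _ _ p₁ p₂
  rwa [List.take_append_drop] at this

theorem theta_take_le {R : Rep Γ 𝕜 E} {g h : Γ} {l : List Γ} (k : ℕ) :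
    R.N g ≤ 2 * R.N (g * (l.take k).prod) * R.N (l.take k).prod := by
  have h1 := R.N_mul_le (g * (l.take k).prod) ((l.take k).prod)⁻¹
  rw [mul_inv_cancel_right, R.N_inv] at h1
  exact h1

theorem theta_drop_le {R : Rep Γ 𝕜 E} {g h : Γ} {l : List Γ} (hl : l.prod = g⁻¹ * h) (k : ℕ) :
    R.N h ≤ 2 * R.N (g * (l.take k).prod) * R.N (l.drop k).prod := by
  have h1 := R.N_mul_le (g * (l.take k).prod) (l.drop k).prod
  rw [mul_assoc, List.prod_take_mul_prod_drop, hl, mul_inv_cancel_left] at h1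
  exact h1

/-- lower bound for `Θ` -/
theorem theta_lower {T : St → Γ → St → Prop} {R : Rep Γ 𝕜 E} {κ : ℝ} (hκ0 : 0 < κ)
    (hκ : ∀ s l₁ s' l₂ s'', Path T s l₁ s' → Path T s' l₂ s'' →
      κ * (R.N l₁.prod * R.N l₂.prod) ≤ R.N (l₁ ++ l₂).prod)
    {g h : Γ} {s s' : St} {l : List Γ} (p : Path T s l s') (hl : l.prod = g⁻¹ * h) (k : ℕ) :
    κ * (R.N g * R.N h) ≤ 4 * R.N (g * (l.take k).prod) ^ 2 * R.N (g⁻¹ * h) := by
  have h1 := theta_take_le (R := R) (g := g) (h := h) (l := l) k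
  have h2 := theta_drop_le (R := R) hl k
  have h3 := theta_split hκ p k
  rw [hl] at h3
  have p1 := R.one_le_N g
  have p2 := R.one_le_N h
  have p3 := R.one_le_N (g * (l.take k).prod)
  have p4 := R.one_le_N (l.take k).prod
  have p5 := R.one_le_N (l.drop k).prod
  set v := R.N (g * (l.take k).prod)
  set a := R.N (l.take k).prod
  set b := R.N (l.drop k).prod
  have h4 : R.N g * R.N h ≤ (2 * v * a) * (2 * v * b) :=
    mul_le_mul h1 h2 (by linarith) (by positivity)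
  calc κ * (R.N g * R.N h) ≤ κ * ((2 * v * a) * (2 * v * b)) :=
        mul_le_mul_of_nonneg_left h4 hκ0.le
    _ = 4 * v ^ 2 * (κ * (a * b)) := by ring
    _ ≤ 4 * v ^ 2 * R.N (g⁻¹ * h) := mul_le_mul_of_nonneg_left h3 (by positivity)

/-- the algebra of the upper bound -/
theorem theta_alg {D v f e F κ m : ℝ} (hD : 0 < D) (hκ : 0 < κ) (hm : 1 ≤ m) (hv : 0 < v)
    (hf : 0 < f) (he : 0 < e) (hfe : f ≤ 2 * e) (hef : e ≤ 2 * m ^ 2 * f)
    (hpt : D * v ≤ 2 * (f + e)) (hprod : κ * (f * e) ≤ D * F) :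
    D * v ^ 2 ≤ 24 * m ^ 2 / κ * F := by
  have h1 : (f + e) ^ 2 ≤ 6 * m ^ 2 * (f * e) := by
    have hm2 : 1 ≤ m ^ 2 := by nlinarith
    have hfe0 : 0 < f * e := by positivity
    have a1 : f ^ 2 ≤ 2 * (f * e) := by nlinarith
    have a2 : e ^ 2 ≤ 2 * m ^ 2 * (f * e) := by nlinarith
    nlinarith
  have h2 : (D * v) ^ 2 ≤ (2 * (f + e)) ^ 2 := by
    apply pow_le_pow_left₀ (by positivity) hpt
  have h3 : (D * v) ^ 2 ≤ 24 * m ^ 2 * (f * e) := by nlinarith
  have h4 : κ * (D * v) ^ 2 ≤ 24 * m ^ 2 * (D * F) := by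
    calc κ * (D * v) ^ 2 ≤ κ * (24 * m ^ 2 * (f * e)) := mul_le_mul_of_nonneg_left h3 hκ.le
      _ = 24 * m ^ 2 * (κ * (f * e)) := by ring
      _ ≤ 24 * m ^ 2 * (D * F) := mul_le_mul_of_nonneg_left hprod (by positivity)
  have h5 : D * (κ * (D * v ^ 2)) ≤ D * (24 * m ^ 2 * F) := by
    calc D * (κ * (D * v ^ 2)) = κ * (D * v) ^ 2 := by ring
      _ ≤ 24 * m ^ 2 * (D * F) := h4
      _ = D * (24 * m ^ 2 * F) := by ring
  have h6 := le_of_mul_le_mul_left h5 hD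
  rw [div_mul_eq_mul_div, le_div_iff₀ hκ]
  linarith

/-- upper bound for `Θ` at a suitable point of the path -/
theorem theta_upper {T : St → Γ → St → Prop} {R : Rep Γ 𝕜 E} {κ : ℝ} (hκ0 : 0 < κ)
    (hκ : ∀ s l₁ s' l₂ s'', Path T s l₁ s' → Path T s' l₂ s'' →
      κ * (R.N l₁.prod * R.N l₂.prod) ≤ R.N (l₁ ++ l₂).prod)
    {m : ℝ} (hm1 : 1 ≤ m) (hm : ∀ s g s', T s g s' → R.N g ≤ m)
    {g h : Γ} {s s' : St} {l : List Γ} (p : Path T s l s') (hl : l.prod = g⁻¹ * h) :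
    ∃ k : ℕ, R.N (g⁻¹ * h) * R.N (g * (l.take k).prod) ^ 2 ≤
      24 * m ^ 2 / κ * (R.N g * R.N h) := by
  classical
  have hN : ∀ x : Γ, 0 < R.N x := fun x => lt_of_lt_of_le one_pos (R.one_le_N x)
  set f : ℕ → ℝ := fun k => R.N (l.take k).prod * R.N h with hf
  set e : ℕ → ℝ := fun k => R.N (l.drop k).prod * R.N g with he
  have hf0 : ∀ k, 0 < f k := fun k => mul_pos (hN _) (hN _)
  have he0 : ∀ k, 0 < e k := fun k => mul_pos (hN _) (hN _)
  -- the start
  have hstart : f 0 ≤ 2 * e 0 := by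
    simp only [hf, he, List.take_zero, List.drop_zero, List.prod_nil, R.N_one, one_mul, hl]
    have := R.N_mul_le g (g⁻¹ * h)
    rw [mul_inv_cancel_left] at this
    linarith
  -- the end
  have hend : e l.length ≤ 2 * f l.length := by
    simp only [hf, he, List.take_length, List.drop_length, List.prod_nil, R.N_one, one_mul, hl]
    have := R.N_mul_le h (g⁻¹ * h)⁻¹
    rw [R.N_inv, mul_inv_rev, inv_inv, mul_inv_cancel_left] at this
    linarith
  -- a good index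
  have hgood : ∃ k, f k ≤ 2 * e k ∧ e k ≤ 2 * m ^ 2 * f k := by
    by_cases hall : ∀ k, k ≤ l.length → f k ≤ 2 * e k
    · refine ⟨l.length, hall _ le_rfl, hend.trans ?_⟩
      have := hf0 l.length
      have hm2 : 1 ≤ m ^ 2 := by nlinarith
      nlinarith
    · push Not at hall
      have hex : ∃ k, k ≤ l.length ∧ 2 * e k < f k := hall
      set K := Nat.find hex with hK
      obtain ⟨hK1, hK2⟩ := Nat.find_spec hex
      have hK0 : K ≠ 0 := by
        intro h0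
        rw [← hK, h0] at hK2
        linarith
      obtain ⟨j, hj⟩ := Nat.exists_eq_succ_of_ne_zero hK0
      have hjK : j < K := by omega
      have hjl : j < l.length := by omega
      have h1 : f j ≤ 2 * e j := by
        by_contra hcon
        push Not at hcon
        exact Nat.find_min hex (show j < Nat.find hex from hjK) ⟨by omega, hcon⟩
      have h2 : 2 * e (j + 1) < f (j + 1) := by
        rw [← hK, hj] at hK2; exact hK2
      obtain ⟨t, t', htr⟩ := p.mem (List.getElem_mem hjl)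
      have hlet := hm _ _ _ htr
      have h3 : f (j + 1) ≤ 2 * m * f j := by
        simp only [hf]
        rw [List.prod_take_succ l j hjl]
        have h4 := R.N_mul_le (l.take j).prod l[j]
        have h5 : R.N ((l.take j).prod * l[j]) ≤ 2 * R.N (l.take j).prod * m :=
          h4.trans (mul_le_mul_of_nonneg_left hlet (by have := hN (l.take j).prod; positivity))
        calc R.N ((l.take j).prod * l[j]) * R.N h ≤ (2 * R.N (l.take j).prod * m) * R.N h :=
              mul_le_mul_of_nonneg_right h5 (hN h).le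
          _ = 2 * m * (R.N (l.take j).prod * R.N h) := by ring
      have h6 : e j ≤ 2 * m * e (j + 1) := by
        simp only [he]
        rw [List.drop_eq_getElem_cons hjl, List.prod_cons]
        have h4 := R.N_mul_le l[j] (l.drop (j + 1)).prod
        have h5 : R.N (l[j] * (l.drop (j + 1)).prod) ≤ 2 * m * R.N (l.drop (j + 1)).prod := by
          refine h4.trans (mul_le_mul_of_nonneg_right ?_ (hN _).le)
          linarith
        calc R.N (l[j] * (l.drop (j + 1)).prod) * R.N g ≤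
            (2 * m * R.N (l.drop (j + 1)).prod) * R.N g :=
              mul_le_mul_of_nonneg_right h5 (hN g).le
          _ = 2 * m * (R.N (l.drop (j + 1)).prod * R.N g) := by ring
      refine ⟨j, h1, ?_⟩
      have hf1 := hf0 j
      calc e j ≤ 2 * m * e (j + 1) := h6
        _ ≤ 2 * m * (f (j + 1) / 2) := by
            apply mul_le_mul_of_nonneg_left (by linarith) (by linarith)
        _ = m * f (j + 1) := by ring
        _ ≤ m * (2 * m * f j) := mul_le_mul_of_nonneg_left h3 (by linarith)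
        _ = 2 * m ^ 2 * f j := by ring
  obtain ⟨k, hk1, hk2⟩ := hgood
  refine ⟨k, ?_⟩
  -- Ptolemy
  have hq : ∀ x : Γ, q (R.ρ x (o : E × 𝕜)) ≤ 0 := by
    intro x
    rw [R.q_act, q_o]
    norm_num
  have hpt := ptolemy (hq g) (hq (g * (l.take k).prod)) (hq h)
  rw [← R.N_eq, ← R.N_eq, ← R.N_eq, inv_mul_cancel_left] at hpt
  have hvh : (g * (l.take k).prod)⁻¹ * h = (l.drop k).prod := by
    have h1 := List.prod_take_mul_prod_drop l k
    rw [hl] at h1
    have h2 : h = g * ((l.take k).prod * (l.drop k).prod) := by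
      rw [h1, mul_inv_cancel_left]
    rw [h2]
    group
  rw [hvh] at hpt
  have hpt' : R.N (g⁻¹ * h) * R.N (g * (l.take k).prod) ≤ 2 * (f k + e k) := by
    refine le_trans (le_of_eq rfl) (hpt.trans (le_of_eq ?_))
    simp only [hf, he, Rep.N]
    ring
  have hsp := theta_split hκ p k
  rw [hl] at hsp
  refine theta_alg (f := f k) (e := e k) (hN _) hκ0 hm1 (hN _) (hf0 k) (he0 k) hk1 hk2 hpt' ?_
  calc κ * (f k * e k) = (κ * (R.N (l.take k).prod * R.N (l.drop k).prod)) *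
        (R.N g * R.N h) := by simp only [hf, he]; ring
    _ ≤ R.N (g⁻¹ * h) * (R.N g * R.N h) :=
        mul_le_mul_of_nonneg_right hsp (mul_pos (hN _) (hN _)).le

end ThetaAux

theorem theta_compare {T : St → Γ → St → Prop} (hT : AutGood T) {R₁ : Rep Γ 𝕜₁ E₁}
    {R₂ : Rep Γ 𝕜₂ E₂} (t₁ : Transv R₁ T) (t₂ : Transv R₂ T)
    (f₂ : ∀ r : ℝ, {g : Γ | R₂.N g ≤ r}.Finite) :
    ∀ ε > 0, ∃ δ > 0, ∀ g h : Γ, R₁.N (g⁻¹ * h) < δ * (R₁.N g * R₁.N h) →
      R₂.N (g⁻¹ * h) < ε * (R₂.N g * R₂.N h) := by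
  intro ε hε
  obtain ⟨κ₁, hκ₁, hk₁⟩ := t₁
  obtain ⟨κ₂, hκ₂, hk₂⟩ := t₂
  obtain ⟨m, hm1, hm⟩ := bounded_letters hT R₂
  set C := 24 * m ^ 2 / κ₂ with hC
  have hC0 : 0 < C := by positivity
  set r := √(C / ε) + 1 with hr
  have hr0 : 0 < r := by positivity
  have hrC : C < ε * r ^ 2 := by
    have h1 : C / ε < r ^ 2 := by
      have h2 : √(C / ε) ^ 2 = C / ε := Real.sq_sqrt (by positivity)
      have h3 : 0 ≤ √(C / ε) := Real.sqrt_nonneg _
      rw [hr]
      nlinarith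
    rw [div_lt_iff₀ hε] at h1
    linarith
  obtain ⟨M, hM⟩ : ∃ M : ℝ, ∀ g : Γ, R₂.N g ≤ r → R₁.N g ≤ M := by
    have hfin := (f₂ r).image R₁.N
    obtain ⟨M, hM⟩ := hfin.bddAbove
    exact ⟨M, fun g hg => hM ⟨g, hg, rfl⟩⟩
  set M' := max M 1 with hM'
  have hM'0 : 0 < M' := lt_of_lt_of_le one_pos (le_max_right _ _)
  refine ⟨κ₁ / (4 * M' ^ 2), by positivity, fun g h hgh => ?_⟩
  have hN1 : ∀ x : Γ, 0 < R₁.N x := fun x => lt_of_lt_of_le one_pos (R₁.one_le_N x)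
  have hN2 : ∀ x : Γ, 0 < R₂.N x := fun x => lt_of_lt_of_le one_pos (R₂.one_le_N x)
  obtain ⟨s, l, s', p, hl⟩ := hT.2 (g⁻¹ * h)
  obtain ⟨k, hk⟩ := theta_upper hκ₂ hk₂ hm1 hm p hl
  have hlow := theta_lower hκ₁ hk₁ p hl k
  have hbig : M' < R₁.N (g * (l.take k).prod) := by
    by_contra hcon
    push Not at hcon
    have h1 : R₁.N (g * (l.take k).prod) ^ 2 ≤ M' ^ 2 :=
      pow_le_pow_left₀ (hN1 _).le hcon 2
    have h2 : κ₁ * (R₁.N g * R₁.N h) ≤ 4 * M' ^ 2 * R₁.N (g⁻¹ * h) := by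
      refine hlow.trans (mul_le_mul_of_nonneg_right ?_ (hN1 _).le)
      linarith
    have h3 : 4 * M' ^ 2 * R₁.N (g⁻¹ * h) < 4 * M' ^ 2 * (κ₁ / (4 * M' ^ 2) *
        (R₁.N g * R₁.N h)) := mul_lt_mul_of_pos_left hgh (by positivity)
    have h4 : 4 * M' ^ 2 * (κ₁ / (4 * M' ^ 2) * (R₁.N g * R₁.N h)) =
        κ₁ * (R₁.N g * R₁.N h) := by
      field_simp
    linarith
  have hr2 : r < R₂.N (g * (l.take k).prod) := by
    by_contra hcon
    push Not at hcon
    have := hM _ hcon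
    have h5 := le_max_left M 1
    linarith
  have hF : 0 < R₂.N g * R₂.N h := mul_pos (hN2 _) (hN2 _)
  have h6 : R₂.N (g⁻¹ * h) * r ^ 2 ≤ C * (R₂.N g * R₂.N h) := by
    refine le_trans (mul_le_mul_of_nonneg_left ?_ (hN2 _).le) hk
    exact pow_le_pow_left₀ hr0.le hr2.le 2
  have h7 : R₂.N (g⁻¹ * h) * r ^ 2 < (ε * (R₂.N g * R₂.N h)) * r ^ 2 := by
    calc R₂.N (g⁻¹ * h) * r ^ 2 ≤ C * (R₂.N g * R₂.N h) := h6
      _ < (ε * r ^ 2) * (R₂.N g * R₂.N h) := mul_lt_mul_of_pos_right hrC hF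
      _ = (ε * (R₂.N g * R₂.N h)) * r ^ 2 := by ring
  exact lt_of_mul_lt_mul_right h7 (by positivity)

end Pool.Agent.Carpet
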