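import Pool.Agent.Lib_helper45.Carpet.Geo

/-! # Block TRANS (helper20) -/

set_option autoImplicit false

namespace Pool.Agent.Carpet

open scoped InnerProductSpace

variable {St Γ 𝕜 E : Type*} [Group Γ] [RCLike 𝕜] [NormedAddCommGroup E] [InnerProductSpace 𝕜 E]

theorem trans_q (R : Rep Γ 𝕜 E) (g : Γ) : q (R.ρ g o) = -1 := by
  rw [Rep.q_act, q_o]

omit [InnerProductSpace 𝕜 E] in
theorem trans_sq_le_nsq (v : E × 𝕜) : ‖v.2‖ ^ 2 ≤ nsq v := by
  unfold nsq
  nlinarith [sq_nonneg ‖v.1‖]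

theorem transv_of_cert {T : St → Γ → St → Prop} (hT : AutGood T) {R : Rep Γ 𝕜 E}
    (h : Certified R T) : Transv R T := by
  obtain ⟨Q, C, ε, hC, hε, hhom, hbd, hlip, hlmi⟩ := h
  obtain ⟨hfin, -⟩ := hT
  -- bound for the letters
  obtain ⟨m, hm1, hm⟩ : ∃ m : ℝ, 1 ≤ m ∧ ∀ g, (∃ s s', T s g s') → R.N g ≤ m := by
    obtain ⟨m, hm⟩ := (hfin.image R.N).bddAbove
    refine ⟨max 1 m, le_max_left _ _, fun g hg => ?_⟩
    exact (hm ⟨g, hg, rfl⟩).trans (le_max_right _ _)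
  -- the past
  have past : ∀ s l s', Path T s l s' → ∀ u : E × 𝕜, q u ≤ 0 →
      Q s u ≤ Q s' (R.ρ (l.prod)⁻¹ u) ∧
        (l ≠ [] → Q s u + ε * nsq (R.ρ (l.prod)⁻¹ u) ≤ Q s' (R.ρ (l.prod)⁻¹ u)) := by
    intro s l s' hp
    induction hp with
    | nil s =>
      intro u hu
      refine ⟨?_, fun h => absurd rfl h⟩
      simp
    | @cons s s' s'' g l hst hp ih =>
      intro u hu
      have h1 : R.ρ ((g :: l).prod)⁻¹ u = R.ρ (l.prod)⁻¹ (R.ρ g⁻¹ u) := by
        rw [List.prod_cons, mul_inv_rev, Rep.ρ_mul]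
      rw [h1]
      set u' := R.ρ g⁻¹ u with hu'
      have hq' : q u' ≤ 0 := by rw [hu', Rep.q_act]; exact hu
      have h2 := hlmi s g s' hst u' hq'
      have h3 : R.ρ g u' = u := by
        have := R.ρ_inv_act g⁻¹ u
        rwa [inv_inv] at this
      rw [h3] at h2
      have hn : 0 ≤ nsq u' := by unfold nsq; positivity
      obtain ⟨h4, h5⟩ := ih u' hq'
      have h6 : Q s u ≤ Q s' u' := by nlinarith
      refine ⟨h6.trans h4, fun _ => ?_⟩
      by_cases hl : l = []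
      · subst hl
        cases hp
        simp only [List.prod_nil, inv_one, map_one]
        have : (1 : Module.End 𝕜 (E × 𝕜)) u' = u' := rfl
        rw [this]
        linarith
      · have := h5 hl
        linarith
  -- the future
  have future : ∀ s l s', Path T s l s' →
      -C ≤ -Q s (R.ρ l.prod o) ∧
        (l ≠ [] → -C + ε / (8 * m ^ 2) * nsq (R.ρ l.prod (o : E × 𝕜)) ≤
          -Q s (R.ρ l.prod o)) := by
    intro s l s' hp
    induction hp with
    | nil s =>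
      refine ⟨?_, fun h => absurd rfl h⟩
      simp only [List.prod_nil]
      have h1 := hbd s (R.ρ (1 : Γ) o)
      have h2 : nsq (R.ρ (1 : Γ) (o : E × 𝕜)) = 1 := by
        rw [map_one]
        simp [nsq, o]
      rw [h2, mul_one] at h1
      have := (abs_le.1 h1).2
      linarith
    | @cons s s' s'' g l hst hp ih =>
      rw [List.prod_cons]
      set y := R.ρ (g * l.prod) (o : E × 𝕜) with hy
      set v := R.ρ l.prod (o : E × 𝕜) with hv
      have hyv : y = R.ρ g v := by rw [hy, Rep.ρ_mul]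
      have hq : q v = -1 := trans_q R _
      have hqy : q y = -1 := trans_q R _
      have h1 := hlmi s g s' hst v (by rw [hq]; norm_num)
      rw [← hyv] at h1
      have hn : 0 ≤ nsq v := by unfold nsq; positivity
      have h3 : -C + ε * nsq v ≤ -Q s y := by linarith [ih.1]
      have h0 : 0 ≤ ε * nsq v := by positivity
      refine ⟨by linarith, fun _ => ?_⟩
      have h4 : nsq y ≤ 8 * m ^ 2 * nsq v := by
        have h5 : nsq y ≤ 2 * ‖y.2‖ ^ 2 := nsq_le (by rw [hqy]; norm_num)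
        have h6 : ‖y.2‖ ≤ 2 * m * ‖v.2‖ := by
          have h7 := R.N_mul_le g l.prod
          have h8 : R.N g ≤ m := hm g ⟨s, s', hst⟩
          have h9 : 0 ≤ R.N l.prod := norm_nonneg _
          have e1 : ‖y.2‖ = R.N (g * l.prod) := rfl
          have e2 : ‖v.2‖ = R.N l.prod := rfl
          rw [e1, e2]
          calc R.N (g * l.prod) ≤ 2 * R.N g * R.N l.prod := h7
            _ ≤ 2 * m * R.N l.prod := by gcongr
        have h10 := trans_sq_le_nsq v
        calc nsq y ≤ 2 * ‖y.2‖ ^ 2 := h5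
          _ ≤ 2 * (2 * m * ‖v.2‖) ^ 2 := by gcongr
          _ = 8 * m ^ 2 * ‖v.2‖ ^ 2 := by ring
          _ ≤ 8 * m ^ 2 * nsq v := by gcongr
      have h11 : ε / (8 * m ^ 2) * nsq y ≤ ε * nsq v := by
        calc ε / (8 * m ^ 2) * nsq y ≤ ε / (8 * m ^ 2) * (8 * m ^ 2 * nsq v) := by gcongr
          _ = ε * nsq v := by field_simp
      linarith
  set ε' : ℝ := ε / (8 * m ^ 2) with hε'
  have hε'0 : 0 < ε' := by positivity
  have hε'1 : ε' ≤ ε := by
    rw [hε']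
    apply div_le_self hε.le
    nlinarith
  set r : ℝ := √(1 + 2 * C / ε') with hr
  have hr2 : r ^ 2 = 1 + 2 * C / ε' := Real.sq_sqrt (by positivity)
  have hr1 : 1 ≤ r := by
    rw [hr]
    apply Real.one_le_sqrt.2
    have : 0 ≤ 2 * C / ε' := by positivity
    linarith
  set c' : ℝ := ε / (8 * C) with hc'
  have hc'0 : 0 < c' := by positivity
  refine ⟨min (c' ^ 2 / 2) (1 / (2 * r ^ 2)), by positivity, ?_⟩
  intro s l₁ s' l₂ s'' hp₁ hp₂
  set κ : ℝ := min (c' ^ 2 / 2) (1 / (2 * r ^ 2)) with hκ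
  have hκ0 : 0 ≤ κ := by positivity
  rw [List.prod_append]
  set a := l₁.prod with ha
  set b := l₂.prod with hb
  have hNa := R.one_le_N a
  have hNb := R.one_le_N b
  have hNab := R.one_le_N (a * b)
  by_cases h1 : R.N a ≤ r
  · have h2 : R.N b ≤ 2 * R.N a * R.N (a * b) := by
      have := R.N_mul_le a⁻¹ (a * b)
      rwa [inv_mul_cancel_left, R.N_inv] at this
    calc κ * (R.N a * R.N b) ≤ 1 / (2 * r ^ 2) * (r * (2 * r * R.N (a * b))) := by
          gcongr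
          · exact min_le_right _ _
          · exact h2.trans (by gcongr)
      _ = R.N (a * b) := by field_simp
  by_cases h2 : R.N b ≤ r
  · have h3 : R.N a ≤ 2 * R.N (a * b) * R.N b := by
      have := R.N_mul_le (a * b) b⁻¹
      rwa [mul_inv_cancel_right, R.N_inv] at this
    calc κ * (R.N a * R.N b) ≤ 1 / (2 * r ^ 2) * ((2 * R.N (a * b) * r) * r) := by
          gcongr
          · exact min_le_right _ _
          · exact h3.trans (by gcongr)
      _ = R.N (a * b) := by field_simp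
  push Not at h1 h2
  set x := R.ρ a⁻¹ (o : E × 𝕜) with hx
  set y := R.ρ b (o : E × 𝕜) with hy
  have hx2 : ‖x.2‖ = R.N a := by
    have : ‖x.2‖ = R.N a⁻¹ := rfl
    rw [this, R.N_inv]
  have hy2 : ‖y.2‖ = R.N b := rfl
  have hqx : q x = -1 := trans_q R _
  have hqy : q y = -1 := trans_q R _
  have hl₁ : l₁ ≠ [] := by
    rintro rfl
    rw [ha, List.prod_nil, R.N_one] at h1
    linarith
  have hl₂ : l₂ ≠ [] := by
    rintro rfl
    rw [hb, List.prod_nil, R.N_one] at h2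
    linarith
  have hox : -C ≤ Q s o := by
    have h3 := hbd s (o : E × 𝕜)
    have h4 : nsq (o : E × 𝕜) = 1 := by simp [nsq, o]
    rw [h4, mul_one] at h3
    exact (abs_le.1 h3).1
  have hP := (past s l₁ s' hp₁ o (by rw [q_o]; norm_num)).2 hl₁
  have hF := (future s' l₂ s'' hp₂).2 hl₂
  rw [← ha, ← hx] at hP
  rw [← hb, ← hy] at hF
  have hnx : r ^ 2 ≤ nsq x := by
    refine le_trans ?_ (trans_sq_le_nsq x)
    rw [hx2]
    gcongr
  have hny : r ^ 2 ≤ nsq y := by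
    refine le_trans ?_ (trans_sq_le_nsq y)
    rw [hy2]
    gcongr
  have hCe : 2 * C ≤ ε' * r ^ 2 := by
    rw [hr2]
    have : ε' * (1 + 2 * C / ε') = ε' + 2 * C := by field_simp
    rw [this]
    linarith
  have hQx : ε / 2 * nsq x ≤ Q s' x := by
    have h3 : ε' * r ^ 2 ≤ ε * nsq x := by gcongr
    linarith
  have hQy : Q s' y ≤ 0 := by
    have h3 : ε' * r ^ 2 ≤ ε' * nsq y := by gcongr
    linarith
  have hx0 : x.2 ≠ 0 := by
    intro h
    rw [h, norm_zero] at hx2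
    linarith
  have hy0 : y.2 ≠ 0 := by
    intro h
    rw [h, norm_zero] at hy2
    linarith
  set x' : E × 𝕜 := (x.2)⁻¹ • x with hx'
  set y' : E × 𝕜 := (y.2)⁻¹ • y with hy'
  have hx0' : 0 < ‖x.2‖ := norm_pos_iff.2 hx0
  have hy0' : 0 < ‖y.2‖ := norm_pos_iff.2 hy0
  have hQx' : ε / 2 ≤ Q s' x' := by
    rw [hx', hhom, norm_inv]
    have h3 : ε / 2 * ‖x.2‖ ^ 2 ≤ Q s' x :=
      le_trans (by gcongr; exact trans_sq_le_nsq x) hQx
    calc ε / 2 = (‖x.2‖⁻¹) ^ 2 * (ε / 2 * ‖x.2‖ ^ 2) := by field_simp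
      _ ≤ _ := by gcongr
  have hQy' : Q s' y' ≤ 0 := by
    rw [hy', hhom]
    exact mul_nonpos_of_nonneg_of_nonpos (by positivity) hQy
  have hnx' : nsq x' ≤ 2 := by
    rw [hx', nsq_smul, norm_inv]
    have h3 : nsq x ≤ 2 * ‖x.2‖ ^ 2 := nsq_le (by rw [hqx]; norm_num)
    calc (‖x.2‖⁻¹) ^ 2 * nsq x ≤ (‖x.2‖⁻¹) ^ 2 * (2 * ‖x.2‖ ^ 2) := by gcongr
      _ = 2 := by field_simp
  have hny' : nsq y' ≤ 2 := by
    rw [hy', nsq_smul, norm_inv]
    have h3 : nsq y ≤ 2 * ‖y.2‖ ^ 2 := nsq_le (by rw [hqy]; norm_num)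
    calc (‖y.2‖⁻¹) ^ 2 * nsq y ≤ (‖y.2‖⁻¹) ^ 2 * (2 * ‖y.2‖ ^ 2) := by gcongr
      _ = 2 := by field_simp
  have hdiff : √(nsq (x' - y')) = ‖x'.1 - y'.1‖ := by
    have h3 : (x' - y').2 = 0 := by
      simp only [hx', hy', Prod.snd_sub, Prod.smul_snd, smul_eq_mul]
      rw [inv_mul_cancel₀ hx0, inv_mul_cancel₀ hy0, sub_self]
    unfold nsq
    rw [h3, norm_zero, Prod.fst_sub]
    rw [zero_pow two_ne_zero, add_zero, Real.sqrt_sq (norm_nonneg _)]
  have hsq2 : √(2 : ℝ) ≤ 2 := by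
    rw [Real.sqrt_le_left (by norm_num)]
    norm_num
  have hL : ε / 2 ≤ C * (‖x'.1 - y'.1‖ * 4) := by
    have h3 := hlip s' x' y'
    rw [hdiff] at h3
    have h4 : √(nsq x') ≤ 2 := (Real.sqrt_le_sqrt hnx').trans hsq2
    have h5 : √(nsq y') ≤ 2 := (Real.sqrt_le_sqrt hny').trans hsq2
    calc ε / 2 ≤ Q s' x' - Q s' y' := by linarith
      _ ≤ |Q s' x' - Q s' y'| := le_abs_self _
      _ ≤ _ := h3
      _ ≤ C * (‖x'.1 - y'.1‖ * (2 + 2)) := by gcongr
      _ = _ := by norm_num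
  have hc'' : c' ≤ ‖x'.1 - y'.1‖ := by
    rw [hc', div_le_iff₀ (by positivity)]
    linarith
  have hn1 : ∀ v : E × 𝕜, q v = -1 → ‖(v.2)⁻¹ • v.1‖ ≤ 1 := by
    intro v hv
    rw [norm_smul, norm_inv]
    unfold q at hv
    have h3 : ‖v.1‖ ≤ ‖v.2‖ := by
      apply le_of_sq_le_sq _ (norm_nonneg _)
      linarith
    have h4 : 0 < ‖v.2‖ := by
      rcases (norm_nonneg v.2).lt_or_eq with h | h
      · exact h
      · rw [← h] at hv h3
        nlinarith [norm_nonneg v.1]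
    rw [inv_mul_le_iff₀ h4, mul_one]
    exact h3
  have hin : c' ^ 2 / 2 ≤ ‖1 - ⟪(x.2)⁻¹ • x.1, (y.2)⁻¹ • y.1⟫_𝕜‖ := by
    have h3 := one_sub_inner_ge (𝕜 := 𝕜) (hn1 x hqx) (hn1 y hqy)
    have h4 : c' ^ 2 ≤ ‖x'.1 - y'.1‖ ^ 2 := by gcongr
    have h5 : x'.1 - y'.1 = (x.2)⁻¹ • x.1 - (y.2)⁻¹ • y.1 := rfl
    rw [h5] at h4
    linarith
  have hNB : R.N (a * b) = ‖B x y‖ := by
    have := R.N_eq a⁻¹ b
    rwa [inv_inv] at this
  rw [hNB, B_lift hx0 hy0, hx2, hy2]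
  calc κ * (R.N a * R.N b) ≤ (c' ^ 2 / 2) * (R.N a * R.N b) := by
        gcongr
        exact min_le_left _ _
    _ = R.N a * R.N b * (c' ^ 2 / 2) := by ring
    _ ≤ _ := by gcongr

end Pool.Agent.Carpet
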