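import Pool.Agent.Lib_helper45.Carpet.Grow
import Pool.Agent.Lib_helper45.Carpet.Trans
import Pool.Agent.Lib_helper45.Carpet.Theta
import Pool.Agent.Lib_helper45.Carpet.Limh
import Pool.Agent.Lib_helper45.Carpet.Hull
import Pool.Agent.Lib_helper45.Carpet.Lang
import Pool.Agent.Lib_helper45.Carpet.CertC
import Pool.Agent.Lib_helper45.Carpet.CertK
import Pool.Agent.Lib_helper45.Carpet.Chart
import Pool.Agent.Lib_helper45.Carpet.SCar
import Pool.Agent.Lib_helper45.Carpet.BlowH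
import Pool.Agent.Lib_helper45.Carpet.BFun
import Pool.Agent.Lib_helper45.Carpet.Sq
import Pool.Agent.Lib_helper45.Carpet.BF
import Pool.Agent.Lib_helper45.Carpet.PHom
import Pool.Agent.Lib_helper45.Carpet.Disc
import Pool.Agent.Lib_helper45.Carpet.LSet

/-! # Final assembly -/

set_option autoImplicit false

namespace Pool.Agent.Carpet

open scoped Topology

/-- the unit disk -/
abbrev D1 : Set P2 := Metric.closedBall 0 1

theorem carpet_blow' (Y : ConvexCarpet) :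
    ∃ p : ℕ → P2, Function.Injective p ∧ (∀ i, p i ∈ interior Y.D) ∧
      Y.D ⊆ closure (Set.range p) ∧ Nonempty (Y.X ≃ₜ Blow Y.D p) := by
  obtain ⟨Nb, κ, h⟩ := exists_tower Y
  obtain ⟨Ψ, hΨ⟩ := exists_limitMaps h
  exact carpet_blow h hΨ

/-- A convex carpet whose body is mapped to the unit disk by `F` is a blow-up of the unit disk. -/
theorem carpet_disk (Y : ConvexCarpet) (F : P2 → P2) (hF : ContinuousOn F Y.D)
    (hbij : Set.BijOn F Y.D D1) (hint : Set.MapsTo F (interior Y.D) (Metric.ball 0 1))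
    (hd : ∀ x ∈ interior Y.D, ∃ A : P2 ≃L[ℝ] P2, HasFDerivAt F (A : P2 →L[ℝ] P2) x) :
    ∃ p : ℕ → P2, Function.Injective p ∧ (∀ i, p i ∈ interior D1) ∧
      D1 ⊆ closure (Set.range p) ∧ Nonempty (Y.X ≃ₜ Blow D1 p) := by
  obtain ⟨p, hp, hpi, hpd, ⟨φ⟩⟩ := carpet_blow' Y
  have hpD : ∀ i, p i ∈ Y.D := fun i => interior_subset (hpi i)
  refine ⟨fun i => F (p i), ?_, ?_, ?_, ?_⟩
  · intro i j hij
    exact hp (hbij.injOn (hpD i) (hpD j) hij)
  · intro i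
    rw [interior_closedBall _ one_ne_zero]
    exact hint (hpi i)
  · intro y hy
    obtain ⟨x, hx, rfl⟩ := hbij.surjOn hy
    have h1 : x ∈ closure (Set.range p) := hpd hx
    have h2 : Set.range p ⊆ Y.D := by
      rintro _ ⟨i, rfl⟩
      exact hpD i
    have h3 : ContinuousWithinAt F (Set.range p) x := (hF x hx).mono h2
    have h4 := h3.mem_closure_image h1
    rwa [← Set.range_comp] at h4
  · obtain ⟨ψ⟩ := blow_congr Y.compD hp hpD hF hbij (p' := fun i => F (p i)) (Equiv.refl ℕ)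
      (fun i => rfl) (fun i => hd _ (hpi i))
    exact ⟨φ.trans ψ⟩

theorem carpet_blow_disk : ∃ p : ℕ → P2, Function.Injective p ∧ (∀ i, p i ∈ interior D1) ∧
      D1 ⊆ closure (Set.range p) ∧ Nonempty (carpet ≃ₜ Blow D1 p) := by
  obtain ⟨Y, hY, ⟨φ⟩⟩ := carpet_convex
  obtain ⟨F, h1, h2, h3, h4⟩ := square_disk
  rw [← hY] at h1 h2 h3 h4
  obtain ⟨p, hp, hpi, hpd, ⟨ψ⟩⟩ := carpet_disk Y F h1 h2 h3 h4
  exact ⟨p, hp, hpi, hpd, ⟨φ.trans ψ⟩⟩

theorem limSet_blow_disk {R : Rep W ℝ E3} (hR : IsKleinian R)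
    (f : ∀ r : ℝ, {g : W | R.N g ≤ r}.Finite) :
    ∃ p : ℕ → P2, Function.Injective p ∧ (∀ i, p i ∈ interior D1) ∧
      D1 ⊆ closure (Set.range p) ∧ Nonempty (R.limSet ≃ₜ Blow D1 p) := by
  obtain ⟨Y, r, hr, hY, ⟨φ⟩⟩ := limSet_carpet hR f
  have hri : (0 : ℝ) < r⁻¹ := inv_pos.2 hr
  obtain ⟨p, hp, hpi, hpd, ⟨ψ⟩⟩ := carpet_disk Y (fun x => r⁻¹ • x) (by fun_prop) (by
    rw [hY]
    refine ⟨?_, ?_, ?_⟩
    · intro x hx
      rw [mem_closedBall_zero_iff] at hx ⊢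
      rw [norm_smul, Real.norm_of_nonneg hri.le]
      rw [inv_mul_le_iff₀ hr]
      linarith
    · intro x _ y _ hxy
      exact smul_right_injective P2 hri.ne' hxy
    · intro y hy
      refine ⟨r • y, ?_, ?_⟩
      · rw [mem_closedBall_zero_iff] at hy ⊢
        rw [norm_smul, Real.norm_of_nonneg hr.le]
        nlinarith
      · show r⁻¹ • r • y = y
        rw [smul_smul, inv_mul_cancel₀ hr.ne', one_smul]) (by
    rw [hY, interior_closedBall _ hr.ne']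
    intro x hx
    rw [mem_ball_zero_iff] at hx ⊢
    rw [norm_smul, Real.norm_of_nonneg hri.le, inv_mul_lt_iff₀ hr]
    linarith) (by
    intro x _
    refine ⟨ContinuousLinearEquiv.smulLeft (Units.mk0 r⁻¹ hri.ne'), ?_⟩
    have h1 : HasFDerivAt (fun x : P2 => r⁻¹ • x) (r⁻¹ • ContinuousLinearMap.id ℝ P2) x :=
      (hasFDerivAt_id x).const_smul r⁻¹
    have h2 : ((ContinuousLinearEquiv.smulLeft (Units.mk0 r⁻¹ hri.ne') : P2 ≃L[ℝ] P2) :
        P2 →L[ℝ] P2) = r⁻¹ • ContinuousLinearMap.id ℝ P2 := by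
      apply ContinuousLinearMap.ext
      intro v
      rfl
    rw [h2]
    exact h1)
  exact ⟨p, hp, hpi, hpd, ⟨φ.trans ψ⟩⟩

theorem final : ∃ G : Subgroup PU21, ConvexCocompact G ∧
    (∀ x : E2, ‖x‖ < 1 → limitSet G x = limitSet G 0) ∧ Nonempty (limitSet G 0 ≃ₜ carpet) := by
  obtain ⟨RC, hC⟩ := exists_certC
  obtain ⟨RK, hRK, hK⟩ := exists_certK
  have hT := autGood_Tr
  have gC := growth_of_cert hT hC
  have gK := growth_of_cert hT hK
  have tC := transv_of_cert hT hC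
  have tK := transv_of_cert hT hK
  have fC := finite_of_growth hT gC
  have fK := finite_of_growth hT gK
  obtain ⟨s, hs0, hs⟩ := summable_of_growth hT gC
  obtain ⟨c, hc, hn⟩ := near_of_transv hT tC fC
  obtain ⟨K, hKc, hKb, hKh⟩ := hull_cocompact hs0 hs hc hn
  obtain ⟨φ, hφ⟩ := exists_hom RC
  have hL : ∀ x : E2, ‖x‖ < 1 → limitSet φ.range x = RC.limSet := fun x hx => limitSet_eq hφ hx
  have h0 : ‖(0 : E2)‖ < 1 := by simp
  obtain ⟨e1⟩ := limSet_homeo (theta_compare hT tC tK fK) (theta_compare hT tK tC fC)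
  obtain ⟨p, hp, hpi, hpd, ⟨e2⟩⟩ := limSet_blow_disk hRK fK
  obtain ⟨p', hp', hpi', hpd', ⟨e3⟩⟩ := carpet_blow_disk
  obtain ⟨F, σ, hF, hbij, hσ, hd⟩ := back_forth (isCompact_closedBall (0 : P2) 1)
    (convex_closedBall (0 : P2) 1) hp hp' hpi hpi' hpd hpd'
  obtain ⟨e4⟩ := blow_congr (isCompact_closedBall (0 : P2) 1) hp
    (fun i => interior_subset (hpi i)) hF hbij σ hσ hd
  refine ⟨φ.range, ⟨discrete_range fC hφ, K, hKc, hKb, ?_⟩, ?_, ?_⟩
  · rw [hL 0 h0]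
    intro z hz
    obtain ⟨g, x, hx, hzx⟩ := hKh hz
    exact ⟨φ g, ⟨g, rfl⟩, x, hx, by rw [hzx, hφ]⟩
  · intro x hx
    rw [hL x hx, hL 0 h0]
  · rw [hL 0 h0]
    exact ⟨((e1.trans e2).trans e4).trans e3.symm⟩

end Pool.Agent.Carpet
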