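import Pool.Agent.Lib_helper45.Carpet.Hole

/-! # Block FOLD and DENSE (helper82) -/

set_option autoImplicit false

namespace Pool.Agent.Carpet

open scoped Topology InnerProductSpace

/-- the interior base point of the fundamental chamber -/
noncomputable def foldO : E3 × ℝ := (!₂[-(1 / 4), -(1 / 4), 0], 1)

theorem fold_B_foldO (i : Fin 4) : B foldO (nK i) < 0 := by
  have h1 := cb_pos
  have h2 := cb_lt_cz
  rw [hole_B_eq]
  fin_cases i
  · simp [foldO, nK, PiLp.inner_apply, Fin.sum_univ_three]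
  · simp [foldO, nK, PiLp.inner_apply, Fin.sum_univ_three]
  · simp [foldO, nK, PiLp.inner_apply, Fin.sum_univ_three]
    linarith
  · simp [foldO, nK, PiLp.inner_apply, Fin.sum_univ_three]
    linarith

theorem fold_norm_foldO : ‖foldO.1‖ ≤ 1 / 2 := by
  have h : ‖foldO.1‖ ^ 2 = 1 / 8 := by
    rw [EuclideanSpace.norm_sq_eq]
    simp [foldO, Fin.sum_univ_three]
    norm_num
  nlinarith [norm_nonneg foldO.1]

theorem fold_norm_eq {g : E3 × ℝ} (hq : q g = 0) (hg : 0 < g.2) : ‖g.1‖ = g.2 := by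
  have h : q g = ‖g.1‖ ^ 2 - ‖g.2‖ ^ 2 := rfl
  rw [hq, Real.norm_eq_abs, sq_abs] at h
  have h2 : ‖g.1‖ ^ 2 = g.2 ^ 2 := by linarith
  exact (pow_left_inj₀ (norm_nonneg _) hg.le (by norm_num)).mp h2

theorem fold_N_eq {R : Rep W ℝ E3} (hR : IsKleinian R) (w : W) : R.N w = (R.ρ w o).2 := by
  unfold Rep.N
  rw [Real.norm_eq_abs, abs_of_pos]
  have := one_le_orbit hR w
  linarith

/-- `B (ρ w o) (ξ, 1) = -N w (1 - ⟪pt w, ξ⟫)` -/
theorem fold_B_orbit {R : Rep W ℝ E3} (hR : IsKleinian R) (w : W) (ξ : E3) :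
    B (R.ρ w o) (ξ, (1 : ℝ)) = -(R.N w * (1 - ⟪R.pt w, ξ⟫_ℝ)) := by
  have h1 := one_le_orbit hR w
  have h2 : (R.ρ w o).1 = (R.ρ w o).2 • R.pt w := by
    unfold Rep.pt
    rw [smul_smul, mul_inv_cancel₀ (by linarith), one_smul]
  rw [hole_B_eq, fold_N_eq hR, h2, real_inner_smul_left]
  ring

theorem fold_inner_lt {R : Rep W ℝ E3} (w : W) {ξ : E3} (hξ : ‖ξ‖ ≤ 1) :
    ⟪R.pt w, ξ⟫_ℝ < 1 := by
  have h1 := real_inner_le_norm (R.pt w) ξ
  have h2 := R.norm_pt_lt w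
  have h3 : ‖R.pt w‖ * ‖ξ‖ ≤ ‖R.pt w‖ * 1 := mul_le_mul_of_nonneg_left hξ (norm_nonneg _)
  linarith

theorem fold_dist_sq {R : Rep W ℝ E3} (w : W) {ξ : E3} (hξ : ‖ξ‖ = 1) :
    ‖R.pt w - ξ‖ ^ 2 ≤ 2 * (1 - ⟪R.pt w, ξ⟫_ℝ) := by
  have h2 := R.norm_pt_lt w
  rw [@norm_sub_sq_real, hξ]
  nlinarith [norm_nonneg (R.pt w)]

/-- Every ideal point is a limit point or belongs to an open cap. -/
theorem fold {R : Rep W ℝ E3} (hR : IsKleinian R) (f : ∀ r : ℝ, {g : W | R.N g ≤ r}.Finite)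
    {ξ : E3} (hξ : ‖ξ‖ = 1) (h : ∀ u ∈ Holes R, B (ξ, (1 : ℝ)) u ≤ 0) : ξ ∈ R.limSet := by
  set f₀ : E3 × ℝ := (ξ, (1 : ℝ)) with hf₀
  have hq0 : q f₀ = 0 := by
    change ‖ξ‖ ^ 2 - ‖(1 : ℝ)‖ ^ 2 = 0
    rw [hξ]; simp
  -- the vectors g w = ρ(w⁻¹) f₀
  have hg2 : ∀ w : W, (R.ρ w⁻¹ f₀).2 = R.N w * (1 - ⟪R.pt w, ξ⟫_ℝ) := by
    intro w
    have h1 : B (o : E3 × ℝ) (R.ρ w⁻¹ f₀) = B (R.ρ w o) f₀ := by
      rw [hole_B_comm, R.B_inv, hole_B_comm]
    rw [B_o_left, fold_B_orbit hR] at h1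
    linarith
  have hN1 : ∀ w : W, 1 ≤ R.N w := R.one_le_N
  have hg2pos : ∀ w : W, 0 < (R.ρ w⁻¹ f₀).2 := by
    intro w
    rw [hg2 w]
    have := fold_inner_lt (R := R) w hξ.le
    have := hN1 w
    exact mul_pos (by linarith) (by linarith)
  have hgn : ∀ w : W, ‖(R.ρ w⁻¹ f₀).1‖ = (R.ρ w⁻¹ f₀).2 := fun w =>
    fold_norm_eq (by rw [R.q_act]; exact hq0) (hg2pos w)
  let F : W → ℝ := fun w => - B (R.ρ w foldO) f₀
  have hF : ∀ w, F w = - B foldO (R.ρ w⁻¹ f₀) := by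
    intro w
    change - B (R.ρ w foldO) f₀ = _
    rw [hole_B_comm foldO, R.B_inv, hole_B_comm f₀]
  have hFlow : ∀ w, (1 / 2) * (R.ρ w⁻¹ f₀).2 ≤ F w := by
    intro w
    rw [hF w, hole_B_eq]
    have h1 := real_inner_le_norm foldO.1 (R.ρ w⁻¹ f₀).1
    rw [hgn w] at h1
    have h2 := fold_norm_foldO
    have h3 : ‖foldO.1‖ * (R.ρ w⁻¹ f₀).2 ≤ 1 / 2 * (R.ρ w⁻¹ f₀).2 :=
      mul_le_mul_of_nonneg_right h2 (hg2pos w).le
    have h4 : foldO.2 = 1 := rfl
    rw [h4]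
    linarith
  by_cases hmin : ∃ w, ∀ w', F w ≤ F w'
  · exfalso
    obtain ⟨w, hw⟩ := hmin
    set f' := R.ρ w⁻¹ f₀ with hf'
    have hB : ∀ i, B f' (nK i) ≤ 0 := by
      intro i
      have h1 := hw (w * cs.simple i)
      have h2 : F (w * cs.simple i) = F w + 2 * B (nK i) foldO * B f' (nK i) := by
        rw [hF w]
        change - B (R.ρ (w * cs.simple i) foldO) f₀ = _
        rw [hole_act_simple hR, hole_B_comm (R.ρ w _), ← R.B_inv, ← hf']
        have h3 : refl (nK i) foldO = foldO - (2 * B (nK i) foldO) • nK i := rfl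
        rw [h3, B_sub_right, B_smul_right, hole_B_comm f' foldO]
        ring
      rw [h2] at h1
      have h4 := fold_B_foldO i
      rw [hole_B_comm] at h4
      nlinarith
    let a : Fin 4 → ℝ := fun k => - B f' (nK k)
    have ha : ∀ k, 0 ≤ a k := fun k => by have := hB k; simp only [a]; linarith
    have hexp : f' = ∑ k, a k • ωK k := expand_ωK f'
    have hBω : ∀ k, B f' (ωK k) ≤ 0 := by
      intro k
      rw [hf', R.B_inv]
      exact h _ ⟨w, k, rfl⟩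
    have hsum : ∀ v : E3 × ℝ, B f' v = ∑ k, a k * B (ωK k) v := by
      intro v
      conv_lhs => rw [hexp]
      simp only [Fin.sum_univ_four, B_add_left, B_smul_left, conj_trivial]
    have hq' : B f' f' = 0 := by
      rw [hole_B_self, hf', R.q_act]; exact hq0
    have hzero : ∀ k, a k * B f' (ωK k) = 0 := by
      have h1 : ∑ k, a k * B f' (ωK k) = 0 := by
        rw [← hq', hsum f']
        refine Finset.sum_congr rfl fun k _ => ?_
        rw [hole_B_comm]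
      have h2 : ∀ k ∈ Finset.univ, 0 ≤ -(a k * B f' (ωK k)) := fun k _ => by
        have := mul_nonpos_of_nonneg_of_nonpos (ha k) (hBω k)
        linarith
      have h3 : ∑ k, -(a k * B f' (ωK k)) = 0 := by
        rw [Finset.sum_neg_distrib, h1, neg_zero]
      intro k
      have h4 := (Finset.sum_eq_zero_iff_of_nonneg h2).mp h3 k (Finset.mem_univ k)
      linarith
    have hne : ∃ k, 0 < a k := by
      by_contra hcon
      push Not at hcon
      have h1 : ∀ k, a k = 0 := fun k => le_antisymm (hcon k) (ha k)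
      have h2 : f' = 0 := by rw [hexp]; simp [h1]
      have h3 := hg2pos w
      rw [← hf', h2] at h3
      simp at h3
    obtain ⟨k₀, hk₀⟩ := hne
    obtain ⟨k, hk, hkmin⟩ := Finset.exists_min_image
      (Finset.univ.filter (fun k => 0 < a k)) a ⟨k₀, by simp [hk₀]⟩
    have hak : 0 < a k := (Finset.mem_filter.mp hk).2
    have hBk : B f' (ωK k) = 0 := by
      rcases mul_eq_zero.mp (hzero k) with h1 | h1
      · exact absurd h1 (ne_of_gt hak)
      · exact h1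
    rw [hsum, ← Finset.add_sum_erase _ _ (Finset.mem_univ k), hole_B_self, q_ωK] at hBk
    by_cases hex : ∃ j, j ≠ k ∧ 0 < a j
    · obtain ⟨j, hjk, haj⟩ := hex
      have hjm : j ∈ Finset.univ.erase k := Finset.mem_erase.mpr ⟨hjk, Finset.mem_univ j⟩
      have hkj : a k ≤ a j := hkmin j (by simp [haj])
      have hrest : ∑ l ∈ Finset.univ.erase k, a l * B (ωK l) (ωK k) ≤
          a j * B (ωK j) (ωK k) := by
        rw [← Finset.add_sum_erase _ _ hjm]
        have : ∑ l ∈ (Finset.univ.erase k).erase j, a l * B (ωK l) (ωK k) ≤ 0 := by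
          refine Finset.sum_nonpos fun l hl => ?_
          have hlk : l ≠ k := (Finset.mem_erase.mp (Finset.mem_erase.mp hl).2).1
          have h1 := B_ωK_lt hlk
          have h2 := pK_pos
          exact mul_nonpos_of_nonneg_of_nonpos (ha l) (by linarith)
        linarith
      have h1 := B_ωK_lt hjk
      have h2 := pK_pos
      have h3 : a j * B (ωK j) (ωK k) < a j * (-pK) := mul_lt_mul_of_pos_left h1 haj
      nlinarith
    · push Not at hex
      have hrest : ∑ l ∈ Finset.univ.erase k, a l * B (ωK l) (ωK k) = 0 := by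
        refine Finset.sum_eq_zero fun l hl => ?_
        have hlk : l ≠ k := (Finset.mem_erase.mp hl).1
        have : a l = 0 := le_antisymm (hex l hlk) (ha l)
        rw [this, zero_mul]
      rw [hrest, add_zero] at hBk
      have := mul_pos hak pK_pos
      linarith
  · push Not at hmin
    have hinf : {w : W | F w ≤ F 1}.Infinite := by
      intro hfin
      obtain ⟨w, hw, hwmin⟩ := Set.exists_min_image _ F hfin ⟨1, le_refl (F 1)⟩
      obtain ⟨w', hw'⟩ := hmin w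
      have h1 : F w ≤ F 1 := hw
      have := hwmin w' (show F w' ≤ F 1 by linarith)
      linarith
    refine ⟨hξ, ?_⟩
    rw [Metric.mem_closure_iff]
    intro ε hε
    -- F 1 positive
    have hF1 : 0 < F 1 := by
      have h1 := hFlow 1
      have h2 := hg2pos 1
      linarith
    set r : ℝ := 4 * F 1 / ε ^ 2 + 1 with hr
    obtain ⟨w, hw, hwr⟩ : ∃ w, F w ≤ F 1 ∧ r < R.N w := by
      by_contra hcon
      push Not at hcon
      exact hinf ((f r).subset fun w hw => hcon w hw)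
    refine ⟨R.pt w, ⟨w, rfl⟩, ?_⟩
    rw [dist_comm, dist_eq_norm]
    have h1 := hFlow w
    rw [hg2 w] at h1
    have h2 := fold_dist_sq (R := R) w hξ
    have hε2 : 0 < ε ^ 2 := by positivity
    have hrpos : 0 < r := by rw [hr]; positivity
    have hNpos : 0 < R.N w := lt_trans hrpos hwr
    have h3 : 4 * F 1 < ε ^ 2 * R.N w := by
      have h4 : 4 * F 1 / ε ^ 2 < R.N w := by rw [hr] at hwr; linarith
      rw [div_lt_iff₀ hε2] at h4
      linarith
    have h5 : R.N w * (1 - ⟪R.pt w, ξ⟫_ℝ) ≤ 2 * F 1 := by linarith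
    have h6 : R.N w * ‖R.pt w - ξ‖ ^ 2 ≤ R.N w * (2 * (1 - ⟪R.pt w, ξ⟫_ℝ)) :=
      mul_le_mul_of_nonneg_left h2 hNpos.le
    have h7 : R.N w * ‖R.pt w - ξ‖ ^ 2 < R.N w * ε ^ 2 := by nlinarith
    have h8 : ‖R.pt w - ξ‖ ^ 2 < ε ^ 2 := lt_of_mul_lt_mul_left h7 hNpos.le
    exact lt_of_pow_lt_pow_left₀ 2 hε.le h8

/-- the two test directions -/
noncomputable def denseG : Fin 2 → E3 := ![!₂[-1, 0, 0], !₂[0, -1, 0]]

/-- the corresponding indices of the hole vectors -/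
def denseI : Fin 2 → Fin 4 := ![0, 1]

theorem dense_norm (k : Fin 2) : ‖denseG k‖ = 1 := by
  have h : ‖denseG k‖ ^ 2 = 1 := by
    rw [EuclideanSpace.norm_sq_eq]
    fin_cases k <;> simp [denseG, Fin.sum_univ_three]
  nlinarith [norm_nonneg (denseG k)]

theorem dense_B (k : Fin 2) : 0 < B (denseG k, (1 : ℝ)) (ωK (denseI k)) := by
  have h1 := cb_pos
  have h2 := cb_lt_cz
  have h3 : cb / cz < 1 := by rw [div_lt_one (by linarith)]; exact h2
  rw [hole_B_eq]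
  fin_cases k
  · simp [denseG, denseI, ωK, EuclideanSpace.norm_sq_eq, Fin.sum_univ_three]
    exact h3
  · simp [denseG, denseI, ωK, EuclideanSpace.norm_sq_eq, Fin.sum_univ_three]
    exact h3

theorem dense_choice (y : E3) (hy : ‖y‖ < 1) : ∃ k, (1 / 4 : ℝ) ≤ 1 - ⟪y, denseG k⟫_ℝ := by
  by_contra hcon
  push Not at hcon
  have h0 := hcon 0
  have h1 := hcon 1
  have h2 : ⟪y, denseG 0 + denseG 1⟫_ℝ ≤ ‖y‖ * ‖denseG 0 + denseG 1‖ := real_inner_le_norm _ _
  rw [inner_add_right] at h2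
  have h3 : ‖denseG 0 + denseG 1‖ ^ 2 = 2 := by
    rw [EuclideanSpace.norm_sq_eq]
    simp [denseG, Fin.sum_univ_three]
    norm_num
  have h4 : ‖denseG 0 + denseG 1‖ ≤ 3 / 2 := by
    nlinarith [norm_nonneg (denseG 0 + denseG 1)]
  have h5 : ‖y‖ * ‖denseG 0 + denseG 1‖ ≤ 1 * (3 / 2) :=
    mul_le_mul hy.le h4 (norm_nonneg _) (by norm_num)
  linarith

/-- The open caps are dense in the sphere. -/
theorem holes_dense {R : Rep W ℝ E3} (hR : IsKleinian R)
    (f : ∀ r : ℝ, {g : W | R.N g ≤ r}.Finite) {ξ : E3} (hξ : ‖ξ‖ = 1) {ε : ℝ} (hε : 0 < ε) :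
    ∃ η : E3, ‖η‖ = 1 ∧ ‖η - ξ‖ < ε ∧ ∃ u ∈ Holes R, 0 < B (η, (1 : ℝ)) u := by
  by_cases hlim : ξ ∈ R.limSet
  · -- choose w
    set δ : ℝ := min (ε / 2) (ε ^ 2 / 64) with hδ
    have hδ0 : 0 < δ := by rw [hδ]; positivity
    obtain ⟨_, ⟨w, rfl⟩, hw⟩ := Metric.mem_closure_iff.mp hlim.2 δ hδ0
    rw [dist_comm, dist_eq_norm] at hw
    have hδ1 : δ ≤ ε / 2 := min_le_left _ _
    have hδ2 : δ ≤ ε ^ 2 / 64 := min_le_right _ _
    have hN1 := R.one_le_N w
    have hNsq : 1 ≤ 2 * δ * R.N w ^ 2 := by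
      have h1 := R.one_sub_norm_pt w
      have h2 : 1 - ‖R.pt w‖ ≤ δ := by
        have h3 := norm_sub_norm_le ξ (R.pt w)
        rw [hξ, norm_sub_rev] at h3
        linarith
      have h3 : 1 - ‖R.pt w‖ ^ 2 ≤ 2 * δ := by
        have h4 := R.norm_pt_lt w
        nlinarith [norm_nonneg (R.pt w)]
      have h5 : 0 < R.N w ^ 2 := by positivity
      nlinarith
    obtain ⟨k, hk⟩ := dense_choice (R.pt w⁻¹) (R.norm_pt_lt w⁻¹)
    set g : E3 × ℝ := (denseG k, (1 : ℝ)) with hg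
    set x : E3 × ℝ := R.ρ w g with hx
    have hqg : q g = 0 := by
      change ‖denseG k‖ ^ 2 - ‖(1 : ℝ)‖ ^ 2 = 0
      rw [dense_norm]; simp
    have hx2 : x.2 = R.N w * (1 - ⟪R.pt w⁻¹, denseG k⟫_ℝ) := by
      have h1 : B (o : E3 × ℝ) x = B (R.ρ w⁻¹ o) g := by rw [R.B_inv]
      rw [B_o_left, fold_B_orbit hR, R.N_inv] at h1
      linarith
    have hx2ge : R.N w / 4 ≤ x.2 := by
      rw [hx2]
      nlinarith
    have hx2pos : 0 < x.2 := by linarith
    have hxn : ‖x.1‖ = x.2 := fold_norm_eq (by rw [hx, R.q_act]; exact hqg) hx2pos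
    set η : E3 := (x.2)⁻¹ • x.1 with hη
    have hηn : ‖η‖ = 1 := by
      rw [hη, norm_smul, hxn, Real.norm_eq_abs, abs_of_pos (inv_pos.mpr hx2pos),
        inv_mul_cancel₀ hx2pos.ne']
    have hlift : ((η, (1 : ℝ)) : E3 × ℝ) = (x.2)⁻¹ • x := by
      refine Prod.ext rfl ?_
      rw [Prod.smul_snd, smul_eq_mul, inv_mul_cancel₀ hx2pos.ne']
    refine ⟨η, hηn, ?_, R.ρ w (ωK (denseI k)), ⟨w, denseI k, rfl⟩, ?_⟩
    · have h1 : R.N w * (1 - ⟪R.pt w, η⟫_ℝ) = (x.2)⁻¹ := by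
        have h2 : B (R.ρ w o) (η, (1 : ℝ)) = -(x.2)⁻¹ := by
          rw [hlift, B_smul_right, hx, R.pres, B_o_left]
          have : g.2 = 1 := rfl
          rw [this]; ring
        rw [fold_B_orbit hR] at h2
        linarith
      have h2 := fold_dist_sq (R := R) w hηn
      have hNpos : 0 < R.N w := by linarith
      have h3 : (x.2)⁻¹ ≤ 4 / R.N w := by
        rw [inv_le_comm₀ hx2pos (by positivity), inv_div]
        exact hx2ge
      have h4 : R.N w * ‖R.pt w - η‖ ^ 2 ≤ 8 / R.N w := by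
        have h5 := mul_le_mul_of_nonneg_left h2 hNpos.le
        have h6 : R.N w * (2 * (1 - ⟪R.pt w, η⟫_ℝ)) = 2 * (x.2)⁻¹ := by rw [← h1]; ring
        rw [h6] at h5
        have h7 : 8 / R.N w = 2 * (4 / R.N w) := by ring
        rw [h7]
        linarith
      have h5 : R.N w ^ 2 * ‖R.pt w - η‖ ^ 2 ≤ 8 := by
        have h6 := mul_le_mul_of_nonneg_left h4 hNpos.le
        have h7 : R.N w * (8 / R.N w) = 8 := by field_simp
        rw [h7] at h6
        calc R.N w ^ 2 * ‖R.pt w - η‖ ^ 2 = R.N w * (R.N w * ‖R.pt w - η‖ ^ 2) := by ring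
          _ ≤ 8 := h6
      have h6 : ‖R.pt w - η‖ ^ 2 ≤ 16 * δ := by
        have h7 : 0 ≤ ‖R.pt w - η‖ ^ 2 := by positivity
        nlinarith
      have h7 : ‖R.pt w - η‖ ≤ ε / 2 := by
        have h8 : ‖R.pt w - η‖ ^ 2 ≤ (ε / 2) ^ 2 := by nlinarith
        exact (pow_le_pow_iff_left₀ (norm_nonneg _) (by positivity) two_ne_zero).mp h8
      have h9 : ‖η - ξ‖ ≤ ‖R.pt w - η‖ + ‖R.pt w - ξ‖ := by
        have : η - ξ = -(R.pt w - η) + (R.pt w - ξ) := by abel
        rw [this]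
        refine (norm_add_le _ _).trans ?_
        rw [norm_neg]
      linarith
    · rw [hlift, B_smul_left, conj_trivial, hx, R.pres]
      exact mul_pos (inv_pos.mpr (by rw [← hx]; exact hx2pos)) (dense_B k)
  · have h1 : ¬ ∀ u ∈ Holes R, B (ξ, (1 : ℝ)) u ≤ 0 := fun h => hlim (fold hR f hξ h)
    push Not at h1
    obtain ⟨u, hu, hu'⟩ := h1
    exact ⟨ξ, hξ, by simpa using hε, u, hu, hu'⟩

end Pool.Agent.Carpet
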