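import Pool.Agent.Lib_helper45.Carpet.Defs

/-!
# Internal definitions for MP_32b4ed_gt (framework shared by all blocks)
-/

set_option autoImplicit false

namespace Pool.Agent.Carpet

open scoped ComplexConjugate InnerProductSpace Topology

/-! ## The Lorentzian Hermitian form on `E × 𝕜` -/

section Form

variable {𝕜 E : Type*} [RCLike 𝕜] [NormedAddCommGroup E] [InnerProductSpace 𝕜 E]

/-- The form of signature `(dim E, 1)`; conjugate linear in the first variable. -/
noncomputable def B (u v : E × 𝕜) : 𝕜 := ⟪u.1, v.1⟫_𝕜 - conj u.2 * v.2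

/-- The quadratic form `B v v`. -/
noncomputable def q (v : E × 𝕜) : ℝ := ‖v.1‖ ^ 2 - ‖v.2‖ ^ 2

/-- The Euclidean norm squared. -/
noncomputable def nsq (v : E × 𝕜) : ℝ := ‖v.1‖ ^ 2 + ‖v.2‖ ^ 2

/-- The base point. -/
def o : E × 𝕜 := (0, 1)

/-- The reflection with (unit) polar vector `n`. -/
noncomputable def refl (n : E × 𝕜) : Module.End 𝕜 (E × 𝕜) :=
  { toFun := fun v => v - (2 * B n v) • n
    map_add' := by
      intro x y
      have h : B n (x + y) = B n x + B n y := by
        simp only [B, Prod.fst_add, Prod.snd_add, inner_add_right]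
        ring
      rw [h, mul_add, add_smul]
      abel
    map_smul' := by
      intro c x
      have h : B n (c • x) = c * B n x := by
        simp only [B, Prod.smul_fst, Prod.smul_snd, inner_smul_right, smul_eq_mul]
        ring
      rw [h, RingHom.id_apply, smul_sub, smul_smul]
      congr 2
      ring }

end Form

/-! ## Representations, orbit, limit set -/

/-- A representation of `Γ` by isometries of the form `B`. -/
structure Rep (Γ 𝕜 E : Type*) [Group Γ] [RCLike 𝕜] [NormedAddCommGroup E]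
    [InnerProductSpace 𝕜 E] where
  ρ : Γ →* Module.End 𝕜 (E × 𝕜)
  pres : ∀ (g : Γ) (u v : E × 𝕜), B (ρ g u) (ρ g v) = B u v

section RepDefs

variable {Γ 𝕜 E : Type*} [Group Γ] [RCLike 𝕜] [NormedAddCommGroup E] [InnerProductSpace 𝕜 E]

/-- `N g = cosh (distance from o to g o)`. -/
noncomputable def Rep.N (R : Rep Γ 𝕜 E) (g : Γ) : ℝ := ‖(R.ρ g o).2‖

/-- The orbit point `g o` in the unit ball of `E`. -/
noncomputable def Rep.pt (R : Rep Γ 𝕜 E) (g : Γ) : E := ((R.ρ g o).2)⁻¹ • (R.ρ g o).1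

/-- The limit set. -/
def Rep.limSet (R : Rep Γ 𝕜 E) : Set E := {ξ | ‖ξ‖ = 1 ∧ ξ ∈ closure (Set.range R.pt)}

end RepDefs

/-- Paths of an automaton with transitions `T s g s'` (`g` is the group element read). -/
inductive Path {St Γ : Type*} (T : St → Γ → St → Prop) : St → List Γ → St → Prop
  | nil (s : St) : Path T s [] s
  | cons {s s' s'' : St} {g : Γ} {l : List Γ} (h : T s g s') (p : Path T s' l s'') :
      Path T s (g :: l) s''

/-- The automaton has finitely many letters and every group element is the product of a path. -/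
def AutGood {St Γ : Type*} [Group Γ] (T : St → Γ → St → Prop) : Prop :=
  {g | ∃ s s', T s g s'}.Finite ∧ ∀ w : Γ, ∃ s l s', Path T s l s' ∧ l.prod = w

section CertDefs

variable {St Γ 𝕜 E : Type*} [Group Γ] [RCLike 𝕜] [NormedAddCommGroup E] [InnerProductSpace 𝕜 E]

/-- `R` has a Lyapunov certificate along the paths of `T`. -/
def Certified (R : Rep Γ 𝕜 E) (T : St → Γ → St → Prop) : Prop :=
  ∃ (Q : St → E × 𝕜 → ℝ) (C ε : ℝ), 0 < C ∧ 0 < ε ∧
    (∀ s (c : 𝕜) v, Q s (c • v) = ‖c‖ ^ 2 * Q s v) ∧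
    (∀ s v, |Q s v| ≤ C * nsq v) ∧
    (∀ s u v, |Q s u - Q s v| ≤ C * (√(nsq (u - v)) * (√(nsq u) + √(nsq v)))) ∧
    (∀ s g s', T s g s' → ∀ v, q v ≤ 0 → Q s (R.ρ g v) ≤ Q s' v - ε * nsq v)

/-- Exponential growth along paths. -/
def Growth (R : Rep Γ 𝕜 E) (T : St → Γ → St → Prop) : Prop :=
  ∃ c θ : ℝ, 0 < c ∧ 1 < θ ∧ ∀ s l s', Path T s l s' → c * θ ^ l.length ≤ R.N l.prod

/-- Paths are quasi-geodesic: `N` is almost multiplicative. -/
def Transv (R : Rep Γ 𝕜 E) (T : St → Γ → St → Prop) : Prop :=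
  ∃ κ : ℝ, 0 < κ ∧ ∀ s l₁ s' l₂ s'', Path T s l₁ s' → Path T s' l₂ s'' →
    κ * (R.N l₁.prod * R.N l₂.prod) ≤ R.N (l₁ ++ l₂).prod

end CertDefs

/-! ## The Coxeter group `W` and its automaton -/

/-- The Coxeter matrix: `m 0 1 = m 2 3 = 2`, the other four labels are `10`. -/
def M : CoxeterMatrix (Fin 4) where
  M := !![1, 2, 10, 10; 2, 1, 10, 10; 10, 10, 1, 2; 10, 10, 2, 1]
  isSymm := by decide
  diagonal := by decide
  off_diagonal := by decide

/-- The Coxeter group. -/
abbrev W : Type := M.Group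

/-- Its Coxeter system. -/
abbrev cs : CoxeterSystem M W := M.toCoxeterSystem

/-- The side of a generator: `{0, 1}` or `{2, 3}`. -/
def side (x : Fin 4) : Bool := decide (2 ≤ x)

/-- The alternating product `y x y x …` of `k` letters. -/
def alt : ℕ → Fin 4 → Fin 4 → W
  | 0, _, _ => 1
  | k + 1, y, x => cs.simple y * alt k x y

/-- The product of the two generators of a side (`false`: `s₀ s₁`, `true`: `s₂ s₃`). -/
def dbl : Bool → W
  | false => cs.simple 0 * cs.simple 1
  | true => cs.simple 2 * cs.simple 3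

/-- The states: `D b`: the last syllable was the double of side `b`; `S x`: the last syllable was
the single letter `x`, preceded by a double or by nothing; `E x y`: the last letter is `x`, the
previous one is `y` (other side), and the maximal alternating run in `x, y` has ended. -/
inductive St
  | D (b : Bool)
  | S (x : Fin 4)
  | E (x y : Fin 4)
  deriving DecidableEq

/-- The transitions. A run block from a state with last letter `x` is `y x y …` (`k` letters,
`1 ≤ k ≤ 9`), its last letter is `y` if `k` is odd and `x` if `k` is even. -/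
inductive Tr : St → W → St → Prop
  | DD (b : Bool) : Tr (.D b) (dbl (!b)) (.D (!b))
  | SD (x : Fin 4) : Tr (.S x) (dbl (!side x)) (.D (!side x))
  | ED (x y : Fin 4) (h : side x ≠ side y) : Tr (.E x y) (dbl (!side x)) (.D (!side x))
  | DS (b : Bool) (y : Fin 4) (h : side y ≠ b) : Tr (.D b) (cs.simple y) (.S y)
  | SEo (x y : Fin 4) (k : ℕ) (h : side x ≠ side y) (hk : k ≤ 4) :
      Tr (.S x) (alt (2 * k + 1) y x) (.E y x)
  | SEe (x y : Fin 4) (k : ℕ) (h : side x ≠ side y) (hk : 1 ≤ k ∧ k ≤ 4) :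
      Tr (.S x) (alt (2 * k) y x) (.E x y)
  | EEo (x z y : Fin 4) (k : ℕ) (hz : side x ≠ side z) (h : side x ≠ side y) (hzy : y ≠ z)
      (hk : k ≤ 4) : Tr (.E x z) (alt (2 * k + 1) y x) (.E y x)
  | EEe (x z y : Fin 4) (k : ℕ) (hz : side x ≠ side z) (h : side x ≠ side y) (hzy : y ≠ z)
      (hk : 1 ≤ k ∧ k ≤ 4) : Tr (.E x z) (alt (2 * k) y x) (.E x y)

/-! ## The real (Kleinian) representation -/

/-- `ℝ³`. -/
abbrev E3 : Type := EuclideanSpace ℝ (Fin 3)

/-- `b = cos (π / 10)`. -/
noncomputable def cb : ℝ := √((5 + √5) / 8)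

/-- `a = 1 / √2`. -/
noncomputable def ca : ℝ := 1 / √2

/-- `z = √(2 b² - 1/2)`. -/
noncomputable def cz : ℝ := √(2 * cb ^ 2 - 1 / 2)

/-- The normals of the real representation. -/
noncomputable def nK : Fin 4 → E3 × ℝ :=
  ![(!₂[1, 0, 0], 0), (!₂[0, 1, 0], 0), (!₂[-cb, -cb, ca], cz), (!₂[-cb, -cb, -ca], cz)]

/-- The hole vectors (dual basis): `B (ωK k) (nK i) = - δ`. -/
noncomputable def ωK : Fin 4 → E3 × ℝ :=
  ![(!₂[-1, 0, 0], cb / cz), (!₂[0, -1, 0], cb / cz), (!₂[0, 0, -(1 / (2 * ca))], 1 / (2 * cz)),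
    (!₂[0, 0, 1 / (2 * ca)], 1 / (2 * cz))]

/-- A real representation is of reflection type if the generators act as the reflections in `nK`. -/
def IsKleinian (R : Rep W ℝ E3) : Prop := ∀ i : Fin 4, R.ρ (cs.simple i) = refl (nK i)

/-- The set of hole vectors. -/
def Holes (R : Rep W ℝ E3) : Set (E3 × ℝ) := {u | ∃ (w : W) (k : Fin 4), u = R.ρ w (ωK k)}

/-! ## Convex carpets in the plane -/

/-- The Euclidean plane. -/
abbrev P2 : Type := EuclideanSpace ℝ (Fin 2)

/-- A carpet with convex holes: a convex body `D`, countably many disjoint convex bodies `K i` in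
its interior, with dense union and diameters tending to `0`. -/
structure ConvexCarpet where
  D : Set P2
  K : ℕ → Set P2
  c : ℕ → P2
  convD : Convex ℝ D
  compD : IsCompact D
  convK : ∀ i, Convex ℝ (K i)
  compK : ∀ i, IsCompact (K i)
  center : ∀ i, c i ∈ interior (K i)
  inD : ∀ i, K i ⊆ interior D
  disj : ∀ i j, i ≠ j → Disjoint (K i) (K j)
  diam0 : Filter.Tendsto (fun i => Metric.diam (K i)) Filter.atTop (𝓝 0)
  dense : D ⊆ closure (⋃ i, K i)

/-- The carpet itself. -/
def ConvexCarpet.X (Y : ConvexCarpet) : Set P2 := Y.D \ ⋃ i, interior (Y.K i)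

/-- The real blow-up of `D` at the points `p i`: a point and for each `i` a direction at `p i`. -/
def Blow (D : Set P2) (p : ℕ → P2) : Set (P2 × (ℕ → P2)) :=
  {y | y.1 ∈ D ∧ ∀ i, ‖y.2 i‖ = 1 ∧ (y.1 ≠ p i → y.2 i = ‖y.1 - p i‖⁻¹ • (y.1 - p i))}

end Pool.Agent.Carpet
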