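import Pool.Agent.Lib_helper45.Carpet.Frame

/-! # Block GEO: geometry of the form `B` and elementary facts on `Rep` -/

set_option autoImplicit false

namespace Pool.Agent.Carpet

open scoped ComplexConjugate InnerProductSpace Topology

section Form

variable {𝕜 E : Type*} [RCLike 𝕜] [NormedAddCommGroup E] [InnerProductSpace 𝕜 E]

theorem B_self (v : E × 𝕜) : B v v = ((q v : ℝ) : 𝕜) := by
  rw [B, q, inner_self_eq_norm_sq_to_K, RCLike.conj_mul]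
  push_cast
  rfl

theorem B_conj (u v : E × 𝕜) : conj (B u v) = B v u := by
  rw [B, B, map_sub, map_mul, inner_conj_symm, RCLike.conj_conj, mul_comm]

theorem norm_B_comm (u v : E × 𝕜) : ‖B u v‖ = ‖B v u‖ := by
  rw [← B_conj u v, RCLike.norm_conj]

theorem B_add_right (u v w : E × 𝕜) : B u (v + w) = B u v + B u w := by
  simp only [B, Prod.fst_add, Prod.snd_add, inner_add_right]
  ring

theorem B_add_left (u v w : E × 𝕜) : B (u + v) w = B u w + B v w := by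
  simp only [B, Prod.fst_add, Prod.snd_add, inner_add_left, map_add]
  ring

theorem B_sub_right (u v w : E × 𝕜) : B u (v - w) = B u v - B u w := by
  simp only [B, Prod.fst_sub, Prod.snd_sub, inner_sub_right]
  ring

theorem B_sub_left (u v w : E × 𝕜) : B (u - v) w = B u w - B v w := by
  simp only [B, Prod.fst_sub, Prod.snd_sub, inner_sub_left, map_sub]
  ring

theorem B_smul_right (c : 𝕜) (u v : E × 𝕜) : B u (c • v) = c * B u v := by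
  simp only [B, Prod.smul_fst, Prod.smul_snd, inner_smul_right, smul_eq_mul]
  ring

theorem B_smul_left (c : 𝕜) (u v : E × 𝕜) : B (c • u) v = conj c * B u v := by
  simp only [B, Prod.smul_fst, Prod.smul_snd, inner_smul_left, smul_eq_mul, map_mul]
  ring

theorem B_o_right (v : E × 𝕜) : B v o = - conj v.2 := by
  simp [B, o]

theorem B_o_left (v : E × 𝕜) : B o v = - v.2 := by
  simp [B, o]

theorem q_smul (c : 𝕜) (v : E × 𝕜) : q (c • v) = ‖c‖ ^ 2 * q v := by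
  simp only [q, Prod.smul_fst, Prod.smul_snd, norm_smul]
  ring

theorem q_o : q (o : E × 𝕜) = -1 := by
  simp [q, o]

theorem nsq_smul (c : 𝕜) (v : E × 𝕜) : nsq (c • v) = ‖c‖ ^ 2 * nsq v := by
  simp only [nsq, Prod.smul_fst, Prod.smul_snd, norm_smul]
  ring

private theorem geo_le_of_q {u : E × 𝕜} (hu : q u ≤ 0) : ‖u.1‖ ≤ ‖u.2‖ := by
  rw [q] at hu
  exact le_of_sq_le_sq (by linarith) (norm_nonneg _)
where
  le_of_sq_le_sq {a b : ℝ} (h : a ^ 2 ≤ b ^ 2) (hb : 0 ≤ b) : a ≤ b := by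
    nlinarith [sq_nonneg (a - b), sq_nonneg (a + b)]

theorem norm_B_le {u v : E × 𝕜} (hu : q u ≤ 0) (hv : q v ≤ 0) : ‖B u v‖ ≤ 2 * ‖u.2‖ * ‖v.2‖ := by
  have h1 := geo_le_of_q hu
  have h2 := geo_le_of_q hv
  calc ‖B u v‖ ≤ ‖⟪u.1, v.1⟫_𝕜‖ + ‖conj u.2 * v.2‖ := norm_sub_le _ _
    _ ≤ ‖u.1‖ * ‖v.1‖ + ‖u.2‖ * ‖v.2‖ := by
        rw [norm_mul, RCLike.norm_conj]
        gcongr
        exact norm_inner_le_norm _ _
    _ ≤ ‖u.2‖ * ‖v.2‖ + ‖u.2‖ * ‖v.2‖ := by gcongr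
    _ = _ := by ring

theorem norm_B_le' (u v : E × 𝕜) : ‖B u v‖ ≤ √(nsq u) * √(nsq v) := by
  have h0 : ‖B u v‖ ≤ ‖u.1‖ * ‖v.1‖ + ‖u.2‖ * ‖v.2‖ := by
    calc ‖B u v‖ ≤ ‖⟪u.1, v.1⟫_𝕜‖ + ‖conj u.2 * v.2‖ := norm_sub_le _ _
      _ ≤ ‖u.1‖ * ‖v.1‖ + ‖u.2‖ * ‖v.2‖ := by
        rw [norm_mul, RCLike.norm_conj]
        gcongr
        exact norm_inner_le_norm _ _
  rw [← Real.sqrt_mul (by unfold nsq; positivity)]
  refine h0.trans (Real.le_sqrt_of_sq_le ?_)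
  unfold nsq
  nlinarith [sq_nonneg (‖u.1‖ * ‖v.2‖ - ‖u.2‖ * ‖v.1‖)]

theorem nsq_le {v : E × 𝕜} (hv : q v ≤ 0) : nsq v ≤ 2 * ‖v.2‖ ^ 2 := by
  unfold q at hv
  unfold nsq
  linarith

private theorem geo_perp {X v : E × 𝕜} (hv : B X v = 0) :
    ‖X.2‖ * ‖v.2‖ ≤ ‖X.1‖ * ‖v.1‖ := by
  have h1 : ⟪X.1, v.1⟫_𝕜 = conj X.2 * v.2 := by
    rw [B, sub_eq_zero] at hv
    exact hv
  calc ‖X.2‖ * ‖v.2‖ = ‖conj X.2 * v.2‖ := by rw [norm_mul, RCLike.norm_conj]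
    _ = ‖⟪X.1, v.1⟫_𝕜‖ := by rw [h1]
    _ ≤ _ := norm_inner_le_norm _ _

private theorem geo_lt_of_q {X : E × 𝕜} (hX : q X < 0) : ‖X.1‖ < ‖X.2‖ := by
  rw [q] at hX
  have h1 := norm_nonneg X.1
  have h2 := norm_nonneg X.2
  nlinarith

theorem perp_nonneg {X v : E × 𝕜} (hX : q X < 0) (hv : B X v = 0) : 0 ≤ q v := by
  by_contra hlt
  push Not at hlt
  have h1 := geo_perp hv
  have h2 := geo_lt_of_q hX
  have h3 := geo_lt_of_q hlt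
  have h4 := norm_nonneg v.1
  have h5 := norm_nonneg X.1
  nlinarith

theorem perp_pos {X v : E × 𝕜} (hX : q X < 0) (hv : B X v = 0) (h0 : v ≠ 0) : 0 < q v := by
  by_contra hlt
  push Not at hlt
  have h1 := geo_perp hv
  have h2 := geo_lt_of_q hX
  have h3 := geo_le_of_q hlt
  have h4 := norm_nonneg v.1
  have h5 := norm_nonneg X.1
  have h6 := norm_nonneg v.2
  have h7 : ‖v.2‖ = 0 := by
    by_contra hne
    have h8 : 0 < ‖v.2‖ := lt_of_le_of_ne h6 (Ne.symm hne)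
    nlinarith
  have h9 : ‖v.1‖ = 0 := by linarith
  apply h0
  ext
  · simpa using norm_eq_zero.1 h9
  · simpa using norm_eq_zero.1 h7

theorem q_add (u v : E × 𝕜) : q (u + v) = q u + q v + 2 * RCLike.re (B u v) := by
  have h1 : (q (u + v) : ℝ) = RCLike.re (B (u + v) (u + v)) := by
    rw [B_self, RCLike.ofReal_re]
  rw [h1, B_add_left, B_add_right, B_add_right, B_self, B_self]
  simp only [map_add, RCLike.ofReal_re]
  have h2 : RCLike.re (B v u) = RCLike.re (B u v) := by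
    rw [← B_conj u v, RCLike.conj_re]
  rw [h2]; ring

theorem q_sub (u v : E × 𝕜) : q (u - v) = q u + q v - 2 * RCLike.re (B u v) := by
  have h1 : u - v = u + (-1 : 𝕜) • v := by simp [sub_eq_add_neg]
  rw [h1, q_add, q_smul, B_smul_right]
  simp
  ring

/-- Cauchy–Schwarz on the orthogonal complement of a negative vector. -/
theorem cs_perp {X u v : E × 𝕜} (hX : q X < 0) (hu : B X u = 0) (hv : B X v = 0) :
    ‖B u v‖ ^ 2 ≤ q u * q v := by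
  by_cases h0 : v = 0
  · subst h0
    have : B u (0 : E × 𝕜) = 0 := by simp [B]
    rw [this]
    simp [q]
  have hq := perp_pos hX hv h0
  set b := B u v with hb
  set c : 𝕜 := -(conj b) / ((q v : ℝ) : 𝕜) with hc
  have h1 : B X (u + c • v) = 0 := by
    rw [B_add_right, B_smul_right, hu, hv]; simp
  have h2 := perp_nonneg hX h1
  rw [q_add, q_smul, B_smul_right, ← hb] at h2
  have h3 : ‖c‖ ^ 2 = ‖b‖ ^ 2 / (q v) ^ 2 := by
    rw [hc, norm_div, norm_neg, RCLike.norm_conj, RCLike.norm_ofReal, abs_of_pos hq]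
    ring
  have h4 : RCLike.re (c * b) = - (‖b‖ ^ 2 / q v) := by
    have : c * b = ((-(‖b‖ ^ 2 / q v) : ℝ) : 𝕜) := by
      rw [hc]
      push_cast
      rw [← RCLike.conj_mul]
      ring
    rw [this, RCLike.ofReal_re]
  rw [h3, h4] at h2
  have h5 : ‖b‖ ^ 2 / q v ^ 2 * q v = ‖b‖ ^ 2 / q v := by
    field_simp
  rw [h5] at h2
  have h6 : ‖b‖ ^ 2 / q v ≤ q u := by linarith
  rwa [div_le_iff₀ hq] at h6

/-- Reversed Cauchy–Schwarz. -/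
theorem cs_rev {u v : E × 𝕜} (hu : q u < 0) (hv : q v < 0) : q u * q v ≤ ‖B u v‖ ^ 2 := by
  have hqu : ((q u : ℝ) : 𝕜) ≠ 0 := by
    simpa using hu.ne
  set a : 𝕜 := B u v / ((q u : ℝ) : 𝕜) with ha
  set v' := v - a • u with hv'
  have h1 : B u v' = 0 := by
    rw [hv', B_sub_right, B_smul_right, B_self, ha, div_mul_cancel₀ _ hqu, sub_self]
  have h2 := perp_nonneg hu h1
  have h3 : v = v' + a • u := by rw [hv']; abel
  have h4 : q v = q v' + ‖a‖ ^ 2 * q u := by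
    conv_lhs => rw [h3]
    rw [q_add, q_smul, B_smul_right, ← B_conj u v', h1]
    simp
  have h5 : ‖a‖ ^ 2 = ‖B u v‖ ^ 2 / (q u) ^ 2 := by
    rw [ha, norm_div, RCLike.norm_ofReal, div_pow, sq_abs]
  have hq0 : q u ≠ 0 := hu.ne
  have h6 : ‖a‖ ^ 2 * q u * q u = ‖B u v‖ ^ 2 := by
    rw [h5]; field_simp
  nlinarith

theorem one_sub_inner_triangle {x y z : E} (hx : ‖x‖ ≤ 1) (hy : ‖y‖ ≤ 1) (hz : ‖z‖ ≤ 1) :
    ‖1 - ⟪x, z⟫_𝕜‖ ≤ 2 * (‖1 - ⟪x, y⟫_𝕜‖ + ‖1 - ⟪y, z⟫_𝕜‖) := by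
  set s := ⟪x, y⟫_𝕜 with hs
  set t := ⟪y, z⟫_𝕜 with ht
  set b := ⟪x, z⟫_𝕜 - s * t with hb
  have hs1 : ‖s‖ ≤ 1 := (norm_inner_le_norm _ _).trans (by
    calc ‖x‖ * ‖y‖ ≤ 1 * 1 := by gcongr
      _ = 1 := by ring)
  have ht1 : ‖t‖ ≤ 1 := (norm_inner_le_norm _ _).trans (by
    calc ‖y‖ * ‖z‖ ≤ 1 * 1 := by gcongr
      _ = 1 := by ring)
  -- the positive semidefinite form
  have hpsd : ∀ a : E, 0 ≤ ‖a‖ ^ 2 - ‖⟪a, y⟫_𝕜‖ ^ 2 := by
    intro a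
    have h1 := norm_inner_le_norm (𝕜 := 𝕜) a y
    have h2 : ‖⟪a, y⟫_𝕜‖ ≤ ‖a‖ := h1.trans (by
      calc ‖a‖ * ‖y‖ ≤ ‖a‖ * 1 := by gcongr
        _ = ‖a‖ := mul_one _)
    have h3 := norm_nonneg ⟪a, y⟫_𝕜
    nlinarith
  have hquad : ∀ r : ℝ, 0 ≤ (‖b‖ ^ 2 * (‖z‖ ^ 2 - ‖t‖ ^ 2)) * (r * r) + (-2 * ‖b‖ ^ 2) * r +
      (‖x‖ ^ 2 - ‖s‖ ^ 2) := by
    intro r
    set c : 𝕜 := -((r : ℝ) : 𝕜) * conj b with hc
    have h1 := hpsd (x + c • z)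
    have hcn : ‖c‖ ^ 2 = r ^ 2 * ‖b‖ ^ 2 := by
      rw [hc, norm_mul, norm_neg, RCLike.norm_ofReal, RCLike.norm_conj, mul_pow, sq_abs]
    have h2 : ‖x + c • z‖ ^ 2 = ‖x‖ ^ 2 + ‖c‖ ^ 2 * ‖z‖ ^ 2 + 2 * RCLike.re (c * ⟪x, z⟫_𝕜) := by
      rw [norm_add_sq (𝕜 := 𝕜), inner_smul_right, norm_smul]
      ring
    have h3 : ‖⟪x + c • z, y⟫_𝕜‖ ^ 2 = ‖s‖ ^ 2 + ‖c‖ ^ 2 * ‖t‖ ^ 2 + 2 * RCLike.re (c * (s * t)) := by
      have e1 : ⟪x + c • z, y⟫_𝕜 = s + conj c * conj t := by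
        rw [inner_add_left, inner_smul_left, ht, inner_conj_symm]
      have e2 : ((‖⟪x + c • z, y⟫_𝕜‖ ^ 2 : ℝ) : 𝕜) =
          ((‖s‖ ^ 2 + ‖c‖ ^ 2 * ‖t‖ ^ 2 + 2 * RCLike.re (c * (s * t)) : ℝ) : 𝕜) := by
        push_cast
        rw [← RCLike.conj_mul, e1]
        have e3 : (2 : 𝕜) * ((RCLike.re (c * (s * t)) : ℝ) : 𝕜) =
            c * (s * t) + conj (c * (s * t)) := by
          rw [RCLike.add_conj]
        rw [e3, ← RCLike.conj_mul s, ← RCLike.conj_mul c, ← RCLike.conj_mul t]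
        simp only [map_add, map_mul, RCLike.conj_conj]
        ring
      exact_mod_cast e2
    have h4 : RCLike.re (c * ⟪x, z⟫_𝕜) - RCLike.re (c * (s * t)) = - (r * ‖b‖ ^ 2) := by
      rw [← map_sub, ← mul_sub, ← hb, hc]
      have : -((r : ℝ) : 𝕜) * conj b * b = ((-(r * ‖b‖ ^ 2) : ℝ) : 𝕜) := by
        push_cast
        rw [← RCLike.conj_mul]
        ring
      rw [this, RCLike.ofReal_re]
    rw [h2, h3, hcn] at h1
    nlinarith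
  have hdisc := discrim_le_zero hquad
  rw [discrim] at hdisc
  have hA : ‖x‖ ^ 2 - ‖s‖ ^ 2 ≤ 2 * ‖1 - s‖ := by
    have h1 : 1 - ‖s‖ ≤ ‖1 - s‖ := by
      have := norm_sub_norm_le (1 : 𝕜) s
      simpa using this
    have h2 : ‖x‖ ^ 2 ≤ 1 := by
      have := norm_nonneg x
      nlinarith
    have h3 := norm_nonneg s
    nlinarith
  have hC : ‖z‖ ^ 2 - ‖t‖ ^ 2 ≤ 2 * ‖1 - t‖ := by
    have h1 : 1 - ‖t‖ ≤ ‖1 - t‖ := by
      have := norm_sub_norm_le (1 : 𝕜) t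
      simpa using this
    have h2 : ‖z‖ ^ 2 ≤ 1 := by
      have := norm_nonneg z
      nlinarith
    have h3 := norm_nonneg t
    nlinarith
  have hbb : ‖b‖ ^ 2 ≤ 4 * (‖1 - s‖ * ‖1 - t‖) := by
    by_cases h0 : ‖b‖ ^ 2 = 0
    · rw [h0]; positivity
    have h0' : 0 < ‖b‖ ^ 2 := lt_of_le_of_ne (by positivity) (Ne.symm h0)
    have h1 : ‖b‖ ^ 2 ≤ (‖z‖ ^ 2 - ‖t‖ ^ 2) * (‖x‖ ^ 2 - ‖s‖ ^ 2) := by
      have : ‖b‖ ^ 2 * ‖b‖ ^ 2 ≤ ‖b‖ ^ 2 * ((‖z‖ ^ 2 - ‖t‖ ^ 2) * (‖x‖ ^ 2 - ‖s‖ ^ 2)) := by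
        nlinarith
      exact le_of_mul_le_mul_left this h0'
    have hx0 : 0 ≤ ‖x‖ ^ 2 - ‖s‖ ^ 2 := hpsd x
    have hz0 : 0 ≤ ‖z‖ ^ 2 - ‖t‖ ^ 2 := by
      have := hpsd z
      rwa [← norm_conj_inner' z y, ← ht] at this
    calc ‖b‖ ^ 2 ≤ (‖z‖ ^ 2 - ‖t‖ ^ 2) * (‖x‖ ^ 2 - ‖s‖ ^ 2) := h1
      _ ≤ (2 * ‖1 - t‖) * (2 * ‖1 - s‖) := by gcongr
      _ = _ := by ring
  have hb1 : ‖b‖ ≤ ‖1 - s‖ + ‖1 - t‖ := by
    have h1 := norm_nonneg (1 - s)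
    have h2 := norm_nonneg (1 - t)
    have h3 : ‖b‖ ^ 2 ≤ (‖1 - s‖ + ‖1 - t‖) ^ 2 := by
      nlinarith [sq_nonneg (‖1 - s‖ - ‖1 - t‖)]
    exact abs_le_of_sq_le_sq' h3 (by positivity) |>.2
  have hmain : (1 : 𝕜) - ⟪x, z⟫_𝕜 = (1 - s) + s * (1 - t) - b := by
    rw [hb]; ring
  rw [hmain]
  calc ‖(1 - s) + s * (1 - t) - b‖ ≤ ‖(1 - s) + s * (1 - t)‖ + ‖b‖ := norm_sub_le _ _
    _ ≤ (‖1 - s‖ + ‖s * (1 - t)‖) + ‖b‖ := by gcongr; exact norm_add_le _ _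
    _ ≤ (‖1 - s‖ + 1 * ‖1 - t‖) + (‖1 - s‖ + ‖1 - t‖) := by
        rw [norm_mul]
        gcongr
    _ = _ := by ring
where
  norm_conj_inner' (a b : E) : ‖⟪b, a⟫_𝕜‖ = ‖⟪a, b⟫_𝕜‖ := by
    rw [← inner_conj_symm, RCLike.norm_conj]

theorem one_sub_inner_ge {x y : E} (hx : ‖x‖ ≤ 1) (hy : ‖y‖ ≤ 1) :
    ‖x - y‖ ^ 2 ≤ 2 * ‖1 - ⟪x, y⟫_𝕜‖ := by
  rw [norm_sub_sq (𝕜 := 𝕜)]
  have h1 : RCLike.re (1 - ⟪x, y⟫_𝕜) ≤ ‖1 - ⟪x, y⟫_𝕜‖ := RCLike.re_le_norm _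
  rw [map_sub, RCLike.one_re] at h1
  have h2 := norm_nonneg x
  have h3 := norm_nonneg y
  nlinarith

theorem one_sub_norm_le {x y : E} (hx : ‖x‖ ≤ 1) (hy : ‖y‖ ≤ 1) :
    1 - ‖x‖ ≤ ‖1 - ⟪x, y⟫_𝕜‖ := by
  have h1 := norm_sub_norm_le (1 : 𝕜) ⟪x, y⟫_𝕜
  have h2 := norm_inner_le_norm (𝕜 := 𝕜) x y
  have h3 := norm_nonneg x
  rw [norm_one] at h1
  nlinarith

theorem B_lift {u v : E × 𝕜} (hu : u.2 ≠ 0) (hv : v.2 ≠ 0) :
    ‖B u v‖ = ‖u.2‖ * ‖v.2‖ * ‖1 - ⟪(u.2)⁻¹ • u.1, (v.2)⁻¹ • v.1⟫_𝕜‖ := by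
  have h1 : B u v = -(conj u.2 * v.2 * (1 - ⟪(u.2)⁻¹ • u.1, (v.2)⁻¹ • v.1⟫_𝕜)) := by
    rw [inner_smul_left, inner_smul_right, B, map_inv₀]
    have hu' : conj u.2 ≠ 0 := by simpa using hu
    field_simp
    ring
  rw [h1, norm_neg, norm_mul, norm_mul, RCLike.norm_conj]

/-- Quasi-Ptolemy inequality with base point `o`. -/
theorem ptolemy {u v w : E × 𝕜} (hu : q u ≤ 0) (hv : q v ≤ 0) (hw : q w ≤ 0) :
    ‖B u w‖ * ‖v.2‖ ≤ 2 * (‖B u v‖ * ‖w.2‖ + ‖u.2‖ * ‖B v w‖) := by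
  have hz : ∀ x : E × 𝕜, q x ≤ 0 → x.2 = 0 → x = 0 := by
    intro x hx h2
    have h1 := geo_le_of_q hx
    rw [h2, norm_zero] at h1
    have h3 : x.1 = 0 := norm_le_zero_iff.1 h1
    ext
    · simpa using h3
    · simpa using h2
  have hn : ∀ x : E × 𝕜, q x ≤ 0 → x.2 ≠ 0 → ‖(x.2)⁻¹ • x.1‖ ≤ 1 := by
    intro x hx h2
    have h1 := geo_le_of_q hx
    rw [norm_smul, norm_inv, inv_mul_le_iff₀ (norm_pos_iff.2 h2)]
    simpa using h1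
  by_cases hv0 : v.2 = 0
  · rw [hv0, norm_zero, mul_zero]; positivity
  by_cases hu0 : u.2 = 0
  · rw [hz u hu hu0]
    have : B (0 : E × 𝕜) w = 0 := by simp [B]
    rw [this, norm_zero, zero_mul]
    positivity
  by_cases hw0 : w.2 = 0
  · rw [hz w hw hw0]
    have : B u (0 : E × 𝕜) = 0 := by simp [B]
    rw [this, norm_zero, zero_mul]
    positivity
  rw [B_lift hu0 hw0, B_lift hu0 hv0, B_lift hv0 hw0]
  have h1 := one_sub_inner_triangle (𝕜 := 𝕜) (hn u hu hu0) (hn v hv hv0) (hn w hw hw0)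
  have h2 := mul_le_mul_of_nonneg_left h1
    (mul_nonneg (mul_nonneg (norm_nonneg u.2) (norm_nonneg v.2)) (norm_nonneg w.2))
  nlinarith

/-- Angle inequality. -/
theorem angle_le {X v y y' : E × 𝕜} (hX : q X = -1) (hv : q v ≤ 1) (hXv : B X v = 0)
    (hy : q y < 0) (hy' : q y' < 0) :
    ‖B y v / B y X - B y' v / B y' X‖ ^ 2 * (‖B y X‖ * ‖B y' X‖) ≤ 2 * ‖B y y'‖ := by
  have hX0 : q X < 0 := by rw [hX]; norm_num
  have hne : ∀ z : E × 𝕜, q z < 0 → B z X ≠ 0 := by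
    intro z hz h0
    have h1 := cs_rev hz hX0
    rw [h0, norm_zero] at h1
    nlinarith
  have hα := hne y hy
  have hα' := hne y' hy'
  set α := B y X with hαd
  set α' := B y' X with hαd'
  have hcα : conj α ≠ 0 := by simpa using hα
  have hcα' : conj α' ≠ 0 := by simpa using hα'
  set z : E × 𝕜 := (conj α)⁻¹ • y with hz
  set z' : E × 𝕜 := (conj α')⁻¹ • y' with hz'
  have e1 : B z v = B y v / α := by
    rw [hz, B_smul_left, map_inv₀, RCLike.conj_conj]; ring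
  have e2 : B z' v = B y' v / α' := by
    rw [hz', B_smul_left, map_inv₀, RCLike.conj_conj]; ring
  have e3 : B z X = 1 := by
    rw [hz, B_smul_left, map_inv₀, RCLike.conj_conj, ← hαd, inv_mul_cancel₀ hα]
  have e4 : B z' X = 1 := by
    rw [hz', B_smul_left, map_inv₀, RCLike.conj_conj, ← hαd', inv_mul_cancel₀ hα']
  have e5 : B X (z - z') = 0 := by
    rw [← B_conj, B_sub_left, e3, e4]; simp
  have h1 := cs_perp hX0 e5 hXv
  have h2 := perp_nonneg hX0 e5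
  have h3 : ‖B (z - z') v‖ ^ 2 ≤ q (z - z') := by
    have := perp_nonneg hX0 hXv
    nlinarith
  have hqz : q z ≤ 0 := by
    rw [hz, q_smul]
    exact mul_nonpos_of_nonneg_of_nonpos (by positivity) hy.le
  have hqz' : q z' ≤ 0 := by
    rw [hz', q_smul]
    exact mul_nonpos_of_nonneg_of_nonpos (by positivity) hy'.le
  have h4 : q (z - z') ≤ 2 * ‖B z z'‖ := by
    rw [q_sub]
    have h5 : -RCLike.re (B z z') ≤ ‖B z z'‖ := by
      have := RCLike.re_le_norm (-B z z')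
      rwa [map_neg, norm_neg] at this
    linarith
  have h6 : ‖B z z'‖ * (‖α‖ * ‖α'‖) = ‖B y y'‖ := by
    rw [hz, hz', B_smul_left, B_smul_right, map_inv₀, RCLike.conj_conj, norm_mul, norm_mul,
      norm_inv, norm_inv, RCLike.norm_conj]
    have a1 : ‖α‖ ≠ 0 := norm_ne_zero_iff.2 hα
    have a2 : ‖α'‖ ≠ 0 := norm_ne_zero_iff.2 hα'
    field_simp
  rw [B_sub_left, e1, e2] at h3
  calc ‖B y v / α - B y' v / α'‖ ^ 2 * (‖α‖ * ‖α'‖) ≤ (2 * ‖B z z'‖) * (‖α‖ * ‖α'‖) := by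
        gcongr
        exact h3.trans h4
    _ = 2 * ‖B y y'‖ := by rw [← h6]; ring

end Form

section RepLemmas

variable {Γ 𝕜 E : Type*} [Group Γ] [RCLike 𝕜] [NormedAddCommGroup E] [InnerProductSpace 𝕜 E]
  (R : Rep Γ 𝕜 E)

theorem Rep.q_act (g : Γ) (v : E × 𝕜) : q (R.ρ g v) = q v := by
  have h := R.pres g v v
  rw [B_self, B_self] at h
  exact_mod_cast h

theorem Rep.ρ_mul (g h : Γ) (v : E × 𝕜) : R.ρ (g * h) v = R.ρ g (R.ρ h v) := by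
  rw [map_mul, Module.End.mul_apply]

theorem Rep.ρ_inv_act (g : Γ) (v : E × 𝕜) : R.ρ g⁻¹ (R.ρ g v) = v := by
  rw [← Rep.ρ_mul, inv_mul_cancel, map_one, Module.End.one_apply]

theorem Rep.B_inv (g : Γ) (u v : E × 𝕜) : B (R.ρ g⁻¹ u) v = B u (R.ρ g v) := by
  rw [← R.pres g, ← Rep.ρ_mul, mul_inv_cancel, map_one, Module.End.one_apply]

theorem Rep.N_one : R.N 1 = 1 := by
  rw [Rep.N, map_one, Module.End.one_apply]
  simp [o]

private theorem geo_N_sq (g : Γ) : R.N g ^ 2 = 1 + ‖(R.ρ g o).1‖ ^ 2 := by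
  have h := R.q_act g o
  rw [q_o, q] at h
  rw [Rep.N]
  linarith

theorem Rep.one_le_N (g : Γ) : 1 ≤ R.N g := by
  have h := geo_N_sq R g
  have h1 : 0 ≤ R.N g := norm_nonneg _
  nlinarith [sq_nonneg ‖(R.ρ g o).1‖]

private theorem geo_N_eq_B (g : Γ) : R.N g = ‖B o (R.ρ g o)‖ := by
  rw [B_o_left, norm_neg, Rep.N]

theorem Rep.N_inv (g : Γ) : R.N g⁻¹ = R.N g := by
  rw [geo_N_eq_B, norm_B_comm, R.B_inv, geo_N_eq_B]

theorem Rep.N_eq (g h : Γ) : R.N (g⁻¹ * h) = ‖B (R.ρ g o) (R.ρ h o)‖ := by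
  rw [geo_N_eq_B, Rep.ρ_mul, ← R.B_inv, inv_inv]

theorem Rep.N_mul_le (g h : Γ) : R.N (g * h) ≤ 2 * R.N g * R.N h := by
  have h1 := R.N_eq g⁻¹ h
  rw [inv_inv] at h1
  rw [h1]
  have h2 := norm_B_le (u := R.ρ g⁻¹ o) (v := R.ρ h o) (by rw [R.q_act, q_o]; norm_num)
    (by rw [R.q_act, q_o]; norm_num)
  refine h2.trans (le_of_eq ?_)
  rw [← R.N_inv g]
  rfl

private theorem geo_N_ne (g : Γ) : (R.ρ g o).2 ≠ 0 := by
  have h := R.one_le_N g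
  rw [Rep.N] at h
  intro h0
  rw [h0, norm_zero] at h
  linarith

theorem Rep.one_sub_norm_pt (g : Γ) : (1 - ‖R.pt g‖ ^ 2) * R.N g ^ 2 = 1 := by
  have h := geo_N_sq R g
  have h1 : ‖R.pt g‖ * R.N g = ‖(R.ρ g o).1‖ := by
    rw [Rep.pt, Rep.N, norm_smul, norm_inv]
    have := norm_ne_zero_iff.2 (geo_N_ne R g)
    field_simp
  calc (1 - ‖R.pt g‖ ^ 2) * R.N g ^ 2 = R.N g ^ 2 - (‖R.pt g‖ * R.N g) ^ 2 := by ring
    _ = 1 := by rw [h1, h]; ring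

theorem Rep.norm_pt_lt (g : Γ) : ‖R.pt g‖ < 1 := by
  have h := R.one_sub_norm_pt g
  have h1 := R.one_le_N g
  by_contra hlt
  push Not at hlt
  have h2 : 1 - ‖R.pt g‖ ^ 2 ≤ 0 := by nlinarith
  nlinarith [sq_nonneg (R.N g)]

theorem Rep.one_sub_inner_pt (g h : Γ) :
    ‖1 - ⟪R.pt g, R.pt h⟫_𝕜‖ * (R.N g * R.N h) = R.N (g⁻¹ * h) := by
  rw [R.N_eq, B_lift (geo_N_ne R g) (geo_N_ne R h), Rep.pt, Rep.pt, Rep.N, Rep.N]
  ring

end RepLemmas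

section PathLemmas

variable {St Γ : Type*} [Group Γ] {T : St → Γ → St → Prop}

theorem Path.append {s s' s'' : St} {l₁ l₂ : List Γ} (h₁ : Path T s l₁ s') (h₂ : Path T s' l₂ s'') :
    Path T s (l₁ ++ l₂) s'' := by
  induction h₁ with
  | nil s => simpa using h₂
  | cons h p ih => exact Path.cons h (ih h₂)

theorem Path.split {s s'' : St} {l₁ l₂ : List Γ} (h : Path T s (l₁ ++ l₂) s'') :
    ∃ s', Path T s l₁ s' ∧ Path T s' l₂ s'' := by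
  induction l₁ generalizing s with
  | nil => exact ⟨s, Path.nil s, by simpa using h⟩
  | cons g l ih =>
    rw [List.cons_append] at h
    cases h with
    | cons h p =>
      obtain ⟨s1, h1, h2⟩ := ih p
      exact ⟨s1, Path.cons h h1, h2⟩

theorem Path.take_drop {s s'' : St} {l : List Γ} (h : Path T s l s'') (k : ℕ) :
    ∃ s', Path T s (l.take k) s' ∧ Path T s' (l.drop k) s'' := by
  apply Path.split
  rwa [List.take_append_drop]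

theorem Path.mem {s s'' : St} {l : List Γ} (h : Path T s l s'') {g : Γ} (hg : g ∈ l) :
    ∃ s s', T s g s' := by
  induction h with
  | nil s => simp at hg
  | cons h p ih =>
    rcases List.mem_cons.1 hg with rfl | h1
    · exact ⟨_, _, h⟩
    · exact ih h1

end PathLemmas

end Pool.Agent.Carpet
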