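import Pool.Agent.Lib_helper45.Carpet.Geo

/-! # Block GROW (helper20) -/

set_option autoImplicit false

namespace Pool.Agent.Carpet

variable {St Γ 𝕜 E : Type*} [Group Γ] [RCLike 𝕜] [NormedAddCommGroup E] [InnerProductSpace 𝕜 E]

theorem grow_q (R : Rep Γ 𝕜 E) (g : Γ) : q (R.ρ g o) = -1 := by
  rw [Rep.q_act, q_o]

omit [InnerProductSpace 𝕜 E] in
theorem grow_one_le_nsq {v : E × 𝕜} (hv : q v = -1) : 1 ≤ nsq v := by
  unfold q at hv
  unfold nsq
  nlinarith [sq_nonneg ‖v.1‖]

theorem growth_of_cert {T : St → Γ → St → Prop} (hT : AutGood T) {R : Rep Γ 𝕜 E}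
    (h : Certified R T) : Growth R T := by
  obtain ⟨Q, C, ε, hC, hε, -, hbd, -, hlmi⟩ := h
  set δ : ℝ := ε / (2 * (C + 1)) with hδ
  have hδ0 : 0 < δ := by positivity
  have hδ1 : 2 * (C + 1) * δ = ε := by rw [hδ]; field_simp
  have key : ∀ s l s', Path T s l s' →
      (1 + δ) ^ l.length - (C + 1) ≤ -Q s (R.ρ l.prod o) := by
    intro s l s' hp
    induction hp with
    | nil s =>
      simp only [List.length_nil, pow_zero, List.prod_nil]
      have h1 := hbd s (R.ρ (1 : Γ) o)
      have h2 : nsq (R.ρ (1 : Γ) (o : E × 𝕜)) = 1 := by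
        rw [map_one]
        simp [nsq, o]
      rw [h2, mul_one] at h1
      have := (abs_le.1 h1).2
      linarith
    | @cons s s' s'' g l hst hp ih =>
      rw [List.prod_cons, List.length_cons, Rep.ρ_mul]
      set v := R.ρ l.prod (o : E × 𝕜) with hv
      have hq : q v = -1 := grow_q R _
      have h1 := hlmi s g s' hst v (by rw [hq]; norm_num)
      have h2 := grow_one_le_nsq hq
      have h3 : -Q s' v ≤ C * nsq v := by
        have := (abs_le.1 (hbd s' v)).1
        linarith
      set X : ℝ := (1 + δ) ^ l.length with hX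
      have hX0 : 0 < X := by positivity
      have h4 : δ * X ≤ ε * nsq v := by
        rcases le_total X (2 * (C + 1)) with h5 | h5
        · calc δ * X ≤ δ * (2 * (C + 1)) := by gcongr
            _ = ε * 1 := by rw [mul_comm, hδ1, mul_one]
            _ ≤ ε * nsq v := by gcongr
        · have h6 : X / 2 ≤ C * nsq v := by linarith
          have h7 : X ≤ 2 * (C + 1) * nsq v := by nlinarith
          calc δ * X ≤ δ * (2 * (C + 1) * nsq v) := by gcongr
            _ = ε * nsq v := by rw [← hδ1]; ring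
      have h8 : (1 + δ) ^ (l.length + 1) = X + δ * X := by rw [pow_succ, ← hX]; ring
      rw [h8]
      linarith
  refine ⟨1 / √(3 * C + 1), √(1 + δ), by positivity, ?_, ?_⟩
  · rw [show (1 : ℝ) = √1 by simp]
    apply Real.sqrt_lt_sqrt (by norm_num)
    simp only [Real.sqrt_one]
    linarith
  · intro s l s' hp
    have h1 := key s l s' hp
    set v := R.ρ l.prod (o : E × 𝕜) with hv
    have hq : q v = -1 := grow_q R _
    have h2 : nsq v ≤ 2 * ‖v.2‖ ^ 2 := nsq_le (by rw [hq]; norm_num)
    have h3 : -Q s v ≤ C * nsq v := by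
      have := (abs_le.1 (hbd s v)).1
      linarith
    have h4 : 1 ≤ R.N l.prod := R.one_le_N _
    have h5 : ‖v.2‖ = R.N l.prod := rfl
    rw [h5] at h2
    have h6 : (1 + δ) ^ l.length ≤ (3 * C + 1) * R.N l.prod ^ 2 := by
      have h7 : C * nsq v ≤ C * (2 * R.N l.prod ^ 2) := by gcongr
      have h8 : 1 ≤ R.N l.prod ^ 2 := by nlinarith
      nlinarith
    have h9 : √(1 + δ) ^ l.length ≤ √(3 * C + 1) * R.N l.prod := by
      rw [show √(3 * C + 1) * R.N l.prod = √((3 * C + 1) * R.N l.prod ^ 2) by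
          rw [Real.sqrt_mul (by positivity), Real.sqrt_sq (by linarith)]]
      apply Real.le_sqrt_of_sq_le
      rw [← pow_mul, mul_comm, pow_mul, Real.sq_sqrt (by positivity)]
      exact h6
    rw [one_div, inv_mul_le_iff₀ (by positivity)]
    exact h9

end Pool.Agent.Carpet
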