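import Pool.Agent.Lib_helper45.Carpet.Tits

/-! # Block HOLE : the hole vectors (helper82) -/

set_option autoImplicit false

namespace Pool.Agent.Carpet

open scoped Topology InnerProductSpace

theorem hole_B_comm (u v : E3 × ℝ) : B u v = B v u := by
  have h := B_conj u v
  rwa [conj_trivial] at h

theorem hole_B_self (v : E3 × ℝ) : B v v = q v := by
  have h := B_self (𝕜 := ℝ) v
  simpa using h

theorem hole_B_eq (u v : E3 × ℝ) : B u v = ⟪u.1, v.1⟫_ℝ - u.2 * v.2 := by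
  simp [B]

theorem hole_B_sum_left (a : Fin 4 → ℝ) (v : E3 × ℝ) :
    B (∑ k, a k • nK k) v = ∑ k, a k * B (nK k) v := by
  simp only [Fin.sum_univ_four, B_add_left, B_smul_left, conj_trivial]

theorem hole_B_sum_ωK (a : Fin 4 → ℝ) (k : Fin 4) :
    B (∑ i, a i • nK i) (ωK k) = - a k := by
  rw [hole_B_sum_left]
  have h : ∀ i, B (nK i) (ωK k) = if k = i then -1 else 0 := fun i => by
    rw [hole_B_comm, B_ωK_nK]
  simp only [h]
  rw [Finset.sum_eq_single k]
  · simp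
  · intro i _ hi
    rw [if_neg (fun hc => hi hc.symm), mul_zero]
  · intro hk; exact absurd (Finset.mem_univ k) hk

/-- descent induction -/
theorem hole_induction (P : W → Prop) (h1 : P 1)
    (h : ∀ (w : W) (i : Fin 4), cs.length w < cs.length (w * cs.simple i) → P w →
      P (w * cs.simple i)) (w : W) : P w := by
  have main : ∀ n : ℕ, ∀ w : W, cs.length w = n → P w := by
    intro n
    induction n using Nat.strong_induction_on with
    | _ n ih =>
      intro w hw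
      by_cases hw1 : w = 1
      · rw [hw1]; exact h1
      · obtain ⟨i, hi⟩ := cs.exists_rightDescent_of_ne_one hw1
        have hi' : cs.length (w * cs.simple i) < cs.length w := hi
        have h2 : w * cs.simple i * cs.simple i = w := by
          rw [mul_assoc, cs.simple_mul_simple_self, mul_one]
        have h3 := h (w * cs.simple i) i (by rw [h2]; exact hi')
          (ih _ (by rw [← hw]; exact hi') _ rfl)
        rwa [h2] at h3
  exact main _ w rfl

theorem hole_act_simple {R : Rep W ℝ E3} (hR : IsKleinian R) (w : W) (i : Fin 4) (v : E3 × ℝ) :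
    R.ρ (w * cs.simple i) v = R.ρ w (refl (nK i) v) := by
  rw [R.ρ_mul, hR i]

theorem hole_orbit_pos {R : Rep W ℝ E3} (hR : IsKleinian R) (w : W) :
    ∃ a : Fin 4 → ℝ, (∀ k, 0 ≤ a k) ∧ R.ρ w o = o + ∑ k, a k • nK k := by
  refine hole_induction (fun w => ∃ a : Fin 4 → ℝ, (∀ k, 0 ≤ a k) ∧
    R.ρ w o = o + ∑ k, a k • nK k) ⟨fun _ => 0, fun _ => le_rfl, ?_⟩ ?_ w
  · simp
  · rintro w i hlt ⟨a, ha, hw⟩
    obtain ⟨b, hb, hb'⟩ := tits_pos hR w i hlt
    refine ⟨fun k => a k + 2 * (nK i).2 * b k, fun k => ?_, ?_⟩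
    · have := ha k
      have := hb k
      have := nK_two_nonneg i
      positivity
    · rw [hole_act_simple hR, refl_o, map_add, map_smul, hw, hb', add_assoc, Finset.smul_sum,
        ← Finset.sum_add_distrib]
      congr 1
      refine Finset.sum_congr rfl fun k _ => ?_
      rw [add_smul, smul_smul]

theorem hole_ωK_pos {R : Rep W ℝ E3} (hR : IsKleinian R) (k : Fin 4) (w : W) :
    ∃ a : Fin 4 → ℝ, (∀ i, 0 ≤ a i) ∧ R.ρ w (ωK k) = ωK k + ∑ i, a i • nK i ∧
      (R.ρ w (ωK k) = ωK k ∨ 2 ≤ a k) := by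
  refine hole_induction (fun w => ∃ a : Fin 4 → ℝ, (∀ i, 0 ≤ a i) ∧
    R.ρ w (ωK k) = ωK k + ∑ i, a i • nK i ∧ (R.ρ w (ωK k) = ωK k ∨ 2 ≤ a k))
    ⟨fun _ => 0, fun _ => le_rfl, ?_, Or.inl ?_⟩ ?_ w
  · simp
  · simp
  · rintro w i hlt ⟨a, ha, hw, hor⟩
    by_cases hki : k = i
    · subst hki
      obtain ⟨b, hb, hb'⟩ := tits_pos hR w k hlt
      refine ⟨fun j => a j + 2 * b j, fun j => ?_, ?_, Or.inr ?_⟩
      · have := ha j
        have := hb j
        positivity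
      · rw [hole_act_simple hR, refl_ωK, if_pos rfl, map_add, map_smul, hw, hb', add_assoc,
          Finset.smul_sum, ← Finset.sum_add_distrib]
        congr 1
        refine Finset.sum_congr rfl fun j _ => ?_
        rw [add_smul, smul_smul]
      · rcases hor with hor | hor
        · have h1 : B (R.ρ w (nK k)) (R.ρ w (ωK k)) = B (nK k) (ωK k) := R.pres w _ _
          rw [hor, hb', hole_B_sum_ωK, hole_B_comm, B_ωK_nK, if_pos rfl] at h1
          have := ha k
          change 2 ≤ a k + 2 * b k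
          linarith
        · have := hb k
          change 2 ≤ a k + 2 * b k
          linarith
    · refine ⟨a, ha, ?_, ?_⟩
      · rw [hole_act_simple hR, refl_ωK, if_neg hki, zero_smul, add_zero]; exact hw
      · rw [hole_act_simple hR, refl_ωK, if_neg hki, zero_smul, add_zero]; exact hor

/-- The orbit of `o` is future directed. -/
theorem one_le_orbit {R : Rep W ℝ E3} (hR : IsKleinian R) (w : W) : 1 ≤ (R.ρ w o).2 := by
  obtain ⟨a, ha, hw⟩ := hole_orbit_pos hR w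
  rw [hw, Prod.snd_add]
  have h1 : (∑ k, a k • nK k).2 = ∑ k, a k * (nK k).2 := by
    simp only [Fin.sum_univ_four, Prod.snd_add, Prod.smul_snd, smul_eq_mul]
  have h2 : 0 ≤ ∑ k, a k * (nK k).2 :=
    Finset.sum_nonneg fun k _ => mul_nonneg (ha k) (nK_two_nonneg k)
  rw [h1]
  change (1 : ℝ) ≤ 1 + _
  linarith

theorem q_hole {R : Rep W ℝ E3} (_hR : IsKleinian R) {u : E3 × ℝ} (hu : u ∈ Holes R) :
    q u = pK := by
  obtain ⟨w, k, rfl⟩ := hu
  rw [R.q_act, q_ωK]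

/-- The orbit of `o` is on the negative side of every hole vector. -/
theorem orbit_hole {R : Rep W ℝ E3} (hR : IsKleinian R) (w : W) {u : E3 × ℝ} (hu : u ∈ Holes R) :
    B (R.ρ w o) u < 0 := by
  obtain ⟨w', k, rfl⟩ := hu
  rw [← R.B_inv, ← R.ρ_mul]
  obtain ⟨a, ha, hw⟩ := hole_orbit_pos hR (w'⁻¹ * w)
  rw [hw, B_add_left, hole_B_sum_ωK, B_o_left]
  have := ha k
  have := ωK_two_pos k
  linarith

/-- Distinct hole vectors are ultraparallel. -/
theorem hole_hole {R : Rep W ℝ E3} (hR : IsKleinian R) {u u' : E3 × ℝ} (hu : u ∈ Holes R)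
    (hu' : u' ∈ Holes R) (h : u ≠ u') : B u u' < -pK := by
  obtain ⟨w, k, rfl⟩ := hu
  obtain ⟨w', l, rfl⟩ := hu'
  have h1 : B (R.ρ w (ωK k)) (R.ρ w' (ωK l)) = B (ωK k) (R.ρ (w⁻¹ * w') (ωK l)) := by
    rw [hole_B_comm, ← R.B_inv, ← R.ρ_mul, hole_B_comm]
  rw [h1]
  obtain ⟨a, ha, hw, hor⟩ := hole_ωK_pos hR l (w⁻¹ * w')
  have h2 : B (ωK k) (R.ρ (w⁻¹ * w') (ωK l)) = B (ωK k) (ωK l) - a k := by
    rw [hw, B_add_right, hole_B_comm (ωK k) (∑ i, a i • nK i), hole_B_sum_ωK]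
    ring
  by_cases hkl : k = l
  · subst hkl
    rcases hor with hor | hor
    · exfalso
      apply h
      have h3 : R.ρ w (R.ρ (w⁻¹ * w') (ωK k)) = R.ρ w (ωK k) := by rw [hor]
      rw [← R.ρ_mul, mul_inv_cancel_left] at h3
      exact h3.symm
    · rw [h2, hole_B_self, q_ωK]
      have := pK_lt
      linarith
  · rw [h2]
    have := B_ωK_lt hkl
    have := ha k
    linarith

theorem hole_null_lt {s : E3 × ℝ} (hq : q s < 0) (hs : 0 < s.2) {ξ : E3} (hξ : ‖ξ‖ ≤ 1) :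
    B (ξ, (1 : ℝ)) s < 0 := by
  rw [hole_B_eq]
  have h1 : ‖s.1‖ < s.2 := by
    have h2 : ‖s.1‖ ^ 2 < s.2 ^ 2 := by
      have : q s = ‖s.1‖ ^ 2 - ‖s.2‖ ^ 2 := rfl
      rw [this, Real.norm_eq_abs, sq_abs] at hq
      linarith
    exact lt_of_pow_lt_pow_left₀ 2 hs.le h2
  have h3 : ⟪ξ, s.1⟫_ℝ ≤ ‖ξ‖ * ‖s.1‖ := real_inner_le_norm _ _
  have h4 : ‖ξ‖ * ‖s.1‖ ≤ 1 * ‖s.1‖ := mul_le_mul_of_nonneg_right hξ (norm_nonneg _)
  have h5 : ((ξ, (1 : ℝ)) : E3 × ℝ).2 * s.2 = s.2 := by simp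
  have h6 : ⟪((ξ, (1 : ℝ)) : E3 × ℝ).1, s.1⟫_ℝ = ⟪ξ, s.1⟫_ℝ := rfl
  rw [h5, h6]
  linarith

/-- The closed caps of distinct hole vectors are disjoint. -/
theorem hole_disjoint {R : Rep W ℝ E3} (hR : IsKleinian R) {u u' : E3 × ℝ} (hu : u ∈ Holes R)
    (hu' : u' ∈ Holes R) (h : u ≠ u') {ξ : E3} (hξ : ‖ξ‖ = 1) (h1 : 0 ≤ B (ξ, (1 : ℝ)) u)
    (h2 : 0 ≤ B (ξ, (1 : ℝ)) u') : False := by
  have hq : q (u + u') < 0 := by
    rw [← hole_B_self, B_add_left, B_add_right, B_add_right, hole_B_self, hole_B_self,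
      hole_B_comm u' u, q_hole hR hu, q_hole hR hu']
    have := hole_hole hR hu hu' h
    linarith
  have ho := orbit_hole hR 1 hu
  have ho' := orbit_hole hR 1 hu'
  rw [map_one] at ho ho'
  have e1 : B (o : E3 × ℝ) u = - u.2 := B_o_left u
  have e2 : B (o : E3 × ℝ) u' = - u'.2 := B_o_left u'
  have ho1 : B (o : E3 × ℝ) u < 0 := ho
  have ho2 : B (o : E3 × ℝ) u' < 0 := ho'
  rw [e1] at ho1
  rw [e2] at ho2
  have hs : 0 < (u + u').2 := by
    rw [Prod.snd_add]; linarith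
  have h3 := hole_null_lt hq hs hξ.le
  rw [B_add_right] at h3
  linarith

/-- Limit points are outside the open caps. -/
theorem limSet_hole {R : Rep W ℝ E3} (hR : IsKleinian R) {ξ : E3} (hξ : ξ ∈ R.limSet)
    {u : E3 × ℝ} (hu : u ∈ Holes R) : B (ξ, (1 : ℝ)) u ≤ 0 := by
  have hcont : Continuous fun x : E3 => B (x, (1 : ℝ)) u := by
    simp only [hole_B_eq]
    fun_prop
  have hcl : IsClosed {x : E3 | B (x, (1 : ℝ)) u ≤ 0} := isClosed_le hcont continuous_const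
  have hsub : Set.range R.pt ⊆ {x : E3 | B (x, (1 : ℝ)) u ≤ 0} := by
    rintro _ ⟨w, rfl⟩
    have h1 := orbit_hole hR w hu
    have h2 := one_le_orbit hR w
    have h3 : B (R.pt w, (1 : ℝ)) u = ((R.ρ w o).2)⁻¹ * B (R.ρ w o) u := by
      have e : ((R.pt w, (1 : ℝ)) : E3 × ℝ) = ((R.ρ w o).2)⁻¹ • R.ρ w o := by
        refine Prod.ext rfl ?_
        rw [Prod.smul_snd, smul_eq_mul, inv_mul_cancel₀ (by linarith)]
      rw [e, B_smul_left, conj_trivial]
    rw [Set.mem_ofPred_eq, h3]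
    exact mul_nonpos_of_nonneg_of_nonpos (inv_nonneg.mpr (by linarith)) h1.le
  exact closure_minimal hsub hcl hξ.2

end Pool.Agent.Carpet
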