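import Pool.Agent.Lib_helper45.Carpet.Pot2

/-! # Block HYP : geodesics of the complex hyperbolic plane (helper20) -/

set_option autoImplicit false

namespace Pool.Agent.Carpet

open scoped Topology ComplexConjugate InnerProductSpace

/-- The scaling factor of the normalized lift. -/
noncomputable def hypL (x : E2) : ℝ := (√(1 - ‖x‖ ^ 2))⁻¹

theorem hyp_one_sub_pos {x : E2} (hx : ‖x‖ < 1) : 0 < 1 - ‖x‖ ^ 2 := by
  nlinarith [norm_nonneg x]

theorem hypL_pos {x : E2} (hx : ‖x‖ < 1) : 0 < hypL x := by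
  unfold hypL
  have := hyp_one_sub_pos hx
  positivity

/-- The normalized lift. -/
noncomputable def hypX (x : E2) : E2 × ℂ := (hypL x : ℂ) • (x, 1)

theorem hypX_q {x : E2} (hx : ‖x‖ < 1) : q (hypX x) = -1 := by
  unfold hypX
  rw [q_smul]
  have h0 := hyp_one_sub_pos hx
  have h1 : ‖(hypL x : ℂ)‖ ^ 2 = (1 - ‖x‖ ^ 2)⁻¹ := by
    rw [Complex.norm_real, Real.norm_of_nonneg (hypL_pos hx).le]
    unfold hypL
    rw [inv_pow, Real.sq_sqrt h0.le]
  rw [h1]
  have h2 : q ((x, 1) : E2 × ℂ) = -(1 - ‖x‖ ^ 2) := by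
    simp [q]
  rw [h2]
  field_simp

theorem hypX_B {x y : E2} (hx : ‖x‖ < 1) (hy : ‖y‖ < 1) :
    ‖B (hypX x) (hypX y)‖ =
      ‖1 - inner ℂ x y‖ / √((1 - ‖x‖ ^ 2) * (1 - ‖y‖ ^ 2)) := by
  unfold hypX
  rw [B_smul_left, B_smul_right, norm_mul, norm_mul, RCLike.norm_conj, Complex.norm_real,
    Complex.norm_real, Real.norm_of_nonneg (hypL_pos hx).le, Real.norm_of_nonneg (hypL_pos hy).le]
  have h1 : ‖B ((x, 1) : E2 × ℂ) (y, 1)‖ = ‖1 - inner ℂ x y‖ := by
    rw [norm_sub_rev]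
    congr 1
    simp [B]
  rw [h1, Real.sqrt_mul (hyp_one_sub_pos hx).le]
  unfold hypL
  rw [div_eq_mul_inv, mul_inv]
  ring

theorem hyp_one_le {x y : E2} (hx : ‖x‖ < 1) (hy : ‖y‖ < 1) :
    1 ≤ ‖B (hypX x) (hypX y)‖ := by
  have h1 := cs_rev (u := hypX x) (v := hypX y) (by rw [hypX_q hx]; norm_num)
    (by rw [hypX_q hy]; norm_num)
  rw [hypX_q hx, hypX_q hy] at h1
  have h2 := norm_nonneg (B (hypX x) (hypX y))
  nlinarith

theorem hyp_hdist {x y : E2} (hx : ‖x‖ < 1) (hy : ‖y‖ < 1) :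
    hdist x y = 2 * Real.arcosh ‖B (hypX x) (hypX y)‖ := by
  rw [hypX_B hx hy]
  rfl

theorem hyp_cosh {x y : E2} (hx : ‖x‖ < 1) (hy : ‖y‖ < 1) :
    Real.cosh (hdist x y / 2) = ‖B (hypX x) (hypX y)‖ := by
  rw [hyp_hdist hx hy, mul_div_cancel_left₀ _ two_ne_zero, Real.cosh_arcosh (hyp_one_le hx hy)]

theorem hdist_nonneg {x y : E2} (hx : ‖x‖ < 1) (hy : ‖y‖ < 1) : 0 ≤ hdist x y := by
  rw [hyp_hdist hx hy]
  have := Real.arcosh_nonneg (hyp_one_le hx hy)
  linarith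

theorem hyp_B_self (v : E2 × ℂ) : B v v = ((q v : ℝ) : ℂ) := B_self v

theorem hyp_core {X Y Z : E2 × ℂ} {a b : ℝ} (ha : 0 ≤ a) (hb : 0 ≤ b) (hX : q X = -1)
    (hY : q Y = -1) (hZ : q Z = -1) (hXZ : B X Z = ((-Real.cosh a : ℝ) : ℂ))
    (hZY : B Z Y = ((-Real.cosh b : ℝ) : ℂ)) (hXY : ‖B X Y‖ = Real.cosh (a + b)) :
    B X Y = ((-Real.cosh (a + b) : ℝ) : ℂ) ∧
      ((Real.sinh b : ℝ) : ℂ) • X + ((Real.sinh a : ℝ) : ℂ) • Y =
        ((Real.sinh (a + b) : ℝ) : ℂ) • Z := by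
  have hZZ : B Z Z = -1 := by rw [hyp_B_self, hZ]; simp
  have hXX : B X X = -1 := by rw [hyp_B_self, hX]; simp
  have hYY : B Y Y = -1 := by rw [hyp_B_self, hY]; simp
  have hZX : B Z X = ((-Real.cosh a : ℝ) : ℂ) := by
    rw [← B_conj, hXZ, Complex.conj_ofReal]
  have hYZ : B Y Z = ((-Real.cosh b : ℝ) : ℂ) := by
    rw [← B_conj, hZY, Complex.conj_ofReal]
  set U : E2 × ℂ := X - ((Real.cosh a : ℝ) : ℂ) • Z with hU
  set V : E2 × ℂ := Y - ((Real.cosh b : ℝ) : ℂ) • Z with hV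
  have hZU : B Z U = 0 := by
    rw [hU, B_sub_right, B_smul_right, hZX, hZZ]
    push_cast; ring
  have hZV : B Z V = 0 := by
    rw [hV, B_sub_right, B_smul_right, hZY, hZZ]
    push_cast; ring
  have hqU : q U = Real.sinh a ^ 2 := by
    have h1 : B U U = ((Real.sinh a ^ 2 : ℝ) : ℂ) := by
      have h0 : B U U = B X U := by
        nth_rewrite 1 [hU]
        rw [B_sub_left, B_smul_left, hZU, mul_zero, sub_zero]
      rw [h0, hU, B_sub_right, B_smul_right, hXX, hXZ]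
      have := Real.cosh_sq a
      rw [show Real.sinh a ^ 2 = Real.cosh a ^ 2 - 1 by linarith]
      push_cast; ring
    rw [hyp_B_self] at h1
    exact_mod_cast h1
  have hqV : q V = Real.sinh b ^ 2 := by
    have h1 : B V V = ((Real.sinh b ^ 2 : ℝ) : ℂ) := by
      have h0 : B V V = B Y V := by
        nth_rewrite 1 [hV]
        rw [B_sub_left, B_smul_left, hZV, mul_zero, sub_zero]
      rw [h0, hV, B_sub_right, B_smul_right, hYY, hYZ]
      have := Real.cosh_sq b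
      rw [show Real.sinh b ^ 2 = Real.cosh b ^ 2 - 1 by linarith]
      push_cast; ring
    rw [hyp_B_self] at h1
    exact_mod_cast h1
  have hBXY : B X Y = ((-(Real.cosh a * Real.cosh b) : ℝ) : ℂ) + B U V := by
    have h1 : B U V = B X Y - ((-(Real.cosh a * Real.cosh b) : ℝ) : ℂ) := by
      conv_lhs => rw [hU]
      rw [B_sub_left, B_smul_left, hZV, mul_zero, sub_zero, hV, B_sub_right, B_smul_right, hXZ]
      push_cast; ring
    rw [h1]; ring
  set β : ℂ := B U V with hβ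
  set P : ℝ := Real.cosh a * Real.cosh b with hP
  set S : ℝ := Real.sinh a * Real.sinh b with hS
  have hP0 : 0 < P := mul_pos (Real.cosh_pos a) (Real.cosh_pos b)
  have hS0 : 0 ≤ S := mul_nonneg (Real.sinh_nonneg_iff.2 ha) (Real.sinh_nonneg_iff.2 hb)
  have hcs : β.re ^ 2 + β.im ^ 2 ≤ S ^ 2 := by
    have h1 := cs_perp (X := Z) (u := U) (v := V) (by rw [hZ]; norm_num) hZU hZV
    rw [hqU, hqV, ← Complex.normSq_eq_norm_sq, Complex.normSq_apply] at h1
    calc β.re ^ 2 + β.im ^ 2 = β.re * β.re + β.im * β.im := by ring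
      _ ≤ Real.sinh a ^ 2 * Real.sinh b ^ 2 := h1
      _ = S ^ 2 := by rw [hS]; ring
  have hcosh : Real.cosh (a + b) = P + S := Real.cosh_add a b
  have hsq : (-P + β.re) ^ 2 + β.im ^ 2 = (P + S) ^ 2 := by
    have h1 : ‖B X Y‖ ^ 2 = (P + S) ^ 2 := by rw [hXY, hcosh]
    rw [← Complex.normSq_eq_norm_sq, hBXY, Complex.normSq_apply] at h1
    simp only [Complex.add_re, Complex.ofReal_re, Complex.add_im, Complex.ofReal_im] at h1
    nlinarith
  have hre : β.re ≤ -S := by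
    have h1 : 2 * P * (β.re + S) ≤ 0 := by nlinarith
    by_contra hcon
    push Not at hcon
    have : 0 < 2 * P * (β.re + S) := by
      apply mul_pos (by positivity)
      linarith
    linarith
  have hre' : β.re = -S := by
    have h1 : β.re ^ 2 ≤ S ^ 2 := by nlinarith [sq_nonneg β.im]
    have h2 := abs_le_of_sq_le_sq' h1 hS0
    linarith [h2.1]
  have him : β.im = 0 := by
    have h1 : β.im ^ 2 ≤ 0 := by rw [hre'] at hcs; nlinarith
    have h2 : β.im ^ 2 = 0 := le_antisymm h1 (sq_nonneg _)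
    exact pow_eq_zero_iff two_ne_zero |>.1 h2
  have hβeq : β = ((-S : ℝ) : ℂ) := by
    apply Complex.ext
    · rw [hre', Complex.ofReal_re]
    · rw [him, Complex.ofReal_im]
  constructor
  · rw [hBXY, hβeq, hcosh]
    push_cast; ring
  · set T : E2 × ℂ := ((Real.sinh b : ℝ) : ℂ) • U + ((Real.sinh a : ℝ) : ℂ) • V with hT
    have hZT : B Z T = 0 := by
      rw [hT, B_add_right, B_smul_right, B_smul_right, hZU, hZV]; simp
    have hUU : B U U = ((Real.sinh a ^ 2 : ℝ) : ℂ) := by rw [hyp_B_self, hqU]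
    have hVV : B V V = ((Real.sinh b ^ 2 : ℝ) : ℂ) := by rw [hyp_B_self, hqV]
    have hVU : B V U = ((-S : ℝ) : ℂ) := by
      rw [← B_conj, ← hβ, hβeq, Complex.conj_ofReal]
    have hqT : q T = 0 := by
      have h1 : B T T = 0 := by
        rw [hT]
        simp only [B_add_left, B_add_right, B_smul_left, B_smul_right]
        rw [← hβ, hβeq, hUU, hVV, hVU, hS]
        simp only [Complex.conj_ofReal]
        push_cast
        ring
      rw [hyp_B_self] at h1
      exact_mod_cast h1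
    have hT0 : T = 0 := by
      by_contra hne
      have := perp_pos (X := Z) (by rw [hZ]; norm_num) hZT hne
      rw [hqT] at this
      exact lt_irrefl _ this
    have h2 : ((Real.sinh b : ℝ) : ℂ) • X + ((Real.sinh a : ℝ) : ℂ) • Y =
        T + (((Real.sinh b : ℝ) : ℂ) * ((Real.cosh a : ℝ) : ℂ) +
          ((Real.sinh a : ℝ) : ℂ) * ((Real.cosh b : ℝ) : ℂ)) • Z := by
      rw [hT, hU, hV]
      simp only [smul_sub, smul_smul, add_smul]
      abel
    rw [h2, hT0, zero_add]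
    congr 1
    rw [Real.sinh_add]
    push_cast; ring

theorem hyp_phase {w : ℂ} {r : ℝ} (h : ‖w‖ = r) (hr : 0 < r) :
    ∃ μ : ℂ, ‖μ‖ = 1 ∧ μ * w = ((-r : ℝ) : ℂ) := by
  have hw : w ≠ 0 := by
    rintro rfl
    rw [norm_zero] at h
    linarith
  refine ⟨((-r : ℝ) : ℂ) / w, ?_, div_mul_cancel₀ _ hw⟩
  rw [norm_div, Complex.norm_real, h, Real.norm_eq_abs, abs_neg, abs_of_pos hr, div_self hr.ne']

theorem hyp_q_smul {x : E2} (hx : ‖x‖ < 1) {μ : ℂ} (hμ : ‖μ‖ = 1) : q (μ • hypX x) = -1 := by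
  rw [q_smul, hμ, hypX_q hx]; norm_num

/-- The metric vanishes only on the diagonal. -/
theorem hdist_eq_zero {x y : E2} (hx : ‖x‖ < 1) (hy : ‖y‖ < 1) : hdist x y = 0 ↔ x = y := by
  constructor
  · intro h
    rw [hyp_hdist hx hy] at h
    have h1 : Real.arcosh ‖B (hypX x) (hypX y)‖ = 0 := by linarith
    rw [Real.arcosh_eq_zero_iff (hyp_one_le hx hy)] at h1
    -- choose the phase
    obtain ⟨μ, hμ, hμ'⟩ := hyp_phase (w := B (hypX y) (hypX x)) (r := 1)
      (by rw [norm_B_comm]; exact h1) one_pos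
    set U : E2 × ℂ := μ • hypX x - hypX y with hU
    have hyy : B (hypX y) (hypX y) = -1 := by rw [hyp_B_self, hypX_q hy]; simp
    have hxx : B (μ • hypX x) (μ • hypX x) = -1 := by
      rw [hyp_B_self, hyp_q_smul hx hμ]; simp
    have h2 : B (hypX y) U = 0 := by
      rw [hU, B_sub_right, B_smul_right, hμ', hyy]
      simp
    have h3 : B (μ • hypX x) (hypX y) = -1 := by
      rw [← B_conj, B_smul_right, hμ']
      simp
    have h4 : q U = 0 := by
      have h5 : B U U = 0 := by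
        have h0 : B U U = B (μ • hypX x) U := by
          nth_rewrite 1 [hU]
          rw [B_sub_left, h2, sub_zero]
        rw [h0, hU, B_sub_right, hxx, h3]
        simp
      rw [hyp_B_self] at h5
      exact_mod_cast h5
    have h6 : U = 0 := by
      by_contra hne
      have := perp_pos (X := hypX y) (by rw [hypX_q hy]; norm_num) h2 hne
      rw [h4] at this
      exact lt_irrefl _ this
    have h7 : μ • hypX x = hypX y := sub_eq_zero.1 h6
    have h8 : μ * (hypL x : ℂ) = (hypL y : ℂ) := by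
      have := congrArg Prod.snd h7
      simpa [hypX] using this
    have h9 : (μ * (hypL x : ℂ)) • x = (hypL y : ℂ) • y := by
      have := congrArg Prod.fst h7
      simp only [hypX, Prod.smul_fst, smul_smul] at this
      exact this
    rw [h8] at h9
    have h10 : (hypL y : ℂ) ≠ 0 := by
      exact_mod_cast (hypL_pos hy).ne'
    exact smul_right_injective _ h10 h9
  · rintro rfl
    have h1 : ‖B (hypX x) (hypX x)‖ = 1 := by
      rw [hyp_B_self, hypX_q hx]; simp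
    rw [hyp_hdist hx hx, h1]
    simp

/-- The equality case of the triangle inequality: `z` is on the geodesic from `x` to `y`. The
normalized lifts can be chosen as below. -/
theorem hdist_eq_case {x y z : E2} (hx : ‖x‖ < 1) (hy : ‖y‖ < 1) (hz : ‖z‖ < 1) (hxy : x ≠ y)
    (h : hdist x z + hdist z y = hdist x y) :
    ∃ (α β : ℂ) (L t : ℝ), q (α • (x, 1) : E2 × ℂ) = -1 ∧ q (β • (y, 1) : E2 × ℂ) = -1 ∧ 0 < L ∧
      t ∈ Set.Icc 0 L ∧
      B (α • (x, 1) : E2 × ℂ) (β • (y, 1)) = ((-Real.cosh L : ℝ) : ℂ) ∧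
      ∃ δ : ℂ, δ ≠ 0 ∧ geod (α • (x, 1) : E2 × ℂ) (β • (y, 1)) L t = δ • (z, 1) := by
  set a : ℝ := hdist x z / 2 with ha
  set b : ℝ := hdist z y / 2 with hb
  have ha0 : 0 ≤ a := by have := hdist_nonneg hx hz; positivity
  have hb0 : 0 ≤ b := by have := hdist_nonneg hz hy; positivity
  have hab : a + b = hdist x y / 2 := by rw [ha, hb, ← h]; ring
  have hL : 0 < a + b := by
    rw [hab]
    have h1 := hdist_nonneg hx hy
    rcases h1.lt_or_eq with h2 | h2
    · linarith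
    · exact absurd ((hdist_eq_zero hx hy).1 h2.symm) hxy
  have c1 : ‖B (hypX z) (hypX x)‖ = Real.cosh a := by
    rw [norm_B_comm, ha, hyp_cosh hx hz]
  have c2 : ‖B (hypX z) (hypX y)‖ = Real.cosh b := by rw [hb, hyp_cosh hz hy]
  have c3 : ‖B (hypX x) (hypX y)‖ = Real.cosh (a + b) := by rw [hab, hyp_cosh hx hy]
  obtain ⟨μ, hμ, hμ'⟩ := hyp_phase c1 (Real.cosh_pos a)
  obtain ⟨ν, hν, hν'⟩ := hyp_phase c2 (Real.cosh_pos b)
  have hXZ : B (μ • hypX x) (hypX z) = ((-Real.cosh a : ℝ) : ℂ) := by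
    rw [← B_conj, B_smul_right, hμ', Complex.conj_ofReal]
  have hZY : B (hypX z) (ν • hypX y) = ((-Real.cosh b : ℝ) : ℂ) := by
    rw [B_smul_right, hν']
  have hXY : ‖B (μ • hypX x) (ν • hypX y)‖ = Real.cosh (a + b) := by
    rw [B_smul_left, B_smul_right, norm_mul, norm_mul, RCLike.norm_conj, hμ, hν, c3]
    ring
  obtain ⟨r1, r2⟩ := hyp_core ha0 hb0 (hyp_q_smul hx hμ) (hyp_q_smul hy hν) (hypX_q hz) hXZ hZY hXY
  have eX : (μ * (hypL x : ℂ)) • ((x, 1) : E2 × ℂ) = μ • hypX x := by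
    rw [hypX, smul_smul]
  have eY : (ν * (hypL y : ℂ)) • ((y, 1) : E2 × ℂ) = ν • hypX y := by
    rw [hypX, smul_smul]
  have hsinh : 0 < Real.sinh (a + b) := Real.sinh_pos_iff.2 hL
  refine ⟨μ * (hypL x : ℂ), ν * (hypL y : ℂ), a + b, a, ?_, ?_, hL, ⟨ha0, by linarith⟩, ?_,
    (hypL z : ℂ), ?_, ?_⟩
  · rw [eX]; exact hyp_q_smul hx hμ
  · rw [eY]; exact hyp_q_smul hy hν
  · rw [eX, eY]; exact r1
  · exact_mod_cast (hypL_pos hz).ne'
  · rw [eX, eY]
    unfold geod
    have e1 : (((Real.sinh (a + b))⁻¹ * Real.sinh (a + b - a) : ℝ) : ℂ) =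
        (((Real.sinh (a + b))⁻¹ : ℝ) : ℂ) * ((Real.sinh b : ℝ) : ℂ) := by
      rw [add_sub_cancel_left]; push_cast; ring
    have e2 : (((Real.sinh (a + b))⁻¹ * Real.sinh a : ℝ) : ℂ) =
        (((Real.sinh (a + b))⁻¹ : ℝ) : ℂ) * ((Real.sinh a : ℝ) : ℂ) := by
      push_cast; ring
    have e3 : ∀ r : ℝ, (RCLike.ofReal r : ℂ) = (r : ℂ) := fun r => rfl
    simp only [e3] at *
    rw [e1, e2, mul_smul, mul_smul, ← smul_add, r2, smul_smul, ← Complex.ofReal_mul,
      inv_mul_cancel₀ hsinh.ne', Complex.ofReal_one, one_smul]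
    rfl

end Pool.Agent.Carpet
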