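import Pool.Agent.Lib_helper45.Carpet.Geo

/-! # Block KALG : linear algebra of the vectors `nK`, `ωK` -/

set_option autoImplicit false

namespace Pool.Agent.Carpet

open scoped Topology

private theorem kalg_s5 : (2 : ℝ) < √5 ∧ √5 < 3 ∧ √5 ^ 2 = 5 := by
  refine ⟨?_, ?_, Real.sq_sqrt (by norm_num)⟩
  · exact Real.lt_sqrt_of_sq_lt (by norm_num)
  · rw [Real.sqrt_lt' (by norm_num)]; norm_num

theorem cb_pos : 0 < cb := by
  unfold cb
  exact Real.sqrt_pos.2 (by have := kalg_s5.1; linarith)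

theorem cb_sq : cb ^ 2 = (5 + √5) / 8 := by
  unfold cb
  exact Real.sq_sqrt (by have := kalg_s5.1; linarith)

private theorem kalg_cb_bd : 1 / 2 < cb ^ 2 ∧ cb ^ 2 < 1 := by
  obtain ⟨h1, h2, h3⟩ := kalg_s5
  rw [cb_sq]
  constructor <;> linarith

theorem cz_sq : cz ^ 2 = 2 * cb ^ 2 - 1 / 2 := by
  unfold cz
  exact Real.sq_sqrt (by have := kalg_cb_bd.1; linarith)

theorem cz_pos : 0 < cz := by
  unfold cz
  exact Real.sqrt_pos.2 (by have := kalg_cb_bd.1; linarith)

theorem ca_pos : 0 < ca := by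
  unfold ca
  positivity

theorem ca_sq : ca ^ 2 = 1 / 2 := by
  unfold ca
  rw [div_pow, Real.sq_sqrt (by norm_num)]
  norm_num

/-- `cb = cos (π / 10)`. -/
theorem cb_eq_cos : cb = Real.cos (Real.pi / 10) := by
  have h1 : 0 < Real.cos (Real.pi / 10) := Real.cos_pos_of_mem_Ioo (by
    constructor <;> linarith [Real.pi_pos])
  have h2 : Real.cos (Real.pi / 10) ^ 2 = cb ^ 2 := by
    rw [Real.cos_sq, show 2 * (Real.pi / 10) = Real.pi / 5 by ring, Real.cos_pi_div_five, cb_sq]
    ring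
  have h3 := cb_pos
  nlinarith

theorem cb_lt_cz : cb < cz := by
  have h1 := cb_pos
  have h2 := cz_pos
  have h3 := cz_sq
  have h4 := kalg_cb_bd.1
  nlinarith

private theorem kalg_B (a b c d a' b' c' d' : ℝ) :
    B ((!₂[a, b, c], d) : E3 × ℝ) (!₂[a', b', c'], d') = a * a' + b * b' + c * c' - d * d' := by
  simp [B, PiLp.inner_apply, Fin.sum_univ_three]
  ring

private theorem kalg_q (a b c d : ℝ) :
    q ((!₂[a, b, c], d) : E3 × ℝ) = a * a + b * b + c * c - d * d := by
  have h1 := B_self ((!₂[a, b, c], d) : E3 × ℝ)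
  rw [kalg_B] at h1
  simpa using h1.symm

private theorem kalg_comm (u v : E3 × ℝ) : B u v = B v u := by
  have := B_conj u v
  simpa using this

/-- Gram matrix of the normals: `B (nK i) (nK j) = - cos (π / m i j)`. -/
theorem B_nK (i j : Fin 4) : B (nK i) (nK j) = - Real.cos (Real.pi / M i j) := by
  have hb := cb_eq_cos
  have hz := cz_sq
  have ha := ca_sq
  have h10 : Real.cos (Real.pi / ((10 : ℕ) : ℝ)) = cb := by rw [hb]; norm_num
  have h2 : Real.cos (Real.pi / ((2 : ℕ) : ℝ)) = 0 := by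
    rw [show (((2 : ℕ) : ℝ)) = 2 by norm_num, Real.cos_pi_div_two]
  have h1 : Real.cos (Real.pi / ((1 : ℕ) : ℝ)) = -1 := by
    rw [show (((1 : ℕ) : ℝ)) = 1 by norm_num, div_one, Real.cos_pi]
  have m00 : M i j = (!![1, 2, 10, 10; 2, 1, 10, 10; 10, 10, 1, 2; 10, 10, 2, 1] :
    Matrix (Fin 4) (Fin 4) ℕ) i j := rfl
  rw [m00]
  fin_cases i <;> fin_cases j <;> simp only [nK, Matrix.cons_val_zero, Matrix.cons_val_one,
    Matrix.cons_val, Matrix.of_apply, Fin.zero_eta, Fin.mk_one, Fin.reduceFinMk, kalg_B,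
    h10, h2, h1] <;> nlinarith

theorem B_nK_self (i : Fin 4) : B (nK i) (nK i) = 1 := by
  have hz := cz_sq
  have ha := ca_sq
  fin_cases i <;> simp only [nK, Matrix.cons_val_zero, Matrix.cons_val_one,
    Matrix.cons_val, Fin.zero_eta, Fin.mk_one, Fin.reduceFinMk, kalg_B] <;> nlinarith

theorem B_ωK_nK (k i : Fin 4) : B (ωK k) (nK i) = if k = i then -1 else 0 := by
  have hz := cz_pos.ne'
  have ha := ca_pos.ne'
  fin_cases k <;> fin_cases i <;> simp only [nK, ωK, Matrix.cons_val_zero, Matrix.cons_val_one,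
    Matrix.cons_val, Fin.zero_eta, Fin.mk_one, Fin.reduceFinMk, kalg_B, Fin.reduceEq, if_true,
    if_false] <;> field_simp <;> ring

/-- The common value of `q` on the hole vectors. -/
noncomputable def pK : ℝ := (2 * cb ^ 2 - 1) / (4 * cb ^ 2 - 1)

theorem pK_pos : 0 < pK := by
  have := kalg_cb_bd.1
  exact div_pos (by linarith) (by linarith)

theorem pK_lt : pK < 1 := by
  have := kalg_cb_bd.1
  unfold pK
  rw [div_lt_one (by linarith)]
  linarith

private theorem kalg_pK : pK * cz ^ 2 = cz ^ 2 - cb ^ 2 := by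
  have h1 := kalg_cb_bd.1
  have h2 := cz_sq
  have h3 : (4 * cb ^ 2 - 1) ≠ 0 := by
    have : 0 < 4 * cb ^ 2 - 1 := by linarith
    exact this.ne'
  rw [h2, pK, div_mul_eq_mul_div, div_eq_iff h3]
  ring

theorem q_ωK (k : Fin 4) : q (ωK k) = pK := by
  have hz := cz_pos
  have ha := ca_pos
  have hp := kalg_pK
  have h2 := cz_sq
  have h3 := ca_sq
  have hz2 : cz ^ 2 ≠ 0 := by positivity
  have e1 : pK = 1 - cb ^ 2 / cz ^ 2 := by
    field_simp
    linarith
  have e2 : (1 / (2 * ca)) * (1 / (2 * ca)) = 1 / 2 := by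
    have : (1 / (2 * ca)) * (1 / (2 * ca)) = 1 / (4 * ca ^ 2) := by field_simp; ring
    rw [this, h3]; norm_num
  have e3 : (1 / (2 * cz)) * (1 / (2 * cz)) = 1 / (4 * cz ^ 2) := by field_simp; ring
  have e4 : pK = 1 / 2 - 1 / (4 * cz ^ 2) := by
    field_simp
    linarith
  fin_cases k
  · simp only [ωK, Matrix.cons_val_zero, Fin.zero_eta, kalg_q]
    rw [e1]; field_simp; ring
  · simp only [ωK, Matrix.cons_val_one, Matrix.cons_val, Fin.mk_one, kalg_q]
    rw [e1]; field_simp; ring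
  · simp only [ωK, Matrix.cons_val, Fin.reduceFinMk, kalg_q]
    rw [e4]; nlinarith
  · simp only [ωK, Matrix.cons_val, Fin.reduceFinMk, kalg_q]
    rw [e4]; nlinarith

theorem B_ωK_lt {k l : Fin 4} (h : k ≠ l) : B (ωK k) (ωK l) < -pK := by
  have hz := cz_pos
  have ha := ca_pos
  have hb := cb_pos
  have hp := kalg_pK
  have h2 := cz_sq
  have h3 := ca_sq
  have hbd := kalg_cb_bd
  have hcb1 : cb < 1 := by nlinarith
  have hz2 : 0 < cz ^ 2 := by positivity
  have e1 : pK = 1 - cb ^ 2 / cz ^ 2 := by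
    field_simp
    linarith
  have e2 : (1 / (2 * ca)) * (1 / (2 * ca)) = 1 / 2 := by
    have : (1 / (2 * ca)) * (1 / (2 * ca)) = 1 / (4 * ca ^ 2) := by field_simp; ring
    rw [this, h3]; norm_num
  have e3 : (1 / (2 * cz)) * (1 / (2 * cz)) = 1 / (4 * cz ^ 2) := by field_simp; ring
  have e4 : pK = 1 / 2 - 1 / (4 * cz ^ 2) := by
    field_simp
    linarith
  have e5 : 0 < 1 / (4 * cz ^ 2) := by positivity
  -- the three kinds of products
  have p1 : -(cb / cz * (cb / cz)) < -pK := by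
    have : cb / cz * (cb / cz) = cb ^ 2 / cz ^ 2 := by field_simp
    rw [this, e1]
    have h4 : 1 / 2 < cb ^ 2 / cz ^ 2 := by
      rw [lt_div_iff₀ hz2]; linarith
    linarith
  have p2 : -(cb / cz * (1 / (2 * cz))) < -pK := by
    have : cb / cz * (1 / (2 * cz)) = cb / (2 * cz ^ 2) := by field_simp
    rw [this]
    have h4 : pK < cb / (2 * cz ^ 2) := by
      rw [lt_div_iff₀ (by positivity)]
      nlinarith
    linarith
  fin_cases k <;> fin_cases l <;> simp only [ωK, Matrix.cons_val_zero, Matrix.cons_val_one,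
    Matrix.cons_val, Fin.zero_eta, Fin.mk_one, Fin.reduceFinMk, kalg_B] <;>
    first
    | exact absurd rfl h
    | nlinarith

/-- The normals are a basis: expansion in terms of the dual basis `-ωK`. -/
theorem expand_nK (v : E3 × ℝ) : v = ∑ k, (- B v (ωK k)) • nK k := by
  have hz := cz_pos.ne'
  have ha := ca_pos.ne'
  obtain ⟨x, t⟩ := v
  have hx : x = !₂[x 0, x 1, x 2] := by
    ext i; fin_cases i <;> simp
  rw [hx]
  generalize x 0 = x0
  generalize x 1 = x1
  generalize x 2 = x2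
  simp only [Fin.sum_univ_four, nK, ωK, Matrix.cons_val_zero, Matrix.cons_val_one,
    Matrix.cons_val, kalg_B]
  refine Prod.ext ?_ ?_
  · ext i
    fin_cases i
    · simp
      field_simp
      ring
    · simp
      field_simp
      ring
    · simp
      field_simp
      ring
  · simp
    field_simp
    ring

theorem expand_ωK (v : E3 × ℝ) : v = ∑ k, (- B v (nK k)) • ωK k := by
  have hz := cz_pos.ne'
  have ha := ca_pos.ne'
  obtain ⟨x, t⟩ := v
  have hx : x = !₂[x 0, x 1, x 2] := by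
    ext i; fin_cases i <;> simp
  rw [hx]
  generalize x 0 = x0
  generalize x 1 = x1
  generalize x 2 = x2
  simp only [Fin.sum_univ_four, nK, ωK, Matrix.cons_val_zero, Matrix.cons_val_one,
    Matrix.cons_val, kalg_B]
  refine Prod.ext ?_ ?_
  · ext i
    fin_cases i
    · simp
    · simp
    · simp
      field_simp
      ring
  · simp
    field_simp
    ring

theorem refl_ωK (i k : Fin 4) : refl (nK i) (ωK k) = ωK k + (if k = i then (2 : ℝ) else 0) • nK i := by
  have h1 : refl (nK i) (ωK k) = ωK k - (2 * B (nK i) (ωK k)) • nK i := rfl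
  rw [h1, kalg_comm, B_ωK_nK]
  by_cases h : k = i
  · simp [h, sub_eq_add_neg]
  · simp [h]

theorem refl_o (i : Fin 4) : refl (nK i) o = o + (2 * (nK i).2) • nK i := by
  have h1 : refl (nK i) (o : E3 × ℝ) = o - (2 * B (nK i) o) • nK i := rfl
  rw [h1, B_o_right]
  simp [sub_eq_add_neg]

theorem nK_two_nonneg (i : Fin 4) : 0 ≤ (nK i).2 := by
  have := cz_pos
  fin_cases i <;> simp [nK] <;> linarith

theorem ωK_two_pos (k : Fin 4) : 0 < (ωK k).2 := by
  have := cz_pos
  have := cb_pos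
  fin_cases k <;> simp [ωK] <;> positivity

theorem refl_refl_nK (i : Fin 4) (v : E3 × ℝ) : refl (nK i) (refl (nK i) v) = v := by
  have h1 : ∀ w : E3 × ℝ, refl (nK i) w = w - (2 * B (nK i) w) • nK i := fun _ => rfl
  rw [h1, h1, B_sub_right, B_smul_right, B_nK_self]
  module

theorem B_refl_nK (i : Fin 4) (u v : E3 × ℝ) : B (refl (nK i) u) (refl (nK i) v) = B u v := by
  have h1 : ∀ w : E3 × ℝ, refl (nK i) w = w - (2 * B (nK i) w) • nK i := fun _ => rfl
  rw [h1, h1, B_sub_right, B_sub_left, B_sub_left, B_smul_right, B_smul_right, B_smul_left,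
    B_smul_left, B_nK_self, kalg_comm u (nK i)]
  simp
  ring

end Pool.Agent.Carpet
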