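import Pool.Agent.Lib_helper45.Carpet.Tower

/-! # Block LIMT : the limit collapse maps -/

set_option autoImplicit false

namespace Pool.Agent.Carpet

open scoped Topology

/-- The limit maps `Ψ k = κ_k ∘ κ_{k+1} ∘ …`. -/
structure LimitMaps (Y : ConvexCarpet) (κ : ℕ → P2 → P2) (Ψ : ℕ → P2 → P2) : Prop where
  cont : ∀ k, Continuous (Ψ k)
  mapsD : ∀ k, Set.MapsTo (Ψ k) Y.D Y.D
  surjD : ∀ k, Set.SurjOn (Ψ k) Y.D Y.D
  idK : ∀ k, ∀ j < k, ∀ x ∈ Y.K j, Ψ k x = x
  step : ∀ k x, Ψ k x = κ k (Ψ (k + 1) x)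
  inj : ∀ x ∈ Y.D, ∀ y ∈ Y.D, Ψ 0 x = Ψ 0 y → x = y ∨ ∃ i, x ∈ Y.K i ∧ y ∈ Y.K i

section LimTAux

theorem limT_of_le (κ : ℕ → P2 → P2) {k n : ℕ} (h : n ≤ k) : Psi κ k n = id := by
  cases n with
  | zero => rfl
  | succ n =>
    simp only [Psi]
    rw [if_neg (by omega)]

theorem limT_succ (κ : ℕ → P2 → P2) {k n : ℕ} (h : k ≤ n) (x : P2) :
    Psi κ k (n + 1) x = Psi κ k n (κ n x) := by
  simp only [Psi]
  rw [if_pos h]

theorem limT_left (κ : ℕ → P2 → P2) {k n : ℕ} (h : k < n) (x : P2) :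
    Psi κ k n x = κ k (Psi κ (k + 1) n x) := by
  induction n generalizing x with
  | zero => omega
  | succ n ih =>
    rcases Nat.lt_or_ge k n with hk | hk
    · rw [limT_succ κ (by omega), ih hk, limT_succ κ (by omega)]
    · have hkn : k = n := by omega
      subst hkn
      rw [limT_succ κ (le_refl k), limT_of_le κ (le_refl k), limT_of_le κ (le_refl (k + 1))]
      simp

variable {Y : ConvexCarpet} {Nb : ℕ → Set P2} {κ : ℕ → P2 → P2}

theorem limT_cont (h : Tower Y Nb κ) (k n : ℕ) : Continuous (Psi κ k n) := by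
  induction n with
  | zero => exact continuous_id
  | succ n ih =>
    by_cases hk : k ≤ n
    · have : Psi κ k (n + 1) = fun x => Psi κ k n (κ n x) := by
        funext x
        exact limT_succ κ hk x
      rw [this]
      exact ih.comp (h.col n).cont
    · rw [limT_of_le κ (by omega)]
      exact continuous_id

theorem limT_mapsκ (h : Tower Y Nb κ) (n : ℕ) : Set.MapsTo (κ n) Y.D Y.D := by
  intro x hx
  by_cases hN : x ∈ Nb n
  · exact interior_subset (h.inD n ((h.col n).mapsNb x hN))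
  · rw [(h.col n).off x hN]
    exact hx

theorem limT_surjκ (h : Tower Y Nb κ) (n : ℕ) : Set.SurjOn (κ n) Y.D Y.D := by
  intro y hy
  by_cases hN : y ∈ Nb n
  · obtain ⟨x, hx, hxy⟩ := (h.col n).surjNb y hN
    exact ⟨x, interior_subset (h.inD n hx), hxy⟩
  · exact ⟨y, hy, (h.col n).off y hN⟩

theorem limT_maps (h : Tower Y Nb κ) (k n : ℕ) : Set.MapsTo (Psi κ k n) Y.D Y.D := by
  induction n with
  | zero => exact fun x hx => hx
  | succ n ih =>
    by_cases hk : k ≤ n
    · intro x hx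
      rw [limT_succ κ hk x]
      exact ih (limT_mapsκ h n hx)
    · rw [limT_of_le κ (by omega)]
      exact fun x hx => hx

theorem limT_surj (h : Tower Y Nb κ) (k n : ℕ) : Set.SurjOn (Psi κ k n) Y.D Y.D := by
  induction n with
  | zero => exact fun x hx => ⟨x, hx, rfl⟩
  | succ n ih =>
    by_cases hk : k ≤ n
    · intro y hy
      obtain ⟨z, hz, hzy⟩ := ih hy
      obtain ⟨x, hx, hxz⟩ := limT_surjκ h n hz
      refine ⟨x, hx, ?_⟩
      rw [limT_succ κ hk x, hxz, hzy]
    · rw [limT_of_le κ (by omega)]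
      exact fun x hx => ⟨x, hx, rfl⟩

theorem limT_idκ (h : Tower Y Nb κ) {j n : ℕ} (hj : Disjoint (Nb n) (Y.K j)) {x : P2}
    (hx : x ∈ Y.K j) : κ n x = x := by
  refine (h.col n).off x ?_
  intro hN
  exact Set.disjoint_left.mp hj hN hx

theorem limT_id (h : Tower Y Nb κ) {j k : ℕ} (hj : j < k) {x : P2} (hx : x ∈ Y.K j) (n : ℕ) :
    Psi κ k n x = x := by
  induction n with
  | zero => rfl
  | succ n ih =>
    by_cases hk : k ≤ n
    · rw [limT_succ κ hk x, limT_idκ h (h.c1 n j (by omega)) hx, ih]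
    · rw [limT_of_le κ (by omega)]
      rfl

theorem limT_back (h : Tower Y Nb κ) {j n : ℕ} (hj : j < n) {x : P2}
    (hx : κ n x ∈ Y.K j) : x ∈ Y.K j := by
  have h1 : x ∉ Nb n := by
    intro hN
    exact Set.disjoint_left.mp (h.c1 n j hj) ((h.col n).mapsNb x hN) hx
  rw [(h.col n).off x h1] at hx
  exact hx

/-- If all neighbourhoods between `a` and `n` are disjoint from `K n`, the maps agree. -/
theorem limT_skip (h : Tower Y Nb κ) {k a n : ℕ} (hka : k ≤ a) (han : a ≤ n) (m : ℕ)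
    (hd : ∀ j, a ≤ j → j < n → Disjoint (Y.K m) (Nb j)) {x : P2} (hx : x ∈ Y.K m) :
    Psi κ k n x = Psi κ k a x := by
  obtain ⟨d, rfl⟩ := Nat.exists_eq_add_of_le han
  induction d with
  | zero => rfl
  | succ d ih =>
    have e : a + (d + 1) = (a + d) + 1 := by ring
    rw [e, limT_succ κ (by omega) x, limT_idκ h (hd (a + d) (by omega) (by omega)).symm hx]
    exact ih (by omega) (fun j h1 h2 => hd j h1 (by omega))

/-- Block estimate: the image of `K n` is small as soon as `K n` meets `Nb l`. -/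
theorem limT_diamK (h : Tower Y Nb κ) {k l n : ℕ} (hk : k ≤ l) (hl : l < n)
    (hm : ¬ Disjoint (Y.K n) (Nb l)) :
    Metric.diam (Psi κ k n '' Y.K n) ≤ (1 / 2) ^ l := by
  classical
  have hex : ∃ a, l ≤ a ∧ a < n ∧ ¬ Disjoint (Y.K n) (Nb a) ∧
      ∀ j, a < j → j < n → Disjoint (Y.K n) (Nb j) := by
    let P : ℕ → Prop := fun a => l ≤ a ∧ ¬ Disjoint (Y.K n) (Nb a)
    have hP : P l := ⟨le_refl l, hm⟩
    refine ⟨Nat.findGreatest P (n - 1), ?_, ?_, ?_, ?_⟩
    · exact (Nat.findGreatest_spec (P := P) (by omega : l ≤ n - 1) hP).1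
    · have := Nat.findGreatest_le (P := P) (n - 1)
      omega
    · exact (Nat.findGreatest_spec (P := P) (by omega : l ≤ n - 1) hP).2
    · intro j h1 h2
      by_contra hcon
      have h3 : P j := ⟨by
        have := (Nat.findGreatest_spec (P := P) (by omega : l ≤ n - 1) hP).1
        omega, hcon⟩
      have := Nat.le_findGreatest (P := P) (by omega : j ≤ n - 1) h3
      omega
  obtain ⟨a, h1, h2, h3, h4⟩ := hex
  have himg : Psi κ k n '' Y.K n = Psi κ k (a + 1) '' Y.K n := by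
    apply Set.image_congr
    intro x hx
    exact limT_skip h (by omega) (by omega) n (fun j hj1 hj2 => h4 j (by omega) hj2) hx
  rw [himg]
  refine (h.c3 a n h2 h3 k (by omega)).trans ?_
  exact pow_le_pow_of_le_one (by norm_num) (by norm_num) h1

/-- The dichotomy for the image of `K n`. -/
theorem limT_dich (h : Tower Y Nb κ) {k n : ℕ} (hk : k ≤ n) :
    (∀ x ∈ Y.K n, Psi κ k n x = x) ∨ ∃ l, k ≤ l ∧ l < n ∧ ¬ Disjoint (Y.K n) (Nb l) := by
  by_cases hh : ∃ l, k ≤ l ∧ l < n ∧ ¬ Disjoint (Y.K n) (Nb l)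
  · exact Or.inr hh
  · push Not at hh
    left
    intro x hx
    rw [limT_skip h (le_refl k) hk n hh hx, limT_of_le κ (le_refl k)]
    rfl

theorem limT_diam_le (h : Tower Y Nb κ) {k n : ℕ} (hk : k ≤ n) :
    Metric.diam (Psi κ k n '' Y.K n) ≤ max (Metric.diam (Y.K n)) ((1 / 2) ^ k) := by
  rcases limT_dich h hk with hd | ⟨l, h1, h2, h3⟩
  · have : Psi κ k n '' Y.K n = Y.K n := by
      ext y
      constructor
      · rintro ⟨x, hx, rfl⟩
        rw [hd x hx]
        exact hx
      · intro hy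
        exact ⟨y, hy, hd y hy⟩
    rw [this]
    exact le_max_left _ _
  · refine (limT_diamK h h1 h2 h3).trans ((pow_le_pow_of_le_one (by norm_num) (by norm_num)
      h1).trans (le_max_right _ _))

theorem limT_e_le (h : Tower Y Nb κ) {k n : ℕ} (hk : k ≤ n) :
    Metric.diam (Psi κ k n '' Nb n) ≤ max (Metric.diam (Y.K n)) ((1 / 2) ^ k) + (1 / 2) ^ n :=
  (h.c4 n k hk).trans (by
    have := limT_diam_le h hk
    linarith)

theorem limT_e_step (h : Tower Y Nb κ) {k l n : ℕ} (hk : k ≤ l) (hl : l < n) {x : P2}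
    (hxl : x ∈ Nb l) (hxn : x ∈ Nb n) :
    Metric.diam (Psi κ k n '' Nb n) ≤ (1 / 2) ^ l + (1 / 2) ^ n := by
  have hnd : ¬ Disjoint (Y.K n) (Nb l) := by
    intro hd
    exact Set.disjoint_left.mp (h.c2 n l hl hd) hxn hxl
  have h1 := limT_diamK h hk hl hnd
  have h2 := h.c4 n k (by omega)
  linarith

theorem limT_dist_e (h : Tower Y Nb κ) {k n : ℕ} (hk : k ≤ n) {x : P2} (hx : x ∈ Nb n) :
    dist (Psi κ k (n + 1) x) (Psi κ k n x) ≤ Metric.diam (Psi κ k n '' Nb n) := by
  rw [limT_succ κ hk x]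
  refine Metric.dist_le_diam_of_mem ?_ ⟨κ n x, (h.col n).mapsNb x hx, rfl⟩ ⟨x, hx, rfl⟩
  exact ((h.col n).compNb.image (limT_cont h k n)).isBounded

theorem limT_dist (h : Tower Y Nb κ) {k m : ℕ} (hk : k ≤ m) {E : ℝ} (hE0 : 0 ≤ E)
    (hE : ∀ n, m ≤ n → Metric.diam (Psi κ k n '' Nb n) ≤ E) (x : P2) {M : ℕ} (hM : m ≤ M) :
    dist (Psi κ k M x) (Psi κ k m x) ≤ E + 4 * (1 / 2) ^ m := by
  have key : ∀ d : ℕ, Psi κ k (m + d) x = Psi κ k m x ∨
      ∃ l, m ≤ l ∧ l < m + d ∧ x ∈ Nb l ∧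
        dist (Psi κ k (m + d) x) (Psi κ k m x) ≤ E + 4 * (1 / 2) ^ m - 3 * (1 / 2) ^ l := by
    intro d
    induction d with
    | zero => exact Or.inl rfl
    | succ d ih =>
      have e : m + (d + 1) = (m + d) + 1 := by ring
      rw [e]
      by_cases hx : x ∈ Nb (m + d)
      · right
        refine ⟨m + d, by omega, by omega, hx, ?_⟩
        have hde := limT_dist_e h (by omega : k ≤ m + d) hx
        rcases ih with ih | ⟨l, h1, h2, h3, h4⟩
        · rw [ih] at hde
          have h5 := hE (m + d) (by omega)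
          have h6 : ((1 : ℝ) / 2) ^ (m + d) ≤ (1 / 2) ^ m :=
            pow_le_pow_of_le_one (by norm_num) (by norm_num) (by omega)
          have h7 : (0 : ℝ) < (1 / 2) ^ (m + d) := by positivity
          linarith
        · have h5 := limT_e_step h (by omega : k ≤ l) h2 h3 hx
          have h6 : ((1 : ℝ) / 2) ^ (m + d) ≤ (1 / 2) ^ (l + 1) :=
            pow_le_pow_of_le_one (by norm_num) (by norm_num) (by omega)
          rw [pow_succ] at h6
          have h8 := dist_triangle (Psi κ k (m + d + 1) x) (Psi κ k (m + d) x) (Psi κ k m x)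
          linarith
      · have hst : Psi κ k (m + d + 1) x = Psi κ k (m + d) x := by
          rw [limT_succ κ (by omega) x, (h.col _).off x hx]
        rw [hst]
        rcases ih with ih | ⟨l, h1, h2, h3, h4⟩
        · exact Or.inl ih
        · exact Or.inr ⟨l, h1, by omega, h3, h4⟩
  obtain ⟨d, rfl⟩ := Nat.exists_eq_add_of_le hM
  rcases key d with hd | ⟨l, h1, h2, h3, h4⟩
  · rw [hd, dist_self]
    positivity
  · have : (0 : ℝ) < (1 / 2) ^ l := by positivity
    linarith

theorem limT_e_small (h : Tower Y Nb κ) (k : ℕ) {ε : ℝ} (hε : 0 < ε) :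
    ∃ m0, k ≤ m0 ∧ ∀ n, m0 ≤ n → Metric.diam (Psi κ k n '' Nb n) ≤ ε := by
  obtain ⟨n0, hn0⟩ := exists_pow_lt_of_lt_one (half_pos hε) (by norm_num : (1 / 2 : ℝ) < 1)
  -- uniform continuity
  have huc : ∀ p : ℕ, ∃ δ > 0, ∀ x ∈ Y.D, ∀ y ∈ Y.D, dist x y < δ →
      dist (Psi κ k (p + 1) x) (Psi κ k (p + 1) y) < ε / 2 := by
    intro p
    have := Y.compD.uniformContinuousOn_of_continuous (limT_cont h k (p + 1)).continuousOn
    exact Metric.uniformContinuousOn_iff.mp this (ε / 2) (half_pos hε)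
  choose δ hδ0 hδ using huc
  have hfin : ∃ δ0 > 0, δ0 ≤ ε / 2 ∧ ∀ p < n0, δ0 ≤ δ p := by
    clear hn0
    induction n0 with
    | zero => exact ⟨ε / 2, half_pos hε, le_refl _, fun p hp => by omega⟩
    | succ n ih =>
      obtain ⟨d, hd, hd1, hd2⟩ := ih
      refine ⟨min d (δ n), lt_min hd (hδ0 n), (min_le_left _ _).trans hd1, ?_⟩
      intro p hp
      rcases Nat.lt_succ_iff_lt_or_eq.mp hp with h1 | h1
      · exact (min_le_left _ _).trans (hd2 p h1)
      · subst h1
        exact min_le_right _ _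
  obtain ⟨δ0, hδ00, hδ01, hδ02⟩ := hfin
  have hdiam := Y.diam0.eventually (gt_mem_nhds hδ00)
  obtain ⟨m1, hm1⟩ := Filter.eventually_atTop.mp hdiam
  refine ⟨max (max k n0) m1, by omega, ?_⟩
  intro n hn
  have hkn : k ≤ n := by omega
  have hn0n : n0 ≤ n := by omega
  have h1 := h.c4 n k hkn
  have h2 : ((1 : ℝ) / 2) ^ n ≤ ε / 2 :=
    (pow_le_pow_of_le_one (by norm_num) (by norm_num) hn0n).trans hn0.le
  have h3 : Metric.diam (Psi κ k n '' Y.K n) ≤ ε / 2 := by
    classical
    by_cases hh : ∃ l, max k n0 ≤ l ∧ l < n ∧ ¬ Disjoint (Y.K n) (Nb l)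
    · obtain ⟨l, hl1, hl2, hl3⟩ := hh
      refine (limT_diamK h (by omega) hl2 hl3).trans ?_
      exact (pow_le_pow_of_le_one (by norm_num) (by norm_num) (by omega)).trans hn0.le
    · push Not at hh
      apply Metric.diam_le_of_forall_dist_le (half_pos hε).le
      rintro _ ⟨x, hx, rfl⟩ _ ⟨y, hy, rfl⟩
      have hxy : dist x y < δ0 := by
        refine (Metric.dist_le_diam_of_mem (Y.compK n).isBounded hx hy).trans_lt ?_
        exact hm1 n (by omega)
      have hsx := limT_skip h (le_max_left k n0) (by omega : max k n0 ≤ n) n hh hx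
      have hsy := limT_skip h (le_max_left k n0) (by omega : max k n0 ≤ n) n hh hy
      rw [hsx, hsy]
      rcases Nat.lt_or_ge k n0 with hc | hc
      · have hmax : max k n0 = (n0 - 1) + 1 := by omega
        rw [hmax]
        refine (hδ (n0 - 1) x (interior_subset (Y.inD n hx)) y (interior_subset (Y.inD n hy))
          (hxy.trans_le (hδ02 _ (by omega)))).le
      · have hmax : max k n0 = k := by omega
        rw [hmax, limT_of_le κ (le_refl k)]
        simp only [id]
        exact (hxy.le.trans hδ01)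
  linarith

/-- Uniform Cauchy estimate. -/
theorem limT_cauchy (h : Tower Y Nb κ) (k : ℕ) {ε : ℝ} (hε : 0 < ε) :
    ∃ m0, k ≤ m0 ∧ ∀ M, m0 ≤ M → ∀ x, dist (Psi κ k M x) (Psi κ k m0 x) ≤ ε := by
  obtain ⟨m1, hm1, hm1'⟩ := limT_e_small h k (half_pos hε)
  obtain ⟨n0, hn0⟩ := exists_pow_lt_of_lt_one (by positivity : 0 < ε / 8)
    (by norm_num : (1 / 2 : ℝ) < 1)
  refine ⟨max m1 n0, by omega, ?_⟩
  intro M hM x
  have h1 := limT_dist h (by omega : k ≤ max m1 n0) (half_pos hε).le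
    (fun n hn => hm1' n (by omega)) x hM
  have h2 : ((1 : ℝ) / 2) ^ (max m1 n0) ≤ ε / 8 :=
    (pow_le_pow_of_le_one (by norm_num) (by norm_num) (le_max_right _ _)).trans hn0.le
  linarith

theorem limT_exists_lim (h : Tower Y Nb κ) (k : ℕ) (x : P2) :
    ∃ y, Filter.Tendsto (fun M => Psi κ k M x) Filter.atTop (𝓝 y) := by
  apply cauchySeq_tendsto_of_complete
  rw [Metric.cauchySeq_iff']
  intro ε hε
  obtain ⟨m0, -, hm0⟩ := limT_cauchy h k (half_pos hε)
  exact ⟨m0, fun n hn => (hm0 n hn x).trans_lt (half_lt_self hε)⟩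

theorem limT_fin_inj (h : Tower Y Nb κ) (n : ℕ) {u v : P2} (huv : Psi κ 0 n u = Psi κ 0 n v) :
    u = v ∨ ∃ j < n, u ∈ Y.K j ∧ v ∈ Y.K j := by
  induction n generalizing u v with
  | zero => exact Or.inl huv
  | succ n ih =>
    rw [limT_succ κ (Nat.zero_le n), limT_succ κ (Nat.zero_le n)] at huv
    rcases ih huv with h1 | ⟨j, hj, h1, h2⟩
    · rcases (h.col n).inj u v h1 with h2 | ⟨h2, h3⟩
      · exact Or.inl h2
      · exact Or.inr ⟨n, by omega, h2, h3⟩
    · right
      refine ⟨j, by omega, ?_, ?_⟩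
      · exact limT_back h hj h1
      · exact limT_back h hj h2

end LimTAux

theorem exists_limitMaps {Y : ConvexCarpet} {Nb : ℕ → Set P2} {κ : ℕ → P2 → P2}
    (h : Tower Y Nb κ) : ∃ Ψ, LimitMaps Y κ Ψ := by
  choose Ψ hΨ using limT_exists_lim h
  -- uniform estimates
  have hunif : ∀ k : ℕ, ∀ ε > 0, ∃ m0, k ≤ m0 ∧ ∀ M, m0 ≤ M → ∀ x, dist (Psi κ k M x) (Ψ k x) ≤ ε := by
    intro k ε hε
    obtain ⟨m0, hk, hm0⟩ := limT_cauchy h k (half_pos hε)
    refine ⟨m0, hk, ?_⟩
    intro M hM x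
    have h1 : dist (Ψ k x) (Psi κ k m0 x) ≤ ε / 2 := by
      have ht : Filter.Tendsto (fun M => dist (Psi κ k M x) (Psi κ k m0 x)) Filter.atTop
          (𝓝 (dist (Ψ k x) (Psi κ k m0 x))) := (hΨ k x).dist tendsto_const_nhds
      refine le_of_tendsto ht ?_
      exact Filter.eventually_atTop.mpr ⟨m0, fun M hM => hm0 M hM x⟩
    have h2 := hm0 M hM x
    have h3 := dist_triangle_right (Psi κ k M x) (Ψ k x) (Psi κ k m0 x)
    linarith
  have hcont : ∀ k, Continuous (Ψ k) := by
    intro k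
    have ht : TendstoUniformly (fun M x => Psi κ k M x) (Ψ k) Filter.atTop := by
      rw [Metric.tendstoUniformly_iff]
      intro ε hε
      obtain ⟨m0, -, hm0⟩ := hunif k (ε / 2) (half_pos hε)
      refine Filter.eventually_atTop.mpr ⟨m0, fun M hM x => ?_⟩
      rw [dist_comm]
      exact (hm0 M hM x).trans_lt (half_lt_self hε)
    exact ht.continuous (Filter.Frequently.of_forall (fun M => limT_cont h k M))
  have hstep : ∀ k x, Ψ k x = κ k (Ψ (k + 1) x) := by
    intro k x
    have h1 : Filter.Tendsto (fun M => κ k (Psi κ (k + 1) M x)) Filter.atTop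
        (𝓝 (κ k (Ψ (k + 1) x))) :=
      ((h.col k).cont.tendsto _).comp (hΨ (k + 1) x)
    refine tendsto_nhds_unique (hΨ k x) (h1.congr' ?_)
    refine Filter.eventually_atTop.mpr ⟨k + 1, fun M hM => ?_⟩
    exact (limT_left κ (by omega) x).symm
  have hidK : ∀ k, ∀ j < k, ∀ x ∈ Y.K j, Ψ k x = x := by
    intro k j hj x hx
    refine tendsto_nhds_unique (hΨ k x) ?_
    have : (fun M => Psi κ k M x) = fun _ => x := by
      funext M
      exact limT_id h hj hx M
    rw [this]
    exact tendsto_const_nhds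
  have hmaps : ∀ k, Set.MapsTo (Ψ k) Y.D Y.D := by
    intro k x hx
    exact Y.compD.isClosed.mem_of_tendsto (hΨ k x)
      (Filter.Eventually.of_forall (fun M => limT_maps h k M hx))
  have hsurj : ∀ k, Set.SurjOn (Ψ k) Y.D Y.D := by
    intro k y hy
    have hc : ∀ M, ∃ x ∈ Y.D, Psi κ k M x = y := fun M => limT_surj h k M hy
    choose x hxD hx using hc
    obtain ⟨z, hz, φ, hφ, hlim⟩ := Y.compD.tendsto_subseq hxD
    refine ⟨z, hz, ?_⟩
    have h1 : Filter.Tendsto (fun i => Ψ k (x (φ i))) Filter.atTop (𝓝 (Ψ k z)) :=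
      ((hcont k).tendsto z).comp hlim
    have h2 : Filter.Tendsto (fun i => Ψ k (x (φ i))) Filter.atTop (𝓝 y) := by
      rw [Metric.tendsto_atTop]
      intro ε hε
      obtain ⟨m0, -, hm0⟩ := hunif k (ε / 2) (half_pos hε)
      refine ⟨m0, fun i hi => ?_⟩
      have h3 := hm0 (φ i) (le_trans hi (hφ.id_le i)) (x (φ i))
      rw [hx (φ i), dist_comm] at h3
      exact h3.trans_lt (half_lt_self hε)
    exact tendsto_nhds_unique h1 h2
  have hlimx : ∀ x, Filter.Tendsto (fun k => Ψ k x) Filter.atTop (𝓝 x) := by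
    intro x
    rw [Metric.tendsto_atTop]
    intro ε hε
    obtain ⟨n0, hn0⟩ := exists_pow_lt_of_lt_one (by positivity : 0 < ε / 16)
      (by norm_num : (1 / 2 : ℝ) < 1)
    obtain ⟨m1, hm1⟩ := Filter.eventually_atTop.mp
      (Y.diam0.eventually (gt_mem_nhds (by positivity : 0 < ε / 16)))
    refine ⟨max n0 m1, fun k hk => ?_⟩
    have hb : ∀ n, k ≤ n → Metric.diam (Psi κ k n '' Nb n) ≤ ε / 8 := by
      intro n hn
      have h1 := limT_e_le h hn
      have h2 : ((1 : ℝ) / 2) ^ n ≤ ε / 16 :=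
        (pow_le_pow_of_le_one (by norm_num) (by norm_num) (by omega)).trans hn0.le
      have h3 : ((1 : ℝ) / 2) ^ k ≤ ε / 16 :=
        (pow_le_pow_of_le_one (by norm_num) (by norm_num) (by omega)).trans hn0.le
      have h4 : max (Metric.diam (Y.K n)) ((1 / 2) ^ k) ≤ ε / 16 :=
        max_le (hm1 n (by omega)).le h3
      linarith
    have h3 : ((1 : ℝ) / 2) ^ k ≤ ε / 16 :=
      (pow_le_pow_of_le_one (by norm_num) (by norm_num) (by omega)).trans hn0.le
    have h5 : dist (Ψ k x) x ≤ ε / 8 + 4 * (1 / 2) ^ k := by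
      have ht : Filter.Tendsto (fun M => dist (Psi κ k M x) (Psi κ k k x)) Filter.atTop
          (𝓝 (dist (Ψ k x) (Psi κ k k x))) := (hΨ k x).dist tendsto_const_nhds
      have h6 : dist (Ψ k x) (Psi κ k k x) ≤ ε / 8 + 4 * (1 / 2) ^ k := by
        refine le_of_tendsto ht ?_
        exact Filter.eventually_atTop.mpr ⟨k, fun M hM =>
          limT_dist h (le_refl k) (by positivity) hb x hM⟩
      rw [limT_of_le κ (le_refl k)] at h6
      exact h6
    linarith
  refine ⟨Ψ, hcont, hmaps, hsurj, hidK, hstep, ?_⟩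
  intro x hx y hy hxy
  have hfact : ∀ n z, Ψ 0 z = Psi κ 0 n (Ψ n z) := by
    intro n z
    induction n with
    | zero => rfl
    | succ n ih => rw [ih, limT_succ κ (Nat.zero_le n), ← hstep n z]
  by_cases hh : ∃ n, ∃ j < n, Ψ n x ∈ Y.K j ∧ Ψ n y ∈ Y.K j
  · obtain ⟨n, j, hj, h1, h2⟩ := hh
    right
    have hstab : ∀ z, Ψ n z ∈ Y.K j → z ∈ Y.K j := by
      intro z hz
      have h3 : ∀ d, Ψ (n + d) z = Ψ n z := by
        intro d
        induction d with
        | zero => rfl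
        | succ d ih =>
          have h4 := hstep (n + d) z
          rw [ih] at h4
          have h5 : Ψ (n + d + 1) z ∈ Y.K j := by
            apply limT_back h (by omega : j < n + d)
            rw [← h4]
            exact hz
          have h6 := limT_idκ h (h.c1 (n + d) j (by omega)) h5
          rw [h6] at h4
          rw [← add_assoc, ← h4]
      have h7 : Filter.Tendsto (fun d => Ψ (n + d) z) Filter.atTop (𝓝 z) :=
        (hlimx z).comp (Filter.tendsto_atTop_mono (fun d => Nat.le_add_left d n) Filter.tendsto_id)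
      have h8 : (fun d => Ψ (n + d) z) = fun _ => Ψ n z := funext h3
      rw [h8] at h7
      have h9 := tendsto_nhds_unique h7 tendsto_const_nhds
      rw [h9]
      exact hz
    exact ⟨j, hstab x h1, hstab y h2⟩
  · left
    push Not at hh
    have heq : ∀ n, Ψ n x = Ψ n y := by
      intro n
      have h1 := hxy
      rw [hfact n x, hfact n y] at h1
      rcases limT_fin_inj h n h1 with h2 | ⟨j, hj, h2, h3⟩
      · exact h2
      · exact absurd h3 (hh n j hj h2)
    have h1 := hlimx x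
    have h2 : (fun k => Ψ k x) = fun k => Ψ k y := funext heq
    rw [h2] at h1
    exact tendsto_nhds_unique h1 (hlimx y)

end Pool.Agent.Carpet
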