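import Pool.Agent.Lib_helper45.Carpet.Fin

/-! # Block NEAR -/

set_option autoImplicit false

namespace Pool.Agent.Carpet

open scoped ComplexConjugate InnerProductSpace

variable {St Γ 𝕜 E : Type*} [Group Γ] [RCLike 𝕜] [NormedAddCommGroup E] [InnerProductSpace 𝕜 E]

/-- Nearest orbit point inequality. -/
def NearProp (R : Rep Γ 𝕜 E) (c : ℝ) : Prop :=
  ∀ X : E × 𝕜, q X < 0 → ∃ g₀ : Γ, (∀ g, ‖B X (R.ρ g₀ o)‖ ≤ ‖B X (R.ρ g o)‖) ∧
    ∀ g, c * (‖B X (R.ρ g₀ o)‖ * R.N (g₀⁻¹ * g)) ≤ ‖B X (R.ρ g o)‖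

theorem near_lower (R : Rep Γ 𝕜 E) (X : E × 𝕜) (g : Γ) :
    (‖X.2‖ - ‖X.1‖) * R.N g ≤ ‖B X (R.ρ g o)‖ := by
  have h1 : ‖(R.ρ g o).1‖ ≤ ‖(R.ρ g o).2‖ := by
    have h := R.q_act g o
    rw [q_o, q] at h
    have := norm_nonneg (R.ρ g o).1
    have := norm_nonneg (R.ρ g o).2
    nlinarith
  have h2 : ‖B X (R.ρ g o)‖ ≥ ‖conj X.2 * (R.ρ g o).2‖ - ‖⟪X.1, (R.ρ g o).1⟫_𝕜‖ := by
    rw [B]
    have := norm_sub_norm_le (conj X.2 * (R.ρ g o).2) (⟪X.1, (R.ρ g o).1⟫_𝕜)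
    rwa [norm_sub_rev] at this
  rw [norm_mul, RCLike.norm_conj] at h2
  have h3 := norm_inner_le_norm (𝕜 := 𝕜) X.1 (R.ρ g o).1
  have h4 : ‖X.1‖ * ‖(R.ρ g o).1‖ ≤ ‖X.1‖ * ‖(R.ρ g o).2‖ :=
    mul_le_mul_of_nonneg_left h1 (norm_nonneg _)
  rw [Rep.N]
  nlinarith

theorem near_of_transv {T : St → Γ → St → Prop} (hT : AutGood T) {R : Rep Γ 𝕜 E}
    (t : Transv R T) (f : ∀ r : ℝ, {g : Γ | R.N g ≤ r}.Finite) :
    ∃ c : ℝ, 0 < c ∧ NearProp R c := by
  classical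
  obtain ⟨κ, hκ, hκ2⟩ := t
  obtain ⟨m, hm1, hm⟩ := bounded_letters hT R
  set K0 : ℝ := 4 / κ with hK0
  have hK0pos : 0 < K0 := by positivity
  set K1 : ℝ := 1 + 2 * m * K0 with hK1
  have hK1pos : 0 < K1 := by positivity
  have hK01 : K0 ≤ K1 := by nlinarith
  refine ⟨1 / (4 * K1), by positivity, ?_⟩
  intro X hX
  have hXlt : ‖X.1‖ < ‖X.2‖ := by
    rw [q] at hX
    have := norm_nonneg X.1
    have := norm_nonneg X.2
    nlinarith
  have hpos : 0 < ‖X.2‖ - ‖X.1‖ := by linarith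
  have hfin : {g : Γ | ‖B X (R.ρ g o)‖ ≤ ‖B X (R.ρ 1 o)‖}.Finite := by
    refine (f (‖B X (R.ρ 1 o)‖ / (‖X.2‖ - ‖X.1‖))).subset ?_
    intro g hg
    have h1 := near_lower R X g
    have h2 : ‖B X (R.ρ g o)‖ ≤ ‖B X (R.ρ 1 o)‖ := hg
    show R.N g ≤ _
    rw [le_div_iff₀ hpos]
    linarith
  obtain ⟨g₀, hg₀, hmin⟩ := Set.exists_min_image _ (fun g => ‖B X (R.ρ g o)‖) hfin
    ⟨1, le_refl (‖B X (R.ρ 1 o)‖)⟩
  have hmin' : ∀ g, ‖B X (R.ρ g₀ o)‖ ≤ ‖B X (R.ρ g o)‖ := by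
    intro g
    by_cases h : ‖B X (R.ρ g o)‖ ≤ ‖B X (R.ρ 1 o)‖
    · exact hmin g h
    · push Not at h
      exact (show ‖B X (R.ρ g₀ o)‖ ≤ ‖B X (R.ρ 1 o)‖ from hg₀).trans h.le
  refine ⟨g₀, hmin', ?_⟩
  -- translate
  set X' := R.ρ g₀⁻¹ X with hX'
  have hb : ∀ w, ‖B X (R.ρ (g₀ * w) o)‖ = ‖B X' (R.ρ w o)‖ := by
    intro w
    rw [hX', R.B_inv, ← R.ρ_mul]
  have hb1 : ∀ w, ‖B X' o‖ ≤ ‖B X' (R.ρ w o)‖ := by
    intro w
    have h1 := hmin' (g₀ * w)
    rw [hb w] at h1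
    have h2 := hb 1
    rw [mul_one, map_one, Module.End.one_apply] at h2
    rwa [h2] at h1
  have hmain : ∀ w, 1 / (4 * K1) * (‖B X' o‖ * R.N w) ≤ ‖B X' (R.ρ w o)‖ := by
    intro w
    obtain ⟨s, l, s', hp, hw⟩ := hT.2 w
    have hbn := norm_nonneg (B X' o)
    have hbw := hb1 w
    have hNw := R.one_le_N w
    by_cases hex : ∃ k, K0 ≤ R.N (l.take k).prod
    · set k := Nat.find hex with hk
      have hk1 : K0 ≤ R.N (l.take k).prod := Nat.find_spec hex
      have hk2 : R.N (l.take k).prod ≤ K1 := by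
        rcases Nat.eq_zero_or_pos k with h0 | h0
        · rw [h0, List.take_zero, List.prod_nil, R.N_one]
          have : 0 ≤ 2 * m * K0 := by positivity
          linarith
        · obtain ⟨j, hj⟩ : ∃ j, k = j + 1 := ⟨k - 1, by omega⟩
          have hlt : ¬ K0 ≤ R.N (l.take j).prod := Nat.find_min hex (by omega)
          push Not at hlt
          rw [hj, List.take_add_one, List.prod_append]
          cases hlj : l[j]? with
          | none =>
            simp only [Option.toList_none, List.prod_nil, mul_one]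
            linarith
          | some g =>
            have hg : g ∈ l := List.mem_of_getElem? hlj
            obtain ⟨a, b, hab⟩ := Path.mem hp hg
            have hgm := hm a g b hab
            simp only [Option.toList_some, List.prod_singleton]
            refine (R.N_mul_le _ _).trans ?_
            have h1 := R.one_le_N (l.take j).prod
            have h2 := R.one_le_N g
            have h3 : 2 * R.N (l.take j).prod * R.N g ≤ 2 * K0 * m := by gcongr
            nlinarith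
      obtain ⟨s1, p1, p2⟩ := Path.take_drop hp k
      have hκ3 := hκ2 s _ s1 _ s' p1 p2
      rw [List.take_append_drop, hw] at hκ3
      set v := (l.take k).prod with hv
      have hvw : v⁻¹ * w = (l.drop k).prod := by
        rw [← hw, ← List.prod_take_mul_prod_drop l k, ← hv, inv_mul_cancel_left]
      rw [← hvw] at hκ3
      -- ptolemy
      have hX'0 : q X' ≤ 0 := by
        rw [hX', R.q_act]; exact hX.le
      have hp3 := ptolemy (u := X') (v := R.ρ w o) (w := R.ρ v o) hX'0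
        (by rw [R.q_act, q_o]; norm_num) (by rw [R.q_act, q_o]; norm_num)
      have e1 : ‖(R.ρ w o).2‖ = R.N w := rfl
      have e2 : ‖(R.ρ v o).2‖ = R.N v := rfl
      have e3 : ‖B (R.ρ w o) (R.ρ v o)‖ = R.N (v⁻¹ * w) := by
        rw [← R.N_eq, ← R.N_inv]
        congr 1
        group
      have e4 : ‖X'.2‖ = ‖B X' o‖ := by
        rw [B_o_right, norm_neg, RCLike.norm_conj]
      rw [e1, e2, e3, e4] at hp3
      have h5 := hb1 v
      have hNv := R.one_le_N v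
      have hNvw := R.one_le_N (v⁻¹ * w)
      -- N (v⁻¹ w) ≤ N w / 4
      have h6 : 4 * R.N (v⁻¹ * w) ≤ R.N w := by
        have h7 : 4 ≤ κ * R.N v := by
          have : κ * K0 ≤ κ * R.N v := mul_le_mul_of_nonneg_left hk1 hκ.le
          have h8 : κ * K0 = 4 := by rw [hK0]; field_simp
          linarith
        nlinarith
      have h9 : ‖B X' o‖ * R.N w ≤ ‖B X' (R.ρ v o)‖ * R.N w :=
        mul_le_mul_of_nonneg_right h5 (by linarith)
      have h10 : ‖B X' (R.ρ w o)‖ * R.N v ≤ ‖B X' (R.ρ w o)‖ * K1 :=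
        mul_le_mul_of_nonneg_left hk2 (norm_nonneg _)
      have h11 : ‖B X' o‖ * R.N (v⁻¹ * w) * 4 ≤ ‖B X' o‖ * R.N w := by
        nlinarith
      have h12 : ‖B X' o‖ * R.N w ≤ 4 * K1 * ‖B X' (R.ρ w o)‖ := by nlinarith
      rw [one_div, inv_mul_le_iff₀ (by positivity)]
      exact h12
    · push Not at hex
      have h1 := hex l.length
      rw [List.take_length, hw] at h1
      rw [one_div, inv_mul_le_iff₀ (by positivity)]
      have h2 : ‖B X' o‖ * R.N w ≤ ‖B X' (R.ρ w o)‖ * K0 := by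
        apply mul_le_mul hbw h1.le (by linarith) (norm_nonneg _)
      have h3 : ‖B X' (R.ρ w o)‖ * K0 ≤ ‖B X' (R.ρ w o)‖ * K1 :=
        mul_le_mul_of_nonneg_left hK01 (norm_nonneg _)
      have h4 := norm_nonneg (B X' (R.ρ w o))
      nlinarith
  intro g
  have h1 := hmain (g₀⁻¹ * g)
  have h2 := hb (g₀⁻¹ * g)
  rw [mul_inv_cancel_left] at h2
  have h3 := hb 1
  rw [mul_one, map_one, Module.End.one_apply] at h3
  rw [h2, h3]
  exact h1

end Pool.Agent.Carpet
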