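import Pool.Agent.Lib_helper45.Carpet.Near

/-! # Block POT1 and POT2 : the potential -/

set_option autoImplicit false

namespace Pool.Agent.Carpet

open scoped Topology

variable {Γ 𝕜 E : Type*} [Group Γ] [RCLike 𝕜] [NormedAddCommGroup E] [InnerProductSpace 𝕜 E]

/-- The potential (used for `q X = -1`). -/
noncomputable def pot (R : Rep Γ 𝕜 E) (s : ℕ) (X : E × 𝕜) : ℝ :=
  ∑' g : Γ, (‖B X (R.ρ g o)‖ ^ (2 * s))⁻¹

theorem pot_gap {X : E × 𝕜} (hX : q X < 0) : 0 < ‖X.2‖ - ‖X.1‖ := by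
  unfold q at hX
  have : ‖X.1‖ < ‖X.2‖ := by
    apply lt_of_pow_lt_pow_left₀ 2 (norm_nonneg _)
    linarith
  linarith

theorem pot_lower (R : Rep Γ 𝕜 E) (X : E × 𝕜) (g : Γ) :
    (‖X.2‖ - ‖X.1‖) * R.N g ≤ ‖B X (R.ρ g o)‖ := by
  have hq : q (R.ρ g o) = -1 := by rw [R.q_act, q_o]
  set y := R.ρ g o with hy
  have hN : R.N g = ‖y.2‖ := rfl
  have h1 : ‖y.1‖ ≤ ‖y.2‖ := by
    unfold q at hq
    apply le_of_sq_le_sq _ (norm_nonneg _)
    linarith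
  have h2 : ‖X.2‖ * ‖y.2‖ - ‖X.1‖ * ‖y.1‖ ≤ ‖B X y‖ := by
    unfold B
    have e1 : ‖(starRingEnd 𝕜) X.2 * y.2‖ = ‖X.2‖ * ‖y.2‖ := by
      rw [norm_mul, RCLike.norm_conj]
    have e2 := norm_inner_le_norm (𝕜 := 𝕜) X.1 y.1
    have e3 := norm_sub_norm_le ((starRingEnd 𝕜) X.2 * y.2) (inner 𝕜 X.1 y.1)
    rw [norm_sub_rev] at e3
    linarith
  have h3 : ‖X.1‖ * ‖y.1‖ ≤ ‖X.1‖ * ‖y.2‖ := mul_le_mul_of_nonneg_left h1 (norm_nonneg _)
  rw [hN]
  nlinarith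

theorem pot_term_le (R : Rep Γ 𝕜 E) (s : ℕ) {X : E × 𝕜} {δ : ℝ} (hδ : 0 < δ)
    (hX : δ ≤ ‖X.2‖ - ‖X.1‖) (g : Γ) :
    (‖B X (R.ρ g o)‖ ^ (2 * s))⁻¹ ≤ (δ ^ (2 * s))⁻¹ * (R.N g ^ (2 * s))⁻¹ := by
  have h1 := pot_lower R X g
  have h2 := R.one_le_N g
  rw [← mul_inv, ← mul_pow]
  apply inv_anti₀ (by positivity)
  apply pow_le_pow_left₀ (by positivity)
  refine le_trans ?_ h1
  exact mul_le_mul_of_nonneg_right hX (by linarith)

theorem pot_summable {R : Rep Γ 𝕜 E} {s : ℕ} (hs : Summable fun g : Γ => (R.N g ^ (2 * s))⁻¹)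
    {X : E × 𝕜} (hX : q X < 0) : Summable fun g : Γ => (‖B X (R.ρ g o)‖ ^ (2 * s))⁻¹ := by
  refine Summable.of_nonneg_of_le (fun g => by positivity)
    (fun g => pot_term_le R s (pot_gap hX) le_rfl g) ?_
  exact hs.mul_left _

theorem pot_continuous_B (y : E × 𝕜) : Continuous fun X : E × 𝕜 => B X y := by
  unfold B
  have h1 : Continuous fun X : E × 𝕜 => (starRingEnd 𝕜) X.2 :=
    RCLike.continuous_conj.comp continuous_snd
  exact (continuous_fst.inner continuous_const).sub (h1.mul continuous_const)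

theorem pot_continuousOn {R : Rep Γ 𝕜 E} {s : ℕ} (hs0 : 0 < s)
    (hs : Summable fun g : Γ => (R.N g ^ (2 * s))⁻¹) :
    ContinuousOn (pot R s) {X : E × 𝕜 | q X < 0} := by
  intro X hX
  have hX' : q X < 0 := hX
  have hgap := pot_gap hX'
  set δ := (‖X.2‖ - ‖X.1‖) / 2 with hδ
  have hδ0 : 0 < δ := by rw [hδ]; linarith
  set U : Set (E × 𝕜) := {Y | δ < ‖Y.2‖ - ‖Y.1‖} with hU
  have hUo : IsOpen U := isOpen_lt continuous_const
    (continuous_snd.norm.sub continuous_fst.norm)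
  have hXU : X ∈ U := by
    show δ < ‖X.2‖ - ‖X.1‖
    rw [hδ]; linarith
  have hc : ContinuousOn (pot R s) U := by
    unfold pot
    refine continuousOn_tsum (u := fun g => (δ ^ (2 * s))⁻¹ * (R.N g ^ (2 * s))⁻¹) ?_
      (hs.mul_left _) ?_
    · intro g
      apply ContinuousOn.inv₀
      · exact ((pot_continuous_B _).norm.pow _).continuousOn
      · intro Y hY
        have h1 := pot_lower R Y g
        have h2 := R.one_le_N g
        have hY' : δ < ‖Y.2‖ - ‖Y.1‖ := hY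
        have h3 : 0 < ‖B Y (R.ρ g o)‖ := by
          refine lt_of_lt_of_le ?_ h1
          exact mul_pos (by linarith) (by linarith)
        positivity
    · intro g Y hY
      have hY' : δ < ‖Y.2‖ - ‖Y.1‖ := hY
      rw [Real.norm_of_nonneg (by positivity)]
      exact pot_term_le R s hδ0 hY'.le g
  exact (hc.continuousAt (hUo.mem_nhds hXU)).continuousWithinAt

theorem one_le_pot {R : Rep Γ 𝕜 E} {s : ℕ} (hs0 : 0 < s)
    (hs : Summable fun g : Γ => (R.N g ^ (2 * s))⁻¹) (g : Γ) : 1 ≤ pot R s (R.ρ g o) := by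
  have hq : q (R.ρ g o) = -1 := by rw [R.q_act, q_o]
  have h1 := pot_summable hs (X := R.ρ g o) (by rw [hq]; norm_num)
  have h2 := h1.le_tsum g (fun g' _ => by positivity)
  have h3 : (‖B (R.ρ g o) (R.ρ g o)‖ ^ (2 * s))⁻¹ = 1 := by
    rw [B_self, hq]
    simp
  rw [h3] at h2
  exact h2

/-- Where the potential is not small, the orbit is near. -/
theorem pot_near {R : Rep Γ 𝕜 E} {s : ℕ} (hs0 : 0 < s)
    (hs : Summable fun g : Γ => (R.N g ^ (2 * s))⁻¹) {c : ℝ} (hc : 0 < c) (hn : NearProp R c)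
    {m : ℝ} (hm : 0 < m) :
    ∃ r : ℝ, ∀ X : E × 𝕜, q X = -1 → m ≤ pot R s X → ∃ g : Γ, ‖B X (R.ρ g o)‖ ≤ r := by
  set S := ∑' g : Γ, (R.N g ^ (2 * s))⁻¹ with hS
  refine ⟨max 1 (S / m) / c, ?_⟩
  intro X hX hmX
  obtain ⟨g₀, h1, h2⟩ := hn X (by rw [hX]; norm_num)
  refine ⟨g₀, ?_⟩
  by_contra hcon
  push Not at hcon
  set b := ‖B X (R.ρ g₀ o)‖ with hb
  have hM : (1 : ℝ) ≤ max 1 (S / m) := le_max_left _ _
  have hcb : max 1 (S / m) < c * b := by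
    rw [div_lt_iff₀ hc] at hcon
    linarith
  have hb0 : 0 < c * b := by linarith
  have hsum2 : Summable fun g : Γ => (R.N (g₀⁻¹ * g) ^ (2 * s))⁻¹ :=
    (Equiv.summable_iff (Equiv.mulLeft g₀⁻¹)).2 hs
  have hS2 : ∑' g : Γ, (R.N (g₀⁻¹ * g) ^ (2 * s))⁻¹ = S :=
    (Equiv.mulLeft g₀⁻¹).tsum_eq (fun g : Γ => (R.N g ^ (2 * s))⁻¹)
  have h3 : pot R s X ≤ ((c * b) ^ (2 * s))⁻¹ * S := by
    rw [← hS2, ← tsum_mul_left]
    unfold pot
    refine (pot_summable hs (by rw [hX]; norm_num)).tsum_le_tsum ?_ (hsum2.mul_left _)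
    intro g
    have h4 := h2 g
    have h5 := R.one_le_N (g₀⁻¹ * g)
    rw [← mul_inv, ← mul_pow]
    apply inv_anti₀ (by positivity)
    apply pow_le_pow_left₀ (by positivity)
    calc c * b * R.N (g₀⁻¹ * g) = c * (b * R.N (g₀⁻¹ * g)) := by ring
      _ ≤ _ := h4
  have h6 : S / m < (c * b) ^ (2 * s) := by
    calc S / m ≤ max 1 (S / m) := le_max_right _ _
      _ < c * b := hcb
      _ = (c * b) ^ 1 := (pow_one _).symm
      _ ≤ (c * b) ^ (2 * s) := pow_le_pow_right₀ (by linarith) (by omega)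
  have h7 : m ≤ ((c * b) ^ (2 * s))⁻¹ * S := hmX.trans h3
  have h8 : 0 < (c * b) ^ (2 * s) := by positivity
  rw [div_lt_iff₀ hm] at h6
  have h9 : (c * b) ^ (2 * s) * m ≤ S := by
    have := mul_le_mul_of_nonneg_left h7 h8.le
    rwa [← mul_assoc, mul_inv_cancel₀ h8.ne', one_mul] at this
  linarith

end Pool.Agent.Carpet
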