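import Pool.Agent.Lib_helper45.Carpet.Pot

/-! # Block POT2 : quasi-concavity of the potential along geodesics -/

set_option autoImplicit false

namespace Pool.Agent.Carpet

open scoped Topology

variable {Γ 𝕜 E : Type*} [Group Γ] [RCLike 𝕜] [NormedAddCommGroup E] [InnerProductSpace 𝕜 E]

/-- The geodesic from `X` to `Y` (`q X = q Y = -1`, `B X Y = - cosh L`), `0 ≤ t ≤ L`. -/
noncomputable def geod (X Y : E × 𝕜) (L t : ℝ) : E × 𝕜 :=
  (((Real.sinh L)⁻¹ * Real.sinh (L - t) : ℝ) : 𝕜) • X +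
    (((Real.sinh L)⁻¹ * Real.sinh t : ℝ) : 𝕜) • Y

/-! ### Taylor bounds -/

theorem pot2_inv_pow (s : ℕ) : ∃ C : ℝ, 0 ≤ C ∧ ∀ x : ℝ, |x| ≤ 1 / 2 →
    |((1 + x) ^ s)⁻¹ - (1 - s * x + s * (s + 1) / 2 * x ^ 2)| ≤ C * |x| ^ 3 := by
  induction s with
  | zero => exact ⟨0, le_rfl, fun x _ => by simp⟩
  | succ s ih =>
    obtain ⟨C, hC, h⟩ := ih
    refine ⟨2 * (C + (s + 1) * (s + 2) / 2), by positivity, ?_⟩
    intro x hx
    have h1 : 1 / 2 ≤ 1 + x := by have := (abs_le.1 hx).1; linarith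
    have h0 : 0 < 1 + x := by linarith
    have hne : (1 + x) ≠ 0 := h0.ne'
    have e : ((1 + x) ^ (s + 1))⁻¹ -
        (1 - ((s + 1 : ℕ) : ℝ) * x + ((s + 1 : ℕ) : ℝ) * (((s + 1 : ℕ) : ℝ) + 1) / 2 * x ^ 2) =
        ((((1 + x) ^ s)⁻¹ - (1 - s * x + s * (s + 1) / 2 * x ^ 2)) -
          (s + 1) * (s + 2) / 2 * x ^ 3) * (1 + x)⁻¹ := by
      push_cast
      rw [pow_succ, mul_inv]
      field_simp
      ring
    rw [e, abs_mul]
    have h2 : |(1 + x)⁻¹| ≤ 2 := by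
      rw [abs_of_pos (inv_pos.2 h0)]
      have := inv_anti₀ (by norm_num : (0 : ℝ) < 1 / 2) h1
      norm_num at this ⊢
      exact this
    have h3 : |(((1 + x) ^ s)⁻¹ - (1 - s * x + s * (s + 1) / 2 * x ^ 2)) -
          (s + 1) * (s + 2) / 2 * x ^ 3| ≤ (C + (s + 1) * (s + 2) / 2) * |x| ^ 3 := by
      have e2 : (C + (s + 1) * (s + 2) / 2) * |x| ^ 3 =
          C * |x| ^ 3 + |(s + 1) * (s + 2) / 2 * x ^ 3| := by
        rw [abs_mul, abs_pow,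
          abs_of_nonneg (by positivity : (0 : ℝ) ≤ ((s : ℝ) + 1) * (s + 2) / 2)]
        ring
      rw [e2]
      exact (abs_sub _ _).trans (add_le_add (h x hx) le_rfl)
    calc _ ≤ ((C + (s + 1) * (s + 2) / 2) * |x| ^ 3) * 2 :=
          mul_le_mul h3 h2 (abs_nonneg _) (by positivity)
      _ = _ := by ring

theorem pot2_norm_sq (ρ : 𝕜) (τ : ℝ) :
    ‖1 + (τ : 𝕜) * ρ‖ ^ 2 = 1 + (2 * RCLike.re ρ * τ + ‖ρ‖ ^ 2 * τ ^ 2) := by
  rw [RCLike.norm_sq_eq_def, RCLike.norm_sq_eq_def]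
  simp only [map_add, RCLike.one_re, RCLike.one_im, RCLike.re_ofReal_mul, RCLike.im_ofReal_mul]
  ring

theorem pot2_term (s : ℕ) : ∃ C : ℝ, 0 ≤ C ∧ ∀ (ρ : 𝕜) (τ : ℝ), ‖ρ‖ ≤ 1 → 0 ≤ τ → τ ≤ 1 / 6 →
    (‖1 + (τ : 𝕜) * ρ‖ ^ (2 * s))⁻¹ ≤
      1 - 2 * s * RCLike.re ρ * τ + 2 * s * (s + 1) * RCLike.re ρ ^ 2 * τ ^ 2 + C * τ ^ 3 := by
  obtain ⟨C, hC, h⟩ := pot2_inv_pow s
  refine ⟨27 * C + 5 / 2 * (s * (s + 1)), by positivity, ?_⟩
  intro ρ τ hρ h0 h6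
  rw [pow_mul, pot2_norm_sq]
  set r := RCLike.re ρ with hr
  have hr1 : |r| ≤ 1 := (RCLike.abs_re_le_norm ρ).trans hρ
  set x := 2 * r * τ + ‖ρ‖ ^ 2 * τ ^ 2 with hx
  have hn : ‖ρ‖ ^ 2 ≤ 1 := pow_le_one₀ (norm_nonneg _) hρ
  have hn0 : 0 ≤ ‖ρ‖ ^ 2 := by positivity
  have hτ2 : τ ^ 2 ≤ τ := by nlinarith
  obtain ⟨r1, r2⟩ := abs_le.1 hr1
  have hxle : |x| ≤ 3 * τ := by
    have h1 : ‖ρ‖ ^ 2 * τ ^ 2 ≤ 1 * τ := mul_le_mul hn hτ2 (by positivity) (by norm_num)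
    have h2 : 0 ≤ ‖ρ‖ ^ 2 * τ ^ 2 := by positivity
    rw [abs_le]
    constructor <;> nlinarith
  have hx2 : |x| ≤ 1 / 2 := by linarith
  have h1 := (abs_le.1 (h x hx2)).2
  have h2 : |x| ^ 3 ≤ 27 * τ ^ 3 := by
    calc |x| ^ 3 ≤ (3 * τ) ^ 3 := pow_le_pow_left₀ (abs_nonneg _) hxle 3
      _ = 27 * τ ^ 3 := by ring
  have h3 : C * |x| ^ 3 ≤ 27 * C * τ ^ 3 := by
    calc C * |x| ^ 3 ≤ C * (27 * τ ^ 3) := mul_le_mul_of_nonneg_left h2 hC
      _ = _ := by ring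
  have h4 : x ^ 2 ≤ 4 * r ^ 2 * τ ^ 2 + 5 * τ ^ 3 := by
    have e : x ^ 2 = 4 * r ^ 2 * τ ^ 2 + (4 * (r * ‖ρ‖ ^ 2) * τ ^ 3 + (‖ρ‖ ^ 2) ^ 2 * τ ^ 4) := by
      rw [hx]; ring
    rw [e]
    have h5 : r * ‖ρ‖ ^ 2 ≤ 1 := by nlinarith
    have h6' : (‖ρ‖ ^ 2) ^ 2 ≤ 1 := pow_le_one₀ hn0 hn
    have h7 : τ ^ 4 ≤ τ ^ 3 := by
      have : 0 ≤ τ ^ 3 := by positivity
      nlinarith
    have h8 : 0 ≤ τ ^ 3 := by positivity
    have h9 : 0 ≤ τ ^ 4 := by positivity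
    nlinarith
  have h5 : (s : ℝ) * (s + 1) / 2 * x ^ 2 ≤
      2 * s * (s + 1) * r ^ 2 * τ ^ 2 + 5 / 2 * (s * (s + 1)) * τ ^ 3 := by
    calc (s : ℝ) * (s + 1) / 2 * x ^ 2
        ≤ (s : ℝ) * (s + 1) / 2 * (4 * r ^ 2 * τ ^ 2 + 5 * τ ^ 3) :=
          mul_le_mul_of_nonneg_left h4 (by positivity)
      _ = _ := by ring
  have h6' : -(s : ℝ) * x ≤ -(2 * s * r * τ) := by
    have : 0 ≤ (s : ℝ) * (‖ρ‖ ^ 2 * τ ^ 2) := by positivity
    rw [hx]; linarith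
  linarith

/-! ### geometry -/

/-- the derivative of the geodesic -/
noncomputable def geodD (X Y : E × 𝕜) (L t : ℝ) : E × 𝕜 :=
  ((-((Real.sinh L)⁻¹ * Real.cosh (L - t)) : ℝ) : 𝕜) • X +
    (((Real.sinh L)⁻¹ * Real.cosh t : ℝ) : 𝕜) • Y

theorem geod_add (X Y : E × 𝕜) (L t h : ℝ) :
    geod X Y L (t + h) = ((Real.cosh h : ℝ) : 𝕜) • geod X Y L t +
      ((Real.sinh h : ℝ) : 𝕜) • geodD X Y L t := by
  unfold geod geodD
  have e1 : (Real.sinh L)⁻¹ * Real.sinh (L - (t + h)) =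
      Real.cosh h * ((Real.sinh L)⁻¹ * Real.sinh (L - t)) +
        Real.sinh h * (-((Real.sinh L)⁻¹ * Real.cosh (L - t))) := by
    rw [show L - (t + h) = (L - t) - h by ring, Real.sinh_sub]; ring
  have e2 : (Real.sinh L)⁻¹ * Real.sinh (t + h) =
      Real.cosh h * ((Real.sinh L)⁻¹ * Real.sinh t) +
        Real.sinh h * ((Real.sinh L)⁻¹ * Real.cosh t) := by
    rw [Real.sinh_add]; ring
  rw [e1, e2]
  simp only [smul_add, smul_smul, RCLike.ofReal_add, RCLike.ofReal_mul, add_smul]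
  abel

theorem geod_zero (X Y : E × 𝕜) {L : ℝ} (hL : 0 < L) : geod X Y L 0 = X := by
  unfold geod
  have : Real.sinh L ≠ 0 := (Real.sinh_pos_iff.2 hL).ne'
  simp [this]

theorem geod_L (X Y : E × 𝕜) {L : ℝ} (hL : 0 < L) : geod X Y L L = Y := by
  unfold geod
  have : Real.sinh L ≠ 0 := (Real.sinh_pos_iff.2 hL).ne'
  simp [this]

theorem pot2_B_comb (X Y : E × 𝕜) {κ : ℝ} (hX : q X = -1) (hY : q Y = -1)
    (hXY : B X Y = ((-κ : ℝ) : 𝕜)) (a b a' b' : ℝ) :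
    B ((a : 𝕜) • X + (b : 𝕜) • Y) ((a' : 𝕜) • X + (b' : 𝕜) • Y) =
      ((-(a * a' + b * b' + (a * b' + b * a') * κ) : ℝ) : 𝕜) := by
  have hYX : B Y X = ((-κ : ℝ) : 𝕜) := by
    rw [← B_conj, hXY, RCLike.conj_ofReal]
  rw [B_add_left, B_add_right, B_add_right, B_smul_left, B_smul_left, B_smul_left, B_smul_left,
    B_smul_right, B_smul_right, B_smul_right, B_smul_right, B_self, B_self, hX, hY, hXY, hYX]
  simp only [RCLike.conj_ofReal]
  push_cast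
  ring

theorem pot2_q_comb (X Y : E × 𝕜) {κ : ℝ} (hX : q X = -1) (hY : q Y = -1)
    (hXY : B X Y = ((-κ : ℝ) : 𝕜)) (a b : ℝ) :
    q ((a : 𝕜) • X + (b : 𝕜) • Y) = -(a * a + b * b + (a * b + b * a) * κ) := by
  have h := pot2_B_comb X Y hX hY hXY a b a b
  rw [B_self] at h
  exact_mod_cast h

theorem geod_q (X Y : E × 𝕜) {L : ℝ} (hL : 0 < L) (hX : q X = -1) (hY : q Y = -1)
    (hXY : B X Y = ((-Real.cosh L : ℝ) : 𝕜)) (t : ℝ) : q (geod X Y L t) = -1 := by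
  unfold geod
  rw [pot2_q_comb X Y hX hY hXY]
  have hs : Real.sinh L ≠ 0 := (Real.sinh_pos_iff.2 hL).ne'
  have hc : Real.cosh L ^ 2 = Real.sinh L ^ 2 + 1 := Real.cosh_sq L
  have hK : Real.cosh t ^ 2 = Real.sinh t ^ 2 + 1 := Real.cosh_sq t
  have hu : Real.sinh L * (Real.sinh L)⁻¹ = 1 := mul_inv_cancel₀ hs
  rw [Real.sinh_sub]
  set u := (Real.sinh L)⁻¹
  set σ := Real.sinh L
  set c := Real.cosh L
  set K := Real.cosh t
  set S := Real.sinh t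
  linear_combination (u ^ 2 * S ^ 2) * hc - u ^ 2 * σ ^ 2 * hK - (σ * u + 1) * hu

theorem geodD_q (X Y : E × 𝕜) {L : ℝ} (hL : 0 < L) (hX : q X = -1) (hY : q Y = -1)
    (hXY : B X Y = ((-Real.cosh L : ℝ) : 𝕜)) (t : ℝ) : q (geodD X Y L t) = 1 := by
  unfold geodD
  rw [pot2_q_comb X Y hX hY hXY]
  have hs : Real.sinh L ≠ 0 := (Real.sinh_pos_iff.2 hL).ne'
  have hc : Real.cosh L ^ 2 = Real.sinh L ^ 2 + 1 := Real.cosh_sq L
  have hK : Real.cosh t ^ 2 = Real.sinh t ^ 2 + 1 := Real.cosh_sq t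
  have hu : Real.sinh L * (Real.sinh L)⁻¹ = 1 := mul_inv_cancel₀ hs
  rw [Real.cosh_sub]
  set u := (Real.sinh L)⁻¹
  set σ := Real.sinh L
  set c := Real.cosh L
  set K := Real.cosh t
  set S := Real.sinh t
  linear_combination (u ^ 2 * K ^ 2) * hc + u ^ 2 * σ ^ 2 * hK + (σ * u + 1) * hu

theorem geod_B_geodD (X Y : E × 𝕜) {L : ℝ} (hL : 0 < L) (hX : q X = -1) (hY : q Y = -1)
    (hXY : B X Y = ((-Real.cosh L : ℝ) : 𝕜)) (t : ℝ) :
    B (geod X Y L t) (geodD X Y L t) = 0 := by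
  unfold geod geodD
  rw [pot2_B_comb X Y hX hY hXY, RCLike.ofReal_eq_zero]
  have hs : Real.sinh L ≠ 0 := (Real.sinh_pos_iff.2 hL).ne'
  have hc : Real.cosh L ^ 2 = Real.sinh L ^ 2 + 1 := Real.cosh_sq L
  rw [Real.cosh_sub, Real.sinh_sub]
  set u := (Real.sinh L)⁻¹
  set σ := Real.sinh L
  set c := Real.cosh L
  set K := Real.cosh t
  set S := Real.sinh t
  linear_combination (u ^ 2 * K * S) * hc

theorem geod_continuous (X Y : E × 𝕜) (L : ℝ) : Continuous fun t => geod X Y L t := by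
  unfold geod
  have h1 : Continuous fun t : ℝ => (((Real.sinh L)⁻¹ * Real.sinh (L - t) : ℝ) : 𝕜) :=
    RCLike.continuous_ofReal.comp
      (continuous_const.mul (Real.continuous_sinh.comp (continuous_const.sub continuous_id)))
  have h2 : Continuous fun t : ℝ => (((Real.sinh L)⁻¹ * Real.sinh t : ℝ) : 𝕜) :=
    RCLike.continuous_ofReal.comp (continuous_const.mul Real.continuous_sinh)
  exact (h1.smul continuous_const).add (h2.smul continuous_const)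

theorem pot2_rho {Z v y : E × 𝕜} (hZ : q Z = -1) (hv : q v ≤ 1) (hZv : B Z v = 0)
    (hy : q y < 0) : ‖B y v / B y Z‖ ≤ 1 := by
  have hZ0 : q Z < 0 := by rw [hZ]; norm_num
  set y' : E × 𝕜 := y + (B Z y) • Z with hy'
  have h1 : B Z y' = 0 := by
    rw [hy', B_add_right, B_smul_right, B_self, hZ]; simp
  have h2 : B y' Z = 0 := by rw [← B_conj, h1]; simp
  have hvZ : B v Z = 0 := by rw [← B_conj, hZv]; simp
  have h3 : ((q y' : ℝ) : 𝕜) = ((q y + ‖B Z y‖ ^ 2 : ℝ) : 𝕜) := by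
    rw [← B_self]
    conv_lhs => rw [hy']
    rw [← hy', B_add_right, B_smul_right, h2, mul_zero, add_zero, hy', B_add_left, B_smul_left,
      B_self, RCLike.conj_mul]
    push_cast
    rfl
  have h4 : q y' = q y + ‖B Z y‖ ^ 2 := by exact_mod_cast h3
  have h5 := cs_perp hZ0 hZv h1
  have h6 : B v y' = B v y := by
    rw [hy', B_add_right, B_smul_right, hvZ, mul_zero, add_zero]
  have h7 := perp_nonneg hZ0 h1
  have h8 : ‖B v y‖ ^ 2 ≤ ‖B Z y‖ ^ 2 := by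
    rw [← h6]
    calc ‖B v y'‖ ^ 2 ≤ q v * q y' := h5
      _ ≤ 1 * q y' := mul_le_mul_of_nonneg_right hv h7
      _ ≤ ‖B Z y‖ ^ 2 := by rw [h4]; linarith
  have h9 : ‖B v y‖ ≤ ‖B Z y‖ := by
    exact le_of_sq_le_sq h8 (norm_nonneg _)
  rw [norm_div, norm_B_comm y v, norm_B_comm y Z]
  exact div_le_one_of_le₀ h9 (norm_nonneg _)

/-! ### the upper bound along a geodesic -/

theorem pot2_tanh (h : ℝ) (s : ℕ) (hs0 : 0 < s) :
    ((Real.cosh h) ^ (2 * s))⁻¹ ≤ 1 - Real.tanh h ^ 2 := by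
  have hc : 0 < Real.cosh h := Real.cosh_pos h
  have hc1 : 1 ≤ Real.cosh h := Real.one_le_cosh h
  have e : 1 - Real.tanh h ^ 2 = (Real.cosh h ^ 2)⁻¹ := by
    rw [Real.tanh_eq_sinh_div_cosh]
    have := Real.cosh_sq h
    field_simp
    linarith
  rw [e]
  apply inv_anti₀ (by positivity)
  exact pow_le_pow_right₀ hc1 (by omega)

variable {R : Rep Γ 𝕜 E} {s : ℕ}

theorem pot2_ne (R : Rep Γ 𝕜 E) {Z : E × 𝕜} (hZ : q Z = -1) (g : Γ) :
    0 < ‖B (R.ρ g o) Z‖ := by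
  have h1 := pot_lower R Z g
  have h2 := R.one_le_N g
  have h3 := pot_gap (X := Z) (by rw [hZ]; norm_num)
  rw [norm_B_comm]
  refine lt_of_lt_of_le ?_ h1
  exact mul_pos h3 (by linarith)

theorem pot2_eq (R : Rep Γ 𝕜 E) (s : ℕ) {Z v : E × 𝕜} (hZ : q Z = -1) (h : ℝ) (g : Γ) :
    (‖B (((Real.cosh h : ℝ) : 𝕜) • Z + ((Real.sinh h : ℝ) : 𝕜) • v) (R.ρ g o)‖ ^ (2 * s))⁻¹ =
      ((Real.cosh h) ^ (2 * s))⁻¹ * ((‖B Z (R.ρ g o)‖ ^ (2 * s))⁻¹ *
        (‖1 + ((Real.tanh h : ℝ) : 𝕜) * (B (R.ρ g o) v / B (R.ρ g o) Z)‖ ^ (2 * s))⁻¹) := by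
  have hne : B (R.ρ g o) Z ≠ 0 := norm_pos_iff.1 (pot2_ne R hZ g)
  have hc : 0 < Real.cosh h := Real.cosh_pos h
  have hsc : ((Real.sinh h : ℝ) : 𝕜) = ((Real.cosh h : ℝ) : 𝕜) * ((Real.tanh h : ℝ) : 𝕜) := by
    rw [← RCLike.ofReal_mul, Real.tanh_eq_sinh_div_cosh, mul_div_cancel₀ _ hc.ne']
  have e : B (R.ρ g o) (((Real.cosh h : ℝ) : 𝕜) • Z + ((Real.sinh h : ℝ) : 𝕜) • v) =
      ((Real.cosh h : ℝ) : 𝕜) * (B (R.ρ g o) Z *
        (1 + ((Real.tanh h : ℝ) : 𝕜) * (B (R.ρ g o) v / B (R.ρ g o) Z))) := by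
    rw [B_add_right, B_smul_right, B_smul_right, hsc]
    field_simp
  rw [norm_B_comm, e, norm_mul, norm_mul, RCLike.norm_ofReal, abs_of_pos hc, mul_pow, mul_pow,
    mul_inv, mul_inv, norm_B_comm (R.ρ g o) Z]

theorem pot2_upper (hs0 : 0 < s) (hs : Summable fun g : Γ => (R.N g ^ (2 * s))⁻¹) {C : ℝ}
    (hC0 : 0 ≤ C)
    (hC : ∀ (ρ : 𝕜) (τ : ℝ), ‖ρ‖ ≤ 1 → 0 ≤ τ → τ ≤ 1 / 6 →
    (‖1 + (τ : 𝕜) * ρ‖ ^ (2 * s))⁻¹ ≤
      1 - 2 * s * RCLike.re ρ * τ + 2 * s * (s + 1) * RCLike.re ρ ^ 2 * τ ^ 2 + C * τ ^ 3)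
    {Z v : E × 𝕜} (hZ : q Z = -1) (hv : q v ≤ 1) (hZv : B Z v = 0) (h : ℝ)
    (h0 : 0 ≤ Real.tanh h) (h6 : Real.tanh h ≤ 1 / 6) :
    pot R s (((Real.cosh h : ℝ) : 𝕜) • Z + ((Real.sinh h : ℝ) : 𝕜) • v) ≤
      (1 - Real.tanh h ^ 2) * (pot R s Z
        - 2 * s * Real.tanh h * (∑' g : Γ, (‖B Z (R.ρ g o)‖ ^ (2 * s))⁻¹ *
          RCLike.re (B (R.ρ g o) v / B (R.ρ g o) Z))
        + 2 * s * (s + 1) * Real.tanh h ^ 2 * (∑' g : Γ, (‖B Z (R.ρ g o)‖ ^ (2 * s))⁻¹ *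
          RCLike.re (B (R.ρ g o) v / B (R.ρ g o) Z) ^ 2)
        + C * Real.tanh h ^ 3 * pot R s Z) := by
  have hw := pot_summable hs (X := Z) (by rw [hZ]; norm_num)
  have hρ : ∀ g : Γ, ‖B (R.ρ g o) v / B (R.ρ g o) Z‖ ≤ 1 := fun g =>
    pot2_rho hZ hv hZv (by rw [R.q_act, q_o]; norm_num)
  have hr : ∀ g : Γ, |RCLike.re (B (R.ρ g o) v / B (R.ρ g o) Z)| ≤ 1 := fun g =>
    (RCLike.abs_re_le_norm _).trans (hρ g)
  set w : Γ → ℝ := fun g => (‖B Z (R.ρ g o)‖ ^ (2 * s))⁻¹ with hwdef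
  set r : Γ → ℝ := fun g => RCLike.re (B (R.ρ g o) v / B (R.ρ g o) Z) with hrdef
  have hw0 : ∀ g, 0 ≤ w g := fun g => by positivity
  have hwr : Summable fun g => w g * r g := by
    refine Summable.of_norm_bounded hw ?_
    intro g
    rw [Real.norm_eq_abs, abs_mul, abs_of_nonneg (hw0 g)]
    exact mul_le_of_le_one_right (hw0 g) (hr g)
  have hwr2 : Summable fun g => w g * r g ^ 2 := by
    refine Summable.of_norm_bounded hw ?_
    intro g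
    rw [Real.norm_eq_abs, abs_mul, abs_of_nonneg (hw0 g), abs_pow]
    exact mul_le_of_le_one_right (hw0 g) (pow_le_one₀ (abs_nonneg _) (hr g))
  set τ := Real.tanh h with hτ
  have hτ1 : 0 ≤ 1 - τ ^ 2 := by nlinarith
  have hsum : HasSum (fun g => w g * (1 - 2 * s * r g * τ + 2 * s * (s + 1) * r g ^ 2 * τ ^ 2 +
      C * τ ^ 3)) (pot R s Z - 2 * s * τ * (∑' g, w g * r g)
        + 2 * s * (s + 1) * τ ^ 2 * (∑' g, w g * r g ^ 2) + C * τ ^ 3 * pot R s Z) := by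
    have a1 : HasSum w (pot R s Z) := hw.hasSum
    have a2 := (hwr.hasSum).mul_left (2 * s * τ)
    have a3 := (hwr2.hasSum).mul_left (2 * s * (s + 1) * τ ^ 2)
    have a4 := a1.mul_left (C * τ ^ 3)
    refine (((a1.sub a2).add a3).add a4).congr_fun ?_
    intro g
    ring
  rw [← hsum.tsum_eq, ← tsum_mul_left]
  unfold pot
  have hterm : ∀ g : Γ, (‖B (((Real.cosh h : ℝ) : 𝕜) • Z + ((Real.sinh h : ℝ) : 𝕜) • v)
      (R.ρ g o)‖ ^ (2 * s))⁻¹ ≤ (1 - τ ^ 2) * (w g * (1 - 2 * s * r g * τ +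
        2 * s * (s + 1) * r g ^ 2 * τ ^ 2 + C * τ ^ 3)) := by
    intro g
    rw [pot2_eq R s hZ h g]
    have b1 := pot2_tanh h s hs0
    have b2 := hC _ τ (hρ g) h0 h6
    refine mul_le_mul b1 ?_ (by positivity) hτ1
    exact mul_le_mul_of_nonneg_left b2 (hw0 g)
  have hsumR := (hsum.mul_left (1 - τ ^ 2)).summable
  refine Summable.tsum_le_tsum hterm ?_ hsumR
  exact Summable.of_nonneg_of_le (fun g => by positivity) hterm hsumR

theorem pot2_angle {c : ℝ} (hc : 0 < c) {Z v : E × 𝕜} (hZ : q Z = -1)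
    (hv : q v ≤ 1) (hZv : B Z v = 0) {g₀ : Γ}
    (hn : ∀ g, c * (‖B Z (R.ρ g₀ o)‖ * R.N (g₀⁻¹ * g)) ≤ ‖B Z (R.ρ g o)‖) (g : Γ) :
    (RCLike.re (B (R.ρ g o) v / B (R.ρ g o) Z) -
      RCLike.re (B (R.ρ g₀ o) v / B (R.ρ g₀ o) Z)) ^ 2 * (c * ‖B Z (R.ρ g₀ o)‖ ^ 2) ≤ 2 := by
  have hqg : ∀ g : Γ, q (R.ρ g o) < 0 := fun g => by rw [R.q_act, q_o]; norm_num
  have h1 := angle_le hZ hv hZv (hqg g) (hqg g₀)
  have hN : ‖B (R.ρ g o) (R.ρ g₀ o)‖ = R.N (g₀⁻¹ * g) := by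
    rw [norm_B_comm, ← R.N_eq]
  rw [hN] at h1
  have h2 := hn g
  have h3 := R.one_le_N (g₀⁻¹ * g)
  set D := ‖B (R.ρ g o) v / B (R.ρ g o) Z - B (R.ρ g₀ o) v / B (R.ρ g₀ o) Z‖ with hD
  have h4 : (RCLike.re (B (R.ρ g o) v / B (R.ρ g o) Z) -
      RCLike.re (B (R.ρ g₀ o) v / B (R.ρ g₀ o) Z)) ^ 2 ≤ D ^ 2 := by
    rw [← map_sub]
    apply sq_le_sq'
    · have := (abs_le.1 (RCLike.abs_re_le_norm
        (B (R.ρ g o) v / B (R.ρ g o) Z - B (R.ρ g₀ o) v / B (R.ρ g₀ o) Z))).1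
      exact this
    · have := (abs_le.1 (RCLike.abs_re_le_norm
        (B (R.ρ g o) v / B (R.ρ g o) Z - B (R.ρ g₀ o) v / B (R.ρ g₀ o) Z))).2
      exact this
  rw [norm_B_comm (R.ρ g o) Z, norm_B_comm (R.ρ g₀ o) Z] at h1
  set b := ‖B Z (R.ρ g₀ o)‖ with hb
  have hb0 : 0 ≤ b := norm_nonneg _
  set N := R.N (g₀⁻¹ * g) with hNdef
  have h5 : D ^ 2 * (c * b ^ 2) * N ≤ 2 * N := by
    calc D ^ 2 * (c * b ^ 2) * N = D ^ 2 * ((c * (b * N)) * b) := by ring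
      _ ≤ D ^ 2 * (‖B Z (R.ρ g o)‖ * b) := by
        apply mul_le_mul_of_nonneg_left _ (by positivity)
        exact mul_le_mul_of_nonneg_right h2 hb0
      _ ≤ 2 * N := h1
  have h6 : D ^ 2 * (c * b ^ 2) ≤ 2 := le_of_mul_le_mul_right h5 (by linarith)
  exact (mul_le_mul_of_nonneg_right h4 (by positivity)).trans h6

theorem pot_convex {R : Rep Γ 𝕜 E} {s : ℕ} (hs0 : 0 < s)
    (hs : Summable fun g : Γ => (R.N g ^ (2 * s))⁻¹) {c : ℝ} (hc : 0 < c) (hn : NearProp R c) :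
    ∃ m : ℝ, 0 < m ∧ m ≤ 1 ∧ ∀ (X Y : E × 𝕜) (L : ℝ), q X = -1 → q Y = -1 → 0 < L →
      B X Y = ((-Real.cosh L : ℝ) : 𝕜) → m ≤ pot R s X → m ≤ pot R s Y →
      ∀ t ∈ Set.Icc 0 L, m ≤ pot R s (geod X Y L t) := by
  obtain ⟨C, hC0, hC⟩ := pot2_term (𝕜 := 𝕜) s
  have hs1 : (1 : ℝ) ≤ s := by exact_mod_cast hs0
  have hM0 : 0 < 16 * (s : ℝ) * (s + 1) / c := by positivity
  refine ⟨min 1 ((16 * (s : ℝ) * (s + 1) / c) ^ s)⁻¹, by positivity, min_le_left _ _, ?_⟩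
  set m := min 1 ((16 * (s : ℝ) * (s + 1) / c) ^ s)⁻¹ with hm
  intro X Y L hX hY hL hXY hmX hmY t₁ ht₁
  by_contra hcon
  push Not at hcon
  set f : ℝ → ℝ := fun t => pot R s (geod X Y L t) with hf
  have hfc : ContinuousOn f (Set.Icc 0 L) := by
    refine (pot_continuousOn hs0 hs).comp (geod_continuous X Y L).continuousOn ?_
    intro t _
    show q (geod X Y L t) < 0
    rw [geod_q X Y hL hX hY hXY]; norm_num
  obtain ⟨t₀, ht₀, hmin⟩ := isCompact_Icc.exists_isMinOn ⟨t₁, ht₁⟩ hfc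
  have hft₀ : f t₀ < m := lt_of_le_of_lt (hmin ht₁) hcon
  have ht0 : 0 < t₀ := by
    refine ht₀.1.lt_of_ne ?_
    intro e
    rw [← e] at hft₀
    simp only [hf, geod_zero X Y hL] at hft₀
    linarith
  have htL : t₀ < L := by
    refine ht₀.2.lt_of_ne ?_
    intro e
    rw [e] at hft₀
    simp only [hf, geod_L X Y hL] at hft₀
    linarith
  set Z := geod X Y L t₀ with hZdef
  set v := geodD X Y L t₀ with hvdef
  have hZ : q Z = -1 := geod_q X Y hL hX hY hXY t₀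
  have hv : q v = 1 := geodD_q X Y hL hX hY hXY t₀
  have hZv : B Z v = 0 := geod_B_geodD X Y hL hX hY hXY t₀
  have hv' : q (-v) = 1 := by
    have := q_smul (-1 : 𝕜) v
    rw [neg_one_smul] at this
    rw [this, hv]; simp
  have hBneg : ∀ y : E × 𝕜, B y (-v) = - B y v := by
    intro y
    rw [← neg_one_smul 𝕜 v, B_smul_right]; ring
  have hZv' : B Z (-v) = 0 := by rw [hBneg, hZv, neg_zero]
  have hw := pot_summable hs (X := Z) (by rw [hZ]; norm_num)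
  set w : Γ → ℝ := fun g => (‖B Z (R.ρ g o)‖ ^ (2 * s))⁻¹ with hwdef
  set r : Γ → ℝ := fun g => RCLike.re (B (R.ρ g o) v / B (R.ρ g o) Z) with hrdef
  have hw0 : ∀ g, 0 ≤ w g := fun g => by positivity
  have hρ : ∀ g : Γ, ‖B (R.ρ g o) v / B (R.ρ g o) Z‖ ≤ 1 := fun g =>
    pot2_rho hZ hv.le hZv (by rw [R.q_act, q_o]; norm_num)
  have hr : ∀ g : Γ, |r g| ≤ 1 := fun g => (RCLike.abs_re_le_norm _).trans (hρ g)
  have hwr : Summable fun g => w g * r g := by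
    refine Summable.of_norm_bounded hw ?_
    intro g
    rw [Real.norm_eq_abs, abs_mul, abs_of_nonneg (hw0 g)]
    exact mul_le_of_le_one_right (hw0 g) (hr g)
  have hwr2 : Summable fun g => w g * r g ^ 2 := by
    refine Summable.of_norm_bounded hw ?_
    intro g
    rw [Real.norm_eq_abs, abs_mul, abs_of_nonneg (hw0 g), abs_pow]
    exact mul_le_of_le_one_right (hw0 g) (pow_le_one₀ (abs_nonneg _) (hr g))
  set Wt := pot R s Z with hWt
  set A := ∑' g, w g * r g with hA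
  set V := ∑' g, w g * r g ^ 2 with hV
  have hWsum : ∑' g, w g = Wt := rfl
  have hWm : Wt < m := hft₀
  -- positivity of the weight
  have hZB : ∀ g : Γ, 0 < ‖B Z (R.ρ g o)‖ := fun g => by
    rw [norm_B_comm]; exact pot2_ne R hZ g
  have hwg : ∀ g : Γ, 0 < w g := fun g => by
    have := hZB g
    simp only [hwdef]
    positivity
  have hW0 : 0 < Wt := lt_of_lt_of_le (hwg 1) (hw.le_tsum 1 (fun g _ => hw0 g))
  obtain ⟨g₀, -, hn0⟩ := hn Z (by rw [hZ]; norm_num)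
  set b := ‖B Z (R.ρ g₀ o)‖ with hb
  have hb0 : 0 < b := hZB g₀
  -- the nearest orbit point is far
  have hbig : 16 * (s : ℝ) * (s + 1) / c < b ^ 2 := by
    have h1 : (b ^ (2 * s))⁻¹ < ((16 * (s : ℝ) * (s + 1) / c) ^ s)⁻¹ := by
      calc (b ^ (2 * s))⁻¹ ≤ Wt := hw.le_tsum g₀ (fun g _ => hw0 g)
        _ < m := hWm
        _ ≤ _ := min_le_right _ _
    have h2 : (16 * (s : ℝ) * (s + 1) / c) ^ s < (b ^ 2) ^ s := by
      rw [← pow_mul]
      exact (inv_lt_inv₀ (by positivity) (by positivity)).1 h1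
    exact lt_of_pow_lt_pow_left₀ s (by positivity) h2
  have hcb : 16 * (s : ℝ) * (s + 1) < c * b ^ 2 := by
    rw [div_lt_iff₀ hc] at hbig
    linarith
  -- variance
  set ε := 1 / (8 * (s : ℝ) * (s + 1)) with hε
  have hvar : ∀ g, (r g - r g₀) ^ 2 ≤ ε := by
    intro g
    have h1 := pot2_angle hc hZ hv.le hZv hn0 g
    have h2 : (r g - r g₀) ^ 2 * (16 * (s : ℝ) * (s + 1)) ≤ 2 :=
      (mul_le_mul_of_nonneg_left hcb.le (sq_nonneg _)).trans h1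
    rw [hε, le_div_iff₀ (by positivity)]
    linarith
  have hVle : V ≤ ε * Wt + 2 * |A| := by
    have h1 : V ≤ ε * Wt + 2 * r g₀ * A := by
      have hsum : HasSum (fun g => ε * w g + 2 * r g₀ * (w g * r g))
          (ε * Wt + 2 * r g₀ * A) := (hw.hasSum.mul_left ε).add (hwr.hasSum.mul_left _)
      rw [← hsum.tsum_eq]
      refine hwr2.tsum_le_tsum ?_ hsum.summable
      intro g
      have h2 := hvar g
      have h3 : r g ^ 2 ≤ ε + 2 * r g₀ * r g := by nlinarith [sq_nonneg (r g₀)]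
      calc w g * r g ^ 2 ≤ w g * (ε + 2 * r g₀ * r g) := mul_le_mul_of_nonneg_left h3 (hw0 g)
        _ = _ := by ring
    have h2 : r g₀ * A ≤ |A| := by
      calc r g₀ * A ≤ |r g₀ * A| := le_abs_self _
        _ = |r g₀| * |A| := abs_mul _ _
        _ ≤ 1 * |A| := mul_le_mul_of_nonneg_right (hr g₀) (abs_nonneg _)
        _ = |A| := one_mul _
    linarith
  have hV1 : V ≤ Wt := by
    refine hwr2.tsum_le_tsum ?_ hw
    intro g
    have : r g ^ 2 ≤ 1 := by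
      rw [← sq_abs]; exact pow_le_one₀ (abs_nonneg _) (hr g)
    exact mul_le_of_le_one_right (hw0 g) this
  have hV0 : 0 ≤ V := tsum_nonneg fun g => mul_nonneg (hw0 g) (sq_nonneg _)
  -- choice of the step
  set K : ℝ := 2 * s * (s + 1) with hK
  have hK0 : 0 < K := by positivity
  have hKε : K * ε = 1 / 4 := by rw [hK, hε]; field_simp; norm_num
  set η : ℝ := 1 / (4 * (2 * K * (K + C) + C + 1)) with hη
  have hη0 : 0 < η := by positivity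
  have htc : ContinuousAt Real.tanh 0 := by
    have : Real.tanh = fun x => Real.sinh x / Real.cosh x := by
      funext x; exact Real.tanh_eq_sinh_div_cosh x
    rw [this]
    exact (Real.continuous_sinh.continuousAt).div (Real.continuous_cosh.continuousAt)
      (Real.cosh_pos 0).ne'
  have hev1 : ∀ᶠ h in 𝓝[>] (0 : ℝ), Real.tanh h < min η (1 / 6) := by
    have : ∀ᶠ h in 𝓝 (0 : ℝ), Real.tanh h < min η (1 / 6) := by
      apply htc.eventually_lt continuousAt_const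
      rw [Real.tanh_zero]
      positivity
    exact this.filter_mono nhdsWithin_le_nhds
  have hev2 : ∀ᶠ h in 𝓝[>] (0 : ℝ), h < min t₀ (L - t₀) := by
    have : ∀ᶠ h in 𝓝 (0 : ℝ), h < min t₀ (L - t₀) :=
      eventually_lt_nhds (lt_min ht0 (by linarith))
    exact this.filter_mono nhdsWithin_le_nhds
  obtain ⟨h, ⟨hh1, hh2⟩, hh0⟩ := ((hev1.and hev2).and self_mem_nhdsWithin).exists
  have hh0' : 0 < h := hh0
  set τ := Real.tanh h with hτ
  have hτ0 : 0 < τ := by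
    rw [hτ, Real.tanh_eq_sinh_div_cosh]
    exact div_pos (Real.sinh_pos_iff.2 hh0') (Real.cosh_pos h)
  have hτ6 : τ ≤ 1 / 6 := (hh1.trans_le (min_le_right _ _)).le
  have hτη : τ < η := hh1.trans_le (min_le_left _ _)
  have hht : h < t₀ := hh2.trans_le (min_le_left _ _)
  have hhL : h < L - t₀ := hh2.trans_le (min_le_right _ _)
  -- the two inequalities
  have up : Wt ≤ (1 - τ ^ 2) * (Wt - 2 * s * τ * A + K * τ ^ 2 * V + C * τ ^ 3 * Wt) := by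
    have h1 := pot2_upper hs0 hs hC0 hC hZ hv.le hZv h hτ0.le hτ6
    have h2 : Wt ≤ f (t₀ + h) := hmin (show t₀ + h ∈ Set.Icc 0 L from ⟨by linarith, by linarith⟩)
    simp only [hf] at h2
    rw [geod_add] at h2
    exact h2.trans h1
  have down : Wt ≤ (1 - τ ^ 2) * (Wt + 2 * s * τ * A + K * τ ^ 2 * V + C * τ ^ 3 * Wt) := by
    have h1 := pot2_upper hs0 hs hC0 hC hZ hv'.le hZv' h hτ0.le hτ6
    have h2 : Wt ≤ f (t₀ + -h) := hmin (show t₀ + -h ∈ Set.Icc 0 L from ⟨by linarith, by linarith⟩)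
    simp only [hf] at h2
    rw [geod_add, Real.cosh_neg, Real.sinh_neg] at h2
    have e1 : ((-Real.sinh h : ℝ) : 𝕜) • geodD X Y L t₀ =
        ((Real.sinh h : ℝ) : 𝕜) • (-v) := by
      rw [hvdef]; push_cast; rw [neg_smul, smul_neg]
    rw [e1] at h2
    have e2 : ∀ g : Γ, RCLike.re (B (R.ρ g o) (-v) / B (R.ρ g o) Z) = - r g := by
      intro g
      rw [hBneg, neg_div, map_neg]
    have e3 : (∑' g : Γ, (‖B Z (R.ρ g o)‖ ^ (2 * s))⁻¹ *
          RCLike.re (B (R.ρ g o) (-v) / B (R.ρ g o) Z)) = -A := by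
      rw [hA, ← tsum_neg]
      congr 1
      funext g
      rw [e2]; ring
    have e4 : (∑' g : Γ, (‖B Z (R.ρ g o)‖ ^ (2 * s))⁻¹ *
          RCLike.re (B (R.ρ g o) (-v) / B (R.ρ g o) Z) ^ 2) = V := by
      rw [hV]
      congr 1
      funext g
      rw [e2]; ring
    rw [e3, e4] at h1
    refine h2.trans (h1.trans (le_of_eq ?_))
    ring
  have hτ2 : 0 < 1 - τ ^ 2 := by nlinarith
  have hτ2' : 0 ≤ τ ^ 2 := sq_nonneg _
  set E1 := Wt - 2 * s * τ * A + K * τ ^ 2 * V + C * τ ^ 3 * Wt with hE1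
  set E2' := Wt + 2 * s * τ * A + K * τ ^ 2 * V + C * τ ^ 3 * Wt with hE2
  have hE1p : 0 < E1 := by
    by_contra h'
    push Not at h'
    have := mul_nonpos_of_nonneg_of_nonpos hτ2.le h'
    linarith
  have hE2p : 0 < E2' := by
    by_contra h'
    push Not at h'
    have := mul_nonpos_of_nonneg_of_nonpos hτ2.le h'
    linarith
  have i1 : Wt ≤ E1 := by
    have := mul_nonneg hτ2' hE1p.le
    have e : (1 - τ ^ 2) * E1 = E1 - τ ^ 2 * E1 := by ring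
    rw [e] at up
    linarith
  have i2 : Wt ≤ E2' := by
    have := mul_nonneg hτ2' hE2p.le
    have e : (1 - τ ^ 2) * E2' = E2' - τ ^ 2 * E2' := by ring
    rw [e] at down
    linarith
  have hKV : K * τ ^ 2 * V ≤ K * τ ^ 2 * Wt := mul_le_mul_of_nonneg_left hV1 (by positivity)
  have hAabs : |A| ≤ (K + C) * τ * Wt := by
    have j1 : 2 * s * τ * |A| ≤ K * τ ^ 2 * Wt + C * τ ^ 3 * Wt := by
      rcases abs_cases A with ⟨e, _⟩ | ⟨e, _⟩
      · rw [e]; linarith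
      · rw [e]; linarith
    have j2 : τ ^ 3 ≤ τ ^ 2 := pow_le_pow_of_le_one hτ0.le (by linarith) (by norm_num)
    have j3 : C * τ ^ 3 * Wt ≤ C * τ ^ 2 * Wt :=
      mul_le_mul_of_nonneg_right (mul_le_mul_of_nonneg_left j2 hC0) hW0.le
    have j4 : τ * |A| ≤ 2 * s * τ * |A| := by
      have h1 : 0 ≤ τ * |A| := by positivity
      have h2 : 0 ≤ (2 * (s : ℝ) - 1) * (τ * |A|) := mul_nonneg (by linarith) h1
      have e : (2 * (s : ℝ) - 1) * (τ * |A|) = 2 * s * τ * |A| - τ * |A| := by ring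
      rw [e] at h2
      linarith
    have j5 : τ * |A| ≤ τ * ((K + C) * τ * Wt) := by
      calc τ * |A| ≤ K * τ ^ 2 * Wt + C * τ ^ 2 * Wt := by linarith
        _ = _ := by ring
    exact le_of_mul_le_mul_left j5 hτ0
  have k1 : 2 * Wt ≤ (1 - τ ^ 2) * (E1 + E2') := by linarith
  have k2 : E1 + E2' = 2 * Wt + 2 * (K * τ ^ 2 * V + C * τ ^ 3 * Wt) := by rw [hE1, hE2]; ring
  rw [k2] at k1
  set G := K * τ ^ 2 * V + C * τ ^ 3 * Wt with hG
  have hG0 : 0 ≤ G := by positivity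
  have k3 : τ ^ 2 * Wt ≤ G := by
    have := mul_nonneg hτ2' hG0
    have e : (1 - τ ^ 2) * (2 * Wt + 2 * G) =
      2 * Wt + 2 * G - 2 * (τ ^ 2 * Wt) - 2 * (τ ^ 2 * G) := by ring
    rw [e] at k1
    linarith
  have k4 : Wt ≤ K * V + C * τ * Wt := by
    have e : G = τ ^ 2 * (K * V + C * τ * Wt) := by rw [hG]; ring
    rw [e] at k3
    exact le_of_mul_le_mul_left k3 (by positivity)
  have k5 : K * V ≤ 1 / 4 * Wt + 2 * K * (K + C) * τ * Wt := by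
    calc K * V ≤ K * (ε * Wt + 2 * |A|) := mul_le_mul_of_nonneg_left hVle hK0.le
      _ ≤ K * (ε * Wt + 2 * ((K + C) * τ * Wt)) := by
        apply mul_le_mul_of_nonneg_left _ hK0.le
        linarith
      _ = (K * ε) * Wt + 2 * K * (K + C) * τ * Wt := by ring
      _ = _ := by rw [hKε]
  have k6 : (2 * K * (K + C) + C + 1) * τ < 1 / 4 := by
    have hpos : 0 < 2 * K * (K + C) + C + 1 := by positivity
    calc (2 * K * (K + C) + C + 1) * τ < (2 * K * (K + C) + C + 1) * η :=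
          mul_lt_mul_of_pos_left hτη hpos
      _ = 1 / 4 := by rw [hη]; field_simp
  have k7 : (2 * K * (K + C) + C + 1) * τ * Wt ≤ 1 / 4 * Wt :=
    mul_le_mul_of_nonneg_right k6.le hW0.le
  have k8 : 0 ≤ τ * Wt := by positivity
  have k9 : (2 * K * (K + C) + C + 1) * τ * Wt =
      2 * K * (K + C) * τ * Wt + C * τ * Wt + τ * Wt := by ring
  rw [k9] at k7
  linarith

end Pool.Agent.Carpet
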