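import Pool.Agent.Lib_helper45.Carpet.KAlg

/-! # Block TITS : positivity of roots -/

set_option autoImplicit false

namespace Pool.Agent.Carpet

/-- alternating letters: `i` at even places, `j` at odd places -/
def tlet (i j : Fin 4) (k : ℕ) : Fin 4 := if k % 2 = 0 then i else j

/-- the word `c_k … c_1` -/
def tx (i j : Fin 4) : ℕ → W
  | 0 => 1
  | k + 1 => cs.simple (tlet i j (k + 1)) * tx i j k

/-- `w` with the letters `c_1, …, c_k` stripped from the right -/
def tv (w : W) (i j : Fin 4) : ℕ → W
  | 0 => w
  | k + 1 => tv w i j k * cs.simple (tlet i j (k + 1))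

theorem tlet_add_two (i j : Fin 4) (k : ℕ) : tlet i j (k + 2) = tlet i j k := by
  unfold tlet
  rw [Nat.add_mod_right]

theorem tv_mul_tx (w : W) (i j : Fin 4) (k : ℕ) : tv w i j k * tx i j k = w := by
  induction k with
  | zero => simp [tv, tx]
  | succ k ih =>
    rw [tv, tx, mul_assoc, ← mul_assoc (cs.simple _) (cs.simple _), cs.simple_mul_simple_self,
      one_mul, ih]

theorem length_tx_le (i j : Fin 4) (k : ℕ) : cs.length (tx i j k) ≤ k := by
  induction k with
  | zero => simp [tx]
  | succ k ih =>
    rw [tx]
    refine le_trans (cs.length_mul_le _ _) ?_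
    rw [cs.length_simple]
    omega

theorem tx_two_mul (i j : Fin 4) (r : ℕ) :
    tx i j (2 * r) = (cs.simple i * cs.simple j) ^ r := by
  induction r with
  | zero => simp [tx]
  | succ r ih =>
    have h1 : tlet i j (2 * r + 1 + 1) = i := by
      unfold tlet
      rw [if_pos (by omega)]
    have h2 : tlet i j (2 * r + 1) = j := by
      unfold tlet
      rw [if_neg (by omega)]
    rw [show 2 * (r + 1) = 2 * r + 1 + 1 by ring, tx, tx, h1, h2, ih, pow_succ', mul_assoc]

theorem tits_even (i j : Fin 4) (h : i ≠ j) : ∃ r, M i j = 2 * (r + 1) := by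
  fin_cases i <;> fin_cases j <;> first | exact absurd rfl h | exact ⟨0, rfl⟩ | exact ⟨4, rfl⟩

/-- the relation of the dihedral subgroup -/
theorem tx_rel (i j : Fin 4) (h : i ≠ j) (r : ℕ) (hr : M i j = 2 * (r + 1)) :
    tx i j (2 * (r + 1)) * cs.simple i = tx i j (2 * r + 1) := by
  have hrel := cs.simple_mul_simple_pow i j
  have hM : M.M i j = 2 * (r + 1) := hr
  have hc2 : tlet i j (2 * r + 1) = j := by
    unfold tlet
    rw [if_neg (by omega)]
  rw [tx_two_mul, tx, hc2, tx_two_mul]
  rw [hM] at hrel
  set a := cs.simple i with ha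
  set b := cs.simple j with hb
  have haa : a * a = 1 := cs.simple_mul_simple_self i
  have hbb : b * b = 1 := cs.simple_mul_simple_self j
  have hinv : (a * b)⁻¹ = b * a := by
    rw [mul_inv_rev, inv_eq_of_mul_eq_one_right haa, inv_eq_of_mul_eq_one_right hbb]
  have h1 : (a * b) ^ (r + 1) = (b * a) ^ (r + 1) := by
    rw [← hinv, inv_pow]
    refine eq_inv_of_mul_eq_one_left ?_
    rw [← pow_add, ← hrel]
    congr 1
    ring
  have h2 : ∀ n : ℕ, (b * a) ^ n * b = b * (a * b) ^ n := by
    intro n
    induction n with
    | zero => simp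
    | succ n ih =>
      rw [pow_succ', mul_assoc, ih, pow_succ', mul_assoc, mul_assoc]
  rw [h1, pow_succ, mul_assoc, mul_assoc, haa, mul_one, h2]

theorem refl_nK_self (i : Fin 4) : refl (nK i) (nK i) = - nK i := by
  have h : refl (nK i) (nK i) = nK i - (2 * B (nK i) (nK i)) • nK i := rfl
  rw [h, B_nK_self, mul_one, two_smul]
  abel

theorem refl_nK_ne (i j : Fin 4) :
    refl (nK i) (nK j) = nK j + (2 * Real.cos (Real.pi / M i j)) • nK i := by
  have h : refl (nK i) (nK j) = nK j - (2 * B (nK i) (nK j)) • nK i := rfl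
  rw [h, B_nK, mul_neg, neg_smul, sub_neg_eq_add]

theorem M_symm' (i j : Fin 4) : M i j = M j i := by
  fin_cases i <;> fin_cases j <;> rfl

/-- the coefficients -/
theorem tits_dihedral {R : Rep W ℝ E3} (hR : IsKleinian R) (i j : Fin 4) (θ : ℝ)
    (hθ : θ = Real.pi / M i j) (hs : Real.sin θ ≠ 0) (k : ℕ) :
    R.ρ (tx i j k) (nK i) = (Real.sin ((k + 1) * θ) / Real.sin θ) • nK (tlet i j k) +
      (Real.sin (k * θ) / Real.sin θ) • nK (tlet i j (k + 1)) := by
  induction k with
  | zero =>
    simp [tx, tlet, div_self hs]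
  | succ k ih =>
    have hcos : Real.cos (Real.pi / M (tlet i j (k + 1)) (tlet i j k)) = Real.cos θ := by
      unfold tlet
      rcases Nat.mod_two_eq_zero_or_one k with h | h
      · rw [if_neg (by omega), if_pos h, hθ, M_symm' j i]
      · rw [if_pos (by omega), if_neg (by omega), hθ]
    rw [tx, map_mul, Module.End.mul_apply, ih, hR, map_add, map_smul, map_smul, refl_nK_self,
      refl_nK_ne, hcos, tlet_add_two i j k]
    have hsin : Real.sin (((k + 1 : ℕ) + 1) * θ) =
        2 * Real.cos θ * Real.sin ((k + 1) * θ) - Real.sin (k * θ) := by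
      have h1 : ((k + 1 : ℕ) + 1 : ℝ) * θ = (k + 1) * θ + θ := by push_cast; ring
      have h2 : (k : ℝ) * θ = (k + 1) * θ - θ := by ring
      rw [h1, h2, Real.sin_add, Real.sin_sub]
      ring
    rw [hsin]
    push_cast
    rw [smul_add, smul_smul, smul_neg]
    module

theorem tits_pos {R : Rep W ℝ E3} (hR : IsKleinian R) (w : W) (i : Fin 4)
    (h : cs.length w < cs.length (w * cs.simple i)) :
    ∃ a : Fin 4 → ℝ, (∀ k, 0 ≤ a k) ∧ R.ρ w (nK i) = ∑ k, a k • nK k := by
  induction hn : cs.length w using Nat.strong_induction_on generalizing w i with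
  | _ n ih =>
    subst hn
    by_cases hw : w = 1
    · subst hw
      refine ⟨fun k => if k = i then 1 else 0, fun k => by positivity, ?_⟩
      simp
    obtain ⟨j, hj⟩ := cs.exists_rightDescent_of_ne_one hw
    have hj' : cs.length (w * cs.simple j) < cs.length w := hj
    have hij : i ≠ j := by
      rintro rfl
      omega
    -- strip letters
    have hex : ∃ k, cs.length (tv w i j k) < cs.length (tv w i j (k + 1)) := by
      by_contra hcon
      push Not at hcon
      have hlen : ∀ k, cs.length (tv w i j k) + k ≤ cs.length w := by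
        intro k
        induction k with
        | zero => simp [tv]
        | succ k ihk =>
          have h1 := hcon k
          have h2 : cs.length (tv w i j (k + 1)) ≠ cs.length (tv w i j k) :=
            cs.length_mul_simple_ne _ _
          omega
      have := hlen (cs.length w + 1)
      omega
    classical
    set k := Nat.find hex with hk
    have hkspec : cs.length (tv w i j k) < cs.length (tv w i j (k + 1)) := Nat.find_spec hex
    have hkmin : ∀ k' < k, cs.length (tv w i j (k' + 1)) + 1 = cs.length (tv w i j k') := by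
      intro k' hk'
      have h1 := Nat.find_min hex hk'
      rcases cs.length_mul_simple (tv w i j k') (tlet i j (k' + 1)) with h2 | h2
      · exact absurd (by rw [tv, h2]; omega) h1
      · exact h2
    have hklen : ∀ k' ≤ k, cs.length (tv w i j k') + k' = cs.length w := by
      intro k'
      induction k' with
      | zero => intro _; simp [tv]
      | succ k' ihk =>
        intro hle
        have h1 := hkmin k' (by omega)
        have h2 := ihk (by omega)
        omega
    have hk1 : 1 ≤ k := by
      by_contra hcon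
      have hk0 : k = 0 := by omega
      rw [hk0] at hkspec
      have : tv w i j (0 + 1) = w * cs.simple j := by
        simp [tv, tlet]
      rw [this] at hkspec
      simp only [tv] at hkspec
      omega
    obtain ⟨r, hr⟩ := tits_even i j hij
    have hkm : k + 1 ≤ 2 * (r + 1) := by
      by_contra hcon
      have h1 := hklen (2 * (r + 1)) (by omega)
      have h2 : w * cs.simple i = tv w i j (2 * (r + 1)) * tx i j (2 * r + 1) := by
        rw [← tx_rel i j hij r hr, ← mul_assoc, tv_mul_tx]
      have h3 := cs.length_mul_le (tv w i j (2 * (r + 1))) (tx i j (2 * r + 1))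
      have h4 := length_tx_le i j (2 * r + 1)
      rw [← h2] at h3
      omega
    -- angle
    set θ : ℝ := Real.pi / M i j with hθ
    have hMr : (M i j : ℝ) = 2 * (r + 1) := by
      rw [hr]
      push_cast
      ring
    have hMpos : (0 : ℝ) < M i j := by rw [hMr]; positivity
    have hM2 : (2 : ℝ) ≤ M i j := by
      rw [hMr]
      have : (0 : ℝ) ≤ r := Nat.cast_nonneg r
      linarith
    have hθ0 : 0 < θ := by
      rw [hθ]
      exact div_pos Real.pi_pos hMpos
    have hθπ : θ < Real.pi := by
      rw [hθ, div_lt_iff₀ hMpos]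
      nlinarith [Real.pi_pos]
    have hsθ : 0 < Real.sin θ := Real.sin_pos_of_pos_of_lt_pi hθ0 hθπ
    have hsin : ∀ l : ℕ, l ≤ 2 * (r + 1) → 0 ≤ Real.sin (l * θ) / Real.sin θ := by
      intro l hl
      refine div_nonneg (Real.sin_nonneg_of_nonneg_of_le_pi (by positivity) ?_) hsθ.le
      have hlM : (l : ℝ) ≤ M i j := by
        rw [hMr]
        exact_mod_cast hl
      calc (l : ℝ) * θ ≤ M i j * θ := mul_le_mul_of_nonneg_right hlM hθ0.le
        _ = Real.pi := by rw [hθ]; field_simp
    have hd := tits_dihedral hR i j θ hθ hsθ.ne' k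
    -- the two ascents
    have hlk : cs.length (tv w i j k) < cs.length w := by
      have := hklen k le_rfl
      omega
    have hasc1 : cs.length (tv w i j k) < cs.length (tv w i j k * cs.simple (tlet i j (k + 1))) :=
      hkspec
    have hasc0 : cs.length (tv w i j k) < cs.length (tv w i j k * cs.simple (tlet i j k)) := by
      obtain ⟨k', hk'⟩ : ∃ k', k = k' + 1 := ⟨k - 1, by omega⟩
      have h1 := hkmin k' (by omega)
      rw [hk', tv, cs.simple_mul_simple_cancel_right]
      rw [tv] at h1
      omega
    obtain ⟨a, ha, hav⟩ := ih _ hlk (tv w i j k) (tlet i j k) hasc0 rfl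
    obtain ⟨b, hb, hbv⟩ := ih _ hlk (tv w i j k) (tlet i j (k + 1)) hasc1 rfl
    have h0 := hsin k (by omega)
    have h1 := hsin (k + 1) hkm
    push_cast at h1
    refine ⟨fun l => Real.sin ((k + 1) * θ) / Real.sin θ * a l +
      Real.sin (k * θ) / Real.sin θ * b l, fun l => ?_, ?_⟩
    · have := ha l
      have := hb l
      positivity
    · have hw2 : R.ρ w (nK i) = R.ρ (tv w i j k) (R.ρ (tx i j k) (nK i)) := by
        rw [← Module.End.mul_apply, ← map_mul, tv_mul_tx]
      rw [hw2, hd, map_add, map_smul, map_smul, hav, hbv, Finset.smul_sum, Finset.smul_sum,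
        ← Finset.sum_add_distrib]
      refine Finset.sum_congr rfl fun l _ => ?_
      rw [add_smul, smul_smul, smul_smul]

end Pool.Agent.Carpet
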