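import Pool.Agent.Lib_helper45.Carpet.Coll

/-! # Block TOWER : the sequence of collapse maps -/

set_option autoImplicit false

namespace Pool.Agent.Carpet

open scoped Topology

/-- `Psi κ k n = κ_k ∘ κ_{k+1} ∘ … ∘ κ_{n-1}` (the identity if `n ≤ k`). -/
def Psi (κ : ℕ → P2 → P2) (k : ℕ) : ℕ → P2 → P2
  | 0 => id
  | n + 1 => if k ≤ n then fun x => Psi κ k n (κ n x) else id

/-- The conditions on the sequence of collapse maps. -/
structure Tower (Y : ConvexCarpet) (Nb : ℕ → Set P2) (κ : ℕ → P2 → P2) : Prop where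
  col : ∀ n, Collapse (Y.K n) (Y.c n) (Nb n) (κ n)
  inD : ∀ n, Nb n ⊆ interior Y.D
  c1 : ∀ n, ∀ j < n, Disjoint (Nb n) (Y.K j)
  c2 : ∀ n, ∀ j < n, Disjoint (Y.K n) (Nb j) → Disjoint (Nb n) (Nb j)
  c3 : ∀ n, ∀ m > n, ¬ Disjoint (Y.K m) (Nb n) → ∀ k ≤ n,
    Metric.diam (Psi κ k (n + 1) '' Y.K m) ≤ (1 / 2) ^ n
  c4 : ∀ n, ∀ k ≤ n, Metric.diam (Psi κ k n '' Nb n) ≤
    Metric.diam (Psi κ k n '' Y.K n) + (1 / 2) ^ n

/-- recursion with history -/
theorem TOWER_seq {α : Type*} [Inhabited α] (P : ℕ → (ℕ → α) → Prop)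
    (hcongr : ∀ n f g, (∀ j ≤ n, f j = g j) → P n f → P n g)
    (hstep : ∀ n f, (∀ j < n, P j f) → ∃ a, P n (Function.update f n a)) :
    ∃ f : ℕ → α, ∀ n, P n f := by
  classical
  choose! nxt hnxt using hstep
  let F : ℕ → ℕ → α := fun n => Nat.rec (fun _ => default)
    (fun n f => Function.update f n (nxt n f)) n
  have hF0 : F 0 = fun _ => default := rfl
  have hFs : ∀ n, F (n + 1) = Function.update (F n) n (nxt n (F n)) := fun n => rfl
  have hstab : ∀ n m j, j < n → n ≤ m → F m j = F n j := by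
    intro n m j hj hm
    induction hm with
    | refl => rfl
    | step hm ih =>
      rw [hFs, Function.update_of_ne (by have := Nat.lt_of_lt_of_le hj hm; omega), ih]
  refine ⟨fun n => F (n + 1) n, ?_⟩
  have key : ∀ n, ∀ j < n, P j (F n) := by
    intro n
    induction n with
    | zero => intro j hj; omega
    | succ n ih =>
      intro j hj
      rcases Nat.lt_succ_iff_lt_or_eq.1 hj with h | h
      · refine hcongr j (F n) (F (n + 1)) (fun i hi => ?_) (ih j h)
        exact (hstab n (n + 1) i (by omega) (by omega)).symm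
      · subst h
        rw [hFs]
        exact hnxt j (F j) ih
  intro n
  refine hcongr n (F (n + 1)) _ (fun j hj => ?_) (key (n + 1) n (by omega))
  exact hstab (j + 1) (n + 1) j (by omega) (by omega)

theorem TOWER_Psi_congr {κ κ' : ℕ → P2 → P2} (k n : ℕ) (h : ∀ j < n, κ j = κ' j) :
    Psi κ k n = Psi κ' k n := by
  induction n with
  | zero => rfl
  | succ n ih =>
    unfold Psi
    split_ifs with hk
    · funext x
      rw [ih fun j hj => h j (by omega), h n (by omega)]
    · rfl

theorem TOWER_Psi_cont {κ : ℕ → P2 → P2} (k n : ℕ) (h : ∀ j < n, Continuous (κ j)) :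
    Continuous (Psi κ k n) := by
  induction n with
  | zero => exact continuous_id
  | succ n ih =>
    unfold Psi
    split_ifs with hk
    · exact (ih fun j hj => h j (by omega)).comp (h n (by omega))
    · exact continuous_id

theorem TOWER_Psi_succ {κ : ℕ → P2 → P2} {k n : ℕ} (h : k ≤ n) (x : P2) :
    Psi κ k (n + 1) x = Psi κ k n (κ n x) := by
  simp only [Psi, if_pos h]

/-- a compact set and a disjoint closed set are at positive distance -/
theorem TOWER_disj {K L : Set P2} (hK : IsCompact K) (hL : IsClosed L) (h : Disjoint K L) :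
    ∃ δ > 0, ∀ δ' ≤ δ, Disjoint (Metric.cthickening δ' K) L := by
  obtain ⟨δ, hδ, hd⟩ := h.exists_cthickenings hK hL
  exact ⟨δ, hδ, fun δ' hδ' => (hd.mono (Metric.cthickening_mono hδ' K)
    (Metric.self_subset_cthickening L))⟩

/-- finitely many positivity conditions -/
theorem TOWER_fin (n : ℕ) (Q : ℕ → ℝ → Prop) (h : ∀ j < n, ∃ δ > 0, ∀ δ' ≤ δ, Q j δ') :
    ∃ δ > 0, ∀ δ' ≤ δ, ∀ j < n, Q j δ' := by
  induction n with
  | zero => exact ⟨1, one_pos, fun δ' _ j hj => by omega⟩
  | succ n ih =>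
    obtain ⟨δ, hδ, h1⟩ := ih fun j hj => h j (by omega)
    obtain ⟨δ2, hδ2, h2⟩ := h n (by omega)
    refine ⟨min δ δ2, lt_min hδ hδ2, fun δ' hδ' j hj => ?_⟩
    rcases Nat.lt_succ_iff_lt_or_eq.1 hj with h3 | h3
    · exact h1 δ' (hδ'.trans (min_le_left _ _)) j h3
    · subst h3; exact h2 δ' (hδ'.trans (min_le_right _ _))

theorem exists_tower (Y : ConvexCarpet) :
    ∃ (Nb : ℕ → Set P2) (κ : ℕ → P2 → P2), Tower Y Nb κ := by
  classical
  -- the conditions at stage `n`
  let P : ℕ → (ℕ → Set P2 × (P2 → P2)) → Prop := fun n f =>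
    Collapse (Y.K n) (Y.c n) (f n).1 (f n).2 ∧ (f n).1 ⊆ interior Y.D ∧
    (∀ j < n, Disjoint (f n).1 (Y.K j)) ∧
    (∀ j < n, Disjoint (Y.K n) (f j).1 → Disjoint (f n).1 (f j).1) ∧
    (∀ m > n, ¬ Disjoint (Y.K m) (f n).1 → ∀ k ≤ n,
      Metric.diam (Psi (fun j => (f j).2) k (n + 1) '' Y.K m) ≤ (1 / 2) ^ n) ∧
    (∀ k ≤ n, Metric.diam (Psi (fun j => (f j).2) k n '' (f n).1) ≤
      Metric.diam (Psi (fun j => (f j).2) k n '' Y.K n) + (1 / 2) ^ n)
  have hmain : ∃ f : ℕ → Set P2 × (P2 → P2), ∀ n, P n f := by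
    refine TOWER_seq P ?_ ?_
    · intro n f g hfg hP
      have e1 : f n = g n := hfg n le_rfl
      have e2 : ∀ j < n, f j = g j := fun j hj => hfg j hj.le
      have e3 : ∀ k, Psi (fun j => (f j).2) k (n + 1) = Psi (fun j => (g j).2) k (n + 1) :=
        fun k => TOWER_Psi_congr k (n + 1) fun j hj => by rw [hfg j (by omega)]
      have e4 : ∀ k, Psi (fun j => (f j).2) k n = Psi (fun j => (g j).2) k n :=
        fun k => TOWER_Psi_congr k n fun j hj => by rw [hfg j (by omega)]
      obtain ⟨h1, h2, h3, h4, h5, h6⟩ := hP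
      refine ⟨e1 ▸ h1, e1 ▸ h2, fun j hj => e1 ▸ h3 j hj, fun j hj => ?_, ?_, ?_⟩
      · rw [← e1, ← e2 j hj]; exact h4 j hj
      · intro m hm hd k hk
        rw [← e3]
        exact h5 m hm (e1 ▸ hd) k hk
      · intro k hk
        rw [← e4, ← e1]
        exact h6 k hk
    · intro n f hist
      set κ : ℕ → P2 → P2 := fun j => (f j).2 with hκ
      have hcont : ∀ j < n, Continuous (κ j) := fun j hj => (hist j hj).1.cont
      -- (a)
      obtain ⟨δa, hδa, ha⟩ : ∃ δ > 0, ∀ δ' ≤ δ, Metric.cthickening δ' (Y.K n) ⊆ interior Y.D := by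
        obtain ⟨δ, hδ, h⟩ := (Y.compK n).exists_cthickening_subset_open isOpen_interior (Y.inD n)
        exact ⟨δ, hδ, fun δ' hδ' => (Metric.cthickening_mono hδ' _).trans h⟩
      -- (b)
      obtain ⟨δb, hδb, hb⟩ := TOWER_fin n
        (fun j δ' => Disjoint (Metric.cthickening δ' (Y.K n)) (Y.K j)) (fun j hj =>
          TOWER_disj (Y.compK n) (Y.compK j).isClosed (Y.disj n j (by omega)))
      -- (c)
      obtain ⟨δc, hδc, hc⟩ := TOWER_fin n
        (fun j δ' => Disjoint (Y.K n) (f j).1 → Disjoint (Metric.cthickening δ' (Y.K n)) (f j).1)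
        (fun j hj => by
          by_cases hd : Disjoint (Y.K n) (f j).1
          · obtain ⟨δ, hδ, h⟩ := TOWER_disj (Y.compK n) (hist j hj).1.compNb.isClosed hd
            exact ⟨δ, hδ, fun δ' hδ' _ => h δ' hδ'⟩
          · exact ⟨1, one_pos, fun _ _ h => absurd h hd⟩)
      -- (d) uniform continuity of the maps Psi κ k n
      obtain ⟨δd, hδd, hd⟩ := TOWER_fin (n + 1)
        (fun k δ' => ∀ x ∈ Y.D, ∀ y ∈ Y.D, dist x y ≤ δ' →
          dist (Psi κ k n x) (Psi κ k n y) ≤ (1 / 2) ^ (n + 1)) (fun k hk => by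
          have huc := Y.compD.uniformContinuousOn_of_continuous
            (TOWER_Psi_cont k n hcont).continuousOn
          obtain ⟨δ, hδ, h⟩ := Metric.uniformContinuousOn_iff.1 huc ((1 / 2) ^ (n + 1))
            (by positivity)
          refine ⟨δ / 2, by positivity, fun δ' hδ' x hx y hy hxy => (h x hx y hy ?_).le⟩
          linarith)
      have hfin : ∃ δ : ℝ, 0 < δ ∧ δ ≤ δa ∧ δ ≤ δb ∧ δ ≤ δc ∧ 2 * δ ≤ δd := by
        refine ⟨min (min δa δb) (min δc (δd / 2)), ?_, ?_, ?_, ?_, ?_⟩
        · exact lt_min (lt_min hδa hδb) (lt_min hδc (by linarith))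
        · exact (min_le_left _ _).trans (min_le_left _ _)
        · exact (min_le_left _ _).trans (min_le_right _ _)
        · exact (min_le_right _ _).trans (min_le_left _ _)
        · have := (min_le_right (min δa δb) (min δc (δd / 2))).trans (min_le_right _ _)
          linarith
      obtain ⟨δ, hδ, hδ1, hδ2, hδ3, hδ4⟩ := hfin
      obtain ⟨Nb, κn, hcol, hsub, hdi, hme⟩ := exists_collapse Y n hδ
      refine ⟨(Nb, κn), ?_⟩
      set g := Function.update f n (Nb, κn) with hg
      have hgn : g n = (Nb, κn) := by simp [hg]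
      have hgj : ∀ j < n, g j = f j := fun j hj => by
        rw [hg, Function.update_of_ne (by omega)]
      have hPsi : ∀ k, Psi (fun j => (g j).2) k n = Psi κ k n := fun k =>
        TOWER_Psi_congr k n fun j hj => by rw [hgj j hj]
      have hKD : ∀ m, Y.K m ⊆ Y.D := fun m => (Y.inD m).trans interior_subset
      have hNbD : Nb ⊆ interior Y.D := hsub.trans (ha δ hδ1)
      have hκD : ∀ x ∈ Y.D, κn x ∈ Y.D := by
        intro x hx
        by_cases hxN : x ∈ Nb
        · exact interior_subset (hNbD (hcol.mapsNb x hxN))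
        · rw [hcol.off x hxN]; exact hx
      have hbdd : ∀ S ⊆ Y.D, Bornology.IsBounded S := fun S hS => Y.compD.isBounded.subset hS
      refine ⟨?_, ?_, ?_, ?_, ?_, ?_⟩
      · rw [hgn]; exact hcol
      · rw [hgn]; exact hNbD
      · intro j hj
        rw [hgn]
        exact (hb δ hδ2 j hj).mono_left hsub
      · intro j hj hdj
        rw [hgn, hgj j hj] at *
        exact (hc δ hδ3 j hj hdj).mono_left hsub
      · intro m hm hdm k hk
        rw [hgn] at hdm
        have hdm' : ¬ Disjoint (Y.K m) Nb := hdm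
        have hb1 := hme m (by omega) hdm'
        have hb2 := hdi m (by omega)
        have himg : κn '' Y.K m ⊆ Y.D := by
          rintro _ ⟨x, hx, rfl⟩
          exact hκD x (hKD m hx)
        refine Metric.diam_le_of_forall_dist_le (by positivity) ?_
        rintro _ ⟨x, hx, rfl⟩ _ ⟨y, hy, rfl⟩
        rw [TOWER_Psi_succ hk, TOWER_Psi_succ hk, hPsi]
        have hgn2 : (g n).2 = κn := by rw [hgn]
        simp only [hgn2]
        have hxy : dist (κn x) (κn y) ≤ 2 * δ := by
          have := Metric.dist_le_diam_of_mem (hbdd _ himg) (Set.mem_image_of_mem κn hx)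
            (Set.mem_image_of_mem κn hy)
          linarith
        have := hd (2 * δ) hδ4 k (by omega) (κn x) (hκD x (hKD m hx)) (κn y) (hκD y (hKD m hy)) hxy
        refine this.trans ?_
        rw [pow_succ]
        have : (0 : ℝ) ≤ (1 / 2) ^ n := by positivity
        linarith
      · intro k hk
        rw [hPsi, hgn]
        have hcont' : Continuous (Psi κ k n) := TOWER_Psi_cont k n hcont
        have hKb : Bornology.IsBounded (Psi κ k n '' Y.K n) :=
          ((Y.compK n).image hcont').isBounded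
        have hnear : ∀ x ∈ Nb, ∃ x' ∈ Y.K n, dist (Psi κ k n x) (Psi κ k n x') ≤
            (1 / 2) ^ (n + 1) := by
          intro x hx
          have hx1 : x ∈ Metric.cthickening δ (Y.K n) := hsub hx
          rw [(Y.compK n).cthickening_eq_biUnion_closedBall hδ.le] at hx1
          simp only [Set.mem_iUnion, Metric.mem_closedBall] at hx1
          obtain ⟨x', hx', hxx'⟩ := hx1
          refine ⟨x', hx', hd (2 * δ) hδ4 k (by omega) x (interior_subset (hNbD hx)) x'
            (hKD n hx') (by linarith)⟩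
        refine Metric.diam_le_of_forall_dist_le (by positivity) ?_
        rintro _ ⟨x, hx, rfl⟩ _ ⟨y, hy, rfl⟩
        obtain ⟨x', hx', hxx'⟩ := hnear x hx
        obtain ⟨y', hy', hyy'⟩ := hnear y hy
        have h1 := Metric.dist_le_diam_of_mem hKb (Set.mem_image_of_mem (Psi κ k n) hx')
          (Set.mem_image_of_mem (Psi κ k n) hy')
        have h2 : dist (Psi κ k n x) (Psi κ k n y) ≤ dist (Psi κ k n x) (Psi κ k n x') +
            dist (Psi κ k n x') (Psi κ k n y') + dist (Psi κ k n y') (Psi κ k n y) :=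
          dist_triangle4 _ _ _ _
        rw [dist_comm (Psi κ k n y')] at h2
        have h3 : ((1 : ℝ) / 2) ^ n = (1 / 2) ^ (n + 1) + (1 / 2) ^ (n + 1) := by
          rw [pow_succ]; ring
        rw [h3]
        linarith
  obtain ⟨f, hf⟩ := hmain
  exact ⟨fun n => (f n).1, fun n => (f n).2,
    { col := fun n => (hf n).1
      inD := fun n => (hf n).2.1
      c1 := fun n => (hf n).2.2.1
      c2 := fun n => (hf n).2.2.2.1
      c3 := fun n => (hf n).2.2.2.2.1
      c4 := fun n => (hf n).2.2.2.2.2 }⟩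

end Pool.Agent.Carpet
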